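import Pool.Agent.H8.CZ.Inst

/-!
# Project CZ: the linear algebra of the `K₁`-part over a field of characteristic zero

`HasRelF k G n Q`: the relations that are proved with the functionals.  A relation `∑ [C_i, u_i, z_i] ∈ Q` over the field `k`
comes, for arbitrarily large `p`, from a subring `R` of `k` with an embedding `φ : R → ℤ_[p]`: the `u_i` are the images of units `v_i`
of `R[C_i]` and `∑ [C_i, v_i, z_i]` is in a subgroup `QR` of `HnK1 R G n` such that for every family `(C'_i, v'_i, z'_i)` with sum in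
`QR`, every `c` and every `f : H_{n+1}(Z_G(c)) → ℚ` with `p`-integral values, and every exponent `e` such that the `φ(v'_i)^e` are
`1` modulo `p ^ 4`, the number `∑_i ∑_{d ∈ C'_i} f (trc d z'_i) * (φ(v'_i)^(e p^l) - 1)_d` is divisible by `p ^ (2 l - K)` for all `l`
(`RelP`).

`linF` is proved as `linK1` of `H8/KL`: Artin induction for `K₁(k[F])` (`gen_hnk1` of `H8/CZ/Inst`), primitive parts over `R`
(`H8/CZ/Prim`), the relations of the primitive family, `elim_sep`, units of `R[C]` with vanishing `p`-adic logarithm are torsion.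
-/

set_option autoImplicit false

open Matrix

universe u v w

namespace Pool.Agent.H71.CZ

open Pool.Agent.H95.WH (K1 K1.mk K1.map K1.unit K1.map_unit FamSub FinSub)
open Pool.Agent.H71.FQ (HG HG.map)
open Pool.Agent.H16.FU (HnK1 sy1 syB1 syB1_apply hn1 hn1_sy1)
open Pool.Agent.H16.KN (PSepA trc)
open Pool.Agent.H8.CZ (hgR gen_hnk1 linR TrR)

/-- the relations of the functionals for one prime `p`, coefficients `R`, `φ : R → ℤ_[p]`, and a subgroup `QR` of `HnK1 R G n`,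
see the header -/
def RelP (p : ℕ) [hp : Fact p.Prime] (R : Type u) [CommRing R] (φ : R →+* ℤ_[p]) (G : Type v) [Group G] (n : ℕ)
    (QR : AddSubgroup (HnK1 R G n)) : Prop :=
  ∀ (r : ℕ) (C : Fin r → Subgroup G) (hC : ∀ i, Finite (C i)), (∀ i, IsCyclic (C i)) → (∀ i, ¬ p ∣ Nat.card (C i)) →
    ∀ [∀ i, Fintype (C i)] (v : ∀ i, (MonoidAlgebra R (C i))ˣ)
    (z : ∀ i, HG (Subgroup.centralizer (C i : Set G)) n),
    ∑ i, sy1 ⟨C i, hC i⟩ (K1.unit (v i)) (z i) ∈ QR →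
      ∀ c : G, IsOfFinOrder c → ¬ p ∣ orderOf c →
      ∀ f : HG (Subgroup.centralizer ({c} : Set G)) n →+ ℚ, (∀ y, ¬ p ∣ (f y).den) →
      ∀ e : ℕ, (∀ i, ∃ a : MonoidAlgebra ℤ_[p] (C i),
          (MonoidAlgebra.mapRingHom (C i) φ (v i : MonoidAlgebra R (C i))) ^ e =
            1 + (p : MonoidAlgebra ℤ_[p] (C i)) ^ 4 * a) →
      ∃ K : ℕ, ∀ l : ℕ, ∃ y : ℤ_[p],
        (p : ℚ_[p]) ^ K * (∑ i, ∑ d : C i, ((f (trc n c (C i) d (z i)) : ℚ) : ℚ_[p]) *
          ((((MonoidAlgebra.mapRingHom (C i) φ (v i : MonoidAlgebra R (C i))) ^ (e * p ^ l) -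
            1).coeff d : ℤ_[p]) : ℚ_[p])) = (p : ℚ_[p]) ^ (2 * l) * (y : ℚ_[p])

/-- the relations of the functionals, see the header -/
def HasRelF (k : Type u) [Field k] (G : Type v) [Group G] (n : ℕ) (Q : AddSubgroup (HnK1 k G n)) :
    Prop :=
  ∀ (N r : ℕ) (C : Fin r → Subgroup G) (hC : ∀ i, Finite (C i)), (∀ i, IsCyclic (C i)) →
    ∀ [∀ i, Fintype (C i)] (u : ∀ i, (MonoidAlgebra k (C i))ˣ)
    (z : ∀ i, HG (Subgroup.centralizer (C i : Set G)) n),
    ∑ i, sy1 ⟨C i, hC i⟩ (K1.unit (u i)) (z i) ∈ Q →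
    ∃ (p : ℕ) (_ : Fact p.Prime) (R : Subring k) (φ : R →+* ℤ_[p])
      (v : ∀ i, (MonoidAlgebra R (C i))ˣ) (QR : AddSubgroup (HnK1 R G n)),
      N < p ∧ Function.Injective φ ∧
      (∀ i, (MonoidAlgebra.mapRingHom (C i) R.subtype (v i : MonoidAlgebra R (C i))) = u i) ∧
      ∑ i, sy1 ⟨C i, hC i⟩ (K1.unit (v i)) (z i) ∈ QR ∧
      RelP p R φ G n QR

/-- **The linear algebra of the `K₁`-part over a field of characteristic zero.** -/
theorem linF {k : Type u} [Field k] [CharZero k] {G : Type v} [Group G] {n : ℕ}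
    (Q : AddSubgroup (HnK1 k G n)) (hQ : HasRelF k G n Q) (N : ℕ)
    (hsep : ∀ p : ℕ, p.Prime → N < p → ∀ C : Subgroup G, Finite C → IsCyclic C →
      PSepA p (HG (Subgroup.centralizer (C : Set G)) n))
    (w : HnK1 k G n) (hw : w ∈ Q) : ∃ m : ℤ, m ≠ 0 ∧ m • w = 0 := by
  classical
  obtain ⟨m, r, C, hC, hc, u, z, hm, h⟩ := gen_hnk1 w
  let _ : ∀ i, Fintype (C i) := fun i => Fintype.ofFinite _
  have h1 : ∑ i, sy1 ⟨C i, hC i⟩ (K1.unit (u i)) (z i) ∈ Q := by
    rw [← h]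
    exact AddSubgroup.nsmul_mem _ hw m
  obtain ⟨p, hp, R, φ, v, QR, hN, hφ, hv, hQR, hrel⟩ := hQ (N + ∑ i, Nat.card (C i)) r C hC hc u z h1
  have hcop : ∀ i, ¬ p ∣ Nat.card (C i) := by
    intro i hi
    have h2 := Nat.le_of_dvd Nat.card_pos hi
    have h3 : Nat.card (C i) ≤ ∑ i, Nat.card (C i) :=
      Finset.single_le_sum (f := fun i => Nat.card (C i)) (fun _ _ => Nat.zero_le _) (Finset.mem_univ i)
    omega
  let s : Fin r → TrR (hgR R G n) p := fun i => ⟨C i, hC i, hc i, hcop i, v i, z i⟩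
  have hval : ∀ i, (s i).val = sy1 ⟨C i, hC i⟩ (K1.unit (v i)) (z i) := fun i => rfl
  obtain ⟨m', hm', h'⟩ := linR (S := hgR R G n) hφ (fun x : HnK1 R G n => x ∈ QR)
    (fun m x hx => AddSubgroup.nsmul_mem _ hx m) hrel
    (fun C hf hc _ => hsep p hp.out (lt_of_le_of_lt (Nat.le_add_right _ _) hN) C hf hc) s (by
      rw [Finset.sum_congr rfl fun i _ => hval i]
      exact hQR)
  have h4 : m' • (∑ i, sy1 ⟨C i, hC i⟩ (K1.unit (v i)) (z i)) = (0 : HnK1 R G n) := h'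
  have h2 : hn1 R.subtype (∑ i, sy1 ⟨C i, hC i⟩ (K1.unit (v i)) (z i)) = m • w := by
    rw [h, map_sum]
    refine Finset.sum_congr rfl fun i _ => ?_
    rw [hn1_sy1, K1.map_unit]
    congr 2
    apply Units.ext
    exact hv i
  refine ⟨m' * m, mul_ne_zero hm' (by exact_mod_cast hm.ne'), ?_⟩
  rw [mul_smul, natCast_zsmul, ← h2, ← map_zsmul]
  rw [h4, map_zero]

end Pool.Agent.H71.CZ
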