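import Pool.Agent.H39.CZ.OrbR
import Pool.Agent.H71.CZ.LinF

/-!
# Project CZ: the relations of the functionals over `ℤ_[p]`, without a bound of the torsion

PROOF.  Cyclic groups are commutative; the `mapRingHom (RingHom.id _)` is the identity; `assembly1 .. (sy1 ..)` is `gasm1 ..` (`asm1_sy1`, as in
`H39/KL/RelC.lean`); `K1.unit (v ^ e) = e • K1.unit v`, so the relation holds for the units `v_i ^ e`; `ψ y = (f y : ℚ_[p])` is in `ℤ_[p]`
(`¬ p ∣ (f y).den`), an additive homomorphism; `relO'`; `K = p ^ a * K'` with `K'` a unit of `ℤ_[p]`.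
-/

set_option autoImplicit false

open Matrix

universe u v w

namespace Pool.Agent.H71.CZ

open Pool.Agent.H71.FQ Pool.Agent.H16.KN Pool.Agent.H16.FU
open Pool.Agent.H95.WH (K1 K1.unit FamSub FinSub)

private theorem RelVR_unit_pow {R : Type u} [Ring R] (x : Rˣ) (k : ℕ) : K1.unit (x ^ k) = k • K1.unit x := by
  induction k with
  | zero =>
    rw [pow_zero, zero_smul]
    have h := Pool.Agent.H95.WH.K1.unit_mul (1 : Rˣ) 1
    rw [mul_one] at h
    exact left_eq_add.1 h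
  | succ k ih => rw [pow_succ, Pool.Agent.H95.WH.K1.unit_mul, ih, succ_nsmul]

/-- **The relations of the functionals over `ℤ_[p]`.** -/
theorem relP_zp' {p : ℕ} [hp : Fact p.Prime] {G : Type v} [Group G] {n : ℕ} (QP : AddSubgroup (HnK1 ℤ_[p] G n))
    (hQP : ∀ x ∈ QP, ∃ M : ℤ, M ≠ 0 ∧ M • assembly1 ℤ_[p] n G x = 0) :
    RelP p ℤ_[p] (RingHom.id _) G n QP := by
  intro s C hC hcy hcop _ v z hsum c hc hpc f hf e he
  classical
  have hid : ∀ i, MonoidAlgebra.mapRingHom (C i) (RingHom.id ℤ_[p]) (v i : MonoidAlgebra ℤ_[p] (C i)) = v i := by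
    intro i
    apply MonoidAlgebra.ext
    refine Finsupp.ext fun d => ?_
    rw [MonoidAlgebra.coeff_mapRingHom, RingHom.id_apply]
  -- the relation
  obtain ⟨M, hM0, hM⟩ := hQP _ hsum
  have h1 : M • ∑ i, gasm1 ℤ_[p] n (C i).subtype (Subgroup.centralizer (C i : Set G)).subtype
      (cent_comm (C i)) (K1.unit (v i)) (z i) = 0 := by
    rw [map_sum] at hM
    rw [← hM]
    congr 1
    refine Finset.sum_congr rfl fun i _ => ?_
    rw [asm1_sy1]
  have h2 : M • ∑ i, gasm1 ℤ_[p] n (C i).subtype (Subgroup.centralizer (C i : Set G)).subtype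
      (cent_comm (C i)) (K1.unit (v i ^ e)) (z i) = 0 := by
    have h3 : ∀ i, gasm1 ℤ_[p] n (C i).subtype (Subgroup.centralizer (C i : Set G)).subtype
        (cent_comm (C i)) (K1.unit (v i ^ e)) (z i) = e • gasm1 ℤ_[p] n (C i).subtype (Subgroup.centralizer (C i : Set G)).subtype
        (cent_comm (C i)) (K1.unit (v i)) (z i) := by
      intro i
      rw [RelVR_unit_pow, map_nsmul]
      rfl
    rw [Finset.sum_congr rfl fun i _ => h3 i, ← Finset.smul_sum, smul_comm, h1, smul_zero]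
  -- the functional
  obtain ⟨ψ, hψ⟩ : ∃ ψ : HG (Subgroup.centralizer ({c} : Set G)) n →+ ℤ_[p], ∀ y, ((ψ y : ℤ_[p]) : ℚ_[p]) = ((f y : ℚ) : ℚ_[p]) := by
    refine ⟨AddMonoidHom.mk' (fun y => (⟨((f y : ℚ) : ℚ_[p]), Padic.norm_rat_le_one (hf y)⟩ : ℤ_[p])) fun a b => ?_, fun y => rfl⟩
    apply Subtype.ext
    show ((f (a + b) : ℚ) : ℚ_[p]) = ((f a : ℚ) : ℚ_[p]) + ((f b : ℚ) : ℚ_[p])
    rw [map_add, Rat.cast_add]
  have hcomm : ∀ i, ∀ a b : C i, a * b = b * a := by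
    intro i a b
    have := hcy i
    exact (IsCyclic.commGroup (α := C i)).mul_comm a b
  obtain ⟨K, hK0, hK⟩ := Pool.Agent.H39.CZ.relO' hc hpc ψ C hcomm hcop (fun i => v i ^ e) (fun i => by
    obtain ⟨a, ha⟩ := he i
    refine ⟨a, ?_⟩
    rw [← ha, hid, Units.val_pow_eq_pow_val]) z M hM0 h2
  obtain ⟨a, K0, hK1, eK⟩ := Nat.exists_eq_pow_mul_and_not_dvd hK0 p hp.out.ne_one
  refine ⟨a, fun l => ?_⟩
  obtain ⟨t, ht⟩ := hK l
  have hu : IsUnit (K0 : ℤ_[p]) := by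
    rw [PadicInt.isUnit_iff]
    refine le_antisymm (PadicInt.norm_le_one _) (not_lt.1 fun h => hK1 ?_)
    exact_mod_cast (PadicInt.norm_int_lt_one_iff_dvd (K0 : ℤ)).1 (by exact_mod_cast h)
  obtain ⟨w, hw⟩ := hu
  set S : ℤ_[p] := ∑ i, ∑ d : C i, ψ (trc n c (C i) d (z i)) *
        (((v i ^ e : (MonoidAlgebra ℤ_[p] (C i))ˣ) : MonoidAlgebra ℤ_[p] (C i)) ^ p ^ l - 1).coeff d with hS
  have h4 : (p : ℤ_[p]) ^ a * S = (p : ℤ_[p]) ^ (2 * l) * ((w⁻¹ : ℤ_[p]ˣ) * t) := by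
    have h5 : (K : ℤ_[p]) = (p : ℤ_[p]) ^ a * w := by
      rw [hw, eK]
      push_cast
      ring
    rw [h5] at ht
    have h6 : ((w⁻¹ : ℤ_[p]ˣ) : ℤ_[p]) * w = 1 := Units.inv_mul w
    linear_combination ((w⁻¹ : ℤ_[p]ˣ) : ℤ_[p]) * ht - (p : ℤ_[p]) ^ a * S * h6
  refine ⟨(w⁻¹ : ℤ_[p]ˣ) * t, ?_⟩
  have h5 : (∑ i, ∑ d : C i, ((f (trc n c (C i) d (z i)) : ℚ) : ℚ_[p]) *
          ((((MonoidAlgebra.mapRingHom (C i) (RingHom.id ℤ_[p]) (v i : MonoidAlgebra ℤ_[p] (C i))) ^ (e * p ^ l) -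
            1).coeff d : ℤ_[p]) : ℚ_[p])) = ((S : ℤ_[p]) : ℚ_[p]) := by
    have hcoe : ∀ x : ℤ_[p], (x : ℚ_[p]) = PadicInt.Coe.ringHom x := fun _ => rfl
    rw [hcoe S, hS, map_sum]
    refine Finset.sum_congr rfl fun i _ => ?_
    rw [map_sum]
    refine Finset.sum_congr rfl fun d _ => ?_
    rw [map_mul, ← hcoe, ← hcoe, hψ, hid, pow_mul, Units.val_pow_eq_pow_val]
  rw [h5]
  have h6 := congrArg (fun x : ℤ_[p] => (x : ℚ_[p])) h4
  push_cast at h6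
  push_cast
  exact h6

end Pool.Agent.H71.CZ
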