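import Pool.Agent.H71.CZ.St0
import Pool.Agent.H71.FQ.StJ
import Pool.Agent.H71.FQ.StK
import Pool.Agent.H71.FU0.Field0

/-!
# Fields of characteristic zero: comparison of the definitions
-/

set_option autoImplicit false

universe u v w

namespace Pool.Agent.H71.CZS

open Pool.Agent.H71.FQS (KQ HnK0 IsAssembly RatInj Cent)
open Pool.Agent.H71.FQ1 (HnK1 IsAssembly1)
open Pool.Agent.H16.KN (PSepA)
open Pool.Agent.H16.FU (assembly01)

/-- the condition on the subgroup `G'` -/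
def Sub (G : Type v) [Group G] (n : ℕ) : Prop :=
  ∀ C : Subgroup G, Finite C → IsCyclic C → ∃ N : ℕ, ∀ p : ℕ, p.Prime → N < p →
    PSepA p (FQ.HG (Subgroup.centralizer (C : Set G)) n)

theorem sub_of {G : Type v} [Group G] {n : ℕ}
    (h : ∀ C : Subgroup G, Finite C → IsCyclic C → ∃ N : ℕ, ∀ p : ℕ, p.Prime → N < p →
      FQ3.LSep p (Cent C) (n + 1)) : Sub G n := by
  intro C hf hc
  obtain ⟨N, h⟩ := h C hf hc
  exact ⟨N, fun p hp hN => FQ3.psepA_of (h p hp hN)⟩

/-- the case `n = 0` -/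
theorem zero_case (k : Type u) [Field k] [CharZero k] (G : Type v) [Group G] :
    RatInj ((FQS.asmS k G 0).coprod (FQ1.asm1 k G 0)) := by
  refine FQ1.ratInj_coprod_zero (FU0.ratInj00_of_full (DB.full_injective k G ?_))
  intro p hp hk
  have h1 : p = 0 := CharP.eq k hk (CharP.ofCharZero k)
  exact absurd h1 hp.out.ne_zero

/-- **The main theorem, from the case of the subgroups.** -/
theorem main_of (k : Type u) [Field k] [CharZero k] (G : Type v) [Group G] (n : ℕ)
    (hmain : ∀ m : ℕ, (∀ S : Finset G, ∃ G' : Subgroup G, (∀ g ∈ S, g ∈ G') ∧ Sub G' m) →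
      FQ.RatInj (assembly01 k m G))
    (hG : LocSep G n) :
    ∃ (α₀ : HnK0 k G n →+ KQ (MonoidAlgebra k G) n)
      (α₁ : HnK1 k G n →+ KQ (MonoidAlgebra k G) n),
      IsAssembly α₀ ∧ IsAssembly1 α₁ ∧ RatInj (α₀.coprod α₁) := by
  refine ⟨FQS.asmS k G n, FQ1.asm1 k G n, FQS.asmS_isAssembly, FQ1.asm1_isAssembly1, ?_⟩
  rcases n with _ | n
  · exact zero_case k G
  · refine FQ1.ratInj_coprod_succ (hmain n fun S => ?_)
    obtain ⟨G', h1, h2⟩ := hG S
    exact ⟨G', h1, sub_of h2⟩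

end Pool.Agent.H71.CZS
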