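import Pool.Agent.H71.CZ.RelC
import Pool.Agent.H39.CZ.OrbA

/-!
# Project CZ: the orbit of `c` under the `p`-th power map

`B = ℤ_[p]`, `p` prime to the orders of the `C i` and of `c`.  `ψ : H_{n+1}(Z_G(c)) → ℤ_[p]`,
`L c ψ l = ∑ i, ∑ d, ψ (trc n c (C i) d (z i)) * (u_i ^ (p ^ l) - 1)_d`.

PROOF of `relO`.
(A) `relC` for the element `c ^ p` and a cocycle of `ψ'` (`exists_cocycle` of `FQ/Uct`; `Z(c ^ p) = Z(c)`), substitute `d = g ^ p` in the second sum
(`g ↦ g ^ p` is a bijection of `C i`; `trc n (c ^ p) C (g ^ p) z` is the image of `trc n c C g z` under `Z(c) ≤ Z(c ^ p)`, and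
`c ^ p ~ g ^ p ↔ c ~ g`; the terms of `1` cancel): `L (c ^ p) ψ' (l + 1) = L c (ψ' ∘ incl) l` modulo `p ^ (2 l) / K`.
(B) `pow_congr`: `u ^ (p ^ (l + 1)) - 1 = p (u ^ (p ^ l) - 1)` modulo `p ^ (2 l)`, so `L c ψ (l + 1) = p L c ψ l` modulo `p ^ (2 l)`.
(C) so `p L (c ^ p) ψ' l = L c (ψ' ∘ incl) l` modulo `p ^ (2 l) / K`; `s ≥ 1` with `c ^ (p ^ s) = c`; all `Z(c ^ (p ^ j))` are equal to `Z(c)`: iterate,
`(p ^ s - 1) L c ψ l = 0` modulo `p ^ (2 l) / K'`.  (To avoid dependent types use `ψ` on `Z(c₀)` and the elements `c'` with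
`Z(c') ≤ Z(c₀)`, `ψ ∘ HG.map (Subgroup.inclusion _)`.)
-/

set_option autoImplicit false

open Matrix

universe u v w

namespace Pool.Agent.H71.CZ

open Pool.Agent.H71.FQ Pool.Agent.H16.KN Pool.Agent.H16.FU
open Pool.Agent.H95.WH (K1 K1.unit)

section

variable {p : ℕ} [hp : Fact p.Prime] {G : Type v} [Group G] {n : ℕ}

/-- the binomial theorem -/
theorem pow_congr {C : Type w} [Group C] (u : MonoidAlgebra ℤ_[p] C)
    (hu : ∃ a : MonoidAlgebra ℤ_[p] C, u = 1 + (p : MonoidAlgebra ℤ_[p] C) ^ 4 * a) (l : ℕ)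
    (d : C) : ∃ y : ℤ_[p], (u ^ p ^ (l + 1) - 1).coeff d =
      (p : ℤ_[p]) * (u ^ p ^ l - 1).coeff d + (p : ℤ_[p]) ^ (2 * l) * y := by
  obtain ⟨a, ha⟩ := hu
  have hns : ∀ (k : ℕ) (x : MonoidAlgebra ℤ_[p] C), (k • x).coeff d = (k : ℤ_[p]) * x.coeff d := by
    intro k x
    rw [← Nat.cast_smul_eq_nsmul ℤ_[p], MonoidAlgebra.coeff_smul, Finsupp.smul_apply, smul_eq_mul]
  obtain ⟨y, hy⟩ := Pool.Agent.H39.CZ.pow_binom (p := p) (k := 4) (by norm_num) l u a (by
    rw [ha, nsmul_eq_mul]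
    push_cast
    rfl)
  refine ⟨y.coeff d, ?_⟩
  have h1 := congrArg (fun x : MonoidAlgebra ℤ_[p] C => x.coeff d) hy
  simp only [MonoidAlgebra.coeff_sub, Finsupp.sub_apply, hns] at h1 ⊢
  push_cast at h1
  linear_combination h1

/-- the transport for an element `c'` with `c' ^ k = c` -/
private theorem trc_pow {c c' : G} {k k' : ℕ} (hc : c' ^ k = c) (hc' : c ^ k' = c') {C : Subgroup G}
    (d : C) (hd : (d ^ k) ^ k' = d)
    (hle : Subgroup.centralizer ({c'} : Set G) ≤ Subgroup.centralizer ({c} : Set G))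
    (z : HG (Subgroup.centralizer (C : Set G)) n) :
    HG.map n (Subgroup.inclusion hle) (trc n c' C d z) = trc n c C (d ^ k) z := by
  by_cases h : IsConj c' (d : G)
  · obtain ⟨x, hx⟩ := isConj_iff.1 h
    have hm' : x * c' * x⁻¹ ∈ C := by
      rw [hx]
      exact d.2
    have hx' : x * c * x⁻¹ = ((d ^ k : C) : G) := by
      rw [Subgroup.coe_pow, ← hx, ← hc, conj_pow]
    have hm : x * c * x⁻¹ ∈ C := by
      rw [hx']
      exact (d ^ k).2
    rw [trc_eq x hx hm', trc_eq x hx' hm, HG.map_map]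
    rfl
  · have h' : ¬ IsConj c ((d ^ k : C) : G) := by
      intro h1
      apply h
      obtain ⟨x, hx⟩ := isConj_iff.1 h1
      refine isConj_iff.2 ⟨x, ?_⟩
      rw [← hc', ← conj_pow, hx, ← Subgroup.coe_pow, hd]
    rw [trc_of_not h, trc_of_not h', AddMonoidHom.zero_apply, AddMonoidHom.zero_apply, map_zero]

/-- the two sums -/
private theorem sum_two {C : Type w} [Group C] [Fintype C] (dec : ∀ d g : C, Decidable (g ^ p = d))
    (F : C → ℤ_[p]) (v : MonoidAlgebra ℤ_[p] C) :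
    ∑ d : C, F d * ((v ^ p).coeff d - ∑ g : C with g ^ p = d, v.coeff g) =
      ∑ d : C, F d * (v ^ p - 1).coeff d - ∑ d : C, F (d ^ p) * (v - 1).coeff d := by
  have h1 : ∀ H : C → ℤ_[p], ∑ d : C, H d * (1 : MonoidAlgebra ℤ_[p] C).coeff d = H 1 := by
    intro H
    rw [Finset.sum_eq_single 1]
    · rw [MonoidAlgebra.one_def, MonoidAlgebra.coeff_single, Finsupp.single_eq_same, mul_one]
    · intro d _ hd
      rw [MonoidAlgebra.one_def, MonoidAlgebra.coeff_single, Finsupp.single_eq_of_ne hd, mul_zero]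
    · intro h
      exact absurd (Finset.mem_univ _) h
  have h2 : ∑ d : C, F d * ∑ g : C with g ^ p = d, v.coeff g = ∑ g : C, F (g ^ p) * v.coeff g := by
    simp only [Finset.sum_filter, Finset.mul_sum]
    rw [Finset.sum_comm]
    refine Finset.sum_congr rfl fun g _ => ?_
    rw [Finset.sum_eq_single (g ^ p)]
    · rw [if_pos rfl]
    · intro d _ hd
      rw [if_neg hd.symm, mul_zero]
    · intro h
      exact absurd (Finset.mem_univ _) h
  simp only [mul_sub, MonoidAlgebra.coeff_sub, Finsupp.sub_apply, Finset.sum_sub_distrib]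
  rw [h1, h1 fun d => F (d ^ p), h2, one_pow]
  ring

/-- **The relation of the logarithms.** -/
theorem relO (r : ℕ)
    (hG : ∀ g : G, (∃ j : ℕ, g ^ p ^ j = 1) → g ^ p ^ r = 1) {c : G} (hc : IsOfFinOrder c)
    (hpc : ¬ p ∣ orderOf c) (ψ : HG (Subgroup.centralizer ({c} : Set G)) n →+ ℤ_[p])
    {ι : Type} [Fintype ι] (C : ι → Subgroup G) [∀ i, Fintype (C i)]
    (hC : ∀ i, ∀ a b : C i, a * b = b * a) (hpC : ∀ i, ¬ p ∣ Nat.card (C i))
    (u : ∀ i, (MonoidAlgebra ℤ_[p] (C i))ˣ)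
    (hu : ∀ i, ∃ a : MonoidAlgebra ℤ_[p] (C i),
      (u i : MonoidAlgebra ℤ_[p] (C i)) = 1 + (p : MonoidAlgebra ℤ_[p] (C i)) ^ 4 * a)
    (z : ∀ i, HG (Subgroup.centralizer (C i : Set G)) n) (M : ℤ) (hM : M ≠ 0)
    (h : M • ∑ i, gasm1 ℤ_[p] n (C i).subtype (Subgroup.centralizer (C i : Set G)).subtype
        (cent_comm (C i)) (K1.unit (u i)) (z i) = 0) :
    ∃ K : ℕ, K ≠ 0 ∧ ∀ l : ℕ, (p : ℤ_[p]) ^ (2 * l) ∣ (K : ℤ_[p]) *
      ∑ i, ∑ d : C i, ψ (trc n c (C i) d (z i)) *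
        ((u i : MonoidAlgebra ℤ_[p] (C i)) ^ p ^ l - 1).coeff d := by
  classical
  obtain ⟨φ, hφ, hev⟩ := exists_cocycle p ψ
  obtain ⟨N, hN⟩ : ∃ N, N = orderOf c * ∏ i, Nat.card (C i) := ⟨_, rfl⟩
  have hcop : Nat.Coprime p N := by
    rw [hN]
    refine Nat.Coprime.mul_right ((Nat.Prime.coprime_iff_not_dvd hp.out).2 hpc) ?_
    exact Nat.Coprime.prod_right fun i _ => (Nat.Prime.coprime_iff_not_dvd hp.out).2 (hpC i)
  have hN0 : 0 < N := by
    rw [hN]
    exact Nat.mul_pos hc.orderOf_pos (Finset.prod_pos fun i _ => Nat.card_pos)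
  obtain ⟨s, hs⟩ : ∃ s, s = Nat.totient N := ⟨_, rfl⟩
  have hs0 : s ≠ 0 := by
    rw [hs]
    exact (Nat.totient_pos.2 hN0).ne'
  have hmod : p ^ s ≡ 1 [MOD N] := by
    rw [hs]
    exact Nat.ModEq.pow_totient hcop
  have hfixc : ∀ k, k ≡ 1 [MOD N] → c ^ k = c := by
    intro k hk
    have h1 : c ^ k = c ^ 1 := pow_eq_pow_iff_modEq.2 (hk.of_dvd (by rw [hN]; exact Dvd.intro _ rfl))
    rwa [pow_one] at h1
  have hfixC : ∀ i (d : C i) k, k ≡ 1 [MOD N] → d ^ k = d := by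
    intro i d k hk
    have h1 : d ^ k = d ^ 1 := by
      refine pow_eq_pow_iff_modEq.2 (hk.of_dvd ((orderOf_dvd_natCard d).trans ?_))
      rw [hN]
      exact (Finset.dvd_prod_of_mem (fun i => Nat.card (C i)) (Finset.mem_univ i)).mul_left _
    rwa [pow_one] at h1
  let L : ℕ → ℕ → ℤ_[p] := fun j l => ∑ i, ∑ d : C i, ψ (trc n c (C i) (d ^ p ^ j) (z i)) *
    ((u i : MonoidAlgebra ℤ_[p] (C i)) ^ p ^ l - 1).coeff d
  have key := Pool.Agent.H39.CZ.orb_fix p L ?_ ?_ s hp.out.two_le hs0 ?_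
  · obtain ⟨K, hK0, hK⟩ := key
    refine ⟨K, hK0, fun l => ?_⟩
    have h1 := hK l
    have h2 : L 0 l = ∑ i, ∑ d : C i, ψ (trc n c (C i) d (z i)) *
        ((u i : MonoidAlgebra ℤ_[p] (C i)) ^ p ^ l - 1).coeff d := by
      refine Finset.sum_congr rfl fun i _ => Finset.sum_congr rfl fun d _ => ?_
      rw [pow_zero, pow_one]
    rwa [h2] at h1
  · -- the relation for `c ^ (a ^ j)`
    intro j
    obtain ⟨a, ha⟩ : ∃ a, a = p ^ ((s - 1) * j) := ⟨_, rfl⟩
    have hmodj : p ^ j * a ≡ 1 [MOD N] := by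
      have e1 : p ^ j * a = (p ^ s) ^ j := by
        rw [ha, ← pow_add, ← pow_mul]
        congr 1
        have : s = (s - 1) + 1 := by omega
        nth_rewrite 2 [this]
        ring
      rw [e1]
      have h1 := hmod.pow j
      rwa [one_pow] at h1
    have hc' : (c ^ a) ^ p ^ j = c := by
      rw [← pow_mul, mul_comm]
      exact hfixc _ hmodj
    have hle : Subgroup.centralizer ({c ^ a} : Set G) ≤ Subgroup.centralizer ({c} : Set G) := by
      intro g hg
      rw [Subgroup.mem_centralizer_iff] at hg ⊢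
      intro y hy
      rw [Set.mem_singleton_iff.1 hy]
      have h1 : Commute (c ^ a) g := hg _ rfl
      have h2 := h1.pow_left (p ^ j)
      rw [hc'] at h2
      exact h2
    obtain ⟨K, hK0, hK⟩ := relC (goodB_padic (p := p)) r hG (hc.pow (n := a))
      (hφ.comp (Subgroup.inclusion hle)) C hC u hu z M hM h
    refine ⟨K, hK0, fun l => ?_⟩
    have h1 := hK l
    have h2 : ∀ i, ∀ d : C i, HG.ev (hφ.comp (Subgroup.inclusion hle))
        (trc n (c ^ a) (C i) d (z i)) = ψ (trc n c (C i) (d ^ p ^ j) (z i)) := by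
      intro i d
      rw [← HG.ev_map hφ (Subgroup.inclusion hle), trc_pow hc' rfl d (by rw [← pow_mul]; exact hfixC i d _ hmodj) hle, hev]
    have h3 := fun i => sum_two (p := p) (fun d g : C i => Classical.propDecidable _)
      (fun d : C i => ψ (trc n c (C i) (d ^ p ^ j) (z i)))
      ((u i : MonoidAlgebra ℤ_[p] (C i)) ^ p ^ l)
    have h4 : ∑ i, ∑ d : C i, HG.ev (hφ.comp (Subgroup.inclusion hle))
        (trc n (c ^ a) (C i) d (z i)) * ((((u i : MonoidAlgebra ℤ_[p] (C i)) ^ p ^ l) ^ p).coeff d -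
          ∑ g ∈ @Finset.filter (C i) (fun g => g ^ p = d) (fun g => Classical.propDecidable _)
            Finset.univ, ((u i : MonoidAlgebra ℤ_[p] (C i)) ^ p ^ l).coeff g) =
        L j (l + 1) - L (j + 1) l := by
      show _ = ∑ i, ∑ d : C i, _ - ∑ i, ∑ d : C i, _
      rw [← Finset.sum_sub_distrib]
      refine Finset.sum_congr rfl fun i _ => ?_
      rw [Finset.sum_congr rfl fun d _ => by rw [h2 i d], h3 i, ← pow_mul, ← pow_succ]
      congr 1
      refine Finset.sum_congr rfl fun d _ => ?_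
      rw [← pow_mul, ← pow_succ']
    rw [← h4]
    convert h1
  · intro j l
    choose y hy using fun i (d : C i) => pow_congr (u i : MonoidAlgebra ℤ_[p] (C i)) (hu i) l d
    have e : L j (l + 1) - (p : ℤ_[p]) * L j l = (p : ℤ_[p]) ^ (2 * l) *
        ∑ i, ∑ d : C i, ψ (trc n c (C i) (d ^ p ^ j) (z i)) * y i d := by
      show ∑ i, ∑ d : C i, _ - (p : ℤ_[p]) * ∑ i, ∑ d : C i, _ = _
      simp only [Finset.mul_sum, ← Finset.sum_sub_distrib]
      refine Finset.sum_congr rfl fun i _ => Finset.sum_congr rfl fun d _ => ?_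
      rw [hy i d]
      ring
    rw [e]
    exact Dvd.intro _ rfl
  · intro l
    refine Finset.sum_congr rfl fun i _ => Finset.sum_congr rfl fun d _ => ?_
    rw [hfixC i d _ hmod, pow_zero, pow_one]

end

end Pool.Agent.H71.CZ
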