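import Pool.Agent.H95.WH.ArtKR
import Pool.Agent.H16.FU.Defs1
import Pool.Agent.H71.FQ.FRingA

/-!
# Project CZ: Artin induction with traces

PROOF.  The relation of `art_rel` (`ArtKR.lean`): `m • (|F| • x + ∑_i push (twR (F/D_i)) x) = m • ∑_j push (twR (F/E_j)) x`, and
`push (twR (F/D)) x = K1.map (incl D) (push (lamR D) x)`.  `lamR D` is a ring homomorphism `B[F] → Mat_{F/D}(B[D])`, so for an
invertible matrix `U` the restriction is the matrix `V = lamR D (U)` with index set `(F/D) × Fin N` (reindexed), and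
`V ^ l - 1` is the restriction of `U ^ l - 1`.  Trace: for `y : B[F]` the trace of the coefficient at `d ∈ D` of `lamR D y` is the sum over
the cosets `g D` of the coefficient of `y` at `g d g⁻¹`; so `∑_{d ∈ D} w d tr(..)_d = ∑_{x : F} w x (number of g D with g⁻¹ x g ∈ D) y_x`, and
`|F| + ∑_i χ_{F/D_i} = ∑_j χ_{F/E_j}` (characters of isomorphic rational representations: the matrices `a`, `b` of
`exists_artin_rel`).  `1 + q A` is mapped to `1 + q A'`.
-/

set_option autoImplicit false

open Matrix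

universe u v w

namespace Pool.Agent.H71.CZ

open Pool.Agent.H95.WH (K1 K1.mk K1.map K1.unit)
open Pool.Agent.H71.FQ (GLm cof)

section Fix

open scoped Classical

open Pool.Agent.H95.WH (K1.push InterP exists_artin_rel push_tw_sigmaR push_tw_topR inter
  twR_inter powMod_of_finite)
open Pool.Agent.H71.FJ (lamR twR incl)

variable {F : Type v} [Group F]

/-- the number of fixed points -/
private noncomputable def fixN (X : Type w) [Fintype X] [DecidableEq X] [MulAction F X] (h : F) :
    ℕ :=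
  (Finset.univ.filter fun x : X => x = h • x).card

private noncomputable def pZ (X : Type w) [DecidableEq X] [MulAction F X] (h : F) : Matrix X X ℤ :=
  Matrix.of fun x y => if x = h • y then 1 else 0

private theorem pZ_apply (X : Type w) [DecidableEq X] [MulAction F X] (h : F) (x y : X) :
    pZ X h x y = if x = h • y then 1 else 0 := rfl

private theorem pZ_trace (X : Type w) [Fintype X] [DecidableEq X] [MulAction F X] (h : F) :
    (pZ X h).trace = (fixN X h : ℤ) := by
  rw [Matrix.trace, fixN, Finset.card_filter, Nat.cast_sum]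
  refine Finset.sum_congr rfl fun x _ => ?_
  rw [Matrix.diag_apply, pZ_apply]
  split_ifs <;> simp

private theorem pZ_inter {X Y : Type v} [Fintype X] [Fintype Y] [DecidableEq X] [DecidableEq Y]
    [MulAction F X] [MulAction F Y] (a : Matrix X Y ℤ)
    (ha : ∀ (h : F) x y, a (h • x) (h • y) = a x y) (h : F) :
    pZ X h * a = a * pZ Y h := by
  ext x y
  rw [Matrix.mul_apply, Matrix.mul_apply, Finset.sum_eq_single (h⁻¹ • x),
    Finset.sum_eq_single (h • y)]
  · rw [pZ_apply, pZ_apply, if_pos rfl, if_pos (smul_inv_smul h x).symm,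
      ← ha h (h⁻¹ • x) y, smul_inv_smul, one_mul, mul_one]
  · intro z _ hz
    rw [pZ_apply, if_neg hz, mul_zero]
  · intro hz
    exact absurd (Finset.mem_univ _) hz
  · intro z _ hz
    rw [pZ_apply, if_neg, zero_mul]
    intro e
    exact hz (by rw [e, inv_smul_smul])
  · intro hz
    exact absurd (Finset.mem_univ _) hz

private theorem fixN_eq {X Y : Type v} [Fintype X] [Fintype Y] [DecidableEq X] [DecidableEq Y]
    [MulAction F X] [MulAction F Y]
    (n : ℕ) (hn : n ≠ 0) (a : Matrix X Y ℤ) (b : Matrix Y X ℤ)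
    (hab : a * b = (n : ℤ) • (1 : Matrix X X ℤ)) (hba : b * a = (n : ℤ) • (1 : Matrix Y Y ℤ))
    (ha : ∀ (h : F) x y, a (h • x) (h • y) = a x y) (h : F) : fixN X h = fixN Y h := by
  have h1 : (pZ X h * (a * b)).trace = (n : ℤ) * (pZ X h).trace := by
    rw [hab, Matrix.mul_smul, Matrix.mul_one, Matrix.trace_smul, smul_eq_mul]
  have h2 : (pZ X h * (a * b)).trace = (n : ℤ) * (pZ Y h).trace := by
    rw [← Matrix.mul_assoc, pZ_inter a ha, Matrix.mul_assoc, Matrix.trace_mul_comm,
      Matrix.mul_assoc, hba, Matrix.mul_smul, Matrix.mul_one, Matrix.trace_smul, smul_eq_mul]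
  rw [h1, pZ_trace, pZ_trace] at h2
  exact_mod_cast mul_left_cancel₀ (Nat.cast_ne_zero.2 hn) h2

private theorem fixN_sigma {I : Type} [Fintype I] (D : I → Subgroup F) [∀ i, Fintype (F ⧸ D i)]
    [Fintype (Σ i, F ⧸ D i)] [DecidableEq (Σ i, F ⧸ D i)] (h : F) :
    fixN (Σ i, F ⧸ D i) h = ∑ i, fixN (F ⧸ D i) h := by
  rw [fixN, Finset.card_filter]
  have e0 : ∀ f : (Σ i, F ⧸ D i) → ℕ, ∑ x, f x = ∑ i, ∑ r : F ⧸ D i, f ⟨i, r⟩ := by
    intro f
    have h1 := Fintype.sum_sigma f
    rw [← h1]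
    exact Finset.sum_congr (by ext; simp) (fun _ _ => rfl)
  rw [e0]
  refine Finset.sum_congr rfl fun i _ => ?_
  rw [fixN, Finset.card_filter]
  refine Finset.sum_congr rfl fun x _ => ?_
  have h3 : ((⟨i, x⟩ : Σ i, F ⧸ D i) = h • (⟨i, x⟩ : Σ i, F ⧸ D i)) ↔ x = h • x := by
    constructor
    · intro e
      have e2 : (⟨i, x⟩ : Σ i, F ⧸ D i) = ⟨i, h • x⟩ := e
      exact eq_of_heq (Sigma.mk.inj e2).2
    · intro e
      change (⟨i, x⟩ : Σ i, F ⧸ D i) = ⟨i, h • x⟩
      rw [← e]
  by_cases h4 : x = h • x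
  · rw [if_pos h4, if_pos (h3.2 h4)]
  · rw [if_neg h4, if_neg (fun h5 => h4 (h3.1 h5))]

private theorem fixN_top [Fintype (F ⧸ (⊤ : Subgroup F))] (h : F) :
    fixN (F ⧸ (⊤ : Subgroup F)) h = 1 := by
  have hsub : Subsingleton (F ⧸ (⊤ : Subgroup F)) := QuotientGroup.subsingleton_quotient_top
  rw [fixN, Finset.card_eq_one]
  refine ⟨((1 : F) : F ⧸ (⊤ : Subgroup F)), ?_⟩
  ext x
  simp only [Finset.mem_filter, Finset.mem_univ, true_and, Finset.mem_singleton]
  exact ⟨fun _ => Subsingleton.elim _ _, fun _ => Subsingleton.elim _ _⟩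

variable (R : Type u) [CommRing R]

private theorem art_rel' [Finite F] (hint : InterP R F)
    (x : K1 (MonoidAlgebra R F)) :
    ∃ (I J : Type) (_ : Fintype I) (_ : Fintype J) (D : I → Subgroup F) (E : J → Subgroup F)
      (_ : ∀ i, Fintype (F ⧸ D i)) (_ : ∀ j, Fintype (F ⧸ E j)) (m : ℕ),
      (∀ i, IsCyclic (D i)) ∧ (∀ j, IsCyclic (E j)) ∧ 0 < m ∧
      m • (Nat.card F • x + ∑ i : I, K1.push (twR R (F ⧸ D i)) x) =
        m • ∑ j : J, K1.push (twR R (F ⧸ E j)) x ∧
      ∀ h : F, Nat.card F + ∑ i : I, fixN (F ⧸ D i) h = ∑ j : J, fixN (F ⧸ E j) h := by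
  obtain ⟨I, J, hI, hJ, D, E, hf1, hf2, a, b, n, hD, hE, hn, hab, hba, ha⟩ := exists_artin_rel F
  have hfD : ∀ H : Subgroup F, Fintype (F ⧸ H) := fun H => Fintype.ofFinite _
  obtain ⟨m, hm, key⟩ := hint n hn a b hab hba ha x
  refine ⟨I, J, hI, hJ, D, E, fun _ => hfD _, fun _ => hfD _, m, hD, hE, hm, ?_, ?_⟩
  · rw [push_tw_sigmaR R (fun i : Fin (Nat.card F) ⊕ I => (Sum.elim (fun _ => ⊤) D i : Subgroup F)),
      push_tw_sigmaR R E, Fintype.sum_sum_type] at key
    have h1 : ∑ i : Fin (Nat.card F), K1.push (twR R (F ⧸ (⊤ : Subgroup F))) x =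
        Nat.card F • x := by
      rw [Finset.sum_const, Finset.card_univ, Fintype.card_fin, push_tw_topR]
    rw [← h1]
    exact key
  · intro h
    have key := fixN_eq n hn a b hab hba ha h
    rw [fixN_sigma (fun i : Fin (Nat.card F) ⊕ I => (Sum.elim (fun _ => ⊤) D i : Subgroup F)),
      fixN_sigma E, Fintype.sum_sum_type] at key
    have h1 : ∑ i : Fin (Nat.card F), fixN (F ⧸ (⊤ : Subgroup F)) h = Nat.card F := by
      rw [Finset.sum_const, Finset.card_univ, Fintype.card_fin, fixN_top, smul_eq_mul, mul_one]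
    rw [← h1]
    exact key

private theorem interP_of_finite [Finite F]
    (hR : ∀ n : ℕ, n ≠ 0 → Finite (R ⧸ Ideal.span {(n : R)})) : InterP R F :=
  fun n hn a b hab hba ha x =>
    inter (R := MonoidAlgebra R F) (S := MonoidAlgebra R F) (twR R _) (twR R _) (n : ℤ) a b hab hba
      (twR_inter R F a ha) (fun k U => powMod_of_finite R F hR n hn k U) x

end Fix

section Res

open scoped Classical

open Pool.Agent.H95.WH (K1.push flatM flatU flatM_mul flatM_one flatU_mul reU reU_val K1.cls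
  K1.push_mk)
open Pool.Agent.H71.FJ (lamR lam lam_single out_mem_iff)

variable {F : Type v} [Group F] {B : Type} [CommRing B]

/-- the restriction of a matrix -/
private noncomputable def resM (D : Subgroup F) [Fintype (F ⧸ D)] {N : ℕ}
    (Y : Matrix (Fin N) (Fin N) (MonoidAlgebra B F)) :
    Matrix (Fin (Fintype.card (Fin N × (F ⧸ D)))) (Fin (Fintype.card (Fin N × (F ⧸ D))))
      (MonoidAlgebra B D) :=
  (flatM (lamR B D) Y).submatrix (Fintype.equivFin (Fin N × (F ⧸ D))).symm
    (Fintype.equivFin (Fin N × (F ⧸ D))).symm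

/-- the restriction of an invertible matrix -/
private noncomputable def resU (D : Subgroup F) [Fintype (F ⧸ D)] {N : ℕ}
    (U : GLm N (MonoidAlgebra B F)) :
    GLm (Fintype.card (Fin N × (F ⧸ D))) (MonoidAlgebra B D) :=
  reU (Fintype.equivFin (Fin N × (F ⧸ D))) (flatU (lamR B D) U)

private theorem resU_val (D : Subgroup F) [Fintype (F ⧸ D)] {N : ℕ}
    (U : GLm N (MonoidAlgebra B F)) : (resU D U).val = resM D U.val := rfl

private theorem resU_pow (D : Subgroup F) [Fintype (F ⧸ D)] {N : ℕ}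
    (U : GLm N (MonoidAlgebra B F)) (l : ℕ) : resU D U ^ l = resU D (U ^ l) := by
  have h1 : flatU (lamR B D) (U ^ l) = flatU (lamR B D) U ^ l := by
    induction l with
    | zero =>
      rw [pow_zero, pow_zero]
      exact Units.ext (flatM_one _)
    | succ l ih => rw [pow_succ, pow_succ, flatU_mul, ih]
  rw [resU, resU, h1, map_pow]

private theorem resM_one (D : Subgroup F) [Fintype (F ⧸ D)] {N : ℕ} :
    resM D (1 : Matrix (Fin N) (Fin N) (MonoidAlgebra B F)) = 1 := by
  rw [resM, flatM_one]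
  exact Matrix.submatrix_one_equiv _

private theorem resM_add (D : Subgroup F) [Fintype (F ⧸ D)] {N : ℕ}
    (X Y : Matrix (Fin N) (Fin N) (MonoidAlgebra B F)) :
    resM D (X + Y) = resM D X + resM D Y := by
  refine Matrix.ext fun i j => ?_
  change lamR B D (X _ _ + Y _ _) _ _ = lamR B D (X _ _) _ _ + lamR B D (Y _ _) _ _
  rw [map_add, Matrix.add_apply]

private theorem resM_sub (D : Subgroup F) [Fintype (F ⧸ D)] {N : ℕ}
    (X Y : Matrix (Fin N) (Fin N) (MonoidAlgebra B F)) :
    resM D (X - Y) = resM D X - resM D Y := by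
  refine Matrix.ext fun i j => ?_
  change lamR B D (X _ _ - Y _ _) _ _ = lamR B D (X _ _) _ _ - lamR B D (Y _ _) _ _
  rw [map_sub, Matrix.sub_apply]

private theorem resM_smul (D : Subgroup F) [Fintype (F ⧸ D)] {N : ℕ} (q : B)
    (X : Matrix (Fin N) (Fin N) (MonoidAlgebra B F)) :
    resM D (q • X) = q • resM D X := by
  refine Matrix.ext fun i j => ?_
  change lam B D (q • X _ _) _ _ = q • lam B D (X _ _) _ _
  rw [map_smul, Matrix.smul_apply]

private theorem mk_resU (D : Subgroup F) [Fintype (F ⧸ D)] {N : ℕ}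
    (U : GLm N (MonoidAlgebra B F)) : K1.mk (resU D U) = K1.push (lamR B D) (K1.mk U) := by
  rw [K1.push_mk]
  rfl

private theorem lam_trace [Fintype F] (D : Subgroup F) [Fintype (F ⧸ D)] [Fintype D] (w : F → B)
    (hw : ∀ x y : F, w (y * x * y⁻¹) = w x) (y : MonoidAlgebra B F) :
    ∑ d : D, w (d : F) * ∑ a : F ⧸ D, (lamR B D y a a).coeff d =
      ∑ x : F, w x * ((fixN (F ⧸ D) x : B) * y.coeff x) := by
  induction y using MonoidAlgebra.induction_linear with
  | zero => simp
  | add s t hs ht =>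
    have e1 : ∀ d : D, w (d : F) * ∑ a : F ⧸ D, (lamR B D (s + t) a a).coeff d =
        w (d : F) * ∑ a : F ⧸ D, (lamR B D s a a).coeff d +
          w (d : F) * ∑ a : F ⧸ D, (lamR B D t a a).coeff d := by
      intro d
      rw [← mul_add, ← Finset.sum_add_distrib]
      congr 1
      refine Finset.sum_congr rfl fun a _ => ?_
      rw [map_add, Matrix.add_apply, MonoidAlgebra.coeff_add, Finsupp.add_apply]
    have e2 : ∀ x : F, w x * ((fixN (F ⧸ D) x : B) * (s + t).coeff x) =
        w x * ((fixN (F ⧸ D) x : B) * s.coeff x) + w x * ((fixN (F ⧸ D) x : B) * t.coeff x) := by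
      intro x
      rw [MonoidAlgebra.coeff_add, Finsupp.add_apply]
      ring
    rw [Finset.sum_congr rfl fun d _ => e1 d, Finset.sum_congr rfl fun x _ => e2 x,
      Finset.sum_add_distrib, Finset.sum_add_distrib, hs, ht]
  | single h r =>
    have e1 : ∑ d : D, w (d : F) * ∑ a : F ⧸ D, (lamR B D (MonoidAlgebra.single h r) a a).coeff d =
        ∑ a : F ⧸ D, if a = h • a then w h * r else 0 := by
      simp only [Finset.mul_sum]
      rw [Finset.sum_comm]
      refine Finset.sum_congr rfl fun a _ => ?_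
      by_cases ha : a = h • a
      · have hh : a.out⁻¹ * h * a.out ∈ D := (out_mem_iff D h a a).2 ha
        rw [if_pos ha, Finset.sum_eq_single ⟨a.out⁻¹ * h * a.out, hh⟩]
        · change w (a.out⁻¹ * h * a.out) * (lam B D (MonoidAlgebra.single h r) a a).coeff _ = _
          rw [lam_single, dif_pos hh, MonoidAlgebra.coeff_single, Finsupp.single_eq_same]
          have h3 := hw h a.out⁻¹
          rw [inv_inv] at h3
          rw [h3]
        · intro d _ hd
          change _ * (lam B D (MonoidAlgebra.single h r) a a).coeff _ = _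
          rw [lam_single, dif_pos hh, MonoidAlgebra.coeff_single, Finsupp.single_eq_of_ne hd,
            mul_zero]
        · intro h4
          exact absurd (Finset.mem_univ _) h4
      · rw [if_neg ha]
        refine Finset.sum_eq_zero fun d _ => ?_
        change _ * (lam B D (MonoidAlgebra.single h r) a a).coeff _ = _
        rw [lam_single, dif_neg (fun hh => ha ((out_mem_iff D h a a).1 hh))]
        exact mul_zero _
    rw [e1, ← Finset.sum_filter, Finset.sum_const, nsmul_eq_mul, Finset.sum_eq_single h]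
    · rw [MonoidAlgebra.coeff_single, Finsupp.single_eq_same]
      change (fixN (F ⧸ D) h : B) * (w h * r) = _
      ring
    · intro x _ hx
      rw [MonoidAlgebra.coeff_single, Finsupp.single_eq_of_ne hx, mul_zero, mul_zero]
    · intro h4
      exact absurd (Finset.mem_univ _) h4

private theorem resM_trace [Fintype F] (D : Subgroup F) [Fintype (F ⧸ D)] [Fintype D] (w : F → B)
    (hw : ∀ x y : F, w (y * x * y⁻¹) = w x) {N : ℕ}
    (Y : Matrix (Fin N) (Fin N) (MonoidAlgebra B F)) :
    ∑ d : D, w (d : F) * (cof (resM D Y) d).trace =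
      ∑ x : F, w x * ((fixN (F ⧸ D) x : B) * (cof Y x).trace) := by
  have e1 : ∀ d : D, (cof (resM D Y) d).trace =
      ∑ i : Fin N, ∑ a : F ⧸ D, (lamR B D (Y i i) a a).coeff d := by
    intro d
    have h1 : (cof (resM D Y) d).trace = ∑ k : Fin (Fintype.card (Fin N × (F ⧸ D))),
        (fun q : Fin N × (F ⧸ D) => (lamR B D (Y q.1 q.1) q.2 q.2).coeff d)
          ((Fintype.equivFin (Fin N × (F ⧸ D))).symm k) := rfl
    rw [h1]
    exact (Equiv.sum_comp (Fintype.equivFin (Fin N × (F ⧸ D))).symm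
      (fun q : Fin N × (F ⧸ D) => (lamR B D (Y q.1 q.1) q.2 q.2).coeff d)).trans
        (Fintype.sum_prod_type _)
  have e2 : ∀ x : F, (cof Y x).trace = ∑ i : Fin N, (Y i i).coeff x := fun x => rfl
  simp only [e1, e2, Finset.mul_sum]
  rw [Finset.sum_comm]
  conv_rhs => rw [Finset.sum_comm]
  refine Finset.sum_congr rfl fun i _ => ?_
  have h2 := lam_trace D w hw (Y i i)
  simp only [Finset.mul_sum] at h2
  exact h2

end Res

/-- **Artin induction for `K₁(B[F])` with traces.** -/
theorem artin_B {B : Type} [CommRing B]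
    (hfin : ∀ n : ℕ, n ≠ 0 → Finite (B ⧸ Ideal.span {(n : B)})) {F : Type v} [Group F] [Fintype F]
    {N : ℕ} (U : GLm N (MonoidAlgebra B F)) :
    ∃ (m r : ℕ) (D : Fin r → Subgroup F) (a : Fin r → ℤ) (R : Fin r → ℕ)
      (V : ∀ i, GLm (R i) (MonoidAlgebra B (D i))),
      0 < m ∧ (∀ i, IsCyclic (D i)) ∧
      m • K1.mk U = ∑ i, a i • K1.map (MonoidAlgebra.mapDomainRingHom B (D i).subtype)
        (K1.mk (V i)) ∧
      (∀ [∀ i, Fintype (D i)] (w : F → B), (∀ x y : F, w (y * x * y⁻¹) = w x) → ∀ l : ℕ,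
        (m : B) * ∑ x : F, w x *
            (cof ((U ^ l : GLm N (MonoidAlgebra B F)).val - 1) x).trace =
          ∑ i, (a i : B) * ∑ d : D i, w (d : F) *
            (cof ((V i ^ l : GLm (R i) (MonoidAlgebra B (D i))).val - 1) d).trace) ∧
      ∀ (q : B) (X : Matrix (Fin N) (Fin N) (MonoidAlgebra B F)), U.val = 1 + q • X →
        ∀ i, ∃ X' : Matrix (Fin (R i)) (Fin (R i)) (MonoidAlgebra B (D i)),
          (V i).val = 1 + q • X' := by
  classical
  obtain ⟨I, J, hI, hJ, D, E, hfD, hfE, m, hD, hE, hm, key, hfix⟩ := art_rel' B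
    (interP_of_finite B hfin) (K1.mk U)
  let e : Fin (Fintype.card (J ⊕ I)) ≃ J ⊕ I := (Fintype.equivFin (J ⊕ I)).symm
  let L : J ⊕ I → Subgroup F := Sum.elim E D
  let _ : ∀ k : J ⊕ I, Fintype (F ⧸ L k) := fun k => match k with
    | Sum.inl j => hfE j
    | Sum.inr i => hfD i
  let a : J ⊕ I → ℤ := Sum.elim (fun _ => (m : ℤ)) (fun _ => -(m : ℤ))
  have hL : ∀ k, IsCyclic (L k) := by
    rintro (j | i)
    · exact hE j
    · exact hD i
  have h1 : ∀ k : J ⊕ I, a k • K1.map (MonoidAlgebra.mapDomainRingHom B (L k).subtype)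
      (K1.mk (resU (L k) U)) = a k • Pool.Agent.H95.WH.K1.push
        (Pool.Agent.H71.FJ.twR B (F ⧸ L k)) (K1.mk U) := by
    intro k
    rw [mk_resU]
    exact congrArg _ (Pool.Agent.H95.WH.ind_res1R B (L k) (K1.mk U))
  refine ⟨m * Nat.card F, Fintype.card (J ⊕ I), fun k => L (e k), fun k => a (e k),
    fun k => Fintype.card (Fin N × (F ⧸ L (e k))), fun k => resU (L (e k)) U,
    Nat.mul_pos hm Nat.card_pos, fun k => hL (e k), ?_, ?_, ?_⟩
  · rw [Equiv.sum_comp e (fun k => a k • K1.map (MonoidAlgebra.mapDomainRingHom B (L k).subtype)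
      (K1.mk (resU (L k) U))), Finset.sum_congr rfl fun k _ => h1 k, Fintype.sum_sum_type]
    change _ = ∑ j, (m : ℤ) • Pool.Agent.H95.WH.K1.push
        (Pool.Agent.H71.FJ.twR B (F ⧸ E j)) (K1.mk U) + ∑ i, (-(m : ℤ)) •
        Pool.Agent.H95.WH.K1.push (Pool.Agent.H71.FJ.twR B (F ⧸ D i)) (K1.mk U)
    rw [← Finset.smul_sum, ← Finset.smul_sum, natCast_zsmul, ← key, neg_smul, natCast_zsmul,
      smul_add, mul_smul]
    abel
  · intro hfL w hw l
    have h2 : ∀ k : Fin (Fintype.card (J ⊕ I)), ∑ d : L (e k), w (d : F) *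
        (cof ((resU (L (e k)) U ^ l : GLm _ (MonoidAlgebra B (L (e k)))).val - 1) d).trace =
        ∑ x : F, w x * ((fixN (F ⧸ L (e k)) x : B) *
          (cof ((U ^ l : GLm N (MonoidAlgebra B F)).val - 1) x).trace) := by
      intro k
      rw [← resM_trace (L (e k)) w hw, resM_sub, resM_one, resU_pow, resU_val]
    rw [Finset.sum_congr rfl fun k _ => congrArg (((a (e k) : ℤ) : B) * ·) (h2 k)]
    rw [Equiv.sum_comp e (fun k => ((a k : ℤ) : B) * ∑ x : F, w x * ((fixN (F ⧸ L k) x : B) *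
          (cof ((U ^ l : GLm N (MonoidAlgebra B F)).val - 1) x).trace)), Fintype.sum_sum_type]
    change _ = ∑ j, (((m : ℤ) : ℤ) : B) * ∑ x : F, w x * ((fixN (F ⧸ E j) x : B) *
          (cof ((U ^ l : GLm N (MonoidAlgebra B F)).val - 1) x).trace) +
        ∑ i, ((-(m : ℤ) : ℤ) : B) * ∑ x : F, w x * ((fixN (F ⧸ D i) x : B) *
          (cof ((U ^ l : GLm N (MonoidAlgebra B F)).val - 1) x).trace)
    simp only [Finset.mul_sum]
    rw [Finset.sum_comm, Finset.sum_comm (γ := I), ← Finset.sum_add_distrib]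
    refine Finset.sum_congr rfl fun x _ => ?_
    have h3 : (Nat.card F : B) + ∑ i, (fixN (F ⧸ D i) x : B) = ∑ j, (fixN (F ⧸ E j) x : B) := by
      exact_mod_cast congrArg (Nat.cast : ℕ → B) (hfix x)
    generalize (cof ((U ^ l : GLm N (MonoidAlgebra B F)).val - 1) x).trace = t
    have h4 : ∑ j, (((m : ℤ) : ℤ) : B) * (w x * ((fixN (F ⧸ E j) x : B) * t)) =
        (m : B) * w x * t * ∑ j, (fixN (F ⧸ E j) x : B) := by
      rw [Finset.mul_sum]
      refine Finset.sum_congr rfl fun j _ => ?_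
      push_cast
      ring
    have h5 : ∑ i, ((-(m : ℤ) : ℤ) : B) * (w x * ((fixN (F ⧸ D i) x : B) * t)) =
        -((m : B) * w x * t * ∑ i, (fixN (F ⧸ D i) x : B)) := by
      rw [Finset.mul_sum, ← Finset.sum_neg_distrib]
      refine Finset.sum_congr rfl fun j _ => ?_
      push_cast
      ring
    rw [h4, h5, ← h3]
    push_cast
    ring
  · intro q X hX k
    refine ⟨resM (L (e k)) X, ?_⟩
    rw [resU_val, hX, resM_add, resM_one, resM_smul]

end Pool.Agent.H71.CZ
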