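import Pool.Agent.H71.CZ.Eta

/-!
# Project CZ: block sums, the matrices

Index set `ZMod p → Y ⊕ Y'`.  `PL`, `PR` are the inclusions of the index sets `ZMod p → Y`, `ZMod p → Y'`; `Em = 1 - PL PLᵀ - PR PRᵀ` is the
projection to the mixed indices; `eM` is the diagonal idempotent of the mixed indices of a chosen type (one type
`i ↦ isLeft (v i)` in each orbit of the shift).

PROOFS.  `exists_ch`: a non-constant function `ZMod p → Bool` has `p` different shifts (`p` prime); choose one in each orbit.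
`tpM_blk`: an entry `tp (i ↦ blk (v i) (w i))` is `0` if for some `i` exactly one of `v i`, `w i` is in `Y`.
-/

set_option autoImplicit false

open Matrix

universe u v w

namespace Pool.Agent.H71.CZ

section

variable {p : ℕ} [hp : Fact p.Prime]

theorem const_of_shift {τ : ZMod p → Bool} {a b : ZMod p} (hab : a ≠ b) (h : (fun i => τ (i - a)) = fun i => τ (i - b)) (i : ZMod p) :
    τ i = τ 0 := by
  have h1 : ∀ i, τ (i + (a - b)) = τ i := by
    intro i
    have h2 : τ (i + a - a) = τ (i + a - b) := congrFun h (i + a)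
    rw [add_sub_cancel_right, add_sub_assoc] at h2
    exact h2.symm
  have h3 : ∀ k : ℕ, τ ((k : ZMod p) * (a - b)) = τ 0 := by
    intro k
    induction k with
    | zero => simp
    | succ k ih =>
      have h4 : ((k + 1 : ℕ) : ZMod p) * (a - b) = (k : ZMod p) * (a - b) + (a - b) := by
        push_cast
        ring
      rw [h4, h1, ih]
  have h5 : a - b ≠ 0 := sub_ne_zero.2 hab
  have h6 := h3 (i * (a - b)⁻¹).val
  rwa [ZMod.natCast_zmod_val, mul_assoc, inv_mul_cancel₀ h5, mul_one] at h6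

variable (p) in
/-- the orbits of the shift -/
def shiftSetoid : Setoid (ZMod p → Bool) where
  r τ τ' := ∃ a : ZMod p, τ' = fun i => τ (i - a)
  iseqv := by
    refine ⟨fun τ => ⟨0, by simp⟩, ?_, ?_⟩
    · rintro τ _ ⟨a, rfl⟩
      refine ⟨-a, ?_⟩
      funext i
      show τ i = τ (i - -a - a)
      congr 1
      ring
    · rintro τ _ _ ⟨a, rfl⟩ ⟨b, rfl⟩
      refine ⟨a + b, ?_⟩
      funext i
      show τ (i - b - a) = τ (i - (a + b))
      congr 1
      ring

variable (p) in
/-- a choice of one type in each orbit of non-constant types -/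
theorem exists_ch : ∃ Ch : (ZMod p → Bool) → Prop, (∀ b : Bool, ¬ Ch fun _ => b) ∧
    ∀ τ : ZMod p → Bool, (∃ i, τ i ≠ τ 0) → ∃! j : ℕ, j < p ∧ Ch fun i => τ (i - (j : ZMod p)) := by
  refine ⟨fun τ => (∃ i, τ i ≠ τ 0) ∧ (Quotient.mk (shiftSetoid p) τ).out = τ, ?_, ?_⟩
  · rintro b ⟨⟨i, hi⟩, -⟩
    exact hi rfl
  · intro τ hτ
    have hq : ∀ a : ZMod p, Quotient.mk (shiftSetoid p) (fun i => τ (i - a)) = Quotient.mk (shiftSetoid p) τ := by
      intro a
      exact (Quotient.sound (s := shiftSetoid p) ⟨a, rfl⟩).symm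
    obtain ⟨a, ha⟩ : ∃ a : ZMod p, (Quotient.mk (shiftSetoid p) τ).out = fun i => τ (i - a) := by
      have h1 : (shiftSetoid p).r τ (Quotient.mk (shiftSetoid p) τ).out :=
        (shiftSetoid p).symm (Quotient.mk_out (s := shiftSetoid p) τ)
      exact h1
    have hne : ∀ a : ZMod p, ∃ i, (fun i => τ (i - a)) i ≠ (fun i => τ (i - a)) 0 := by
      intro a
      by_contra hc
      push Not at hc
      obtain ⟨i, hi⟩ := hτ
      apply hi
      have h1 : τ (i + a - a) = τ (0 - a) := hc (i + a)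
      have h2 : τ (0 + a - a) = τ (0 - a) := hc (0 + a)
      rw [add_sub_cancel_right] at h1 h2
      rw [h1, h2]
    refine ⟨a.val, ⟨ZMod.val_lt a, ?_⟩, ?_⟩
    · show (∃ i, (fun i => τ (i - (a.val : ZMod p))) i ≠ (fun i => τ (i - (a.val : ZMod p))) 0) ∧
        (Quotient.mk (shiftSetoid p) (fun i => τ (i - (a.val : ZMod p)))).out = fun i => τ (i - (a.val : ZMod p))
      rw [ZMod.natCast_zmod_val]
      exact ⟨hne a, by rw [hq, ha]⟩
    · rintro j ⟨hj, -, h2⟩
      have h3 : (fun i => τ (i - (j : ZMod p))) = fun i => τ (i - a) := by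
        rw [← ha, ← h2, hq]
      by_contra hja
      have h4 : (j : ZMod p) ≠ a := by
        intro h5
        apply hja
        rw [← h5, ZMod.val_natCast, Nat.mod_eq_of_lt hj]
      obtain ⟨i, hi⟩ := hτ
      exact hi (const_of_shift h4 h3 i)

variable (p) in
/-- the chosen types -/
def Ch : (ZMod p → Bool) → Prop := (exists_ch p).choose

theorem ch_const (b : Bool) : ¬ Ch p fun _ => b := (exists_ch p).choose_spec.1 b

theorem ch_unique (τ : ZMod p → Bool) (h : ∃ i, τ i ≠ τ 0) :
    ∃! j : ℕ, j < p ∧ Ch p fun i => τ (i - (j : ZMod p)) := (exists_ch p).choose_spec.2 τ h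

variable (Y Y' : Type) [Fintype Y] [DecidableEq Y] [Fintype Y'] [DecidableEq Y']

/-- the type of an index -/
def ty {Y Y' : Type} (v : ZMod p → Y ⊕ Y') (i : ZMod p) : Bool := (v i).isLeft

/-- all entries on the left -/
theorem exists_inl {Y Y' : Type} {v : ZMod p → Y ⊕ Y'} (h : ty v = fun _ => true) : ∃ x : ZMod p → Y, v = fun i => Sum.inl (x i) := by
  have h1 : ∀ i, ∃ y, v i = Sum.inl y := fun i => Sum.isLeft_iff.1 (congrFun h i)
  choose x hx using h1
  exact ⟨x, funext hx⟩

/-- all entries on the right -/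
theorem exists_inr {Y Y' : Type} {v : ZMod p → Y ⊕ Y'} (h : ty v = fun _ => false) : ∃ x : ZMod p → Y', v = fun i => Sum.inr (x i) := by
  have h1 : ∀ i, ∃ y, v i = Sum.inr y := fun i => by
    have h2 : (v i).isLeft = false := congrFun h i
    cases h3 : v i with
    | inl y => rw [h3] at h2; exact absurd h2 (by simp)
    | inr y => exact ⟨y, rfl⟩
  choose x hx using h1
  exact ⟨x, funext hx⟩

theorem ty_inl {Y Y' : Type} (x : ZMod p → Y) : ty (fun i => (Sum.inl (x i) : Y ⊕ Y')) = fun _ => true := rfl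

theorem ty_inr {Y Y' : Type} (x : ZMod p → Y') : ty (fun i => (Sum.inr (x i) : Y ⊕ Y')) = fun _ => false := rfl

theorem true_ne_false_fun : (fun _ : ZMod p => true) ≠ fun _ => false := by
  intro h
  have h1 : true = false := congrFun h 0
  exact absurd h1 (by simp)

section mats

variable (p) (R : Type u) [Ring R]

/-- the inclusion of the indices in `Y` -/
def PL : Matrix (ZMod p → Y ⊕ Y') (ZMod p → Y) R := fun v w =>
  if v = fun i => Sum.inl (w i) then 1 else 0

/-- the inclusion of the indices in `Y'` -/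
def PR : Matrix (ZMod p → Y ⊕ Y') (ZMod p → Y') R := fun v w =>
  if v = fun i => Sum.inr (w i) then 1 else 0

/-- the projection to the mixed indices -/
def Em : Matrix (ZMod p → Y ⊕ Y') (ZMod p → Y ⊕ Y') R :=
  1 - PL p Y Y' R * (PL p Y Y' R)ᵀ - PR p Y Y' R * (PR p Y Y' R)ᵀ

open Classical in
/-- the projection to the chosen mixed indices -/
noncomputable def eM : Matrix (ZMod p → Y ⊕ Y') (ZMod p → Y ⊕ Y') R :=
  diagonal fun v => if Ch p (ty v) then 1 else 0

variable {p Y Y' R}

theorem PL_inl (x w : ZMod p → Y) : PL p Y Y' R (fun i => Sum.inl (x i)) w = if x = w then 1 else 0 := by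
  unfold PL
  refine if_congr ⟨fun h => ?_, fun h => by rw [h]⟩ rfl rfl
  funext i
  exact Sum.inl_injective (congrFun h i)

theorem PR_inr (x w : ZMod p → Y') : PR p Y Y' R (fun i => Sum.inr (x i)) w = if x = w then 1 else 0 := by
  unfold PR
  refine if_congr ⟨fun h => ?_, fun h => by rw [h]⟩ rfl rfl
  funext i
  exact Sum.inr_injective (congrFun h i)

theorem PL_zero {v : ZMod p → Y ⊕ Y'} (hv : ty v ≠ fun _ => true) (w : ZMod p → Y) : PL p Y Y' R v w = 0 := by
  unfold PL
  rw [if_neg]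
  intro h
  apply hv
  rw [h]
  rfl

theorem PR_zero {v : ZMod p → Y ⊕ Y'} (hv : ty v ≠ fun _ => false) (w : ZMod p → Y') : PR p Y Y' R v w = 0 := by
  unfold PR
  rw [if_neg]
  intro h
  apply hv
  rw [h]
  rfl

section

variable {κ : Type*}

theorem PL_mul_inl (m : Matrix (ZMod p → Y) κ R) (x : ZMod p → Y) (w : κ) : (PL p Y Y' R * m) (fun i => Sum.inl (x i)) w = m x w := by
  rw [Matrix.mul_apply, Finset.sum_eq_single x]
  · rw [PL_inl, if_pos rfl, one_mul]
  · intro y _ hy
    rw [PL_inl, if_neg (Ne.symm hy), zero_mul]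
  · intro h
    exact absurd (Finset.mem_univ _) h

theorem PR_mul_inr (m : Matrix (ZMod p → Y') κ R) (x : ZMod p → Y') (w : κ) : (PR p Y Y' R * m) (fun i => Sum.inr (x i)) w = m x w := by
  rw [Matrix.mul_apply, Finset.sum_eq_single x]
  · rw [PR_inr, if_pos rfl, one_mul]
  · intro y _ hy
    rw [PR_inr, if_neg (Ne.symm hy), zero_mul]
  · intro h
    exact absurd (Finset.mem_univ _) h

theorem PL_mul_zero (m : Matrix (ZMod p → Y) κ R) {v : ZMod p → Y ⊕ Y'} (hv : ty v ≠ fun _ => true) (w : κ) : (PL p Y Y' R * m) v w = 0 := by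
  rw [Matrix.mul_apply]
  exact Finset.sum_eq_zero fun y _ => by rw [PL_zero hv, zero_mul]

theorem PR_mul_zero (m : Matrix (ZMod p → Y') κ R) {v : ZMod p → Y ⊕ Y'} (hv : ty v ≠ fun _ => false) (w : κ) : (PR p Y Y' R * m) v w = 0 := by
  rw [Matrix.mul_apply]
  exact Finset.sum_eq_zero fun y _ => by rw [PR_zero hv, zero_mul]

theorem mul_PL_inl (m : Matrix κ (ZMod p → Y) R) (v : κ) (x : ZMod p → Y) : (m * (PL p Y Y' R)ᵀ) v (fun i => Sum.inl (x i)) = m v x := by
  rw [Matrix.mul_apply, Finset.sum_eq_single x]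
  · rw [Matrix.transpose_apply, PL_inl, if_pos rfl, mul_one]
  · intro y _ hy
    rw [Matrix.transpose_apply, PL_inl, if_neg (Ne.symm hy), mul_zero]
  · intro h
    exact absurd (Finset.mem_univ _) h

theorem mul_PR_inr (m : Matrix κ (ZMod p → Y') R) (v : κ) (x : ZMod p → Y') : (m * (PR p Y Y' R)ᵀ) v (fun i => Sum.inr (x i)) = m v x := by
  rw [Matrix.mul_apply, Finset.sum_eq_single x]
  · rw [Matrix.transpose_apply, PR_inr, if_pos rfl, mul_one]
  · intro y _ hy
    rw [Matrix.transpose_apply, PR_inr, if_neg (Ne.symm hy), mul_zero]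
  · intro h
    exact absurd (Finset.mem_univ _) h

theorem mul_PL_zero (m : Matrix κ (ZMod p → Y) R) (v : κ) {w : ZMod p → Y ⊕ Y'} (hw : ty w ≠ fun _ => true) : (m * (PL p Y Y' R)ᵀ) v w = 0 := by
  rw [Matrix.mul_apply]
  exact Finset.sum_eq_zero fun y _ => by rw [Matrix.transpose_apply, PL_zero hw, mul_zero]

theorem mul_PR_zero (m : Matrix κ (ZMod p → Y') R) (v : κ) {w : ZMod p → Y ⊕ Y'} (hw : ty w ≠ fun _ => false) : (m * (PR p Y Y' R)ᵀ) v w = 0 := by
  rw [Matrix.mul_apply]
  exact Finset.sum_eq_zero fun y _ => by rw [Matrix.transpose_apply, PR_zero hw, mul_zero]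

end

open Classical in
theorem PL_mul_PLt : PL p Y Y' R * (PL p Y Y' R)ᵀ = diagonal fun v => if ty v = fun _ => true then 1 else 0 := by
  ext1 v w
  by_cases hv : ty v = fun _ => true
  · obtain ⟨x, rfl⟩ := exists_inl hv
    rw [PL_mul_inl, Matrix.transpose_apply]
    by_cases hw : ty w = fun _ => true
    · obtain ⟨y, rfl⟩ := exists_inl hw
      rw [PL_inl]
      by_cases hxy : x = y
      · rw [hxy, if_pos rfl, Matrix.diagonal_apply_eq, if_pos (ty_inl y)]
      · rw [if_neg (Ne.symm hxy), Matrix.diagonal_apply_ne]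
        intro h
        exact hxy (funext fun i => Sum.inl_injective (congrFun h i))
    · rw [PL_zero hw, Matrix.diagonal_apply_ne]
      intro h
      exact hw (by rw [← h]; rfl)
  · rw [PL_mul_zero _ hv]
    by_cases h : v = w
    · rw [← h, Matrix.diagonal_apply_eq, if_neg hv]
    · rw [Matrix.diagonal_apply_ne _ h]

open Classical in
theorem PR_mul_PRt : PR p Y Y' R * (PR p Y Y' R)ᵀ = diagonal fun v => if ty v = fun _ => false then 1 else 0 := by
  ext1 v w
  by_cases hv : ty v = fun _ => false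
  · obtain ⟨x, rfl⟩ := exists_inr hv
    rw [PR_mul_inr, Matrix.transpose_apply]
    by_cases hw : ty w = fun _ => false
    · obtain ⟨y, rfl⟩ := exists_inr hw
      rw [PR_inr]
      by_cases hxy : x = y
      · rw [hxy, if_pos rfl, Matrix.diagonal_apply_eq, if_pos (ty_inr y)]
      · rw [if_neg (Ne.symm hxy), Matrix.diagonal_apply_ne]
        intro h
        exact hxy (funext fun i => Sum.inr_injective (congrFun h i))
    · rw [PR_zero hw, Matrix.diagonal_apply_ne]
      intro h
      exact hw (by rw [← h]; rfl)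
  · rw [PR_mul_zero _ hv]
    by_cases h : v = w
    · rw [← h, Matrix.diagonal_apply_eq, if_neg hv]
    · rw [Matrix.diagonal_apply_ne _ h]

open Classical in
theorem Em_eq : Em p Y Y' R = diagonal fun v => if (ty v ≠ fun _ => true) ∧ (ty v ≠ fun _ => false) then 1 else 0 := by
  unfold Em
  rw [PL_mul_PLt, PR_mul_PRt, ← Matrix.diagonal_one, Matrix.diagonal_sub, Matrix.diagonal_sub]
  congr 1
  funext v
  by_cases h1 : ty v = fun _ => true
  · have h2 : ¬ ty v = fun _ => false := fun h => true_ne_false_fun (h1.symm.trans h)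
    rw [if_pos h1, if_neg h2, if_neg (fun h => h.1 h1), sub_self, sub_zero]
  · by_cases h2 : ty v = fun _ => false
    · rw [if_neg h1, if_pos h2, if_neg (fun h => h.2 h2), sub_zero, sub_self]
    · rw [if_neg h1, if_neg h2, if_pos ⟨h1, h2⟩, sub_zero, sub_zero]

theorem not_ch_left {v : ZMod p → Y ⊕ Y'} (h : ty v = fun _ => true) : ¬ Ch p (ty v) := by
  rw [h]
  exact ch_const true

theorem not_ch_right {v : ZMod p → Y ⊕ Y'} (h : ty v = fun _ => false) : ¬ Ch p (ty v) := by
  rw [h]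
  exact ch_const false

variable (p Y Y' R)

theorem PL_PL : (PL p Y Y' R)ᵀ * PL p Y Y' R = 1 := by
  ext1 x y
  rw [Matrix.mul_apply, Finset.sum_eq_single (fun i => (Sum.inl (x i) : Y ⊕ Y'))]
  · rw [Matrix.transpose_apply, PL_inl, PL_inl, if_pos rfl, one_mul, Matrix.one_apply]
  · intro v _ hv
    rw [Matrix.transpose_apply]
    unfold PL
    rw [if_neg hv, zero_mul]
  · intro h
    exact absurd (Finset.mem_univ _) h

theorem PR_PR : (PR p Y Y' R)ᵀ * PR p Y Y' R = 1 := by
  ext1 x y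
  rw [Matrix.mul_apply, Finset.sum_eq_single (fun i => (Sum.inr (x i) : Y ⊕ Y'))]
  · rw [Matrix.transpose_apply, PR_inr, PR_inr, if_pos rfl, one_mul, Matrix.one_apply]
  · intro v _ hv
    rw [Matrix.transpose_apply]
    unfold PR
    rw [if_neg hv, zero_mul]
  · intro h
    exact absurd (Finset.mem_univ _) h

theorem PL_PR : (PL p Y Y' R)ᵀ * PR p Y Y' R = 0 := by
  ext1 x y
  rw [Matrix.mul_apply, Matrix.zero_apply]
  refine Finset.sum_eq_zero fun v _ => ?_
  rw [Matrix.transpose_apply]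
  by_cases hv : ty v = fun _ => true
  · rw [PR_zero (fun h => true_ne_false_fun (hv.symm.trans h)), mul_zero]
  · rw [PL_zero hv, zero_mul]

theorem PR_PL : (PR p Y Y' R)ᵀ * PL p Y Y' R = 0 := by
  ext1 x y
  rw [Matrix.mul_apply, Matrix.zero_apply]
  refine Finset.sum_eq_zero fun v _ => ?_
  rw [Matrix.transpose_apply]
  by_cases hv : ty v = fun _ => true
  · rw [PR_zero (fun h => true_ne_false_fun (hv.symm.trans h)), zero_mul]
  · rw [PL_zero hv, mul_zero]

theorem eM_mul_eM : eM p Y Y' R * eM p Y Y' R = eM p Y Y' R := by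
  unfold eM
  rw [Matrix.diagonal_mul_diagonal]
  congr 1
  funext v
  split_ifs
  · exact one_mul 1
  · exact zero_mul 0

theorem eM_PL : eM p Y Y' R * PL p Y Y' R = 0 := by
  ext1 v w
  unfold eM
  rw [Matrix.diagonal_mul, Matrix.zero_apply]
  by_cases hv : ty v = fun _ => true
  · rw [if_neg (not_ch_left hv), zero_mul]
  · rw [PL_zero hv, mul_zero]

theorem PL_eM : (PL p Y Y' R)ᵀ * eM p Y Y' R = 0 := by
  ext1 v w
  unfold eM
  rw [Matrix.mul_diagonal, Matrix.zero_apply, Matrix.transpose_apply]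
  by_cases hv : ty w = fun _ => true
  · rw [if_neg (not_ch_left hv), mul_zero]
  · rw [PL_zero hv, zero_mul]

theorem eM_PR : eM p Y Y' R * PR p Y Y' R = 0 := by
  ext1 v w
  unfold eM
  rw [Matrix.diagonal_mul, Matrix.zero_apply]
  by_cases hv : ty v = fun _ => false
  · rw [if_neg (not_ch_right hv), zero_mul]
  · rw [PR_zero hv, mul_zero]

theorem PR_eM : (PR p Y Y' R)ᵀ * eM p Y Y' R = 0 := by
  ext1 v w
  unfold eM
  rw [Matrix.mul_diagonal, Matrix.zero_apply, Matrix.transpose_apply]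
  by_cases hv : ty w = fun _ => false
  · rw [if_neg (not_ch_right hv), mul_zero]
  · rw [PR_zero hv, zero_mul]

theorem eM_Em : eM p Y Y' R * Em p Y Y' R = eM p Y Y' R := by
  unfold Em
  rw [Matrix.mul_sub, Matrix.mul_sub, Matrix.mul_one, ← Matrix.mul_assoc, eM_PL, Matrix.zero_mul, ← Matrix.mul_assoc, eM_PR, Matrix.zero_mul,
    sub_zero, sub_zero]

theorem Em_eM : Em p Y Y' R * eM p Y Y' R = eM p Y Y' R := by
  unfold Em
  rw [Matrix.sub_mul, Matrix.sub_mul, Matrix.one_mul, Matrix.mul_assoc, PL_eM, Matrix.mul_zero, Matrix.mul_assoc, PR_eM, Matrix.mul_zero,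
    sub_zero, sub_zero]

theorem Em_PL : Em p Y Y' R * PL p Y Y' R = 0 := by
  unfold Em
  rw [Matrix.sub_mul, Matrix.sub_mul, Matrix.one_mul, Matrix.mul_assoc, PL_PL, Matrix.mul_one, Matrix.mul_assoc, PR_PL, Matrix.mul_zero,
    sub_self, sub_zero]

theorem PL_Em : (PL p Y Y' R)ᵀ * Em p Y Y' R = 0 := by
  unfold Em
  rw [Matrix.mul_sub, Matrix.mul_sub, Matrix.mul_one, ← Matrix.mul_assoc, PL_PL, Matrix.one_mul, ← Matrix.mul_assoc, PL_PR, Matrix.zero_mul,
    sub_self, sub_zero]

theorem Em_PR : Em p Y Y' R * PR p Y Y' R = 0 := by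
  unfold Em
  rw [Matrix.sub_mul, Matrix.sub_mul, Matrix.one_mul, Matrix.mul_assoc, PL_PR, Matrix.mul_zero, Matrix.mul_assoc, PR_PR, Matrix.mul_one,
    sub_zero, sub_self]

theorem PR_Em : (PR p Y Y' R)ᵀ * Em p Y Y' R = 0 := by
  unfold Em
  rw [Matrix.mul_sub, Matrix.mul_sub, Matrix.mul_one, ← Matrix.mul_assoc, PR_PL, Matrix.zero_mul, ← Matrix.mul_assoc, PR_PR, Matrix.one_mul,
    sub_zero, sub_self]

theorem Em_mul_Em : Em p Y Y' R * Em p Y Y' R = Em p Y Y' R := by
  have h1 : Em p Y Y' R * Em p Y Y' R = Em p Y Y' R * (1 - PL p Y Y' R * (PL p Y Y' R)ᵀ - PR p Y Y' R * (PR p Y Y' R)ᵀ) := rfl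
  rw [h1, Matrix.mul_sub, Matrix.mul_sub, Matrix.mul_one, ← Matrix.mul_assoc, Em_PL, Matrix.zero_mul, ← Matrix.mul_assoc, Em_PR,
    Matrix.zero_mul, sub_zero, sub_zero]

end mats

variable {Y Y'} {B : Type} [CommRing B] {G : Type v} [Group G]

/-- the block with indices in `Y` -/
noncomputable def cL (m : MM p B G Y) : MM p B G (Y ⊕ Y') :=
  PL p Y Y' (MonoidAlgebra B (ZMod p → G)) * m * (PL p Y Y' (MonoidAlgebra B (ZMod p → G)))ᵀ

/-- the block with indices in `Y'` -/
noncomputable def cR (m : MM p B G Y') : MM p B G (Y ⊕ Y') :=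
  PR p Y Y' (MonoidAlgebra B (ZMod p → G)) * m * (PR p Y Y' (MonoidAlgebra B (ZMod p → G)))ᵀ

theorem cL_inl (m : MM p B G Y) (x y : ZMod p → Y) :
    (cL m : MM p B G (Y ⊕ Y')) (fun i => Sum.inl (x i)) (fun i => Sum.inl (y i)) = m x y := by
  unfold cL
  rw [mul_PL_inl, PL_mul_inl]

theorem cL_left (m : MM p B G Y) {v : ZMod p → Y ⊕ Y'} (hv : ty v ≠ fun _ => true) (w : ZMod p → Y ⊕ Y') :
    (cL m : MM p B G (Y ⊕ Y')) v w = 0 := by
  unfold cL
  rw [Matrix.mul_assoc, PL_mul_zero _ hv]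

theorem cL_right (m : MM p B G Y) (v : ZMod p → Y ⊕ Y') {w : ZMod p → Y ⊕ Y'} (hw : ty w ≠ fun _ => true) :
    (cL m : MM p B G (Y ⊕ Y')) v w = 0 := by
  unfold cL
  rw [mul_PL_zero _ _ hw]

theorem cR_inr (m : MM p B G Y') (x y : ZMod p → Y') :
    (cR m : MM p B G (Y ⊕ Y')) (fun i => Sum.inr (x i)) (fun i => Sum.inr (y i)) = m x y := by
  unfold cR
  rw [mul_PR_inr, PR_mul_inr]

theorem cR_left (m : MM p B G Y') {v : ZMod p → Y ⊕ Y'} (hv : ty v ≠ fun _ => false) (w : ZMod p → Y ⊕ Y') :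
    (cR m : MM p B G (Y ⊕ Y')) v w = 0 := by
  unfold cR
  rw [Matrix.mul_assoc, PR_mul_zero _ hv]

theorem cR_right (m : MM p B G Y') (v : ZMod p → Y ⊕ Y') {w : ZMod p → Y ⊕ Y'} (hw : ty w ≠ fun _ => false) :
    (cR m : MM p B G (Y ⊕ Y')) v w = 0 := by
  unfold cR
  rw [mul_PR_zero _ _ hw]

theorem cL_add (m n : MM p B G Y) : (cL (m + n) : MM p B G (Y ⊕ Y')) = cL m + cL n := by
  unfold cL
  rw [Matrix.mul_add, Matrix.add_mul]

theorem cL_sub (m n : MM p B G Y) : (cL (m - n) : MM p B G (Y ⊕ Y')) = cL m - cL n := by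
  unfold cL
  rw [Matrix.mul_sub, Matrix.sub_mul]

theorem cR_add (m n : MM p B G Y') : (cR (m + n) : MM p B G (Y ⊕ Y')) = cR m + cR n := by
  unfold cR
  rw [Matrix.mul_add, Matrix.add_mul]

theorem cR_sub (m n : MM p B G Y') : (cR (m - n) : MM p B G (Y ⊕ Y')) = cR m - cR n := by
  unfold cR
  rw [Matrix.mul_sub, Matrix.sub_mul]

theorem ty_shift_const {v : ZMod p → Y ⊕ Y'} {b : Bool} (h : ty (fun i => v (i - 1)) = fun _ => b) : ty v = fun _ => b := by
  funext i
  have h1 : (v (i + 1 - 1)).isLeft = b := congrFun h (i + 1)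
  rw [add_sub_cancel_right] at h1
  exact h1

theorem ty_shift_const' {v : ZMod p → Y ⊕ Y'} {b : Bool} (h : ty v = fun _ => b) : ty (fun i => v (i - 1)) = fun _ => b := by
  funext i
  exact congrFun h (i - 1)

theorem sM_cL (m : MM p B G Y) :
    sM p B G (Y ⊕ Y') (cL m) = cL (Y' := Y') (sM p B G Y m) := by
  ext1 v w
  rw [sM_apply]
  by_cases hv : ty v = fun _ => true
  · by_cases hw : ty w = fun _ => true
    · obtain ⟨x, rfl⟩ := exists_inl hv
      obtain ⟨y, rfl⟩ := exists_inl hw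
      rw [cL_inl, cL_inl, sM_apply]
    · rw [cL_right _ _ hw, cL_right _ _ (fun h => hw (ty_shift_const h)), map_zero]
  · rw [cL_left _ hv, cL_left _ (fun h => hv (ty_shift_const h)), map_zero]

theorem sM_cR (m : MM p B G Y') :
    sM p B G (Y ⊕ Y') (cR m) = cR (Y := Y) (sM p B G Y' m) := by
  ext1 v w
  rw [sM_apply]
  by_cases hv : ty v = fun _ => false
  · by_cases hw : ty w = fun _ => false
    · obtain ⟨x, rfl⟩ := exists_inr hv
      obtain ⟨y, rfl⟩ := exists_inr hw
      rw [cR_inr, cR_inr, sM_apply]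
    · rw [cR_right _ _ hw, cR_right _ _ (fun h => hw (ty_shift_const h)), map_zero]
  · rw [cR_left _ hv, cR_left _ (fun h => hv (ty_shift_const h)), map_zero]

/-- the shift of a diagonal idempotent -/
theorem sM_diag (P : (ZMod p → Y ⊕ Y') → Prop) [DecidablePred P] :
    sM p B G (Y ⊕ Y') (diagonal fun v => if P v then 1 else 0) = diagonal fun v => if P (fun i => v (i - 1)) then 1 else 0 := by
  ext1 v w
  rw [sM_apply]
  by_cases h : v = w
  · rw [h, Matrix.diagonal_apply_eq, Matrix.diagonal_apply_eq]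
    split_ifs
    · exact map_one _
    · exact map_zero _
  · rw [Matrix.diagonal_apply_ne _ h, Matrix.diagonal_apply_ne, map_zero]
    intro h1
    apply h
    funext i
    have h2 := congrFun h1 (i + 1)
    simp only [add_sub_cancel_right] at h2
    exact h2

theorem sM_diag_iter (P : (ZMod p → Y ⊕ Y') → Prop) [DecidablePred P] (j : ℕ) :
    (sM p B G (Y ⊕ Y') : MM p B G (Y ⊕ Y') → MM p B G (Y ⊕ Y'))^[j] (diagonal fun v => if P v then 1 else 0) =
      diagonal fun v => if P (fun i => v (i - (j : ZMod p))) then 1 else 0 := by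
  induction j with
  | zero => simp
  | succ j ih =>
    rw [Function.iterate_succ_apply', ih, sM_diag]
    congr 1
    funext v
    have h : (fun i => v (i - (j : ZMod p) - 1)) = fun i => v (i - ((j + 1 : ℕ) : ZMod p)) := by
      funext i
      congr 1
      push_cast
      ring
    refine if_congr ?_ rfl rfl
    show P (fun i => v (i - (j : ZMod p) - 1)) ↔ _
    rw [h]

theorem sM_Em : sM p B G (Y ⊕ Y') (Em p Y Y' _) = Em p Y Y' _ := by
  rw [Em_eq, sM_diag]
  congr 1
  funext v
  refine if_congr ⟨fun h => ⟨fun h1 => h.1 (ty_shift_const' h1), fun h1 => h.2 (ty_shift_const' h1)⟩,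
    fun h => ⟨fun h1 => h.1 (ty_shift_const h1), fun h1 => h.2 (ty_shift_const h1)⟩⟩ rfl rfl

/-- **The norm of the chosen idempotent.** -/
theorem nm_eM : (shM p B G (Y ⊕ Y')).nm (eM p Y Y' _) = Em p Y Y' _ := by
  classical
  rw [Sh.nm_apply, Em_eq]
  have h1 : ∀ j : ℕ, ((shM p B G (Y ⊕ Y')).s : MM p B G (Y ⊕ Y') → MM p B G (Y ⊕ Y'))^[j] (eM p Y Y' _) =
      diagonal fun v => if Ch p (ty fun i => v (i - (j : ZMod p))) then 1 else 0 := fun j => sM_diag_iter (fun v => Ch p (ty v)) j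
  rw [Finset.sum_congr rfl fun j _ => h1 j]
  ext1 v w
  rw [Matrix.sum_apply]
  by_cases h : v = w
  · rw [h, Matrix.diagonal_apply_eq]
    simp only [Matrix.diagonal_apply_eq]
    by_cases hc : ∃ i, ty w i ≠ ty w 0
    · obtain ⟨j, ⟨hj, hj1⟩, hj2⟩ := ch_unique (ty w) hc
      rw [Finset.sum_eq_single j]
      · have h2 : Ch p (ty fun i => w (i - (j : ZMod p))) := hj1
        rw [if_pos h2, if_pos]
        obtain ⟨i, hi⟩ := hc
        exact ⟨fun h3 => hi (by rw [h3]), fun h3 => hi (by rw [h3])⟩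
      · intro k hk hkj
        rw [if_neg]
        intro h2
        exact hkj (hj2 k ⟨Finset.mem_range.1 hk, h2⟩)
      · intro h2
        exact absurd (Finset.mem_range.2 hj) h2
    · push Not at hc
      have h2 : ty w = fun _ => ty w 0 := funext hc
      rw [Finset.sum_eq_zero]
      · rw [if_neg]
        rintro ⟨h3, h4⟩
        cases h5 : ty w 0 with
        | true => rw [h5] at h2; exact h3 h2
        | false => rw [h5] at h2; exact h4 h2
      · intro k _
        rw [if_neg]
        have h3 : (ty fun i => w (i - (k : ZMod p))) = fun _ => ty w 0 := by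
          funext i
          exact congrFun h2 (i - (k : ZMod p))
        rw [h3]
        exact ch_const _
  · rw [Matrix.diagonal_apply_ne _ h]
    exact Finset.sum_eq_zero fun j _ => Matrix.diagonal_apply_ne _ h

/-- block sums of matrices -/
noncomputable def bX (U : Matrix Y Y (MonoidAlgebra B G)) (V : Matrix Y' Y' (MonoidAlgebra B G)) :
    Matrix (Y ⊕ Y') (Y ⊕ Y') (MonoidAlgebra B G) := fromBlocks U 0 0 V

/-- an entry of a block sum between different types vanishes -/
theorem bX_zero (U : Matrix Y Y (MonoidAlgebra B G)) (V : Matrix Y' Y' (MonoidAlgebra B G)) {a b : Y ⊕ Y'} (h : a.isLeft ≠ b.isLeft) :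
    bX U V a b = 0 := by
  cases a with
  | inl a =>
    cases b with
    | inl b => exact absurd rfl h
    | inr b => rfl
  | inr a =>
    cases b with
    | inl b => rfl
    | inr b => exact absurd rfl h

theorem tpM_bX_zero (U : Matrix Y Y (MonoidAlgebra B G)) (V : Matrix Y' Y' (MonoidAlgebra B G)) {v w : ZMod p → Y ⊕ Y'} (h : ty v ≠ ty w) :
    (tpM (bX U V) : MM p B G (Y ⊕ Y')) v w = 0 := by
  obtain ⟨i, hi⟩ := Function.ne_iff.1 h
  rw [tpM_apply]
  exact tp_zero _ i (bX_zero U V hi)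

/-- a diagonal idempotent which depends only on the type commutes with the tensor powers of block sums -/
theorem diag_tpM (P : (ZMod p → Bool) → Prop) [DecidablePred P] (U : Matrix Y Y (MonoidAlgebra B G)) (V : Matrix Y' Y' (MonoidAlgebra B G)) :
    (diagonal fun v : ZMod p → Y ⊕ Y' => if P (ty v) then (1 : MonoidAlgebra B (ZMod p → G)) else 0) * tpM (bX U V) =
      tpM (bX U V) * diagonal fun v => if P (ty v) then 1 else 0 := by
  ext1 v w
  rw [Matrix.diagonal_mul, Matrix.mul_diagonal]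
  by_cases h : ty v = ty w
  · rw [h]
    split_ifs
    · rw [one_mul, mul_one]
    · rw [zero_mul, mul_zero]
  · rw [tpM_bX_zero U V h, zero_mul, mul_zero]

/-- the chosen idempotent commutes with the tensor powers of block sums -/
theorem eM_tpM (U : Matrix Y Y (MonoidAlgebra B G)) (V : Matrix Y' Y' (MonoidAlgebra B G)) :
    eM p Y Y' _ * (tpM (bX U V) : MM p B G (Y ⊕ Y')) = tpM (bX U V) * eM p Y Y' _ := by
  classical
  unfold eM
  ext1 v w
  rw [Matrix.diagonal_mul, Matrix.mul_diagonal]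
  by_cases h : ty v = ty w
  · rw [h]
    split_ifs
    · rw [one_mul, mul_one]
    · rw [zero_mul, mul_zero]
  · rw [tpM_bX_zero U V h, zero_mul, mul_zero]

/-- **The tensor power of a block sum.** -/
theorem tpM_blk (U : Matrix Y Y (MonoidAlgebra B G)) (V : Matrix Y' Y' (MonoidAlgebra B G)) :
    (tpM (bX U V) : MM p B G (Y ⊕ Y')) =
      cL (tpM U) + cR (tpM V) + Em p Y Y' _ * tpM (bX U V) := by
  classical
  ext1 v w
  rw [Matrix.add_apply, Matrix.add_apply, Em_eq, Matrix.diagonal_mul]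
  by_cases hv : ty v = fun _ => true
  · have hv' : ty v ≠ fun _ => false := fun h => true_ne_false_fun (hv.symm.trans h)
    rw [cR_left _ hv', if_neg (fun h => h.1 hv), zero_mul, add_zero, add_zero]
    by_cases hw : ty w = fun _ => true
    · obtain ⟨x, rfl⟩ := exists_inl hv
      obtain ⟨y, rfl⟩ := exists_inl hw
      rw [cL_inl]
      rfl
    · rw [cL_right _ _ hw, tpM_bX_zero U V (fun h => hw (h.symm.trans hv))]
  · by_cases hv' : ty v = fun _ => false
    · rw [cL_left _ hv, if_neg (fun h => h.2 hv'), zero_mul, add_zero, zero_add]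
      by_cases hw : ty w = fun _ => false
      · obtain ⟨x, rfl⟩ := exists_inr hv'
        obtain ⟨y, rfl⟩ := exists_inr hw
        rw [cR_inr]
        rfl
      · rw [cR_right _ _ hw, tpM_bX_zero U V (fun h => hw (h.symm.trans hv'))]
    · rw [cL_left _ hv, cR_left _ hv', if_pos ⟨hv, hv'⟩, one_mul, add_zero, zero_add]

theorem Em_tpM (U : Matrix Y Y (MonoidAlgebra B G)) (V : Matrix Y' Y' (MonoidAlgebra B G)) :
    Em p Y Y' _ * (tpM (bX U V) : MM p B G (Y ⊕ Y')) = tpM (bX U V) * Em p Y Y' _ := by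
  rw [Em_eq]
  ext1 v w
  rw [Matrix.diagonal_mul, Matrix.mul_diagonal]
  by_cases h : ty v = ty w
  · rw [h]
    split_ifs
    · rw [one_mul, mul_one]
    · rw [zero_mul, mul_zero]
  · rw [tpM_bX_zero U V h, zero_mul, mul_zero]

theorem dgM_not_const (U : Matrix Y Y (MonoidAlgebra B G)) {v w : ZMod p → Y} (h : ¬ ((∀ i, v i = v 0) ∧ ∀ i, w i = w 0)) :
    (dgM U : MM p B G Y) v w = 0 := by
  unfold dgM
  rw [if_neg h]

theorem dgM_of_const (U : Matrix Y Y (MonoidAlgebra B G)) {v w : ZMod p → Y} (h : (∀ i, v i = v 0) ∧ ∀ i, w i = w 0) :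
    (dgM U : MM p B G Y) v w = MonoidAlgebra.mapDomainRingHom B (dgG p G) (U (v 0) (w 0)) := by
  unfold dgM
  rw [if_pos h]

/-- the diagonal matrix of a block sum -/
theorem dgM_blk (U : Matrix Y Y (MonoidAlgebra B G)) (V : Matrix Y' Y' (MonoidAlgebra B G)) :
    (dgM (bX U V) : MM p B G (Y ⊕ Y')) = cL (dgM U) + cR (dgM V) := by
  ext1 v w
  rw [Matrix.add_apply]
  have hz : ty v ≠ ty w → (dgM (bX U V) : MM p B G (Y ⊕ Y')) v w = 0 := by
    intro h
    by_cases hc : (∀ i, v i = v 0) ∧ ∀ i, w i = w 0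
    · rw [dgM_of_const _ hc, bX_zero, map_zero]
      intro h0
      apply h
      funext i
      show (v i).isLeft = (w i).isLeft
      rw [hc.1 i, hc.2 i, h0]
    · exact dgM_not_const _ hc
  by_cases hv : ty v = fun _ => true
  · have hv' : ty v ≠ fun _ => false := fun h => true_ne_false_fun (hv.symm.trans h)
    rw [cR_left _ hv', add_zero]
    by_cases hw : ty w = fun _ => true
    · obtain ⟨x, rfl⟩ := exists_inl hv
      obtain ⟨y, rfl⟩ := exists_inl hw
      rw [cL_inl]
      by_cases hc : (∀ i, x i = x 0) ∧ ∀ i, y i = y 0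
      · rw [dgM_of_const _ hc, dgM_of_const]
        · rfl
        · exact ⟨fun i => congrArg Sum.inl (hc.1 i), fun i => congrArg Sum.inl (hc.2 i)⟩
      · rw [dgM_not_const _ hc, dgM_not_const]
        intro h
        exact hc ⟨fun i => Sum.inl_injective (h.1 i), fun i => Sum.inl_injective (h.2 i)⟩
    · rw [cL_right _ _ hw, hz (fun h => hw (h.symm.trans hv))]
  · by_cases hv' : ty v = fun _ => false
    · rw [cL_left _ hv, zero_add]
      by_cases hw : ty w = fun _ => false
      · obtain ⟨x, rfl⟩ := exists_inr hv'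
        obtain ⟨y, rfl⟩ := exists_inr hw
        rw [cR_inr]
        by_cases hc : (∀ i, x i = x 0) ∧ ∀ i, y i = y 0
        · rw [dgM_of_const _ hc, dgM_of_const]
          · rfl
          · exact ⟨fun i => congrArg Sum.inr (hc.1 i), fun i => congrArg Sum.inr (hc.2 i)⟩
        · rw [dgM_not_const _ hc, dgM_not_const]
          intro h
          exact hc ⟨fun i => Sum.inr_injective (h.1 i), fun i => Sum.inr_injective (h.2 i)⟩
      · rw [cR_right _ _ hw, hz (fun h => hw (h.symm.trans hv'))]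
    · rw [cL_left _ hv, cR_left _ hv', add_zero, dgM_not_const]
      intro h
      have h1 : ∀ i, ty v i = ty v 0 := fun i => by
        show (v i).isLeft = (v 0).isLeft
        rw [h.1 i]
      cases h5 : ty v 0 with
      | true => exact hv (funext fun i => (h1 i).trans h5)
      | false => exact hv' (funext fun i => (h1 i).trans h5)

theorem beM_blk (U : Matrix Y Y (MonoidAlgebra B G)) (V : Matrix Y' Y' (MonoidAlgebra B G)) :
    (beM (bX U V) : MM p B G (Y ⊕ Y')) = cL (beM U) + cR (beM V) + Em p Y Y' _ := by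
  have h1 : (bX (1 : Matrix Y Y (MonoidAlgebra B G)) (1 : Matrix Y' Y' (MonoidAlgebra B G))) = 1 := fromBlocks_one
  have h2 : (dgM (1 : Matrix (Y ⊕ Y') (Y ⊕ Y') (MonoidAlgebra B G)) : MM p B G (Y ⊕ Y')) = cL (dgM 1) + cR (dgM 1) := by
    rw [← h1, dgM_blk]
  have h3 : (cL (1 : MM p B G Y) : MM p B G (Y ⊕ Y')) = PL p Y Y' _ * (PL p Y Y' _)ᵀ := by
    unfold cL
    rw [Matrix.mul_one]
    rfl
  have h4 : (cR (1 : MM p B G Y') : MM p B G (Y ⊕ Y')) = PR p Y Y' _ * (PR p Y Y' _)ᵀ := by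
    unfold cR
    rw [Matrix.mul_one]
    rfl
  have h5 : (1 : MM p B G (Y ⊕ Y')) - cL 1 - cR 1 = Em p Y Y' _ := by
    rw [h3, h4]
    rfl
  rw [beM_apply, beM_apply, beM_apply, h2, dgM_blk, cL_add, cL_sub, cR_add, cR_sub, ← h5]
  abel

end

end Pool.Agent.H71.CZ
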