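import Pool.Agent.H71.FQ.KQ

/-!
# Project CZ: classes in `KQ` of representations by matrices with arbitrary finite index sets

PROOFS.  `rxU e` is the reindexing.  `clX_equiv`: `rxU` of the two bijections with `Fin (card X)` differ by a permutation of
`Fin (card X)`, i.e. a conjugation by a permutation matrix: `HG.map_conj`; `card X = card Y` has to be substituted.
`clX_sum`: choose `e : X ≃ Fin N`, `e' : Y ≃ Fin M`; `KQ.cls_sum` for `finSumFinEquiv`, and `clX_equiv`.  `clX_congr`: from `KQ.cls_congr` by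
reindexing, or from `clX_sum`, `clX_one` and `HG.map_conj` directly.
-/

set_option autoImplicit false

open Matrix

universe u v w

namespace Pool.Agent.H71.CZ

open Pool.Agent.H71.FQ

section

variable {A : Type u} [Ring A] {n : ℕ}

/-- reindexing of matrices -/
def rxU {X Y : Type} [Fintype X] [DecidableEq X] [Fintype Y] [DecidableEq Y] (e : X ≃ Y) :
    (Matrix X X A)ˣ →* (Matrix Y Y A)ˣ :=
  Units.map (Matrix.reindexRingEquiv A e).toRingHom.toMonoidHom

theorem rxU_apply {X Y : Type} [Fintype X] [DecidableEq X] [Fintype Y] [DecidableEq Y] (e : X ≃ Y)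
    (U : (Matrix X X A)ˣ) (i j : Y) : (rxU e U).val i j = U.val (e.symm i) (e.symm j) := rfl

variable (A n) in
/-- the class of a homology class of the matrices with index set `X` -/
noncomputable def clX (X : Type) [Fintype X] [DecidableEq X] :
    HG (Matrix X X A)ˣ n →+ KQ A n :=
  (KQ.cls A n (Fintype.card X)).comp (HG.map n (rxU (Fintype.equivFin X)))

variable {X Y : Type} [Fintype X] [DecidableEq X] [Fintype Y] [DecidableEq Y]

/-- the permutation matrix -/
def pmU (τ : X ≃ X) : (Matrix X X A)ˣ where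
  val := (1 : Matrix X X A).submatrix τ (Equiv.refl X)
  inv := (1 : Matrix X X A).submatrix (Equiv.refl X) τ
  val_inv := by rw [submatrix_mul_equiv, mul_one, submatrix_one_equiv]
  inv_val := by
    have h : (1 : Matrix X X A).submatrix (Equiv.refl X) τ * (1 : Matrix X X A).submatrix τ
        (Equiv.refl X) = ((1 : Matrix X X A) * 1).submatrix (Equiv.refl X) (Equiv.refl X) :=
      submatrix_mul_equiv _ _ _ _ _
    rw [h, mul_one, submatrix_one_equiv]

theorem pmU_mul (τ : X ≃ X) (U : Matrix X X A) :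
    (pmU (A := A) τ).val * U = U.submatrix τ (Equiv.refl X) := by
  have h : (1 : Matrix X X A).submatrix τ (Equiv.refl X) * U.submatrix (Equiv.refl X)
      (Equiv.refl X) = ((1 : Matrix X X A) * U).submatrix τ (Equiv.refl X) :=
    submatrix_mul_equiv _ _ _ _ _
  rw [one_mul] at h
  exact h

theorem mul_pmU (τ : X ≃ X) (U : Matrix X X A) :
    U.submatrix τ τ * (pmU (A := A) τ).val = U.submatrix τ (Equiv.refl X) := by
  have h : U.submatrix τ τ * (1 : Matrix X X A).submatrix τ (Equiv.refl X) =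
      (U * (1 : Matrix X X A)).submatrix τ (Equiv.refl X) := submatrix_mul_equiv _ _ _ _ _
  rw [mul_one] at h
  exact h

theorem cls_rxU {N M : ℕ} (e : X ≃ Fin N) (e' : X ≃ Fin M) (x : HG (Matrix X X A)ˣ n) :
    KQ.cls A n N (HG.map n (rxU e) x) = KQ.cls A n M (HG.map n (rxU e') x) := by
  obtain rfl : N = M := by
    have h := Fintype.card_congr (e.symm.trans e')
    rwa [Fintype.card_fin, Fintype.card_fin] at h
  congr 1
  refine HG.map_conj _ _ (pmU (A := A) (e.symm.trans e')) ?_ x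
  intro U
  rw [eq_mul_inv_iff_mul_eq]
  refine Units.ext ?_
  show (rxU e U).val * (pmU (A := A) (e.symm.trans e')).val =
    (pmU (A := A) (e.symm.trans e')).val * (rxU e' U).val
  have h : (rxU e U).val = (rxU e' U).val.submatrix (e.symm.trans e') (e.symm.trans e') := by
    ext i j
    rw [submatrix_apply, rxU_apply, rxU_apply, Equiv.trans_apply, Equiv.trans_apply,
      Equiv.symm_apply_apply, Equiv.symm_apply_apply]
  rw [h, mul_pmU, pmU_mul]

theorem clX_eq {N : ℕ} (e : X ≃ Fin N) (x : HG (Matrix X X A)ˣ n) :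
    clX A n X x = KQ.cls A n N (HG.map n (rxU e) x) := cls_rxU (Fintype.equivFin X) e x

theorem clX_equiv (e : X ≃ Y) (x : HG (Matrix X X A)ˣ n) :
    clX A n Y (HG.map n (rxU e) x) = clX A n X x := by
  rw [clX_eq (e.trans (Fintype.equivFin Y)) x]
  show KQ.cls A n _ (HG.map n (rxU (Fintype.equivFin Y)) (HG.map n (rxU e) x)) = _
  rw [HG.map_map]
  rfl

theorem clX_fin (N : ℕ) (x : HG (GLm N A) n) : clX A n (Fin N) x = KQ.cls A n N x := by
  rw [clX_eq (Equiv.refl (Fin N)) x]
  congr 1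
  exact HG.map_id x

/-- conjugation by a matrix -/
theorem clX_conj {Γ : Type w} [Group Γ] (f g : Γ →* (Matrix X X A)ˣ) (W : (Matrix X X A)ˣ)
    (h : ∀ γ, W.val * (f γ).val = (g γ).val * W.val) (x : HG Γ n) :
    clX A n X (HG.map n f x) = clX A n X (HG.map n g x) := by
  congr 1
  refine (HG.map_conj f g W (fun γ => ?_) x).symm
  rw [eq_mul_inv_iff_mul_eq]
  exact Units.ext (h γ).symm

/-- **Block sums.** -/
theorem clX_sum {Γ : Type w} [Group Γ] (f : Γ →* (Matrix X X A)ˣ) (g : Γ →* (Matrix Y Y A)ˣ)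
    (h : Γ →* (Matrix (X ⊕ Y) (X ⊕ Y) A)ˣ)
    (hh : ∀ γ, (h γ).val = fromBlocks (f γ).val 0 0 (g γ).val) (x : HG Γ n) :
    clX A n (X ⊕ Y) (HG.map n h x) = clX A n X (HG.map n f x) + clX A n Y (HG.map n g x) := by
  rw [clX_eq ((Equiv.sumCongr (Fintype.equivFin X) (Fintype.equivFin Y)).trans finSumFinEquiv)
    (HG.map n h x), clX_eq (Fintype.equivFin X) (HG.map n f x),
    clX_eq (Fintype.equivFin Y) (HG.map n g x), HG.map_map, HG.map_map, HG.map_map]
  refine KQ.cls_sum _ _ _ (fun γ => ?_) x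
  show (rxU _ (h γ)).val = blkM (rxU _ (f γ)).val (rxU _ (g γ)).val
  ext i j
  rw [rxU_apply, hh, blkM, submatrix_apply, Equiv.symm_trans_apply, Equiv.symm_trans_apply]
  generalize finSumFinEquiv.symm i = a
  generalize finSumFinEquiv.symm j = b
  rcases a with a | a <;> rcases b with b | b <;> rfl

/-- the block sum -/
def blkX : (Matrix X X A)ˣ × (Matrix Y Y A)ˣ →* (Matrix (X ⊕ Y) (X ⊕ Y) A)ˣ where
  toFun w := ⟨fromBlocks w.1.val 0 0 w.2.val, fromBlocks w.1.inv 0 0 w.2.inv, by
    rw [fromBlocks_multiply, Units.val_inv, Units.val_inv]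
    simp, by
    rw [fromBlocks_multiply, Units.inv_val, Units.inv_val]
    simp⟩
  map_one' := Units.ext fromBlocks_one
  map_mul' w w' := Units.ext (by
    show fromBlocks (w.1.val * w'.1.val) 0 0 (w.2.val * w'.2.val) =
      fromBlocks w.1.val 0 0 w.2.val * fromBlocks w'.1.val 0 0 w'.2.val
    rw [fromBlocks_multiply]
    simp)

theorem clX_one {Γ : Type w} [Group Γ] (x : HG Γ n) :
    clX A n X (HG.map n (1 : Γ →* (Matrix X X A)ˣ) x) = 0 := by
  rw [HG.map_one, map_zero]

/-- **Representations which are conjugate after adding trivial blocks.** -/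
theorem clX_congr {Γ : Type w} [Group Γ] (f : Γ →* (Matrix X X A)ˣ) (g : Γ →* (Matrix Y Y A)ˣ)
    (W : (Matrix (X ⊕ Y) (X ⊕ Y) A)ˣ)
    (h : ∀ γ, fromBlocks (f γ).val 0 0 1 * W.val = W.val * fromBlocks 1 0 0 (g γ).val)
    (x : HG Γ n) : clX A n X (HG.map n f x) = clX A n Y (HG.map n g x) := by
  have h1 := clX_sum f (1 : Γ →* (Matrix Y Y A)ˣ) (blkX.comp (f.prod 1)) (fun γ => rfl) x
  have h2 := clX_sum (1 : Γ →* (Matrix X X A)ˣ) g (blkX.comp (MonoidHom.prod 1 g))
    (fun γ => rfl) x
  rw [clX_one, add_zero] at h1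
  rw [clX_one, zero_add] at h2
  rw [← h1, ← h2]
  exact (clX_conj (blkX.comp (MonoidHom.prod 1 g)) (blkX.comp (f.prod 1)) W
    (fun γ => (h γ).symm) x).symm

/-- functoriality -/
def mapX {A' : Type v} [Ring A'] (f : A →+* A') (X : Type) [Fintype X] [DecidableEq X] :
    (Matrix X X A)ˣ →* (Matrix X X A')ˣ := Units.map f.mapMatrix.toMonoidHom

theorem map_clX {A' : Type v} [Ring A'] (f : A →+* A') (x : HG (Matrix X X A)ˣ n) :
    KQ.map f (clX A n X x) = clX A' n X (HG.map n (mapX f X) x) := by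
  show KQ.map f (KQ.cls A n _ (HG.map n (rxU (Fintype.equivFin X)) x)) =
    KQ.cls A' n _ (HG.map n (rxU (Fintype.equivFin X)) (HG.map n (mapX f X) x))
  rw [KQ.map_cls, HG.map_map, HG.map_map]
  rfl

end

end Pool.Agent.H71.CZ
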