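import Pool.Agent.H71.CZ.BlkA
import Pool.Agent.H71.CZ.ClsX

/-!
# Project CZ: block sums, the homomorphisms `Φ` and `Ψ`

`Φ((X, X'), (U, V)) = b + z Σ` with `b = cL b_X + cR b_X' + Em`, `z = cL z_X + cR z_X' + eM * (T - 1)`, `T = tpM (bX U V)`;
`Ψ(((a, b), (a', b')), (U, V)) = (cL a + cR a' + Em * T, cL b + cR b' + Em)`.

PROOFS.  `N(eM * (T - 1)) = N(eM) * (T - 1) = Em * T - Em` (`Sh.nm_mul_right`, `nm_eM`, `s_tpM`); `N(cL z) = cL (N z)` (`sM_cL`), so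
`b + N z = cL a_X + cR a_X' + Em * T`.  Multiplicativity of `Φ` (`dt_ext`): `z_X a_Y + b_X z_Y` on the mixed part is
`eM (T - 1) Em T' + Em eM (T' - 1) = eM (T T' - 1)` (`eM_tpM`, `Em_tpM`, `eM_Em`, `Em_eM`); the products of different blocks vanish
(`PL_PR`, `PL_Em`, `PL_eM`, ...: `cL_mul_cR` etc. below).
-/

set_option autoImplicit false

open Matrix

universe u v w

namespace Pool.Agent.H71.CZ

section

variable {p : ℕ} [hp : Fact p.Prime] {Y Y' : Type} [Fintype Y] [DecidableEq Y] [Fintype Y']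
  [DecidableEq Y'] {B : Type} [CommRing B] {G : Type v} [Group G]

theorem cL_mul (m m' : MM p B G Y) : cL (Y' := Y') m * cL m' = cL (m * m') := by
  unfold cL
  have h : PL p Y Y' (MonoidAlgebra B (ZMod p → G)) * m * (PL p Y Y' (MonoidAlgebra B (ZMod p → G)))ᵀ *
      (PL p Y Y' (MonoidAlgebra B (ZMod p → G)) * m' * (PL p Y Y' (MonoidAlgebra B (ZMod p → G)))ᵀ) =
      PL p Y Y' (MonoidAlgebra B (ZMod p → G)) * (m * (((PL p Y Y' (MonoidAlgebra B (ZMod p → G)))ᵀ *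
        PL p Y Y' (MonoidAlgebra B (ZMod p → G))) * m')) * (PL p Y Y' (MonoidAlgebra B (ZMod p → G)))ᵀ := by
    simp only [Matrix.mul_assoc]
  rw [h, PL_PL, Matrix.one_mul]

theorem cR_mul (m m' : MM p B G Y') : cR (Y := Y) m * cR m' = cR (m * m') := by
  unfold cR
  have h : PR p Y Y' (MonoidAlgebra B (ZMod p → G)) * m * (PR p Y Y' (MonoidAlgebra B (ZMod p → G)))ᵀ *
      (PR p Y Y' (MonoidAlgebra B (ZMod p → G)) * m' * (PR p Y Y' (MonoidAlgebra B (ZMod p → G)))ᵀ) =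
      PR p Y Y' (MonoidAlgebra B (ZMod p → G)) * (m * (((PR p Y Y' (MonoidAlgebra B (ZMod p → G)))ᵀ *
        PR p Y Y' (MonoidAlgebra B (ZMod p → G))) * m')) * (PR p Y Y' (MonoidAlgebra B (ZMod p → G)))ᵀ := by
    simp only [Matrix.mul_assoc]
  rw [h, PR_PR, Matrix.one_mul]

theorem cL_mul_cR (m : MM p B G Y) (m' : MM p B G Y') : cL (Y' := Y') m * cR m' = 0 := by
  unfold cL cR
  have h : PL p Y Y' (MonoidAlgebra B (ZMod p → G)) * m * (PL p Y Y' (MonoidAlgebra B (ZMod p → G)))ᵀ *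
      (PR p Y Y' (MonoidAlgebra B (ZMod p → G)) * m' * (PR p Y Y' (MonoidAlgebra B (ZMod p → G)))ᵀ) =
      PL p Y Y' (MonoidAlgebra B (ZMod p → G)) * (m * (((PL p Y Y' (MonoidAlgebra B (ZMod p → G)))ᵀ *
        PR p Y Y' (MonoidAlgebra B (ZMod p → G))) * m')) * (PR p Y Y' (MonoidAlgebra B (ZMod p → G)))ᵀ := by
    simp only [Matrix.mul_assoc]
  rw [h, PL_PR, Matrix.zero_mul, Matrix.mul_zero, Matrix.mul_zero, Matrix.zero_mul]

theorem cR_mul_cL (m : MM p B G Y) (m' : MM p B G Y') : cR (Y := Y) m' * cL m = 0 := by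
  unfold cL cR
  have h : PR p Y Y' (MonoidAlgebra B (ZMod p → G)) * m' * (PR p Y Y' (MonoidAlgebra B (ZMod p → G)))ᵀ *
      (PL p Y Y' (MonoidAlgebra B (ZMod p → G)) * m * (PL p Y Y' (MonoidAlgebra B (ZMod p → G)))ᵀ) =
      PR p Y Y' (MonoidAlgebra B (ZMod p → G)) * (m' * (((PR p Y Y' (MonoidAlgebra B (ZMod p → G)))ᵀ *
        PL p Y Y' (MonoidAlgebra B (ZMod p → G))) * m)) * (PL p Y Y' (MonoidAlgebra B (ZMod p → G)))ᵀ := by
    simp only [Matrix.mul_assoc]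
  rw [h, PR_PL, Matrix.zero_mul, Matrix.mul_zero, Matrix.mul_zero, Matrix.zero_mul]

theorem cL_Em (m : MM p B G Y) : cL (Y' := Y') m * Em p Y Y' _ = 0 := by
  unfold cL
  rw [Matrix.mul_assoc, PL_Em, Matrix.mul_zero]

theorem Em_cL (m : MM p B G Y) : Em p Y Y' _ * cL (Y' := Y') m = 0 := by
  unfold cL
  rw [← Matrix.mul_assoc, ← Matrix.mul_assoc, Em_PL, Matrix.zero_mul, Matrix.zero_mul]

theorem cR_Em (m : MM p B G Y') : cR (Y := Y) m * Em p Y Y' _ = 0 := by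
  unfold cR
  rw [Matrix.mul_assoc, PR_Em, Matrix.mul_zero]

theorem Em_cR (m : MM p B G Y') : Em p Y Y' _ * cR (Y := Y) m = 0 := by
  unfold cR
  rw [← Matrix.mul_assoc, ← Matrix.mul_assoc, Em_PR, Matrix.zero_mul, Matrix.zero_mul]

theorem cL_eM (m : MM p B G Y) : cL (Y' := Y') m * eM p Y Y' _ = 0 := by
  unfold cL
  rw [Matrix.mul_assoc, PL_eM, Matrix.mul_zero]

theorem eM_cL (m : MM p B G Y) : eM p Y Y' _ * cL (Y' := Y') m = 0 := by
  unfold cL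
  rw [← Matrix.mul_assoc, ← Matrix.mul_assoc, eM_PL, Matrix.zero_mul, Matrix.zero_mul]

theorem cR_eM (m : MM p B G Y') : cR (Y := Y) m * eM p Y Y' _ = 0 := by
  unfold cR
  rw [Matrix.mul_assoc, PR_eM, Matrix.mul_zero]

theorem eM_cR (m : MM p B G Y') : eM p Y Y' _ * cR (Y := Y) m = 0 := by
  unfold cR
  rw [← Matrix.mul_assoc, ← Matrix.mul_assoc, eM_PR, Matrix.zero_mul, Matrix.zero_mul]

theorem cL_one_add (Y Y' : Type) [Fintype Y] [DecidableEq Y] [Fintype Y'] [DecidableEq Y'] :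
    cL (Y' := Y') (1 : MM p B G Y) + cR (1 : MM p B G Y') + Em p Y Y' _ = 1 := by
  have h := beM_blk (p := p) (1 : Matrix Y Y (MonoidAlgebra B G)) (1 : Matrix Y' Y' (MonoidAlgebra B G))
  rw [map_one, map_one, show bX (1 : Matrix Y Y (MonoidAlgebra B G)) (1 : Matrix Y' Y' (MonoidAlgebra B G)) = 1 from fromBlocks_one, map_one] at h
  exact h.symm

theorem iter_cL (m : MM p B G Y) (j : ℕ) :
    ((shM p B G (Y ⊕ Y')).s : MM p B G (Y ⊕ Y') → MM p B G (Y ⊕ Y'))^[j] (cL m) =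
      cL (((shM p B G Y).s : MM p B G Y → MM p B G Y)^[j] m) := by
  induction j with
  | zero => rfl
  | succ j ih =>
    rw [Function.iterate_succ_apply', Function.iterate_succ_apply', ih]
    exact sM_cL _

theorem iter_cR (m : MM p B G Y') (j : ℕ) :
    ((shM p B G (Y ⊕ Y')).s : MM p B G (Y ⊕ Y') → MM p B G (Y ⊕ Y'))^[j] (cR m) =
      cR (((shM p B G Y').s : MM p B G Y' → MM p B G Y')^[j] m) := by
  induction j with
  | zero => rfl
  | succ j ih =>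
    rw [Function.iterate_succ_apply', Function.iterate_succ_apply', ih]
    exact sM_cR _

theorem nm_cL (m : MM p B G Y) :
    (shM p B G (Y ⊕ Y')).nm (cL m) = cL ((shM p B G Y).nm m) := by
  rw [Sh.nm_apply, Sh.nm_apply]
  have h := map_sum (AddMonoidHom.mk' (fun m : MM p B G Y => (cL m : MM p B G (Y ⊕ Y'))) cL_add)
    (fun j => ((shM p B G Y).s : MM p B G Y → MM p B G Y)^[j] m) (Finset.range p)
  refine Eq.trans ?_ h.symm
  exact Finset.sum_congr rfl fun j _ => iter_cL m j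

theorem nm_cR (m : MM p B G Y') :
    (shM p B G (Y ⊕ Y')).nm (cR m) = cR ((shM p B G Y').nm m) := by
  rw [Sh.nm_apply, Sh.nm_apply]
  have h := map_sum (AddMonoidHom.mk' (fun m : MM p B G Y' => (cR m : MM p B G (Y ⊕ Y'))) cR_add)
    (fun j => ((shM p B G Y').s : MM p B G Y' → MM p B G Y')^[j] m) (Finset.range p)
  refine Eq.trans ?_ h.symm
  exact Finset.sum_congr rfl fun j _ => iter_cR m j

theorem nm_mix (U : (Matrix Y Y (MonoidAlgebra B G))ˣ)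
    (V : (Matrix Y' Y' (MonoidAlgebra B G))ˣ) :
    (shM p B G (Y ⊕ Y')).nm (eM p Y Y' _ * (tpM (bX U.val V.val) - 1)) =
      Em p Y Y' _ * tpM (bX U.val V.val) - Em p Y Y' _ := by
  have hs : (shM p B G (Y ⊕ Y')).s (tpM (bX U.val V.val) - 1) = tpM (bX U.val V.val) - 1 := by
    rw [map_sub, map_one]
    congr 1
    exact s_tpM _
  rw [Sh.nm_mul_right _ hs, nm_eM, mul_sub, mul_one]

section mix

variable (T T' : MM p B G (Y ⊕ Y')) (hT : eM p Y Y' _ * T = T * eM p Y Y' _) (hT' : Em p Y Y' _ * T = T * Em p Y Y' _)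

include hT in
theorem mixZ_cL (m : MM p B G Y) : eM p Y Y' _ * (T - 1) * cL m = 0 := by
  rw [mul_sub, mul_one, hT, sub_mul, mul_assoc, eM_cL, mul_zero, sub_zero]

include hT in
theorem mixZ_cR (m : MM p B G Y') : eM p Y Y' _ * (T - 1) * cR m = 0 := by
  rw [mul_sub, mul_one, hT, sub_mul, mul_assoc, eM_cR, mul_zero, sub_zero]

theorem cL_mixZ (m : MM p B G Y) : cL m * (eM p Y Y' _ * (T - 1)) = 0 := by
  rw [← mul_assoc, cL_eM, zero_mul]

theorem cR_mixZ (m : MM p B G Y') : cR m * (eM p Y Y' _ * (T - 1)) = 0 := by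
  rw [← mul_assoc, cR_eM, zero_mul]

theorem cL_EmT (m : MM p B G Y) : cL m * (Em p Y Y' _ * T) = 0 := by
  rw [← mul_assoc, cL_Em, zero_mul]

theorem cR_EmT (m : MM p B G Y') : cR m * (Em p Y Y' _ * T) = 0 := by
  rw [← mul_assoc, cR_Em, zero_mul]

include hT' in
theorem EmT_cL (m : MM p B G Y) : Em p Y Y' _ * T * cL m = 0 := by
  rw [hT', mul_assoc, Em_cL, mul_zero]

include hT' in
theorem EmT_cR (m : MM p B G Y') : Em p Y Y' _ * T * cR m = 0 := by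
  rw [hT', mul_assoc, Em_cR, mul_zero]

include hT' in
theorem EmT_EmT : Em p Y Y' _ * T * (Em p Y Y' _ * T') = Em p Y Y' _ * (T * T') := by
  rw [mul_assoc, ← mul_assoc T, ← hT', ← mul_assoc, ← mul_assoc, ← mul_assoc, Em_mul_Em]

include hT' in
theorem mixZ_EmT : eM p Y Y' _ * (T - 1) * (Em p Y Y' _ * T') = eM p Y Y' _ * (T * T') - eM p Y Y' _ * T' := by
  have h1 : (T - 1) * Em p Y Y' _ = Em p Y Y' _ * (T - 1) := by
    rw [sub_mul, one_mul, mul_sub, mul_one, hT']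
  rw [mul_assoc, ← mul_assoc (T - 1), h1, ← mul_assoc, ← mul_assoc, eM_Em, mul_sub, mul_one, sub_mul, mul_assoc]

theorem Em_mixZ : Em p Y Y' _ * (eM p Y Y' _ * (T - 1)) = eM p Y Y' _ * T - eM p Y Y' _ := by
  rw [← mul_assoc, Em_eM, mul_sub, mul_one]

end mix

variable (p B G Y Y') in
/-- the source of `Φ` -/
abbrev GP : Type v := ((Dt (shM p B G Y))ˣ × (Dt (shM p B G Y'))ˣ) ×
  ((Matrix Y Y (MonoidAlgebra B G))ˣ × (Matrix Y' Y' (MonoidAlgebra B G))ˣ)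

variable (p B G Y Y') in
/-- the source of `Ψ` -/
abbrev GQ : Type v := ((Dd (shM p B G Y))ˣ × (Dd (shM p B G Y'))ˣ) ×
  ((Matrix Y Y (MonoidAlgebra B G))ˣ × (Matrix Y' Y' (MonoidAlgebra B G))ˣ)

/-- the part `b` of `Φ` -/
noncomputable def phB (γ : GP p Y Y' B G) : MM p B G (Y ⊕ Y') :=
  cL (γ.1.1.val.1 1 1) + cR (γ.1.2.val.1 1 1) + Em p Y Y' _

/-- the part `z` of `Φ` -/
noncomputable def phZ (γ : GP p Y Y' B G) : MM p B G (Y ⊕ Y') :=
  cL (γ.1.1.val.1 1 0) + cR (γ.1.2.val.1 1 0) +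
    eM p Y Y' _ * (tpM (bX γ.2.1.val γ.2.2.val) - 1)

theorem s_phB (γ : GP p Y Y' B G) : (shM p B G (Y ⊕ Y')).s (phB γ) = phB γ := by
  unfold phB
  rw [map_add, map_add]
  have h1 : (shM p B G (Y ⊕ Y')).s (cL (γ.1.1.val.1 1 1)) = cL (γ.1.1.val.1 1 1) := by
    refine (sM_cL _).trans ?_
    congr 1
    exact γ.1.1.val.2.2.1
  have h2 : (shM p B G (Y ⊕ Y')).s (cR (γ.1.2.val.1 1 1)) = cR (γ.1.2.val.1 1 1) := by
    refine (sM_cR _).trans ?_
    congr 1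
    exact γ.1.2.val.2.2.1
  have h3 : (shM p B G (Y ⊕ Y')).s (Em p Y Y' _) = Em p Y Y' _ := sM_Em
  rw [h1, h2, h3]

/-- the part `b + N z` of `Φ` -/
noncomputable def phA (γ : GP p Y Y' B G) : MM p B G (Y ⊕ Y') :=
  cL (γ.1.1.val.1 0 0) + cR (γ.1.2.val.1 0 0) + Em p Y Y' _ * tpM (bX γ.2.1.val γ.2.2.val)

theorem phB_add_nm (γ : GP p Y Y' B G) : phB γ + (shM p B G (Y ⊕ Y')).nm (phZ γ) = phA γ := by
  unfold phB phZ phA
  rw [map_add, map_add, nm_cL, nm_cR, nm_mix, γ.1.1.val.2.2.2, γ.1.2.val.2.2.2, cL_add, cR_add]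
  abel

theorem bX_mul (U U' : Matrix Y Y (MonoidAlgebra B G)) (V V' : Matrix Y' Y' (MonoidAlgebra B G)) :
    bX (U * U') (V * V') = bX U V * bX U' V' := by
  unfold bX
  rw [fromBlocks_multiply]
  simp

theorem bX_one : bX (1 : Matrix Y Y (MonoidAlgebra B G)) (1 : Matrix Y' Y' (MonoidAlgebra B G)) = 1 := fromBlocks_one

theorem cL_zero : (cL (0 : MM p B G Y) : MM p B G (Y ⊕ Y')) = 0 := by
  unfold cL
  rw [Matrix.mul_zero, Matrix.zero_mul]

theorem cR_zero : (cR (0 : MM p B G Y') : MM p B G (Y ⊕ Y')) = 0 := by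
  unfold cR
  rw [Matrix.mul_zero, Matrix.zero_mul]

theorem dt_mul11 {M : Type*} [Ring M] {σ : Sh p M} (X Y : Dt σ) : (X * Y).1 1 1 = X.1 1 1 * Y.1 1 1 := by
  have h : (X * Y).1 1 1 = (X.1 * Y.1) 1 1 := rfl
  rw [h, Matrix.mul_apply, Fin.sum_univ_two, Y.2.1, mul_zero, zero_add]

theorem dt_mul10 {M : Type*} [Ring M] {σ : Sh p M} (X Y : Dt σ) : (X * Y).1 1 0 = X.1 1 0 * Y.1 0 0 + X.1 1 1 * Y.1 1 0 := by
  have h : (X * Y).1 1 0 = (X.1 * Y.1) 1 0 := rfl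
  rw [h, Matrix.mul_apply, Fin.sum_univ_two]

theorem dt_one11 {M : Type*} [Ring M] {σ : Sh p M} : (1 : Dt σ).1 1 1 = 1 := by
  show (1 : Matrix (Fin 2) (Fin 2) M) 1 1 = 1
  simp

theorem dt_one10 {M : Type*} [Ring M] {σ : Sh p M} : (1 : Dt σ).1 1 0 = 0 := by
  show (1 : Matrix (Fin 2) (Fin 2) M) 1 0 = 0
  simp

theorem phB_mul (γ γ' : GP p Y Y' B G) : phB (γ * γ') = phB γ * phB γ' := by
  have h1 : phB (γ * γ') = cL ((γ.1.1.val * γ'.1.1.val).1 1 1) + cR ((γ.1.2.val * γ'.1.2.val).1 1 1) + Em p Y Y' _ := rfl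
  rw [h1, dt_mul11, dt_mul11]
  unfold phB
  simp only [mul_add, add_mul, cL_mul, cR_mul, cL_mul_cR, cR_mul_cL, cL_Em, cR_Em, Em_cL, Em_cR, Em_mul_Em, add_zero, zero_add]

theorem phZ_mul (γ γ' : GP p Y Y' B G) : phZ (γ * γ') = phZ γ * phA γ' + phB γ * phZ γ' := by
  have h1 : phZ (γ * γ') = cL ((γ.1.1.val * γ'.1.1.val).1 1 0) + cR ((γ.1.2.val * γ'.1.2.val).1 1 0) +
      eM p Y Y' _ * (tpM (bX (γ.2.1.val * γ'.2.1.val) (γ.2.2.val * γ'.2.2.val)) - 1) := rfl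
  rw [h1, dt_mul10, dt_mul10, bX_mul, tpM_mul]
  unfold phZ phA phB
  obtain ⟨T, hT⟩ : ∃ T : MM p B G (Y ⊕ Y'), T = tpM (bX γ.2.1.val γ.2.2.val) := ⟨_, rfl⟩
  obtain ⟨T', hT'⟩ : ∃ T' : MM p B G (Y ⊕ Y'), T' = tpM (bX γ'.2.1.val γ'.2.2.val) := ⟨_, rfl⟩
  have he : eM p Y Y' _ * T = T * eM p Y Y' _ := by
    rw [hT]
    exact eM_tpM _ _
  have hE : Em p Y Y' _ * T = T * Em p Y Y' _ := by
    rw [hT]
    exact Em_tpM _ _
  rw [← hT, ← hT', cL_add, cR_add]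
  simp only [mul_add (cL _), mul_add (cR _), mul_add (eM p Y Y' _ * (T - 1)), mul_add (Em p Y Y' _), mul_add (cL _ + cR _ + _), add_mul,
    cL_mul, cR_mul, cL_mul_cR, cR_mul_cL, Em_cL, Em_cR, cL_EmT, cR_EmT, cL_mixZ, cR_mixZ, mixZ_cL T he, mixZ_cR T he,
    mixZ_EmT T T' hE, Em_mixZ, add_zero, zero_add]
  rw [mul_sub, mul_one]
  abel

variable (p B G Y Y') in
/-- the homomorphism `Φ` -/
noncomputable def PhH : GP p Y Y' B G →* (Dt (shM p B G (Y ⊕ Y')))ˣ :=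
  MonoidHom.toHomUnits
    { toFun := fun γ => mkD (shM p B G (Y ⊕ Y')) (phB γ) (phZ γ) (s_phB γ)
      map_one' := by
        refine dt_ext _ ?_ ?_
        · rw [dt_one11]
          show cL ((1 : Dt (shM p B G Y)).1 1 1) + cR ((1 : Dt (shM p B G Y')).1 1 1) + Em p Y Y' _ = 1
          rw [dt_one11, dt_one11, cL_one_add]
        · rw [dt_one10]
          show cL ((1 : Dt (shM p B G Y)).1 1 0) + cR ((1 : Dt (shM p B G Y')).1 1 0) +
            eM p Y Y' _ * (tpM (bX (1 : Matrix Y Y (MonoidAlgebra B G)) (1 : Matrix Y' Y' (MonoidAlgebra B G))) - 1) = 0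
          rw [dt_one10, dt_one10, cL_zero, cR_zero, bX_one, tpM_one, sub_self, mul_zero, add_zero, add_zero]
      map_mul' := fun γ γ' => by
        rw [mkD_mul]
        refine dt_ext _ ?_ ?_
        · show phB (γ * γ') = phB γ * phB γ'
          exact phB_mul γ γ'
        · show phZ (γ * γ') = phZ γ * (phB γ' + (shM p B G (Y ⊕ Y')).nm (phZ γ')) + phB γ * phZ γ'
          rw [phB_add_nm]
          exact phZ_mul γ γ' }

theorem PhH_11 (γ : GP p Y Y' B G) : (PhH p Y Y' B G γ).val.1 1 1 = phB γ := rfl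

theorem PhH_10 (γ : GP p Y Y' B G) : (PhH p Y Y' B G γ).val.1 1 0 = phZ γ := rfl

theorem psH_mem (x : Dd (shM p B G Y)) (x' : Dd (shM p B G Y')) (U : (Matrix Y Y (MonoidAlgebra B G))ˣ)
    (V : (Matrix Y' Y' (MonoidAlgebra B G))ˣ) :
    ((cL x.1.1 + cR x'.1.1 + Em p Y Y' _ * tpM (bX U.val V.val), cL x.1.2 + cR x'.1.2 + Em p Y Y' _) :
      MM p B G (Y ⊕ Y') × MM p B G (Y ⊕ Y')) ∈ Dd (shM p B G (Y ⊕ Y')) := by
  obtain ⟨hx1, hx2, z, hz⟩ := x.2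
  obtain ⟨hy1, hy2, z', hz'⟩ := x'.2
  have hL : ∀ m : MM p B G Y, (shM p B G Y).s m = m → (shM p B G (Y ⊕ Y')).s (cL m) = cL m := fun m hm => by
    refine (sM_cL _).trans ?_
    congr 1
  have hR : ∀ m : MM p B G Y', (shM p B G Y').s m = m → (shM p B G (Y ⊕ Y')).s (cR m) = cR m := fun m hm => by
    refine (sM_cR _).trans ?_
    congr 1
  have hE : (shM p B G (Y ⊕ Y')).s (Em p Y Y' _) = Em p Y Y' _ := sM_Em
  have hT : (shM p B G (Y ⊕ Y')).s (tpM (bX U.val V.val)) = tpM (bX U.val V.val) := s_tpM _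
  refine ⟨?_, ?_, cL z + cR z' + eM p Y Y' _ * (tpM (bX U.val V.val) - 1), ?_⟩
  · show (shM p B G (Y ⊕ Y')).s (cL x.1.1 + cR x'.1.1 + Em p Y Y' _ * tpM (bX U.val V.val)) = _
    rw [map_add, map_add, map_mul, hL _ hx1, hR _ hy1, hE, hT]
  · show (shM p B G (Y ⊕ Y')).s (cL x.1.2 + cR x'.1.2 + Em p Y Y' _) = _
    rw [map_add, map_add, hL _ hx2, hR _ hy2, hE]
  · show cL x.1.1 + cR x'.1.1 + Em p Y Y' _ * tpM (bX U.val V.val) = cL x.1.2 + cR x'.1.2 + Em p Y Y' _ + _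
    rw [map_add, map_add, nm_cL, nm_cR, nm_mix, hz, hz', cL_add, cR_add]
    abel

variable (p B G Y Y') in
/-- the homomorphism `Ψ` -/
noncomputable def PsH : GQ p Y Y' B G →* (Dd (shM p B G (Y ⊕ Y')))ˣ :=
  MonoidHom.toHomUnits
    { toFun := fun γ => ⟨(cL γ.1.1.val.1.1 + cR γ.1.2.val.1.1 +
          Em p Y Y' _ * tpM (bX γ.2.1.val γ.2.2.val),
          cL γ.1.1.val.1.2 + cR γ.1.2.val.1.2 + Em p Y Y' _), psH_mem _ _ _ _⟩
      map_one' := by
        refine Subtype.ext (Prod.ext ?_ ?_)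
        · show cL (1 : MM p B G Y) + cR (1 : MM p B G Y') +
            Em p Y Y' _ * tpM (bX (1 : Matrix Y Y (MonoidAlgebra B G)) (1 : Matrix Y' Y' (MonoidAlgebra B G))) = 1
          rw [bX_one, tpM_one, mul_one, cL_one_add]
        · exact cL_one_add Y Y'
      map_mul' := fun γ γ' => by
        have hE := Em_tpM (p := p) γ.2.1.val γ.2.2.val
        refine Subtype.ext (Prod.ext ?_ ?_)
        · show cL (γ.1.1.val.1.1 * γ'.1.1.val.1.1) + cR (γ.1.2.val.1.1 * γ'.1.2.val.1.1) +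
            Em p Y Y' _ * tpM (bX (γ.2.1.val * γ'.2.1.val) (γ.2.2.val * γ'.2.2.val)) =
            (cL γ.1.1.val.1.1 + cR γ.1.2.val.1.1 + Em p Y Y' _ * tpM (bX γ.2.1.val γ.2.2.val)) *
              (cL γ'.1.1.val.1.1 + cR γ'.1.2.val.1.1 + Em p Y Y' _ * tpM (bX γ'.2.1.val γ'.2.2.val))
          rw [bX_mul, tpM_mul]
          simp only [mul_add (cL _ + cR _ + _), add_mul, cL_mul, cR_mul, cL_mul_cR, cR_mul_cL, cL_EmT, cR_EmT,
            EmT_cL _ hE, EmT_cR _ hE, EmT_EmT _ _ hE, add_zero, zero_add]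
        · show cL (γ.1.1.val.1.2 * γ'.1.1.val.1.2) + cR (γ.1.2.val.1.2 * γ'.1.2.val.1.2) + Em p Y Y' _ =
            (cL γ.1.1.val.1.2 + cR γ.1.2.val.1.2 + Em p Y Y' _) * (cL γ'.1.1.val.1.2 + cR γ'.1.2.val.1.2 + Em p Y Y' _)
          simp only [mul_add, add_mul, cL_mul, cR_mul, cL_mul_cR, cR_mul_cL, cL_Em, cR_Em, Em_cL, Em_cR, Em_mul_Em, add_zero, zero_add] }

variable (p B G Y Y') in
/-- the surjective homomorphism between the sources -/
noncomputable def piPQ : GP p Y Y' B G →* GQ p Y Y' B G :=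
  ((prU (shM p B G Y)).prodMap (prU (shM p B G Y'))).prodMap (MonoidHom.id _)

/-- **Compatibility.** -/
theorem prU_PhH (γ : GP p Y Y' B G) :
    prU (shM p B G (Y ⊕ Y')) (PhH p Y Y' B G γ) = PsH p Y Y' B G (piPQ p Y Y' B G γ) := by
  refine Units.ext (Subtype.ext (Prod.ext ?_ ?_))
  · show phB γ + (shM p B G (Y ⊕ Y')).nm (phZ γ) = phA γ
    exact phB_add_nm γ
  · rfl

/-- **The restriction to `GL_Y × GL_Y'`.** -/
theorem PsH_eta (hB : GoodB p B) (U : (Matrix Y Y (MonoidAlgebra B G))ˣ)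
    (V : (Matrix Y' Y' (MonoidAlgebra B G))ˣ) :
    PsH p Y Y' B G ((eta hB U, eta hB V), (U, V)) = eta hB (blkX (U, V)) := by
  refine Units.ext (Subtype.ext (Prod.ext ?_ ?_))
  · exact (tpM_blk (p := p) U.val V.val).symm
  · exact (beM_blk (p := p) U.val V.val).symm

end

end Pool.Agent.H71.CZ
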