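import Pool.Agent.H71.CZ.ClsX

/-!
# Project CZ: splitting off a direct summand

PROOF.  `M = [[1 - A B, A], [B, 0]]` satisfies `M * M = 1` (`B A = 1`), and `M (f ⊕ 1) M = (f (1 - A B) + A B) ⊕ g`; `clX_sum`, `clX_conj`,
`HG.map_one`.
-/

set_option autoImplicit false

open Matrix

universe u v w

namespace Pool.Agent.H71.CZ

open Pool.Agent.H71.FQ

section

variable {A : Type u} [Ring A] {n : ℕ} {X Y : Type} [Fintype X] [DecidableEq X] [Fintype Y]
  [DecidableEq Y]

/-- **Splitting off a direct summand.** -/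
theorem clX_split {Γ : Type w} [Group Γ] (f f' : Γ →* (Matrix X X A)ˣ)
    (g : Γ →* (Matrix Y Y A)ˣ) (P : Matrix X Y A) (Q : Matrix Y X A) (hQP : Q * P = 1)
    (h1 : ∀ γ, (f γ).val * P = P * (g γ).val) (h2 : ∀ γ, Q * (f γ).val = (g γ).val * Q)
    (h3 : ∀ γ, (f' γ).val = (f γ).val * (1 - P * Q) + P * Q) (x : HG Γ n) :
    clX A n X (HG.map n f x) = clX A n Y (HG.map n g x) + clX A n X (HG.map n f' x) := by
  have e1 : P * Q * P = P := by rw [Matrix.mul_assoc, hQP, Matrix.mul_one]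
  have e2 : Q * (P * Q) = Q := by rw [← Matrix.mul_assoc, hQP, Matrix.one_mul]
  have e3 : (1 - P * Q) * P = 0 := by rw [Matrix.sub_mul, Matrix.one_mul, e1, sub_self]
  have e4 : Q * (1 - P * Q) = 0 := by rw [Matrix.mul_sub, Matrix.mul_one, e2, sub_self]
  have e5 : (1 - P * Q) * (1 - P * Q) + P * Q = 1 := by
    rw [Matrix.mul_sub, Matrix.mul_one, ← Matrix.mul_assoc, e3, Matrix.zero_mul, sub_zero,
      sub_add_cancel]
  have hM : fromBlocks (1 - P * Q) P Q 0 * fromBlocks (1 - P * Q) P Q 0 = 1 := by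
    rw [fromBlocks_multiply, Matrix.mul_zero, Matrix.zero_mul, Matrix.mul_zero, add_zero, add_zero,
      add_zero, e5, e3, e4, hQP, fromBlocks_one]
  let W : (Matrix (X ⊕ Y) (X ⊕ Y) A)ˣ := ⟨_, _, hM, hM⟩
  have h4 := clX_sum f (1 : Γ →* (Matrix Y Y A)ˣ) (blkX.comp (f.prod 1)) (fun γ => rfl) x
  have h5 := clX_sum f' g (blkX.comp (f'.prod g)) (fun γ => rfl) x
  rw [clX_one, add_zero] at h4
  rw [← h4, add_comm, ← h5]
  refine clX_conj _ _ W (fun γ => ?_) x
  show fromBlocks (1 - P * Q) P Q 0 * fromBlocks (f γ).val 0 0 1 =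
    fromBlocks (f' γ).val 0 0 (g γ).val * fromBlocks (1 - P * Q) P Q 0
  have e6 : (f γ).val * (P * Q) = P * Q * (f γ).val := by
    rw [← Matrix.mul_assoc, h1, Matrix.mul_assoc, ← h2, ← Matrix.mul_assoc]
  have e7 : (f γ).val * (1 - P * Q) = (1 - P * Q) * (f γ).val := by
    rw [Matrix.mul_sub, Matrix.mul_one, e6, Matrix.sub_mul, Matrix.one_mul]
  have e8 : (f' γ).val * (1 - P * Q) = (1 - P * Q) * (f γ).val := by
    rw [h3, Matrix.add_mul, Matrix.mul_assoc, Matrix.mul_assoc, e4, Matrix.mul_zero, add_zero,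
      Matrix.mul_sub (1 - P * Q), Matrix.mul_one, ← Matrix.mul_assoc (1 - P * Q), e3,
      Matrix.zero_mul, sub_zero, e7]
  have e9 : (f' γ).val * P = P := by
    rw [h3, Matrix.add_mul, Matrix.mul_assoc, e3, Matrix.mul_zero, zero_add, e1]
  rw [fromBlocks_multiply, fromBlocks_multiply, e8, e9]
  simp only [Matrix.mul_zero, Matrix.zero_mul, add_zero, zero_add, Matrix.mul_one, h2]

/-- the trivial representation -/
theorem clX_triv {Γ : Type w} [Group Γ] (f : Γ →* (Matrix X X A)ˣ) (h : ∀ γ, f γ = 1)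
    (x : HG Γ n) : clX A n X (HG.map n f x) = 0 := by
  obtain rfl : f = 1 := MonoidHom.ext h
  exact clX_one x

end

end Pool.Agent.H71.CZ
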