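import Pool.Agent.H71.CZ.Desc
import Pool.Agent.H71.CZ.Eta
import Pool.Agent.H71.CZ.ClsDec

/-!
# Project CZ: the map `θ` on the homology of `GL_Y(B[G])`

`TV = ℚ ⊗ (KQ(B[G ≀ C_p]) / image of KQ(B[G^p]))`.

PROOFS.  `toTV_eq_zero`: an element of `ℚ ⊗ X` of the form `1 ⊗ x` vanishes iff `x` is torsion (see
`Pool.Agent.H95.KM.lTensor_injective` and the lemmas around it, or localization at the non-zero integers).
`exists_th`: `ckill_eta`, `exists_descend` for `φ x' = toTV (clX (HG.map jU x'))`, compose with `HG.map eta`.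
-/

set_option autoImplicit false

open Matrix

universe u v w

namespace Pool.Agent.H71.CZ

open Pool.Agent.H71.FQ

/-- `1 ⊗ x = 0` in `ℚ ⊗ A` only for torsion elements `x` -/
theorem exists_zsmul_eq_zero {A : Type v} [AddCommGroup A] {x : A}
    (h : TensorProduct.mk ℤ ℚ A 1 x = 0) : ∃ k : ℤ, k ≠ 0 ∧ k • x = 0 := by
  have h1 : IsLocalizedModule (nonZeroDivisors ℤ) (TensorProduct.mk ℤ ℚ A 1) :=
    (isLocalizedModule_iff_isBaseChange (nonZeroDivisors ℤ) ℚ _).2 (TensorProduct.isBaseChange ℤ A ℚ)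
  obtain ⟨c, hc⟩ := (IsLocalizedModule.eq_zero_iff (nonZeroDivisors ℤ) (TensorProduct.mk ℤ ℚ A 1)).1 h
  exact ⟨c, nonZeroDivisors.coe_ne_zero c, hc⟩

section

variable (p : ℕ) [hp : Fact p.Prime] (B : Type) [CommRing B] (G : Type v) [Group G] (n : ℕ)

/-- the target of `θ` -/
abbrev TV : Type v :=
  TensorProduct ℤ ℚ (KQ (MonoidAlgebra B (Wr p G)) n ⧸
    (KQ.map (n := n) (MonoidAlgebra.mapDomainRingHom B (inc p G))).range)

/-- the canonical map -/
noncomputable def toTV : KQ (MonoidAlgebra B (Wr p G)) n →+ TV p B G n :=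
  ((TensorProduct.mk ℤ ℚ (KQ (MonoidAlgebra B (Wr p G)) n ⧸
    (KQ.map (n := n) (MonoidAlgebra.mapDomainRingHom B (inc p G))).range)) 1).toAddMonoidHom.comp
    (QuotientAddGroup.mk' _)

variable {p B G n}

theorem toTV_map (y : KQ (MonoidAlgebra B (ZMod p → G)) n) :
    toTV p B G n (KQ.map (MonoidAlgebra.mapDomainRingHom B (inc p G)) y) = 0 := by
  have h : (QuotientAddGroup.mk' (KQ.map (n := n) (MonoidAlgebra.mapDomainRingHom B (inc p G))).range)
      (KQ.map (MonoidAlgebra.mapDomainRingHom B (inc p G)) y) = 0 :=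
    (QuotientAddGroup.eq_zero_iff _).2 ⟨y, rfl⟩
  show (TensorProduct.mk ℤ ℚ _ 1) ((QuotientAddGroup.mk' _)
    (KQ.map (MonoidAlgebra.mapDomainRingHom B (inc p G)) y)) = 0
  rw [h, map_zero]

theorem toTV_eq_zero {x : KQ (MonoidAlgebra B (Wr p G)) n} (h : toTV p B G n x = 0) :
    ∃ (k : ℤ) (y : KQ (MonoidAlgebra B (ZMod p → G)) n), k ≠ 0 ∧
      k • x = KQ.map (MonoidAlgebra.mapDomainRingHom B (inc p G)) y := by
  obtain ⟨k, hk, hkx⟩ := exists_zsmul_eq_zero h
  rw [← map_zsmul] at hkx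
  obtain ⟨y, hy⟩ := (QuotientAddGroup.eq_zero_iff _).1 hkx
  exact ⟨k, y, hk, hy.symm⟩

variable (Y : Type) [Fintype Y] [DecidableEq Y]

/-- the value on the homology of `D~^×` -/
noncomputable def phD : HG (Dt (shM p B G Y))ˣ n →+ TV p B G n :=
  (toTV p B G n).comp ((clX (MonoidAlgebra B (Wr p G)) n (ZMod p → Y)).comp
    (HG.map n (jU p B G Y)))

theorem exists_th (hB : GoodB p B) :
    ∃ ψ : HG (Dd (shM p B G Y))ˣ n →+ TV p B G n,
      ∀ x, ψ (HG.map n (prU (shM p B G Y)) x) = phD Y x := by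
  obtain ⟨t, ht⟩ := ckill_eta (G := G) (Y := Y) hB
  exact exists_descend ht n (phD Y)

/-- the functional on the homology of `D^×` -/
noncomputable def psD (hB : GoodB p B) : HG (Dd (shM p B G Y))ˣ n →+ TV p B G n :=
  (exists_th Y hB).choose

theorem psD_map (hB : GoodB p B) (x : HG (Dt (shM p B G Y))ˣ n) :
    psD Y hB (HG.map n (prU (shM p B G Y)) x) = phD Y x := (exists_th Y hB).choose_spec x

/-- **The map `θ`.** -/
noncomputable def th (hB : GoodB p B) :
    HG (Matrix Y Y (MonoidAlgebra B G))ˣ n →+ TV p B G n :=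
  (psD Y hB).comp (HG.map n (eta hB))

theorem th_apply (hB : GoodB p B) (x : HG (Matrix Y Y (MonoidAlgebra B G))ˣ n) :
    th Y hB x = psD Y hB (HG.map n (eta hB) x) := rfl

end

end Pool.Agent.H71.CZ
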