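import Pool.Agent.H71.CZ.BlkC0
import Pool.Agent.H71.CZ.ThDef

/-!
# Project CZ: block sums, the value of `Φ` in `KQ (B[G ≀ C_p])`

PROOF of `phD_blk` (`Γ = GP`, `f = jU ∘ PhH`, `S = B[G ≀ C_p]`, `Σ = ∑ π^j`, `T = iS (tpM (bX U V))`,
`e = iS eM`).
`clX_split` three times.
1. `P = PL`, `Q = PLᵀ` (over `S`), `g = jU ∘ fst ∘ fst`: `iS (cL m) PL = PL iS m`, `iS (cR m) PL = 0`, `iS Em PL = 0`, `iS eM PL = 0`, `π PL = PL π`.
2. `P = PR`, `Q = PRᵀ`, `g = jU ∘ snd ∘ fst`, `f` replaced by `f' = f (1 - PL PLᵀ) + PL PLᵀ`, which is `f` at `((1, X'), (U, V))`.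
3. What remains is `f'' = 1 + e (T - 1) Σ` (`mixH`).  Index set `Z = {v // Ch p (ty v)}`, `τ` the inclusion matrix, `P = τ`, `Q = τᵀ Σ`:
`Q P = 1` and `P Q = e Σ` (`e π^j e = 0` for `0 < j < p`, `ch_unique`), `g γ = τᵀ T τ` is the image of a homomorphism to `GL_Z(B[G^p])`
(`mixG`), the class is in the image of `KQ (B[G^p])`, `toTV_map`; `f''' = 1` (`clX_triv`).
-/

set_option autoImplicit false

open Matrix

universe u v w

namespace Pool.Agent.H71.CZ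

open Pool.Agent.H71.FQ

section

variable {p : ℕ} [hp : Fact p.Prime] {Y Y' : Type} [Fintype Y] [DecidableEq Y] [Fintype Y']
  [DecidableEq Y'] {B : Type} [CommRing B] {G : Type v} [Group G] {n : ℕ}

variable (p B G Y) in
/-- the matrix `Σ` -/
noncomputable def sgX : Matrix (ZMod p → Y) (ZMod p → Y) (MonoidAlgebra B (Wr p G)) :=
  ∑ j ∈ Finset.range p, piS p B G Y ^ j

theorem jR_eq (X : Dt (shM p B G Y)) :
    jR p B G Y X = iS p B G Y (X.1 1 1) + iS p B G Y (X.1 1 0) * sgX p Y B G := rfl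

theorem sgM_iS (m : MM p B G Y) (hm : sM p B G Y m = m) :
    sgX p Y B G * iS p B G Y m = iS p B G Y m * sgX p Y B G := by
  unfold sgX
  rw [Finset.sum_mul, Finset.mul_sum]
  refine Finset.sum_congr rfl fun j _ => ?_
  have h : Commute (piS p B G Y) (iS p B G Y m) := by
    have h1 := piS_mul (p := p) m
    have h2 : (shM p B G Y).s m = m := hm
    rw [h2] at h1
    exact h1
  exact (h.pow_left j).eq

theorem sgM_Em : sgX p (Y ⊕ Y') B G * Em p Y Y' _ = Em p Y Y' _ * sgX p (Y ⊕ Y') B G := by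
  have h := sgM_iS (p := p) (B := B) (G := G) (Em p Y Y' _) sM_Em
  rwa [iS_Em] at h

theorem sg_PL : sgX p (Y ⊕ Y') B G * PL p Y Y' (MonoidAlgebra B (Wr p G)) =
    PL p Y Y' (MonoidAlgebra B (Wr p G)) * sgX p Y B G := by
  unfold sgX
  rw [Matrix.sum_mul, Matrix.mul_sum]
  refine Finset.sum_congr rfl fun j hj => ?_
  clear hj
  induction j with
  | zero => rw [pow_zero, pow_zero, Matrix.one_mul, Matrix.mul_one]
  | succ j ih => rw [pow_succ, pow_succ', Matrix.mul_assoc, piS_PL, ← Matrix.mul_assoc, ih, Matrix.mul_assoc, ← pow_succ, ← pow_succ']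

theorem sg_PR : sgX p (Y ⊕ Y') B G * PR p Y Y' (MonoidAlgebra B (Wr p G)) =
    PR p Y Y' (MonoidAlgebra B (Wr p G)) * sgX p Y' B G := by
  unfold sgX
  rw [Matrix.sum_mul, Matrix.mul_sum]
  refine Finset.sum_congr rfl fun j hj => ?_
  clear hj
  induction j with
  | zero => rw [pow_zero, pow_zero, Matrix.one_mul, Matrix.mul_one]
  | succ j ih => rw [pow_succ, pow_succ', Matrix.mul_assoc, piS_PR, ← Matrix.mul_assoc, ih, Matrix.mul_assoc, ← pow_succ, ← pow_succ']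

theorem PL_sg : (PL p Y Y' (MonoidAlgebra B (Wr p G)))ᵀ * sgX p (Y ⊕ Y') B G =
    sgX p Y B G * (PL p Y Y' (MonoidAlgebra B (Wr p G)))ᵀ := by
  unfold sgX
  rw [Matrix.sum_mul, Matrix.mul_sum]
  refine Finset.sum_congr rfl fun j hj => ?_
  clear hj
  induction j with
  | zero => rw [pow_zero, pow_zero, Matrix.one_mul, Matrix.mul_one]
  | succ j ih => rw [pow_succ, ← Matrix.mul_assoc, ih, Matrix.mul_assoc, PL_piS, ← Matrix.mul_assoc, ← pow_succ]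

theorem PR_sg : (PR p Y Y' (MonoidAlgebra B (Wr p G)))ᵀ * sgX p (Y ⊕ Y') B G =
    sgX p Y' B G * (PR p Y Y' (MonoidAlgebra B (Wr p G)))ᵀ := by
  unfold sgX
  rw [Matrix.sum_mul, Matrix.mul_sum]
  refine Finset.sum_congr rfl fun j hj => ?_
  clear hj
  induction j with
  | zero => rw [pow_zero, pow_zero, Matrix.one_mul, Matrix.mul_one]
  | succ j ih => rw [pow_succ, ← Matrix.mul_assoc, ih, Matrix.mul_assoc, PR_piS, ← Matrix.mul_assoc, ← pow_succ]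

/-- the chosen mixed indices -/
abbrev ZX (p : ℕ) [Fact p.Prime] (Y Y' : Type) : Type := {v : ZMod p → Y ⊕ Y' // Ch p (ty v)}

open Classical in
noncomputable instance : Fintype (ZX p Y Y') := by
  haveI : Fintype (ZMod p → Y ⊕ Y') := inferInstance
  exact Subtype.fintype _

open Classical in
noncomputable instance : DecidableEq (ZX p Y Y') := inferInstance

variable (p Y Y') in
/-- the inclusion of the chosen mixed indices -/
def tauM (R : Type*) [Ring R] : Matrix (ZMod p → Y ⊕ Y') (ZX p Y Y') R := fun v z =>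
  if v = z.1 then 1 else 0

theorem mul_tauM {R : Type*} [Ring R] {κ : Type*} (A : Matrix κ (ZMod p → Y ⊕ Y') R) (v : κ) (z : ZX p Y Y') :
    (A * tauM p Y Y' R) v z = A v z.1 := by
  rw [Matrix.mul_apply, Finset.sum_eq_single z.1]
  · unfold tauM
    rw [if_pos rfl, mul_one]
  · intro u _ hu
    unfold tauM
    rw [if_neg hu, mul_zero]
  · intro h
    exact absurd (Finset.mem_univ _) h

theorem tauM_mul {R : Type*} [Ring R] {κ : Type*} (A : Matrix (ZMod p → Y ⊕ Y') κ R) (z : ZX p Y Y') (v : κ) :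
    ((tauM p Y Y' R)ᵀ * A) z v = A z.1 v := by
  rw [Matrix.mul_apply, Finset.sum_eq_single z.1]
  · rw [Matrix.transpose_apply]
    unfold tauM
    rw [if_pos rfl, one_mul]
  · intro u _ hu
    rw [Matrix.transpose_apply]
    unfold tauM
    rw [if_neg hu, zero_mul]
  · intro h
    exact absurd (Finset.mem_univ _) h

theorem tau_sub {R : Type*} [Ring R] (A : Matrix (ZMod p → Y ⊕ Y') (ZMod p → Y ⊕ Y') R) :
    (tauM p Y Y' R)ᵀ * A * tauM p Y Y' R = A.submatrix Subtype.val Subtype.val := by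
  ext1 z z'
  rw [mul_tauM, tauM_mul, Matrix.submatrix_apply]

theorem tau_tau {R : Type*} [Ring R] : tauM p Y Y' R * (tauM p Y Y' R)ᵀ = eM p Y Y' R := by
  classical
  ext1 v w
  unfold eM
  by_cases hv : Ch p (ty v)
  · rw [Matrix.mul_apply, Finset.sum_eq_single (⟨v, hv⟩ : ZX p Y Y')]
    · rw [Matrix.transpose_apply]
      unfold tauM
      rw [if_pos rfl, one_mul]
      by_cases h : v = w
      · subst h
        rw [if_pos rfl, Matrix.diagonal_apply_eq, if_pos hv]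
      · rw [if_neg (Ne.symm h), Matrix.diagonal_apply_ne _ h]
    · intro z _ hz
      unfold tauM
      rw [if_neg (fun h => hz (Subtype.ext h.symm)), zero_mul]
    · intro h
      exact absurd (Finset.mem_univ _) h
  · rw [Matrix.mul_apply, Finset.sum_eq_zero]
    · by_cases h : v = w
      · rw [← h, Matrix.diagonal_apply_eq, if_neg hv]
      · rw [Matrix.diagonal_apply_ne _ h]
    · intro z _
      unfold tauM
      rw [if_neg (fun h => hv (by rw [h]; exact z.2)), zero_mul]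

theorem tau_one {R : Type*} [Ring R] : (tauM p Y Y' R)ᵀ * tauM p Y Y' R = 1 := by
  ext1 z z'
  rw [mul_tauM, Matrix.transpose_apply]
  unfold tauM
  by_cases h : z = z'
  · rw [h, if_pos rfl, Matrix.one_apply_eq]
  · rw [if_neg (fun h1 => h (Subtype.ext h1.symm)), Matrix.one_apply_ne h]

theorem tau_sg_tau : (tauM p Y Y' (MonoidAlgebra B (Wr p G)))ᵀ * sgX p (Y ⊕ Y') B G *
    tauM p Y Y' (MonoidAlgebra B (Wr p G)) = 1 := by
  rw [tau_sub]
  ext1 z z'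
  rw [Matrix.submatrix_apply]
  unfold sgX
  rw [Matrix.sum_apply, Finset.sum_eq_single 0]
  · rw [piS_pow_apply, Nat.cast_zero, pow_zero]
    simp only [sub_zero]
    by_cases h : z = z'
    · rw [h, if_pos rfl, Matrix.one_apply_eq, MonoidAlgebra.one_def]
    · rw [if_neg (fun h1 => h (Subtype.ext h1.symm)), Matrix.one_apply_ne h]
  · intro j hj hj0
    rw [piS_pow_apply, if_neg]
    intro h
    have h1 : ∃ i, ty z.1 i ≠ ty z.1 0 := by
      by_contra hc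
      push Not at hc
      have h2 : ty z.1 = fun _ => ty z.1 0 := funext hc
      exact ch_const (p := p) (ty z.1 0) (h2 ▸ z.2)
    obtain ⟨k, -, hk⟩ := ch_unique (p := p) (ty z.1) h1
    have h3 : (0 : ℕ) = k := hk 0 ⟨hp.out.pos, by
      have h4 : (fun i => ty z.1 (i - ((0 : ℕ) : ZMod p))) = ty z.1 := by
        funext i
        rw [Nat.cast_zero, sub_zero]
      rw [h4]
      exact z.2⟩
    have h5 : j = k := hk j ⟨Finset.mem_range.1 hj, by
      have h6 : (fun i => ty z.1 (i - (j : ZMod p))) = ty z'.1 := by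
        rw [h]
        rfl
      rw [h6]
      exact z'.2⟩
    exact hj0 (h5.trans h3.symm)
  · intro h
    exact absurd (Finset.mem_range.2 hp.out.pos) h

theorem tau_eM {R : Type*} [Ring R] : (tauM p Y Y' R)ᵀ * eM p Y Y' R = (tauM p Y Y' R)ᵀ := by
  rw [← tau_tau, ← Matrix.mul_assoc, tau_one, Matrix.one_mul]

theorem eM_tau {R : Type*} [Ring R] : eM p Y Y' R * tauM p Y Y' R = tauM p Y Y' R := by
  rw [← tau_tau, Matrix.mul_assoc, tau_one, Matrix.mul_one]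

theorem eM_sg_eM : eM p Y Y' (MonoidAlgebra B (Wr p G)) * sgX p (Y ⊕ Y') B G * eM p Y Y' (MonoidAlgebra B (Wr p G)) =
    eM p Y Y' (MonoidAlgebra B (Wr p G)) := by
  have h : tauM p Y Y' (MonoidAlgebra B (Wr p G)) * (tauM p Y Y' (MonoidAlgebra B (Wr p G)))ᵀ * sgX p (Y ⊕ Y') B G *
      (tauM p Y Y' (MonoidAlgebra B (Wr p G)) * (tauM p Y Y' (MonoidAlgebra B (Wr p G)))ᵀ) =
      tauM p Y Y' (MonoidAlgebra B (Wr p G)) * ((tauM p Y Y' (MonoidAlgebra B (Wr p G)))ᵀ * sgX p (Y ⊕ Y') B G *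
        tauM p Y Y' (MonoidAlgebra B (Wr p G))) * (tauM p Y Y' (MonoidAlgebra B (Wr p G)))ᵀ := by
    simp only [Matrix.mul_assoc]
  rw [tau_sg_tau, Matrix.mul_one, tau_tau] at h
  exact h

/-- the product of two mixed parts -/
theorem mix_ring {A : Type*} [Ring A] (e s t t' : A) (het : e * t = t * e) (hes : e * s * e = e) :
    (1 + e * (t - 1) * s) * (1 + e * (t' - 1) * s) = 1 + e * (t * t' - 1) * s := by
  have h1 : e * (t - 1) = (t - 1) * e := by rw [mul_sub, mul_one, sub_mul, one_mul, het]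
  have h2 : e * (t - 1) * s * (e * (t' - 1) * s) = e * ((t - 1) * (t' - 1)) * s := by
    calc e * (t - 1) * s * (e * (t' - 1) * s) = (t - 1) * (e * s * e) * (t' - 1) * s := by
          rw [h1]
          noncomm_ring
      _ = (t - 1) * e * (t' - 1) * s := by rw [hes]
      _ = e * ((t - 1) * (t' - 1)) * s := by
          rw [← h1]
          noncomm_ring
  calc (1 + e * (t - 1) * s) * (1 + e * (t' - 1) * s) =
        1 + e * (t - 1) * s + e * (t' - 1) * s + e * (t - 1) * s * (e * (t' - 1) * s) := by noncomm_ring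
    _ = 1 + e * (t * t' - 1) * s := by
        rw [h2]
        noncomm_ring

theorem iS_mix (T : MM p B G (Y ⊕ Y')) : iS p B G (Y ⊕ Y') (eM p Y Y' _ * (T - 1)) =
    eM p Y Y' (MonoidAlgebra B (Wr p G)) * (iS p B G (Y ⊕ Y') T - 1) := by
  rw [map_mul, iS_eM, map_sub, map_one]

theorem iS_comm {T : MM p B G (Y ⊕ Y')} (hT : eM p Y Y' _ * T = T * eM p Y Y' _) :
    eM p Y Y' (MonoidAlgebra B (Wr p G)) * iS p B G (Y ⊕ Y') T = iS p B G (Y ⊕ Y') T * eM p Y Y' (MonoidAlgebra B (Wr p G)) := by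
  rw [← iS_eM, ← map_mul, hT, map_mul]

variable (p B G Y Y') in
/-- the chosen mixed part of the tensor power of a block sum -/
noncomputable def mixG : (Matrix Y Y (MonoidAlgebra B G))ˣ × (Matrix Y' Y' (MonoidAlgebra B G))ˣ →*
    (Matrix (ZX p Y Y') (ZX p Y Y') (MonoidAlgebra B (ZMod p → G)))ˣ :=
  MonoidHom.toHomUnits
    { toFun := fun w => (tpM (bX w.1.val w.2.val) : MM p B G (Y ⊕ Y')).submatrix
        Subtype.val Subtype.val
      map_one' := by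
        show (tpM (bX (1 : Matrix Y Y (MonoidAlgebra B G)) (1 : Matrix Y' Y' (MonoidAlgebra B G))) : MM p B G (Y ⊕ Y')).submatrix
          Subtype.val Subtype.val = 1
        rw [bX_one, tpM_one, ← tau_sub, Matrix.mul_one, tau_one]
      map_mul' := fun w w' => by
        show (tpM (bX (w.1.val * w'.1.val) (w.2.val * w'.2.val)) : MM p B G (Y ⊕ Y')).submatrix Subtype.val Subtype.val =
          (tpM (bX w.1.val w.2.val) : MM p B G (Y ⊕ Y')).submatrix Subtype.val Subtype.val *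
          (tpM (bX w'.1.val w'.2.val) : MM p B G (Y ⊕ Y')).submatrix Subtype.val Subtype.val
        rw [bX_mul, tpM_mul, ← tau_sub, ← tau_sub, ← tau_sub]
        have h := eM_tpM (p := p) w.1.val w.2.val
        generalize (tpM (bX w.1.val w.2.val) : MM p B G (Y ⊕ Y')) = T at h ⊢
        generalize (tpM (bX w'.1.val w'.2.val) : MM p B G (Y ⊕ Y')) = T'
        have h1 : (tauM p Y Y' (MonoidAlgebra B (ZMod p → G)))ᵀ * T * tauM p Y Y' (MonoidAlgebra B (ZMod p → G)) *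
            ((tauM p Y Y' (MonoidAlgebra B (ZMod p → G)))ᵀ * T' * tauM p Y Y' (MonoidAlgebra B (ZMod p → G))) =
            (tauM p Y Y' (MonoidAlgebra B (ZMod p → G)))ᵀ * (T * (tauM p Y Y' (MonoidAlgebra B (ZMod p → G)) *
              (tauM p Y Y' (MonoidAlgebra B (ZMod p → G)))ᵀ)) * T' * tauM p Y Y' (MonoidAlgebra B (ZMod p → G)) := by
          simp only [Matrix.mul_assoc]
        have h2 : (tauM p Y Y' (MonoidAlgebra B (ZMod p → G)))ᵀ * (eM p Y Y' (MonoidAlgebra B (ZMod p → G)) * T) =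
            (tauM p Y Y' (MonoidAlgebra B (ZMod p → G)))ᵀ * T := by rw [← Matrix.mul_assoc, tau_eM]
        rw [h1, tau_tau, ← h, h2, ← Matrix.mul_assoc] }

variable (p B G Y Y') in
/-- the homomorphism `1 + e (T - 1) Σ` -/
noncomputable def mixH : (Matrix Y Y (MonoidAlgebra B G))ˣ × (Matrix Y' Y' (MonoidAlgebra B G))ˣ →*
    (Matrix (ZMod p → Y ⊕ Y') (ZMod p → Y ⊕ Y') (MonoidAlgebra B (Wr p G)))ˣ :=
  MonoidHom.toHomUnits
    { toFun := fun w => 1 + iS p B G (Y ⊕ Y') (eM p Y Y' _ * (tpM (bX w.1.val w.2.val) - 1)) *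
        sgX p (Y ⊕ Y') B G
      map_one' := by
        show 1 + iS p B G (Y ⊕ Y') (eM p Y Y' _ * (tpM (bX (1 : Matrix Y Y (MonoidAlgebra B G)) (1 : Matrix Y' Y' (MonoidAlgebra B G))) - 1)) *
          sgX p (Y ⊕ Y') B G = 1
        rw [bX_one, tpM_one, sub_self, mul_zero, map_zero, zero_mul, add_zero]
      map_mul' := fun w w' => by
        show 1 + iS p B G (Y ⊕ Y') (eM p Y Y' _ * (tpM (bX (w.1.val * w'.1.val) (w.2.val * w'.2.val)) - 1)) * sgX p (Y ⊕ Y') B G =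
          (1 + iS p B G (Y ⊕ Y') (eM p Y Y' _ * (tpM (bX w.1.val w.2.val) - 1)) * sgX p (Y ⊕ Y') B G) *
          (1 + iS p B G (Y ⊕ Y') (eM p Y Y' _ * (tpM (bX w'.1.val w'.2.val) - 1)) * sgX p (Y ⊕ Y') B G)
        rw [bX_mul, tpM_mul, iS_mix, iS_mix, iS_mix, map_mul]
        exact (mix_ring _ _ _ _ (iS_comm (eM_tpM (p := p) w.1.val w.2.val)) eM_sg_eM).symm }

theorem mixH_val (w : (Matrix Y Y (MonoidAlgebra B G))ˣ × (Matrix Y' Y' (MonoidAlgebra B G))ˣ) :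
    (mixH p Y Y' B G w).val = 1 + eM p Y Y' (MonoidAlgebra B (Wr p G)) * (iS p B G (Y ⊕ Y') (tpM (bX w.1.val w.2.val)) - 1) *
      sgX p (Y ⊕ Y') B G := by
  rw [← iS_mix]
  rfl

theorem mixG_val (w : (Matrix Y Y (MonoidAlgebra B G))ˣ × (Matrix Y' Y' (MonoidAlgebra B G))ˣ) :
    (mapX (MonoidAlgebra.mapDomainRingHom B (inc p G)) (ZX p Y Y') (mixG p Y Y' B G w)).val =
      (tauM p Y Y' (MonoidAlgebra B (Wr p G)))ᵀ * iS p B G (Y ⊕ Y') (tpM (bX w.1.val w.2.val)) *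
        tauM p Y Y' (MonoidAlgebra B (Wr p G)) := by
  rw [tau_sub]
  rfl

/-- **The mixed part comes from `B[G^p]`.** -/
theorem toTV_mix {Γ : Type w} [Group Γ]
    (ρ : Γ →* (Matrix Y Y (MonoidAlgebra B G))ˣ × (Matrix Y' Y' (MonoidAlgebra B G))ˣ)
    (y : HG Γ n) :
    toTV p B G n (clX _ n _ (HG.map n ((mixH p Y Y' B G).comp ρ) y)) = 0 := by
  have key := clX_split (A := MonoidAlgebra B (Wr p G)) (n := n) ((mixH p Y Y' B G).comp ρ) 1
    ((mapX (MonoidAlgebra.mapDomainRingHom B (inc p G)) (ZX p Y Y')).comp ((mixG p Y Y' B G).comp ρ))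
    (tauM p Y Y' (MonoidAlgebra B (Wr p G)))
    ((tauM p Y Y' (MonoidAlgebra B (Wr p G)))ᵀ * sgX p (Y ⊕ Y') B G) tau_sg_tau
    (fun γ => by
      show (mixH p Y Y' B G (ρ γ)).val * tauM p Y Y' (MonoidAlgebra B (Wr p G)) = tauM p Y Y' (MonoidAlgebra B (Wr p G)) *
        (mapX (MonoidAlgebra.mapDomainRingHom B (inc p G)) (ZX p Y Y') (mixG p Y Y' B G (ρ γ))).val
      rw [mixH_val, mixG_val]
      have h := iS_comm (eM_tpM (p := p) (ρ γ).1.val (ρ γ).2.val)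
      generalize iS p B G (Y ⊕ Y') (tpM (bX (ρ γ).1.val (ρ γ).2.val)) = t at h ⊢
      have h1 : eM p Y Y' (MonoidAlgebra B (Wr p G)) * (t - 1) = (t - 1) * eM p Y Y' (MonoidAlgebra B (Wr p G)) := by
        rw [mul_sub, mul_one, sub_mul, one_mul, h]
      have h2 : eM p Y Y' (MonoidAlgebra B (Wr p G)) * sgX p (Y ⊕ Y') B G * tauM p Y Y' (MonoidAlgebra B (Wr p G)) =
          tauM p Y Y' (MonoidAlgebra B (Wr p G)) := by
        rw [← tau_tau, Matrix.mul_assoc, Matrix.mul_assoc, ← Matrix.mul_assoc _ (sgX p (Y ⊕ Y') B G), tau_sg_tau, Matrix.mul_one]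
      rw [Matrix.add_mul, Matrix.one_mul, h1, Matrix.mul_assoc (t - 1), Matrix.mul_assoc (t - 1), h2, Matrix.sub_mul, Matrix.one_mul,
        add_sub_cancel, ← Matrix.mul_assoc, ← Matrix.mul_assoc, tau_tau, h, Matrix.mul_assoc, eM_tau])
    (fun γ => by
      show (tauM p Y Y' (MonoidAlgebra B (Wr p G)))ᵀ * sgX p (Y ⊕ Y') B G * (mixH p Y Y' B G (ρ γ)).val =
        (mapX (MonoidAlgebra.mapDomainRingHom B (inc p G)) (ZX p Y Y') (mixG p Y Y' B G (ρ γ))).val *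
          ((tauM p Y Y' (MonoidAlgebra B (Wr p G)))ᵀ * sgX p (Y ⊕ Y') B G)
      rw [mixH_val, mixG_val]
      have h := iS_comm (eM_tpM (p := p) (ρ γ).1.val (ρ γ).2.val)
      generalize iS p B G (Y ⊕ Y') (tpM (bX (ρ γ).1.val (ρ γ).2.val)) = t at h ⊢
      have h2 : (tauM p Y Y' (MonoidAlgebra B (Wr p G)))ᵀ * sgX p (Y ⊕ Y') B G * eM p Y Y' (MonoidAlgebra B (Wr p G)) =
          (tauM p Y Y' (MonoidAlgebra B (Wr p G)))ᵀ := by
        rw [← tau_tau, ← Matrix.mul_assoc, tau_sg_tau, Matrix.one_mul]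
      have h3 : (tauM p Y Y' (MonoidAlgebra B (Wr p G)))ᵀ * t * tauM p Y Y' (MonoidAlgebra B (Wr p G)) *
          ((tauM p Y Y' (MonoidAlgebra B (Wr p G)))ᵀ * sgX p (Y ⊕ Y') B G) =
          (tauM p Y Y' (MonoidAlgebra B (Wr p G)))ᵀ * (t * (tauM p Y Y' (MonoidAlgebra B (Wr p G)) *
          (tauM p Y Y' (MonoidAlgebra B (Wr p G)))ᵀ)) * sgX p (Y ⊕ Y') B G := by
        simp only [Matrix.mul_assoc]
      rw [Matrix.mul_add, Matrix.mul_one, ← Matrix.mul_assoc, ← Matrix.mul_assoc, h2, h3, tau_tau, ← h, ← Matrix.mul_assoc (tauM p Y Y' (MonoidAlgebra B (Wr p G)))ᵀ,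
        tau_eM, Matrix.mul_sub, Matrix.mul_one, Matrix.sub_mul, add_sub_cancel])
    (fun γ => by
      show (1 : Matrix (ZMod p → Y ⊕ Y') (ZMod p → Y ⊕ Y') (MonoidAlgebra B (Wr p G))) = (mixH p Y Y' B G (ρ γ)).val *
        (1 - tauM p Y Y' (MonoidAlgebra B (Wr p G)) * ((tauM p Y Y' (MonoidAlgebra B (Wr p G)))ᵀ * sgX p (Y ⊕ Y') B G)) +
        tauM p Y Y' (MonoidAlgebra B (Wr p G)) * ((tauM p Y Y' (MonoidAlgebra B (Wr p G)))ᵀ * sgX p (Y ⊕ Y') B G)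
      rw [mixH_val, ← Matrix.mul_assoc, tau_tau]
      have h := iS_comm (eM_tpM (p := p) (ρ γ).1.val (ρ γ).2.val)
      generalize iS p B G (Y ⊕ Y') (tpM (bX (ρ γ).1.val (ρ γ).2.val)) = t at h ⊢
      have h4 := eM_sg_eM (p := p) (Y := Y) (Y' := Y') (B := B) (G := G)
      generalize eM p Y Y' (MonoidAlgebra B (Wr p G)) = e at h h4 ⊢
      generalize sgX p (Y ⊕ Y') B G = s at h4 ⊢
      have h1 : e * (t - 1) = (t - 1) * e := by rw [mul_sub, mul_one, sub_mul, one_mul, h]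
      have h5 : e * (t - 1) * s * (e * s) = e * (t - 1) * s := by
        calc e * (t - 1) * s * (e * s) = (t - 1) * (e * s * e) * s := by
              rw [h1]
              noncomm_ring
          _ = e * (t - 1) * s := by rw [h4, h1]
      calc (1 : Matrix (ZMod p → Y ⊕ Y') (ZMod p → Y ⊕ Y') (MonoidAlgebra B (Wr p G))) =
            1 + e * (t - 1) * s - e * (t - 1) * s * (e * s) := by rw [h5, add_sub_cancel_right]
        _ = (1 + e * (t - 1) * s) * (1 - e * s) + e * s := by noncomm_ring) y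
  rw [key, clX_one, add_zero, ← HG.map_map, ← map_clX]
  exact toTV_map _

variable (p B G Y Y') in
/-- the first component is replaced by `1` -/
noncomputable def kapL : GP p Y Y' B G →* GP p Y Y' B G :=
  MonoidHom.prodMap (MonoidHom.prodMap 1 (MonoidHom.id _)) (MonoidHom.id _)

variable (p B G Y Y') in
/-- the second component is replaced by `1` -/
noncomputable def kapR : GP p Y Y' B G →* GP p Y Y' B G :=
  MonoidHom.prodMap (MonoidHom.prodMap (MonoidHom.id _) 1) (MonoidHom.id _)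

theorem jU_val (X : (Dt (shM p B G Y))ˣ) : (jU p B G Y X).val = iS p B G Y (X.val.1 1 1) + iS p B G Y (X.val.1 1 0) * sgX p Y B G := rfl

theorem f_val (γ : GP p Y Y' B G) : (jU p B G (Y ⊕ Y') (PhH p Y Y' B G γ)).val =
    iS p B G (Y ⊕ Y') (cL (γ.1.1.val.1 1 1)) + iS p B G (Y ⊕ Y') (cR (γ.1.2.val.1 1 1)) + Em p Y Y' _ +
      (iS p B G (Y ⊕ Y') (cL (γ.1.1.val.1 1 0)) + iS p B G (Y ⊕ Y') (cR (γ.1.2.val.1 1 0)) +
        iS p B G (Y ⊕ Y') (eM p Y Y' _ * (tpM (bX γ.2.1.val γ.2.2.val) - 1))) * sgX p (Y ⊕ Y') B G := by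
  rw [jU_val, PhH_11, PhH_10]
  unfold phB phZ
  rw [map_add, map_add, map_add, map_add, iS_Em]

section aux

variable {R : Type*} [Ring R] {X Z : Type} [Fintype X] [DecidableEq X] [Fintype Z] [DecidableEq Z] {P : Matrix X Z R} {Q : Matrix Z X R}
  {s : Matrix X X R} {s' b z : Matrix Z Z R} {b₂ z₂ : Matrix X X R}

theorem split_aux1 (hQP : Q * P = 1) (hP : s * P = P * s') (hb : b₂ * P = 0) (hz : z₂ * P = 0) :
    (P * b * Q + b₂ + (P * z * Q + z₂) * s) * P = P * (b + z * s') := by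
  have e1 : P * b * Q * P = P * b := by rw [Matrix.mul_assoc, hQP, Matrix.mul_one]
  have e2 : P * z * Q * P = P * z := by rw [Matrix.mul_assoc, hQP, Matrix.mul_one]
  have e3 : (P * z * Q + z₂) * s * P = P * z * s' := by
    rw [Matrix.mul_assoc, hP, ← Matrix.mul_assoc, Matrix.add_mul, e2, hz, add_zero]
  rw [Matrix.add_mul, Matrix.add_mul, e1, hb, e3, add_zero, Matrix.mul_add, ← Matrix.mul_assoc]

theorem split_aux2 (hQP : Q * P = 1) (hQ : Q * s = s' * Q) (hb : Q * b₂ = 0) (hz : Q * z₂ = 0) :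
    Q * (P * b * Q + b₂ + (P * z * Q + z₂) * s) = (b + z * s') * Q := by
  have e1 : Q * (P * b * Q) = b * Q := by rw [← Matrix.mul_assoc, ← Matrix.mul_assoc, hQP, Matrix.one_mul]
  have e2 : Q * (P * z * Q) = z * Q := by rw [← Matrix.mul_assoc, ← Matrix.mul_assoc, hQP, Matrix.one_mul]
  have e3 : Q * ((P * z * Q + z₂) * s) = z * s' * Q := by
    rw [← Matrix.mul_assoc, Matrix.mul_add, e2, hz, add_zero, Matrix.mul_assoc, hQ, ← Matrix.mul_assoc]
  rw [Matrix.mul_add, Matrix.mul_add, e1, hb, e3, add_zero, Matrix.add_mul]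

theorem split_aux3 (hQP : Q * P = 1) (hP : s * P = P * s') (hQ : Q * s = s' * Q) (hb : b₂ * P = 0) (hz : z₂ * P = 0) :
    P * Q + b₂ + z₂ * s = (P * b * Q + b₂ + (P * z * Q + z₂) * s) * (1 - P * Q) + P * Q := by
  have e1 := split_aux1 (b := b) (z := z) hQP hP hb hz
  have e2 : P * z * Q * s = P * (z * s') * Q := by
    rw [Matrix.mul_assoc, hQ, ← Matrix.mul_assoc, Matrix.mul_assoc P]
  rw [Matrix.mul_sub, Matrix.mul_one, ← Matrix.mul_assoc, e1, Matrix.mul_add P, Matrix.add_mul _ _ Q, Matrix.add_mul (P * z * Q), e2]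
  abel

end aux

theorem mixZ_PL (γ : GP p Y Y' B G) : iS p B G (Y ⊕ Y') (eM p Y Y' _ * (tpM (bX γ.2.1.val γ.2.2.val) - 1)) *
    PL p Y Y' (MonoidAlgebra B (Wr p G)) = 0 := by
  rw [iS_mix, mul_sub, mul_one, iS_comm (eM_tpM (p := p) γ.2.1.val γ.2.2.val), Matrix.sub_mul, Matrix.mul_assoc, eM_PL, Matrix.mul_zero, sub_zero]

theorem PL_mixZ (γ : GP p Y Y' B G) : (PL p Y Y' (MonoidAlgebra B (Wr p G)))ᵀ *
    iS p B G (Y ⊕ Y') (eM p Y Y' _ * (tpM (bX γ.2.1.val γ.2.2.val) - 1)) = 0 := by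
  rw [iS_mix, ← Matrix.mul_assoc, PL_eM, Matrix.zero_mul]

theorem mixZ_PR (γ : GP p Y Y' B G) : iS p B G (Y ⊕ Y') (eM p Y Y' _ * (tpM (bX γ.2.1.val γ.2.2.val) - 1)) *
    PR p Y Y' (MonoidAlgebra B (Wr p G)) = 0 := by
  rw [iS_mix, mul_sub, mul_one, iS_comm (eM_tpM (p := p) γ.2.1.val γ.2.2.val), Matrix.sub_mul, Matrix.mul_assoc, eM_PR, Matrix.mul_zero, sub_zero]

theorem PR_mixZ (γ : GP p Y Y' B G) : (PR p Y Y' (MonoidAlgebra B (Wr p G)))ᵀ *
    iS p B G (Y ⊕ Y') (eM p Y Y' _ * (tpM (bX γ.2.1.val γ.2.2.val) - 1)) = 0 := by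
  rw [iS_mix, ← Matrix.mul_assoc, PR_eM, Matrix.zero_mul]

theorem f_valL (γ : GP p Y Y' B G) : (jU p B G (Y ⊕ Y') (PhH p Y Y' B G γ)).val =
    PL p Y Y' (MonoidAlgebra B (Wr p G)) * iS p B G Y (γ.1.1.val.1 1 1) * (PL p Y Y' (MonoidAlgebra B (Wr p G)))ᵀ +
      (iS p B G (Y ⊕ Y') (cR (γ.1.2.val.1 1 1)) + Em p Y Y' _) +
      (PL p Y Y' (MonoidAlgebra B (Wr p G)) * iS p B G Y (γ.1.1.val.1 1 0) * (PL p Y Y' (MonoidAlgebra B (Wr p G)))ᵀ +
        (iS p B G (Y ⊕ Y') (cR (γ.1.2.val.1 1 0)) +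
        iS p B G (Y ⊕ Y') (eM p Y Y' _ * (tpM (bX γ.2.1.val γ.2.2.val) - 1)))) * sgX p (Y ⊕ Y') B G := by
  rw [f_val, iS_cL, iS_cL]
  simp only [add_assoc]

theorem f_valR (γ : GP p Y Y' B G) : (jU p B G (Y ⊕ Y') (PhH p Y Y' B G γ)).val =
    PR p Y Y' (MonoidAlgebra B (Wr p G)) * iS p B G Y' (γ.1.2.val.1 1 1) * (PR p Y Y' (MonoidAlgebra B (Wr p G)))ᵀ +
      (iS p B G (Y ⊕ Y') (cL (γ.1.1.val.1 1 1)) + Em p Y Y' _) +
      (PR p Y Y' (MonoidAlgebra B (Wr p G)) * iS p B G Y' (γ.1.2.val.1 1 0) * (PR p Y Y' (MonoidAlgebra B (Wr p G)))ᵀ +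
        (iS p B G (Y ⊕ Y') (cL (γ.1.1.val.1 1 0)) +
        iS p B G (Y ⊕ Y') (eM p Y Y' _ * (tpM (bX γ.2.1.val γ.2.2.val) - 1)))) * sgX p (Y ⊕ Y') B G := by
  rw [f_val, iS_cR, iS_cR, add_comm (iS p B G (Y ⊕ Y') (cL (γ.1.1.val.1 1 1))), add_comm (iS p B G (Y ⊕ Y') (cL (γ.1.1.val.1 1 0)))]
  simp only [add_assoc]

/-- **Splitting off the left block.** -/
theorem split_L (y : HG (GP p Y Y' B G) n) :
    clX (MonoidAlgebra B (Wr p G)) n (ZMod p → Y ⊕ Y') (HG.map n ((jU p B G (Y ⊕ Y')).comp (PhH p Y Y' B G)) y) =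
      clX (MonoidAlgebra B (Wr p G)) n (ZMod p → Y) (HG.map n ((jU p B G Y).comp ((MonoidHom.fst _ _).comp (MonoidHom.fst _ _))) y) +
      clX (MonoidAlgebra B (Wr p G)) n (ZMod p → Y ⊕ Y')
        (HG.map n (((jU p B G (Y ⊕ Y')).comp (PhH p Y Y' B G)).comp (kapL p Y Y' B G)) y) := by
  have hb : ∀ γ : GP p Y Y' B G, (iS p B G (Y ⊕ Y') (cR (γ.1.2.val.1 1 1)) + Em p Y Y' _) * PL p Y Y' (MonoidAlgebra B (Wr p G)) = 0 :=
    fun γ => by rw [Matrix.add_mul, iS_cR_PL, Em_PL, add_zero]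
  have hb' : ∀ γ : GP p Y Y' B G, (PL p Y Y' (MonoidAlgebra B (Wr p G)))ᵀ * (iS p B G (Y ⊕ Y') (cR (γ.1.2.val.1 1 1)) + Em p Y Y' _) = 0 :=
    fun γ => by rw [Matrix.mul_add, PL_iS_cR, PL_Em, add_zero]
  have hz : ∀ γ : GP p Y Y' B G, (iS p B G (Y ⊕ Y') (cR (γ.1.2.val.1 1 0)) +
      iS p B G (Y ⊕ Y') (eM p Y Y' _ * (tpM (bX γ.2.1.val γ.2.2.val) - 1))) * PL p Y Y' (MonoidAlgebra B (Wr p G)) = 0 :=
    fun γ => by rw [Matrix.add_mul, iS_cR_PL, mixZ_PL, add_zero]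
  have hz' : ∀ γ : GP p Y Y' B G, (PL p Y Y' (MonoidAlgebra B (Wr p G)))ᵀ * (iS p B G (Y ⊕ Y') (cR (γ.1.2.val.1 1 0)) +
      iS p B G (Y ⊕ Y') (eM p Y Y' _ * (tpM (bX γ.2.1.val γ.2.2.val) - 1))) = 0 :=
    fun γ => by rw [Matrix.mul_add, PL_iS_cR, PL_mixZ, add_zero]
  refine clX_split (A := MonoidAlgebra B (Wr p G)) (n := n) ((jU p B G (Y ⊕ Y')).comp (PhH p Y Y' B G))
    (((jU p B G (Y ⊕ Y')).comp (PhH p Y Y' B G)).comp (kapL p Y Y' B G))
    ((jU p B G Y).comp ((MonoidHom.fst _ _).comp (MonoidHom.fst _ _))) (PL p Y Y' (MonoidAlgebra B (Wr p G)))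
    (PL p Y Y' (MonoidAlgebra B (Wr p G)))ᵀ (PL_PL p Y Y' _) (fun γ => ?_) (fun γ => ?_) (fun γ => ?_) y
  · show (jU p B G (Y ⊕ Y') (PhH p Y Y' B G γ)).val * _ = _ * (jU p B G Y γ.1.1).val
    rw [f_valL, jU_val]
    exact split_aux1 (PL_PL p Y Y' _) sg_PL (hb γ) (hz γ)
  · show _ * (jU p B G (Y ⊕ Y') (PhH p Y Y' B G γ)).val = (jU p B G Y γ.1.1).val * _
    rw [f_valL, jU_val]
    exact split_aux2 (PL_PL p Y Y' _) PL_sg (hb' γ) (hz' γ)
  · show (jU p B G (Y ⊕ Y') (PhH p Y Y' B G (kapL p Y Y' B G γ))).val = (jU p B G (Y ⊕ Y') (PhH p Y Y' B G γ)).val *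
      (1 - PL p Y Y' (MonoidAlgebra B (Wr p G)) * (PL p Y Y' (MonoidAlgebra B (Wr p G)))ᵀ) +
      PL p Y Y' (MonoidAlgebra B (Wr p G)) * (PL p Y Y' (MonoidAlgebra B (Wr p G)))ᵀ
    rw [f_valL γ, ← split_aux3 (PL_PL p Y Y' _) sg_PL PL_sg (hb γ) (hz γ), f_valL]
    show PL p Y Y' (MonoidAlgebra B (Wr p G)) * iS p B G Y ((1 : Dt (shM p B G Y)).1 1 1) * (PL p Y Y' (MonoidAlgebra B (Wr p G)))ᵀ +
      (iS p B G (Y ⊕ Y') (cR (γ.1.2.val.1 1 1)) + Em p Y Y' _) +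
      (PL p Y Y' (MonoidAlgebra B (Wr p G)) * iS p B G Y ((1 : Dt (shM p B G Y)).1 1 0) * (PL p Y Y' (MonoidAlgebra B (Wr p G)))ᵀ +
        (iS p B G (Y ⊕ Y') (cR (γ.1.2.val.1 1 0)) +
        iS p B G (Y ⊕ Y') (eM p Y Y' _ * (tpM (bX γ.2.1.val γ.2.2.val) - 1)))) * sgX p (Y ⊕ Y') B G = _
    rw [dt_one11, dt_one10, map_one, map_zero, Matrix.mul_one, Matrix.mul_zero, Matrix.zero_mul, zero_add]

/-- **Splitting off the right block.** -/
theorem split_R (y : HG (GP p Y Y' B G) n) :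
    clX (MonoidAlgebra B (Wr p G)) n (ZMod p → Y ⊕ Y') (HG.map n ((jU p B G (Y ⊕ Y')).comp (PhH p Y Y' B G)) y) =
      clX (MonoidAlgebra B (Wr p G)) n (ZMod p → Y') (HG.map n ((jU p B G Y').comp ((MonoidHom.snd _ _).comp (MonoidHom.fst _ _))) y) +
      clX (MonoidAlgebra B (Wr p G)) n (ZMod p → Y ⊕ Y')
        (HG.map n (((jU p B G (Y ⊕ Y')).comp (PhH p Y Y' B G)).comp (kapR p Y Y' B G)) y) := by
  have hb : ∀ γ : GP p Y Y' B G, (iS p B G (Y ⊕ Y') (cL (γ.1.1.val.1 1 1)) + Em p Y Y' _) * PR p Y Y' (MonoidAlgebra B (Wr p G)) = 0 :=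
    fun γ => by rw [Matrix.add_mul, iS_cL_PR, Em_PR, add_zero]
  have hb' : ∀ γ : GP p Y Y' B G, (PR p Y Y' (MonoidAlgebra B (Wr p G)))ᵀ * (iS p B G (Y ⊕ Y') (cL (γ.1.1.val.1 1 1)) + Em p Y Y' _) = 0 :=
    fun γ => by rw [Matrix.mul_add, PR_iS_cL, PR_Em, add_zero]
  have hz : ∀ γ : GP p Y Y' B G, (iS p B G (Y ⊕ Y') (cL (γ.1.1.val.1 1 0)) +
      iS p B G (Y ⊕ Y') (eM p Y Y' _ * (tpM (bX γ.2.1.val γ.2.2.val) - 1))) * PR p Y Y' (MonoidAlgebra B (Wr p G)) = 0 :=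
    fun γ => by rw [Matrix.add_mul, iS_cL_PR, mixZ_PR, add_zero]
  have hz' : ∀ γ : GP p Y Y' B G, (PR p Y Y' (MonoidAlgebra B (Wr p G)))ᵀ * (iS p B G (Y ⊕ Y') (cL (γ.1.1.val.1 1 0)) +
      iS p B G (Y ⊕ Y') (eM p Y Y' _ * (tpM (bX γ.2.1.val γ.2.2.val) - 1))) = 0 :=
    fun γ => by rw [Matrix.mul_add, PR_iS_cL, PR_mixZ, add_zero]
  refine clX_split (A := MonoidAlgebra B (Wr p G)) (n := n) ((jU p B G (Y ⊕ Y')).comp (PhH p Y Y' B G))
    (((jU p B G (Y ⊕ Y')).comp (PhH p Y Y' B G)).comp (kapR p Y Y' B G))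
    ((jU p B G Y').comp ((MonoidHom.snd _ _).comp (MonoidHom.fst _ _))) (PR p Y Y' (MonoidAlgebra B (Wr p G)))
    (PR p Y Y' (MonoidAlgebra B (Wr p G)))ᵀ (PR_PR p Y Y' _) (fun γ => ?_) (fun γ => ?_) (fun γ => ?_) y
  · show (jU p B G (Y ⊕ Y') (PhH p Y Y' B G γ)).val * _ = _ * (jU p B G Y' γ.1.2).val
    rw [f_valR, jU_val]
    exact split_aux1 (PR_PR p Y Y' _) sg_PR (hb γ) (hz γ)
  · show _ * (jU p B G (Y ⊕ Y') (PhH p Y Y' B G γ)).val = (jU p B G Y' γ.1.2).val * _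
    rw [f_valR, jU_val]
    exact split_aux2 (PR_PR p Y Y' _) PR_sg (hb' γ) (hz' γ)
  · show (jU p B G (Y ⊕ Y') (PhH p Y Y' B G (kapR p Y Y' B G γ))).val = (jU p B G (Y ⊕ Y') (PhH p Y Y' B G γ)).val *
      (1 - PR p Y Y' (MonoidAlgebra B (Wr p G)) * (PR p Y Y' (MonoidAlgebra B (Wr p G)))ᵀ) +
      PR p Y Y' (MonoidAlgebra B (Wr p G)) * (PR p Y Y' (MonoidAlgebra B (Wr p G)))ᵀ
    rw [f_valR γ, ← split_aux3 (PR_PR p Y Y' _) sg_PR PR_sg (hb γ) (hz γ), f_valR]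
    show PR p Y Y' (MonoidAlgebra B (Wr p G)) * iS p B G Y' ((1 : Dt (shM p B G Y')).1 1 1) * (PR p Y Y' (MonoidAlgebra B (Wr p G)))ᵀ +
      (iS p B G (Y ⊕ Y') (cL (γ.1.1.val.1 1 1)) + Em p Y Y' _) +
      (PR p Y Y' (MonoidAlgebra B (Wr p G)) * iS p B G Y' ((1 : Dt (shM p B G Y')).1 1 0) * (PR p Y Y' (MonoidAlgebra B (Wr p G)))ᵀ +
        (iS p B G (Y ⊕ Y') (cL (γ.1.1.val.1 1 0)) +
        iS p B G (Y ⊕ Y') (eM p Y Y' _ * (tpM (bX γ.2.1.val γ.2.2.val) - 1)))) * sgX p (Y ⊕ Y') B G = _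
    rw [dt_one11, dt_one10, map_one, map_zero, Matrix.mul_one, Matrix.mul_zero, Matrix.zero_mul, zero_add]

/-- what remains -/
theorem jU_PhH_kap : (((jU p B G (Y ⊕ Y')).comp (PhH p Y Y' B G)).comp (kapR p Y Y' B G)).comp (kapL p Y Y' B G) =
    (mixH p Y Y' B G).comp (MonoidHom.snd _ _) := by
  refine MonoidHom.ext fun γ => Units.ext ?_
  show (jU p B G (Y ⊕ Y') (PhH p Y Y' B G (kapR p Y Y' B G (kapL p Y Y' B G γ)))).val =
    1 + iS p B G (Y ⊕ Y') (eM p Y Y' _ * (tpM (bX γ.2.1.val γ.2.2.val) - 1)) * sgX p (Y ⊕ Y') B G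
  rw [jU_val, PhH_11, PhH_10]
  show iS p B G (Y ⊕ Y') (cL ((1 : Dt (shM p B G Y)).1 1 1) + cR ((1 : Dt (shM p B G Y')).1 1 1) + Em p Y Y' _) +
    iS p B G (Y ⊕ Y') (cL ((1 : Dt (shM p B G Y)).1 1 0) + cR ((1 : Dt (shM p B G Y')).1 1 0) +
      eM p Y Y' _ * (tpM (bX γ.2.1.val γ.2.2.val) - 1)) * sgX p (Y ⊕ Y') B G = _
  rw [dt_one11, dt_one10, dt_one11, dt_one10, cL_one_add, cL_zero, cR_zero, zero_add, zero_add, map_one]

/-- **The value of a block sum.** -/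
theorem phD_blk (y : HG (GP p Y Y' B G) n) :
    phD (Y ⊕ Y') (HG.map n (PhH p Y Y' B G) y) =
      phD Y (HG.map n ((MonoidHom.fst _ _).comp (MonoidHom.fst _ _)) y) +
        phD Y' (HG.map n ((MonoidHom.snd _ _).comp (MonoidHom.fst _ _)) y) := by
  show toTV p B G n (clX (MonoidAlgebra B (Wr p G)) n (ZMod p → Y ⊕ Y') (HG.map n (jU p B G (Y ⊕ Y')) (HG.map n (PhH p Y Y' B G) y))) =
    toTV p B G n (clX (MonoidAlgebra B (Wr p G)) n (ZMod p → Y) (HG.map n (jU p B G Y) (HG.map n ((MonoidHom.fst _ _).comp (MonoidHom.fst _ _)) y))) +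
    toTV p B G n (clX (MonoidAlgebra B (Wr p G)) n (ZMod p → Y') (HG.map n (jU p B G Y') (HG.map n ((MonoidHom.snd _ _).comp (MonoidHom.fst _ _)) y)))
  have h1 := split_R (n := n) (HG.map n (kapL p Y Y' B G) y)
  rw [HG.map_map, HG.map_map, HG.map_map, jU_PhH_kap] at h1
  rw [HG.map_map, HG.map_map, HG.map_map, split_L, h1, map_add, map_add, toTV_mix, add_zero]
  rfl

end

end Pool.Agent.H71.CZ
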