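import Pool.Agent.H71.CZ.BlkB

/-!
# Project CZ: block sums, the matrices over `B[G ≀ C_p]`

PROOFS.  `iS (cL m) = PL * iS m * PLᵀ` over `S = B[G ≀ C_p]` (`PL`, `PR`, `Em`, `eM` have entries `0`, `1` and are preserved by ring homomorphisms);
`PL_PL`, `PL_PR`, ...; `piS_PL`: entrywise, `piS v w = sg` if `w = v (· - 1)`.
-/

set_option autoImplicit false

open Matrix

universe u v w

namespace Pool.Agent.H71.CZ

section

variable {p : ℕ} [hp : Fact p.Prime] {Y Y' : Type} [Fintype Y] [DecidableEq Y] [Fintype Y']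
  [DecidableEq Y']

omit [Fintype Y] [Fintype Y'] in
theorem PL_map {R : Type u} {R' : Type v} [Ring R] [Ring R'] (φ : R →+* R') : (PL p Y Y' R).map φ = PL p Y Y' R' := by
  ext1 v w
  rw [Matrix.map_apply]
  unfold PL
  split_ifs
  · exact map_one φ
  · exact map_zero φ

omit [Fintype Y] [Fintype Y'] in
theorem PR_map {R : Type u} {R' : Type v} [Ring R] [Ring R'] (φ : R →+* R') : (PR p Y Y' R).map φ = PR p Y Y' R' := by
  ext1 v w
  rw [Matrix.map_apply]
  unfold PR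
  split_ifs
  · exact map_one φ
  · exact map_zero φ

end

section

variable {p : ℕ} [hp : Fact p.Prime] {Y Y' : Type} [Fintype Y] [DecidableEq Y] [Fintype Y']
  [DecidableEq Y'] {B : Type} [CommRing B] {G : Type v} [Group G]

theorem iS_cL (m : MM p B G Y) : iS p B G (Y ⊕ Y') (cL m) =
    PL p Y Y' (MonoidAlgebra B (Wr p G)) * iS p B G Y m * (PL p Y Y' (MonoidAlgebra B (Wr p G)))ᵀ := by
  show (cL m).map (MonoidAlgebra.mapDomainRingHom B (inc p G)) = _ * m.map (MonoidAlgebra.mapDomainRingHom B (inc p G)) * _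
  unfold cL
  rw [Matrix.map_mul, Matrix.map_mul, PL_map, Matrix.transpose_map, PL_map]

theorem iS_cR (m : MM p B G Y') : iS p B G (Y ⊕ Y') (cR m) =
    PR p Y Y' (MonoidAlgebra B (Wr p G)) * iS p B G Y' m * (PR p Y Y' (MonoidAlgebra B (Wr p G)))ᵀ := by
  show (cR m).map (MonoidAlgebra.mapDomainRingHom B (inc p G)) = _ * m.map (MonoidAlgebra.mapDomainRingHom B (inc p G)) * _
  unfold cR
  rw [Matrix.map_mul, Matrix.map_mul, PR_map, Matrix.transpose_map, PR_map]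

theorem iS_cL_PL (m : MM p B G Y) :
    iS p B G (Y ⊕ Y') (cL m) * PL p Y Y' (MonoidAlgebra B (Wr p G)) =
      PL p Y Y' (MonoidAlgebra B (Wr p G)) * iS p B G Y m := by
  rw [iS_cL, Matrix.mul_assoc, PL_PL, Matrix.mul_one]

theorem PL_iS_cL (m : MM p B G Y) :
    (PL p Y Y' (MonoidAlgebra B (Wr p G)))ᵀ * iS p B G (Y ⊕ Y') (cL m) =
      iS p B G Y m * (PL p Y Y' (MonoidAlgebra B (Wr p G)))ᵀ := by
  rw [iS_cL, Matrix.mul_assoc, ← Matrix.mul_assoc, PL_PL, Matrix.one_mul]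

theorem iS_cR_PR (m : MM p B G Y') :
    iS p B G (Y ⊕ Y') (cR m) * PR p Y Y' (MonoidAlgebra B (Wr p G)) =
      PR p Y Y' (MonoidAlgebra B (Wr p G)) * iS p B G Y' m := by
  rw [iS_cR, Matrix.mul_assoc, PR_PR, Matrix.mul_one]

theorem PR_iS_cR (m : MM p B G Y') :
    (PR p Y Y' (MonoidAlgebra B (Wr p G)))ᵀ * iS p B G (Y ⊕ Y') (cR m) =
      iS p B G Y' m * (PR p Y Y' (MonoidAlgebra B (Wr p G)))ᵀ := by
  rw [iS_cR, Matrix.mul_assoc, ← Matrix.mul_assoc, PR_PR, Matrix.one_mul]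

theorem iS_cR_PL (m : MM p B G Y') :
    iS p B G (Y ⊕ Y') (cR m) * PL p Y Y' (MonoidAlgebra B (Wr p G)) = 0 := by
  rw [iS_cR, Matrix.mul_assoc, PR_PL, Matrix.mul_zero]

theorem PL_iS_cR (m : MM p B G Y') :
    (PL p Y Y' (MonoidAlgebra B (Wr p G)))ᵀ * iS p B G (Y ⊕ Y') (cR m) = 0 := by
  rw [iS_cR, Matrix.mul_assoc, ← Matrix.mul_assoc, PL_PR, Matrix.zero_mul]

theorem iS_cL_PR (m : MM p B G Y) :
    iS p B G (Y ⊕ Y') (cL m) * PR p Y Y' (MonoidAlgebra B (Wr p G)) = 0 := by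
  rw [iS_cL, Matrix.mul_assoc, PL_PR, Matrix.mul_zero]

theorem PR_iS_cL (m : MM p B G Y) :
    (PR p Y Y' (MonoidAlgebra B (Wr p G)))ᵀ * iS p B G (Y ⊕ Y') (cL m) = 0 := by
  rw [iS_cL, Matrix.mul_assoc, ← Matrix.mul_assoc, PR_PL, Matrix.zero_mul]

theorem iS_Em : iS p B G (Y ⊕ Y') (Em p Y Y' _) = Em p Y Y' _ := by
  show (Em p Y Y' _).map (MonoidAlgebra.mapDomainRingHom B (inc p G)) = _
  have h : ∀ X : MM p B G (Y ⊕ Y'), X.map (MonoidAlgebra.mapDomainRingHom B (inc p G)) = iS p B G (Y ⊕ Y') X := fun _ => rfl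
  unfold Em
  rw [h, map_sub, map_sub, map_one, ← h, ← h, Matrix.map_mul, Matrix.map_mul, Matrix.transpose_map, Matrix.transpose_map, PL_map, PR_map]

theorem iS_eM : iS p B G (Y ⊕ Y') (eM p Y Y' _) = eM p Y Y' _ := by
  classical
  show (eM p Y Y' _).map (MonoidAlgebra.mapDomainRingHom B (inc p G)) = _
  ext1 v w
  rw [Matrix.map_apply]
  unfold eM
  by_cases h : v = w
  · rw [h, Matrix.diagonal_apply_eq, Matrix.diagonal_apply_eq]
    split_ifs
    · exact map_one _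
    · exact map_zero _
  · rw [Matrix.diagonal_apply_ne _ h, Matrix.diagonal_apply_ne _ h, map_zero]

theorem piS_apply (Z : Type) [Fintype Z] [DecidableEq Z] (v w : ZMod p → Z) :
    piS p B G Z v w = if w = (fun i => v (i - 1)) then MonoidAlgebra.single (sg p G) 1 else 0 := rfl

theorem piS_mulE {Z : Type} [Fintype Z] [DecidableEq Z] {κ : Type*} (A : Matrix (ZMod p → Z) κ (MonoidAlgebra B (Wr p G))) (v : ZMod p → Z) (w : κ) :
    (piS p B G Z * A) v w = MonoidAlgebra.single (sg p G) 1 * A (fun i => v (i - 1)) w := by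
  rw [Matrix.mul_apply, Finset.sum_eq_single (fun i => v (i - 1))]
  · rw [piS_apply, if_pos rfl]
  · intro u _ hu
    rw [piS_apply, if_neg hu, zero_mul]
  · intro h
    exact absurd (Finset.mem_univ _) h

theorem piS_PL : piS p B G (Y ⊕ Y') * PL p Y Y' (MonoidAlgebra B (Wr p G)) =
    PL p Y Y' (MonoidAlgebra B (Wr p G)) * piS p B G Y := by
  ext1 v w
  rw [piS_mulE (PL p Y Y' (MonoidAlgebra B (Wr p G))) v w]
  by_cases hv : ty v = fun _ => true
  · obtain ⟨x, rfl⟩ := exists_inl hv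
    rw [PL_mul_inl, piS_apply]
    have h1 : PL p Y Y' (MonoidAlgebra B (Wr p G)) (fun i => Sum.inl (x (i - 1))) w = if (fun i => x (i - 1)) = w then 1 else 0 :=
      PL_inl (fun i => x (i - 1)) w
    rw [h1]
    by_cases h2 : (fun i => x (i - 1)) = w
    · rw [if_pos h2, if_pos h2.symm, mul_one]
    · rw [if_neg h2, if_neg (Ne.symm h2), mul_zero]
  · rw [PL_mul_zero _ hv, PL_zero (fun h => hv (ty_shift_const h)), mul_zero]

theorem piS_PR : piS p B G (Y ⊕ Y') * PR p Y Y' (MonoidAlgebra B (Wr p G)) =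
    PR p Y Y' (MonoidAlgebra B (Wr p G)) * piS p B G Y' := by
  ext1 v w
  rw [piS_mulE (PR p Y Y' (MonoidAlgebra B (Wr p G))) v w]
  by_cases hv : ty v = fun _ => false
  · obtain ⟨x, rfl⟩ := exists_inr hv
    rw [PR_mul_inr, piS_apply]
    have h1 : PR p Y Y' (MonoidAlgebra B (Wr p G)) (fun i => Sum.inr (x (i - 1))) w = if (fun i => x (i - 1)) = w then 1 else 0 :=
      PR_inr (fun i => x (i - 1)) w
    rw [h1]
    by_cases h2 : (fun i => x (i - 1)) = w
    · rw [if_pos h2, if_pos h2.symm, mul_one]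
    · rw [if_neg h2, if_neg (Ne.symm h2), mul_zero]
  · rw [PR_mul_zero _ hv, PR_zero (fun h => hv (ty_shift_const h)), mul_zero]

theorem PL_piS : (PL p Y Y' (MonoidAlgebra B (Wr p G)))ᵀ * piS p B G (Y ⊕ Y') =
    piS p B G Y * (PL p Y Y' (MonoidAlgebra B (Wr p G)))ᵀ := by
  ext1 x w
  rw [piS_mulE ((PL p Y Y' (MonoidAlgebra B (Wr p G)))ᵀ) x w, Matrix.transpose_apply, Matrix.mul_apply,
    Finset.sum_eq_single (fun i => (Sum.inl (x i) : Y ⊕ Y'))]
  · rw [Matrix.transpose_apply, PL_inl, if_pos rfl, one_mul, piS_apply]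
    unfold PL
    split_ifs
    · rw [mul_one]
    · rw [mul_zero]
  · intro v _ hv
    rw [Matrix.transpose_apply]
    unfold PL
    rw [if_neg hv, zero_mul]
  · intro h
    exact absurd (Finset.mem_univ _) h

theorem PR_piS : (PR p Y Y' (MonoidAlgebra B (Wr p G)))ᵀ * piS p B G (Y ⊕ Y') =
    piS p B G Y' * (PR p Y Y' (MonoidAlgebra B (Wr p G)))ᵀ := by
  ext1 x w
  rw [piS_mulE ((PR p Y Y' (MonoidAlgebra B (Wr p G)))ᵀ) x w, Matrix.transpose_apply, Matrix.mul_apply,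
    Finset.sum_eq_single (fun i => (Sum.inr (x i) : Y ⊕ Y'))]
  · rw [Matrix.transpose_apply, PR_inr, if_pos rfl, one_mul, piS_apply]
    unfold PR
    split_ifs
    · rw [mul_one]
    · rw [mul_zero]
  · intro v _ hv
    rw [Matrix.transpose_apply]
    unfold PR
    rw [if_neg hv, zero_mul]
  · intro h
    exact absurd (Finset.mem_univ _) h

end

end Pool.Agent.H71.CZ
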