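import Pool.Agent.H71.CZ.BlkC

/-!
# Project CZ: the map `θ` and block sums

PROOF.  The functionals `psD (Y ⊕ Y') ∘ HG.map PsH` and `psD Y ∘ HG.map (fst ∘ fst) + psD Y' ∘ HG.map (snd ∘ fst)` on `HG (GQ ..) n` agree after
`HG.map piPQ` (`prU_PhH`, `psD_map`, `phD_blk`), hence are equal: `descend_unique` with `CKill.prod` of `ckill_eta`.  Evaluate at the image of `x`
under `(U, V) ↦ ((eta U, eta V), (U, V))`: `PsH_eta`.
-/

set_option autoImplicit false

open Matrix

universe u v w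

namespace Pool.Agent.H71.CZ

open Pool.Agent.H71.FQ

section

variable {p : ℕ} [hp : Fact p.Prime] {B : Type} [CommRing B] {G : Type v} [Group G] {n : ℕ}
  {Y Y' : Type} [Fintype Y] [DecidableEq Y] [Fintype Y'] [DecidableEq Y']

/-- **`θ` is additive on block sums.** -/
theorem th_blk (hB : GoodB p B)
    (x : HG ((Matrix Y Y (MonoidAlgebra B G))ˣ × (Matrix Y' Y' (MonoidAlgebra B G))ˣ) n) :
    th (Y ⊕ Y') hB (HG.map n (blkX (A := MonoidAlgebra B G)) x) =
      th Y hB (HG.map n (MonoidHom.fst _ _) x) + th Y' hB (HG.map n (MonoidHom.snd _ _) x) := by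
  obtain ⟨t, ht⟩ := ckill_eta (G := G) (Y := Y) hB
  obtain ⟨t', ht'⟩ := ckill_eta (G := G) (Y := Y') hB
  have hck := ht.prod ht' ((Matrix Y Y (MonoidAlgebra B G))ˣ × (Matrix Y' Y' (MonoidAlgebra B G))ˣ)
  -- the two functionals
  have key : (psD (n := n) (Y ⊕ Y') hB).comp (HG.map n (PsH p Y Y' B G)) =
      (psD (n := n) Y hB).comp (HG.map n ((MonoidHom.fst _ _).comp (MonoidHom.fst _ _))) +
        (psD (n := n) Y' hB).comp (HG.map n ((MonoidHom.snd _ _).comp (MonoidHom.fst _ _))) := by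
    refine descend_unique hck _ _ fun y => ?_
    have h1 : ∀ y : HG (GP p Y Y' B G) n, HG.map n (PsH p Y Y' B G) (HG.map n (piPQ p Y Y' B G) y) =
        HG.map n (prU (shM p B G (Y ⊕ Y'))) (HG.map n (PhH p Y Y' B G) y) := by
      intro y
      rw [HG.map_map, HG.map_map]
      congr 2
      exact MonoidHom.ext fun γ => (prU_PhH γ).symm
    have h2 : ∀ y : HG (GP p Y Y' B G) n,
        HG.map n ((MonoidHom.fst _ _).comp (MonoidHom.fst _ _)) (HG.map n (piPQ p Y Y' B G) y) =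
          HG.map n (prU (shM p B G Y)) (HG.map n ((MonoidHom.fst _ _).comp (MonoidHom.fst _ _)) y) := by
      intro y
      rw [HG.map_map, HG.map_map]
      rfl
    have h3 : ∀ y : HG (GP p Y Y' B G) n,
        HG.map n ((MonoidHom.snd _ _).comp (MonoidHom.fst _ _)) (HG.map n (piPQ p Y Y' B G) y) =
          HG.map n (prU (shM p B G Y')) (HG.map n ((MonoidHom.snd _ _).comp (MonoidHom.fst _ _)) y) := by
      intro y
      rw [HG.map_map, HG.map_map]
      rfl
    show psD (Y ⊕ Y') hB (HG.map n (PsH p Y Y' B G) (HG.map n (piPQ p Y Y' B G) y)) =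
      psD Y hB (HG.map n ((MonoidHom.fst _ _).comp (MonoidHom.fst _ _)) (HG.map n (piPQ p Y Y' B G) y)) +
        psD Y' hB (HG.map n ((MonoidHom.snd _ _).comp (MonoidHom.fst _ _)) (HG.map n (piPQ p Y Y' B G) y))
    rw [h1, h2, h3, psD_map, psD_map, psD_map, phD_blk]
  -- the homomorphism `(U, V) ↦ ((eta U, eta V), (U, V))`
  obtain ⟨ρ, hρ⟩ : ∃ ρ : (Matrix Y Y (MonoidAlgebra B G))ˣ × (Matrix Y' Y' (MonoidAlgebra B G))ˣ →* GQ p Y Y' B G,
      ∀ U V, ρ (U, V) = ((eta hB U, eta hB V), (U, V)) :=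
    ⟨((eta hB).prodMap (eta hB)).prod (MonoidHom.id _), fun _ _ => rfl⟩
  have e5 : (PsH p Y Y' B G).comp ρ = (eta hB).comp (blkX (A := MonoidAlgebra B G)) := by
    refine MonoidHom.ext fun w => ?_
    obtain ⟨U, V⟩ := w
    rw [MonoidHom.comp_apply, MonoidHom.comp_apply, hρ, PsH_eta]
  have e6 : ((MonoidHom.fst _ _).comp (MonoidHom.fst _ _)).comp ρ = (eta hB).comp (MonoidHom.fst _ _) := by
    refine MonoidHom.ext fun w => ?_
    obtain ⟨U, V⟩ := w
    rw [MonoidHom.comp_apply, MonoidHom.comp_apply, hρ]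
    rfl
  have e7 : ((MonoidHom.snd _ _).comp (MonoidHom.fst _ _)).comp ρ = (eta hB).comp (MonoidHom.snd _ _) := by
    refine MonoidHom.ext fun w => ?_
    obtain ⟨U, V⟩ := w
    rw [MonoidHom.comp_apply, MonoidHom.comp_apply, hρ]
    rfl
  have h8 : psD (Y ⊕ Y') hB (HG.map n (PsH p Y Y' B G) (HG.map n ρ x)) =
      psD Y hB (HG.map n ((MonoidHom.fst _ _).comp (MonoidHom.fst _ _)) (HG.map n ρ x)) +
        psD Y' hB (HG.map n ((MonoidHom.snd _ _).comp (MonoidHom.fst _ _)) (HG.map n ρ x)) :=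
    DFunLike.congr_fun key (HG.map n ρ x)
  rw [HG.map_map, HG.map_map, HG.map_map, e5, e6, e7, ← HG.map_map, ← HG.map_map, ← HG.map_map] at h8
  exact h8

end

end Pool.Agent.H71.CZ
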