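import Pool.Agent.H71.CZ.NRep

/-!
# Project CZ: the homotopy on the kernel of the chains

`π : E → Q` surjective with kernel `K`, `t` an element of `E` whose image in `Q` is central, `L = push (t * ·)`.  Assume that `L` acts
on the homology of degree `n + 1` of the chains of `E` modulo `K` as `μ n`.  Then there are `E`-equivariant maps `h n` of degree one
with values in the kernel of `push π` and with
`bd (h (n + 1) x) + (L - μ n) (h n (bd x)) ≡ (∏_{i ≤ n} (L - μ i)) x` modulo `coiH` for `push π x = 0`.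

PROOF of `exists_h`.  Recursion on `n`; `h 0 = 0`.  The statement for the pair `(n, n + 1)` that is carried along: `h n` is
equivariant, `push π (h n x) = 0`, and for `n ≥ 1` the identity for `h n`, `h (n - 1)`; so do the induction for the predicate
`Ok n (h_n) := equivariant ∧ push π h_n = 0 ∧ ∀ y : Cx (n + 1), push π y = 0 → bd (Pn n y - h_n (bd y)) ∈ coiH ι n` where
`Pn n = ∏_{i < n} (L - μ i)`.  (`Ok 0 0`: `bd y ∈ coiH ι 0` by `mem_coiH_zero`.)
Step: given `Ok n (h_n)`.  For a tuple `x : Fin (n + 2) → E` with `x 0 = 1` put `y = x - rp x` (so `push π y = 0` by `push_rp`),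
`w = Pn n y - h_n (bd y)`.  `push π w = 0`, `bd w ∈ coiH ι n`, so by `hμ` `L w - μ n • w = bd v + r`, `r ∈ coiH ι (n + 1)`.
`push π v` is a cycle of `Cx ℤ Q (n + 2)` (`push π (L w) = push (π t * ·) (push π w) = 0`, `push_coiH_ker`), hence
`push π v = bd c` (`bd_cone`); lift `c` (`exists_push`) and subtract its boundary from `v`: so we may assume `push π v = 0`.
Define `h_{n+1} x = v` for these tuples, and `h_{n+1} x = push (x 0 * ·) (h_{n+1} ((x 0)⁻¹ x))` in general: it is equivariant with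
values in the kernel of `push π`, and maps `coiH ι` to `coiH ι` (`equi_coiH`).
Then `bd (h_{n+1} c) + (L - μ n) (h_n (bd (c - rp c))) - Pn (n + 1) (c - rp c) ∈ coiH ι (n + 1)` for every chain `c`: for tuples with
`x 0 = 1` this is the choice; for `g x` use equivariance and that `L (g x) - g (L x) ∈ coiH ι` (`t g = (t g t⁻¹ g⁻¹) g t`, and
`t g t⁻¹ g⁻¹` is in the kernel), which passes through `Pn` and `bd`, `h_n`.
For `push π c = 0`: `rp c ∈ coiH ι` (`rp_ker`), so all terms with `rp c` are in `coiH ι` (`bd_coiH`, `equi_coiH`, `push_coiH` for `L`).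
Finally `Ok (n + 1)`: for `push π y = 0`, `y : Cx (n + 2)`: `bd (Pn (n + 1) y) = Pn (n + 1) (bd y)`, and by the identity for `c = bd y`
(`bd bd y = 0`) `bd (h_{n+1} (bd y)) ≡ Pn (n + 1) (bd y)`.
The sequence is obtained from the step by `Classical` choice (`Nat.rec` in the type of pairs `⟨h_n, Ok n h_n⟩` with the relation
between consecutive ones; e.g. `exists_seq_of_forall_exists`-style argument by hand for a dependent type).
-/

set_option autoImplicit false

universe u v w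

namespace Pool.Agent.H71.CZ

open Pool.Agent.H71.FQ

section

variable {E : Type v} [Group E] {Q : Type w} [Group Q]

/-- the left translation by `t` -/
noncomputable def lt (t : E) (n : ℕ) : Cx ℤ E n →ₗ[ℤ] Cx ℤ E n := push ℤ (fun y => t * y) n

/-- the product of the maps `L - μ i`, `i < k`, in degree `n` -/
noncomputable def Pn (t : E) (μ : ℕ → ℤ) (n : ℕ) : ℕ → Cx ℤ E n →ₗ[ℤ] Cx ℤ E n
  | 0 => LinearMap.id
  | k + 1 => (lt t n - μ k • LinearMap.id).comp (Pn t μ n k)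

/-! ### Translations -/

theorem push_congr {X Y : Type*} {f g : X → Y} (h : ∀ x, f x = g x) (n : ℕ) (c : Cx ℤ X n) :
    push ℤ f n c = push ℤ g n c := by
  have h1 : f = g := funext h
  rw [h1]

theorem coiH_smul {H : Type*} [Group H] {ι : H →* E} {n : ℕ} (a : ℤ) {c : Cx ℤ E n}
    (h : c ∈ coiH ι n) : a • c ∈ coiH ι n := Submodule.smul_mem _ _ h

/-- left translations preserve the relations of the kernel -/
theorem trans_coiH (π : E →* Q) (n : ℕ) (g : E) {c : Cx ℤ E n} (hc : c ∈ coiH π.ker.subtype n) :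
    push ℤ (fun y => g * y) n c ∈ coiH π.ker.subtype n := by
  refine push_coiH (ι := π.ker.subtype) (ι' := π.ker.subtype) (fun y => g * y)
    (fun k => ⟨g * (k : E) * g⁻¹, π.normal_ker.conj_mem k k.2 g⟩) ?_ n hc
  intro h x
  show g * ((h : E) * x) = g * (h : E) * g⁻¹ * (g * x)
  group

/-- the translation by `t` commutes with the others modulo the kernel -/
theorem lt_trans_sub (π : E →* Q) (t : E) (ht : ∀ g, π t * π g = π g * π t) (n : ℕ) (g : E)
    (c : Cx ℤ E n) :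
    lt t n (push ℤ (fun y => g * y) n c) - push ℤ (fun y => g * y) n (lt t n c) ∈
      coiH π.ker.subtype n := by
  have hk : t * g * t⁻¹ * g⁻¹ ∈ π.ker := by
    rw [MonoidHom.mem_ker, map_mul, map_mul, map_mul, map_inv, map_inv, ht g]
    group
  have h1 : lt t n (push ℤ (fun y => g * y) n c) =
      push ℤ (fun y => π.ker.subtype ⟨t * g * t⁻¹ * g⁻¹, hk⟩ * y) n
        (push ℤ (fun y => g * y) n (lt t n c)) := by
    rw [lt, push_push, push_push, push_push]
    refine push_congr (fun x => ?_) n c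
    show t * (g * x) = t * g * t⁻¹ * g⁻¹ * (g * (t * x))
    group
  rw [h1]
  exact push_lmul_sub_memH π.ker.subtype n _ _

theorem push_trans_zero (π : E →* Q) (n : ℕ) (g : E) {c : Cx ℤ E n}
    (hc : push ℤ π n c = 0) : push ℤ π n (push ℤ (fun y => g * y) n c) = 0 := by
  have h1 : push ℤ π n (push ℤ (fun y => g * y) n c) =
      push ℤ (fun y => π g * y) n (push ℤ π n c) := by
    rw [push_push, push_push]
    exact push_congr (fun x => map_mul π g x) n c
  rw [h1, hc, map_zero]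

/-! ### The products -/

theorem Pn_succ (t : E) (μ : ℕ → ℤ) (n k : ℕ) (c : Cx ℤ E n) :
    Pn t μ n (k + 1) c = lt t n (Pn t μ n k c) - μ k • Pn t μ n k c := rfl

theorem Pn_coiH (π : E →* Q) (t : E) (μ : ℕ → ℤ) (n k : ℕ) {c : Cx ℤ E n}
    (hc : c ∈ coiH π.ker.subtype n) : Pn t μ n k c ∈ coiH π.ker.subtype n := by
  induction k with
  | zero => exact hc
  | succ k ih =>
    rw [Pn_succ]
    exact Submodule.sub_mem _ (trans_coiH π n t ih) (Submodule.smul_mem _ _ ih)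

theorem Pn_trans_sub (π : E →* Q) (t : E) (ht : ∀ g, π t * π g = π g * π t) (μ : ℕ → ℤ)
    (n k : ℕ) (g : E) (c : Cx ℤ E n) :
    Pn t μ n k (push ℤ (fun y => g * y) n c) - push ℤ (fun y => g * y) n (Pn t μ n k c) ∈
      coiH π.ker.subtype n := by
  induction k with
  | zero =>
    have h1 : Pn t μ n 0 (push ℤ (fun y => g * y) n c) -
        push ℤ (fun y => g * y) n (Pn t μ n 0 c) = 0 := sub_self _
    rw [h1]
    exact Submodule.zero_mem _
  | succ k ih =>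
    rw [Pn_succ, Pn_succ, map_sub, map_smul]
    have h1 : lt t n (Pn t μ n k (push ℤ (fun y => g * y) n c)) -
        μ k • Pn t μ n k (push ℤ (fun y => g * y) n c) -
        (push ℤ (fun y => g * y) n (lt t n (Pn t μ n k c)) -
          μ k • push ℤ (fun y => g * y) n (Pn t μ n k c)) =
        lt t n (Pn t μ n k (push ℤ (fun y => g * y) n c) -
          push ℤ (fun y => g * y) n (Pn t μ n k c)) +
        (lt t n (push ℤ (fun y => g * y) n (Pn t μ n k c)) -
          push ℤ (fun y => g * y) n (lt t n (Pn t μ n k c))) -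
        μ k • (Pn t μ n k (push ℤ (fun y => g * y) n c) -
          push ℤ (fun y => g * y) n (Pn t μ n k c)) := by
      rw [map_sub, smul_sub]
      abel
    rw [h1]
    exact Submodule.sub_mem _ (Submodule.add_mem _ (trans_coiH π n t ih)
      (lt_trans_sub π t ht n g _)) (Submodule.smul_mem _ _ ih)

theorem push_Pn_zero (π : E →* Q) (t : E) (μ : ℕ → ℤ) (n k : ℕ) {c : Cx ℤ E n}
    (hc : push ℤ π n c = 0) : push ℤ π n (Pn t μ n k c) = 0 := by
  induction k with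
  | zero => exact hc
  | succ k ih =>
    rw [Pn_succ, map_sub, map_smul, ih, smul_zero, sub_zero]
    exact push_trans_zero π n t ih

theorem bd_Pn (t : E) (μ : ℕ → ℤ) (n k : ℕ) (c : Cx ℤ E (n + 1)) :
    bd ℤ E n (Pn t μ (n + 1) k c) = Pn t μ n k (bd ℤ E n c) := by
  induction k with
  | zero => rfl
  | succ k ih =>
    rw [Pn_succ, Pn_succ, map_sub, map_smul, ih]
    congr 1
    rw [lt, lt, bd_push, ih]

/-! ### The step -/

/-- what is carried along -/
structure Ok (π : E →* Q) (t : E) (μ : ℕ → ℤ) (n : ℕ) (f : Cx ℤ E n →ₗ[ℤ] Cx ℤ E (n + 1)) :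
    Prop where
  equi : ∀ (g : E) (c : Cx ℤ E n),
    f (push ℤ (fun y => g * y) n c) = push ℤ (fun y => g * y) (n + 1) (f c)
  ker : ∀ c : Cx ℤ E n, push ℤ π (n + 1) (f c) = 0
  cyc : ∀ y : Cx ℤ E (n + 1), push ℤ π (n + 1) y = 0 →
    bd ℤ E n (Pn t μ (n + 1) n y - f (bd ℤ E n y)) ∈ coiH π.ker.subtype n

/-- the chain to which the hypothesis is applied -/
noncomputable def Wn (t : E) (μ : ℕ → ℤ) (n : ℕ) (f : Cx ℤ E n →ₗ[ℤ] Cx ℤ E (n + 1)) :
    Cx ℤ E (n + 1) →ₗ[ℤ] Cx ℤ E (n + 1) := Pn t μ (n + 1) n - f.comp (bd ℤ E n)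

theorem Wn_apply (t : E) (μ : ℕ → ℤ) (n : ℕ) (f : Cx ℤ E n →ₗ[ℤ] Cx ℤ E (n + 1))
    (c : Cx ℤ E (n + 1)) : Wn t μ n f c = Pn t μ (n + 1) n c - f (bd ℤ E n c) := rfl

theorem Ok.map_coiH {π : E →* Q} {t : E} {μ : ℕ → ℤ} {n : ℕ} {f : Cx ℤ E n →ₗ[ℤ] Cx ℤ E (n + 1)}
    (h : Ok π t μ n f) {c : Cx ℤ E n} (hc : c ∈ coiH π.ker.subtype n) :
    f c ∈ coiH π.ker.subtype (n + 1) :=
  equi_coiH (ι := π.ker.subtype) (ι' := π.ker.subtype) f (fun k => k)
    (fun g c => h.equi (π.ker.subtype g) c) hc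

theorem Ok.Wn_coiH {π : E →* Q} {t : E} {μ : ℕ → ℤ} {n : ℕ}
    {f : Cx ℤ E n →ₗ[ℤ] Cx ℤ E (n + 1)} (h : Ok π t μ n f) {c : Cx ℤ E (n + 1)}
    (hc : c ∈ coiH π.ker.subtype (n + 1)) : Wn t μ n f c ∈ coiH π.ker.subtype (n + 1) := by
  rw [Wn_apply]
  exact Submodule.sub_mem _ (Pn_coiH π t μ _ _ hc) (h.map_coiH (bd_coiH _ n hc))

theorem Ok.Wn_trans {π : E →* Q} {t : E} (ht : ∀ g, π t * π g = π g * π t) {μ : ℕ → ℤ} {n : ℕ}
    {f : Cx ℤ E n →ₗ[ℤ] Cx ℤ E (n + 1)} (h : Ok π t μ n f) (g : E) (c : Cx ℤ E (n + 1)) :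
    Wn t μ n f (push ℤ (fun y => g * y) (n + 1) c) -
      push ℤ (fun y => g * y) (n + 1) (Wn t μ n f c) ∈ coiH π.ker.subtype (n + 1) := by
  rw [Wn_apply, Wn_apply, bd_push, h.equi, map_sub]
  have h1 := Pn_trans_sub π t ht μ (n + 1) n g c
  have h2 : Pn t μ (n + 1) n (push ℤ (fun y => g * y) (n + 1) c) -
      push ℤ (fun y => g * y) (n + 1) (f (bd ℤ E n c)) -
      (push ℤ (fun y => g * y) (n + 1) (Pn t μ (n + 1) n c) -
        push ℤ (fun y => g * y) (n + 1) (f (bd ℤ E n c))) =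
      Pn t μ (n + 1) n (push ℤ (fun y => g * y) (n + 1) c) -
        push ℤ (fun y => g * y) (n + 1) (Pn t μ (n + 1) n c) := by
    abel
  rw [h2]
  exact h1

/-- `L - μ n` applied to the chain `Wn` -/
noncomputable def Zn (t : E) (μ : ℕ → ℤ) (n : ℕ) (f : Cx ℤ E n →ₗ[ℤ] Cx ℤ E (n + 1)) :
    Cx ℤ E (n + 1) →ₗ[ℤ] Cx ℤ E (n + 1) :=
  (lt t (n + 1) - μ n • LinearMap.id).comp (Wn t μ n f)

theorem Zn_apply (t : E) (μ : ℕ → ℤ) (n : ℕ) (f : Cx ℤ E n →ₗ[ℤ] Cx ℤ E (n + 1))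
    (c : Cx ℤ E (n + 1)) :
    Zn t μ n f c = lt t (n + 1) (Wn t μ n f c) - μ n • Wn t μ n f c := rfl

theorem Zn_eq (t : E) (μ : ℕ → ℤ) (n : ℕ) (f : Cx ℤ E n →ₗ[ℤ] Cx ℤ E (n + 1))
    (c : Cx ℤ E (n + 1)) :
    Zn t μ n f c = Pn t μ (n + 1) (n + 1) c -
      (lt t (n + 1) (f (bd ℤ E n c)) - μ n • f (bd ℤ E n c)) := by
  rw [Zn_apply, Wn_apply, Pn_succ, map_sub, smul_sub]
  abel

theorem Ok.Zn_coiH {π : E →* Q} {t : E} {μ : ℕ → ℤ} {n : ℕ}
    {f : Cx ℤ E n →ₗ[ℤ] Cx ℤ E (n + 1)} (h : Ok π t μ n f) {c : Cx ℤ E (n + 1)}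
    (hc : c ∈ coiH π.ker.subtype (n + 1)) : Zn t μ n f c ∈ coiH π.ker.subtype (n + 1) := by
  rw [Zn_apply]
  exact Submodule.sub_mem _ (trans_coiH π _ t (h.Wn_coiH hc))
    (Submodule.smul_mem _ _ (h.Wn_coiH hc))

theorem Ok.Zn_trans {π : E →* Q} {t : E} (ht : ∀ g, π t * π g = π g * π t) {μ : ℕ → ℤ} {n : ℕ}
    {f : Cx ℤ E n →ₗ[ℤ] Cx ℤ E (n + 1)} (h : Ok π t μ n f) (g : E) (c : Cx ℤ E (n + 1)) :
    Zn t μ n f (push ℤ (fun y => g * y) (n + 1) c) -
      push ℤ (fun y => g * y) (n + 1) (Zn t μ n f c) ∈ coiH π.ker.subtype (n + 1) := by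
  rw [Zn_apply, Zn_apply, map_sub, map_smul]
  have ih := h.Wn_trans ht g c
  have h1 : lt t (n + 1) (Wn t μ n f (push ℤ (fun y => g * y) (n + 1) c)) -
      μ n • Wn t μ n f (push ℤ (fun y => g * y) (n + 1) c) -
      (push ℤ (fun y => g * y) (n + 1) (lt t (n + 1) (Wn t μ n f c)) -
        μ n • push ℤ (fun y => g * y) (n + 1) (Wn t μ n f c)) =
      lt t (n + 1) (Wn t μ n f (push ℤ (fun y => g * y) (n + 1) c) -
        push ℤ (fun y => g * y) (n + 1) (Wn t μ n f c)) +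
      (lt t (n + 1) (push ℤ (fun y => g * y) (n + 1) (Wn t μ n f c)) -
        push ℤ (fun y => g * y) (n + 1) (lt t (n + 1) (Wn t μ n f c))) -
      μ n • (Wn t μ n f (push ℤ (fun y => g * y) (n + 1) c) -
        push ℤ (fun y => g * y) (n + 1) (Wn t μ n f c)) := by
    rw [map_sub, smul_sub]
    abel
  rw [h1]
  exact Submodule.sub_mem _ (Submodule.add_mem _ (trans_coiH π _ t ih)
    (lt_trans_sub π t ht _ g _)) (Submodule.smul_mem _ _ ih)

/-- the choice for one tuple -/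
theorem Ok.exists_v {π : E →* Q} (hπ : Function.Surjective π) {t : E} {μ : ℕ → ℤ}
    (hμ : ∀ (n : ℕ) (x : Cx ℤ E (n + 1)), bd ℤ E n x ∈ coiH π.ker.subtype n →
      push ℤ (fun y => t * y) (n + 1) x - μ n • x ∈ bnH π.ker.subtype (n + 1))
    {n : ℕ} {f : Cx ℤ E n →ₗ[ℤ] Cx ℤ E (n + 1)} (h : Ok π t μ n f) (y : Cx ℤ E (n + 1))
    (hy : push ℤ π (n + 1) y = 0) :
    ∃ v : Cx ℤ E (n + 2), push ℤ π (n + 2) v = 0 ∧
      bd ℤ E (n + 1) v - Zn t μ n f y ∈ coiH π.ker.subtype (n + 1) := by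
  have hW : push ℤ π (n + 1) (Wn t μ n f y) = 0 := by
    rw [Wn_apply, map_sub, push_Pn_zero π t μ _ _ hy, h.ker, sub_zero]
  obtain ⟨_, ⟨v, rfl⟩, r, hr, hvr⟩ := Submodule.mem_sup.1 (hμ n (Wn t μ n f y) (h.cyc y hy))
  have hZ : bd ℤ E (n + 1) v + r = Zn t μ n f y := hvr
  have h1 : push ℤ π (n + 1) (Zn t μ n f y) = 0 := by
    rw [Zn_apply, map_sub, map_smul, hW, smul_zero, sub_zero]
    exact push_trans_zero π _ t hW
  have h2 : bd ℤ Q (n + 1) (push ℤ π (n + 2) v) = 0 := by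
    rw [bd_push]
    have h3 : bd ℤ E (n + 1) v = Zn t μ n f y - r := by
      rw [← hZ]
      abel
    rw [h3, map_sub, h1, push_coiH_ker π _ hr, sub_zero]
  have h3 := bd_cone (R := ℤ) (1 : Q) (n + 1) (push ℤ π (n + 2) v)
  rw [h2, map_zero, sub_zero] at h3
  obtain ⟨c, hc⟩ := exists_push π hπ (n + 3) (cone ℤ (1 : Q) (n + 2) (push ℤ π (n + 2) v))
  refine ⟨v - bd ℤ E (n + 2) c, ?_, ?_⟩
  · rw [map_sub, ← bd_push, hc]
    rw [show bd ℤ Q (n + 2) (cone ℤ (1 : Q) (n + 2) (push ℤ π (n + 2) v)) =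
      push ℤ π (n + 2) v from h3, sub_self]
  · rw [map_sub, bd_bd, sub_zero, ← hZ]
    have h4 : bd ℤ E (n + 1) v - (bd ℤ E (n + 1) v + r) = -r := by
      abel
    rw [h4]
    exact Submodule.neg_mem _ hr

/-- **The step.** -/
theorem Ok.step {π : E →* Q} (hπ : Function.Surjective π) {t : E}
    (ht : ∀ g, π t * π g = π g * π t) {μ : ℕ → ℤ}
    (hμ : ∀ (n : ℕ) (x : Cx ℤ E (n + 1)), bd ℤ E n x ∈ coiH π.ker.subtype n →
      push ℤ (fun y => t * y) (n + 1) x - μ n • x ∈ bnH π.ker.subtype (n + 1))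
    {n : ℕ} {f : Cx ℤ E n →ₗ[ℤ] Cx ℤ E (n + 1)} (h : Ok π t μ n f) :
    ∃ f' : Cx ℤ E (n + 1) →ₗ[ℤ] Cx ℤ E (n + 2), Ok π t μ (n + 1) f' ∧
      ∀ c : Cx ℤ E (n + 1), push ℤ π (n + 1) c = 0 →
        bd ℤ E (n + 1) (f' c) - Zn t μ n f c ∈ coiH π.ker.subtype (n + 1) := by
  have hv : ∀ u : Fin (n + 2) → E, ∃ v : Cx ℤ E (n + 2), push ℤ π (n + 2) v = 0 ∧
      bd ℤ E (n + 1) v - Zn t μ n f (Finsupp.single u 1 - rp π hπ (n + 1) (Finsupp.single u 1)) ∈
        coiH π.ker.subtype (n + 1) := by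
    intro u
    refine h.exists_v hπ hμ _ ?_
    rw [map_sub, push_rp, sub_self]
  choose v hv0 hv1 using hv
  let f' : Cx ℤ E (n + 1) →ₗ[ℤ] Cx ℤ E (n + 2) :=
    Finsupp.linearCombination ℤ fun x : Fin (n + 2) → E =>
      push ℤ (fun y => x 0 * y) (n + 2) (v fun j => (x 0)⁻¹ * x j)
  have hf' : ∀ x : Fin (n + 2) → E, f' (Finsupp.single x 1) =
      push ℤ (fun y => x 0 * y) (n + 2) (v fun j => (x 0)⁻¹ * x j) := by
    intro x
    show Finsupp.linearCombination ℤ _ (Finsupp.single x 1) = _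
    rw [Finsupp.linearCombination_single, one_smul]
  have hequi : ∀ (g : E) (c : Cx ℤ E (n + 1)),
      f' (push ℤ (fun y => g * y) (n + 1) c) = push ℤ (fun y => g * y) (n + 2) (f' c) := by
    intro g c
    refine cx_ext (f := f'.comp (push ℤ (fun y => g * y) (n + 1)))
      (g := (push ℤ (fun y => g * y) (n + 2)).comp f') ?_ c
    intro x
    rw [LinearMap.comp_apply, LinearMap.comp_apply, push_single, hf', hf', push_push]
    have h1 : (fun j : Fin (n + 2) => (g * x 0)⁻¹ * (g * x j)) = fun j => (x 0)⁻¹ * x j := by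
      funext j
      group
    rw [h1]
    refine push_congr (fun y => ?_) _ _
    rw [mul_assoc]
  have hker : ∀ c : Cx ℤ E (n + 1), push ℤ π (n + 2) (f' c) = 0 := by
    intro c
    refine cx_ext (f := (push ℤ π (n + 2)).comp f') (g := 0) ?_ c
    intro x
    rw [LinearMap.comp_apply, hf', LinearMap.zero_apply]
    exact push_trans_zero π _ _ (hv0 _)
  have hD : ∀ c : Cx ℤ E (n + 1),
      bd ℤ E (n + 1) (f' c) - Zn t μ n f (c - rp π hπ (n + 1) c) ∈
        coiH π.ker.subtype (n + 1) := by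
    intro c
    induction c using Finsupp.induction_linear with
    | zero =>
      rw [map_zero, map_zero, map_zero, sub_zero, map_zero, sub_zero]
      exact Submodule.zero_mem _
    | add a b ha hb =>
      have h1 : bd ℤ E (n + 1) (f' (a + b)) - Zn t μ n f (a + b - rp π hπ (n + 1) (a + b)) =
          (bd ℤ E (n + 1) (f' a) - Zn t μ n f (a - rp π hπ (n + 1) a)) +
          (bd ℤ E (n + 1) (f' b) - Zn t μ n f (b - rp π hπ (n + 1) b)) := by
        rw [map_add, map_add, map_add (rp π hπ (n + 1)), map_sub, map_sub, map_sub, map_add,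
          map_add]
        abel
      rw [h1]
      exact Submodule.add_mem _ ha hb
    | single x r =>
      have hr : (Finsupp.single x r : Cx ℤ E (n + 1)) = r • Finsupp.single x 1 := by
        rw [Finsupp.smul_single, smul_eq_mul, mul_one]
      rw [hr, map_smul, map_smul, map_smul, ← smul_sub, map_smul, ← smul_sub]
      refine Submodule.smul_mem _ _ ?_
      rw [hf']
      have hx : (Finsupp.single x 1 : Cx ℤ E (n + 1)) = push ℤ (fun y => x 0 * y) (n + 1)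
          (Finsupp.single (fun j => (x 0)⁻¹ * x j) 1) := by
        rw [push_single]
        congr 1
        funext j
        group
      have hz : (Finsupp.single x 1 : Cx ℤ E (n + 1)) - rp π hπ (n + 1) (Finsupp.single x 1) =
          push ℤ (fun y => x 0 * y) (n + 1) (Finsupp.single (fun j => (x 0)⁻¹ * x j) 1 -
            rp π hπ (n + 1) (Finsupp.single (fun j => (x 0)⁻¹ * x j) 1)) := by
        conv_lhs => rw [hx]
        rw [rp_lmul, map_sub]
      rw [hz]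
      have h1 := h.Zn_trans ht (x 0) (Finsupp.single (fun j => (x 0)⁻¹ * x j) 1 -
            rp π hπ (n + 1) (Finsupp.single (fun j => (x 0)⁻¹ * x j) 1))
      have h2 := trans_coiH π (n + 1) (x 0) (hv1 fun j => (x 0)⁻¹ * x j)
      rw [map_sub] at h2
      rw [bd_push]
      have h3 := Submodule.sub_mem _ h2 h1
      have h4 : ∀ a b c : Cx ℤ E (n + 1), a - b - (c - b) = a - c := fun a b c => by abel
      rw [h4] at h3
      exact h3
  have hI : ∀ c : Cx ℤ E (n + 1), push ℤ π (n + 1) c = 0 →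
      bd ℤ E (n + 1) (f' c) - Zn t μ n f c ∈ coiH π.ker.subtype (n + 1) := by
    intro c hc
    have h1 := hD c
    have h2 := h.Zn_coiH (rp_ker π hπ (n + 1) hc)
    rw [map_sub] at h1
    have h3 := Submodule.sub_mem _ h1 h2
    have h4 : ∀ a b c : Cx ℤ E (n + 1), a - (b - c) - c = a - b := fun a b c => by abel
    rw [h4] at h3
    exact h3
  refine ⟨f', ⟨hequi, hker, ?_⟩, hI⟩
  intro y hy
  have h1 := hI (bd ℤ E (n + 1) y) (by rw [← bd_push, hy, map_zero])
  rw [Zn_eq, bd_bd, map_zero, map_zero, smul_zero, sub_zero, sub_zero] at h1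
  rw [map_sub, bd_Pn]
  have h2 := Submodule.neg_mem _ h1
  rw [neg_sub] at h2
  exact h2

theorem Ok.zero {π : E →* Q} (hπ : Function.Surjective π) (t : E) (μ : ℕ → ℤ) :
    Ok π t μ 0 (0 : Cx ℤ E 0 →ₗ[ℤ] Cx ℤ E 1) := by
  refine ⟨fun g c => ?_, fun c => ?_, fun y hy => ?_⟩
  · rw [LinearMap.zero_apply, LinearMap.zero_apply, map_zero]
  · rw [LinearMap.zero_apply, map_zero]
  · rw [LinearMap.zero_apply, sub_zero]
    refine mem_coiH_zero π hπ ?_
    show push ℤ π 0 (bd ℤ E 0 y) = 0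
    rw [← bd_push, hy, map_zero]

/-- **The homotopy.** -/
theorem exists_h (π : E →* Q) (hπ : Function.Surjective π) (t : E)
    (ht : ∀ g, π t * π g = π g * π t) (μ : ℕ → ℤ)
    (hμ : ∀ (n : ℕ) (x : Cx ℤ E (n + 1)), bd ℤ E n x ∈ coiH π.ker.subtype n →
      push ℤ (fun y => t * y) (n + 1) x - μ n • x ∈ bnH π.ker.subtype (n + 1)) :
    ∃ h : ∀ n, Cx ℤ E n →ₗ[ℤ] Cx ℤ E (n + 1),
      (∀ n (g : E) (c : Cx ℤ E n),
        h n (push ℤ (fun y => g * y) n c) = push ℤ (fun y => g * y) (n + 1) (h n c)) ∧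
      (∀ n (c : Cx ℤ E n), push ℤ π (n + 1) (h n c) = 0) ∧ h 0 = 0 ∧
      ∀ (n : ℕ) (c : Cx ℤ E (n + 1)), push ℤ π (n + 1) c = 0 →
        bd ℤ E (n + 1) (h (n + 1) c) +
            (lt t (n + 1) (h n (bd ℤ E n c)) - μ n • h n (bd ℤ E n c)) -
          Pn t μ (n + 1) (n + 1) c ∈ coiH π.ker.subtype (n + 1) := by
  have step : ∀ (n : ℕ) (s : {f : Cx ℤ E n →ₗ[ℤ] Cx ℤ E (n + 1) // Ok π t μ n f}),
      ∃ s' : {f : Cx ℤ E (n + 1) →ₗ[ℤ] Cx ℤ E (n + 1 + 1) // Ok π t μ (n + 1) f},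
        ∀ c : Cx ℤ E (n + 1), push ℤ π (n + 1) c = 0 →
          bd ℤ E (n + 1) (s'.1 c) - Zn t μ n s.1 c ∈ coiH π.ker.subtype (n + 1) := by
    intro n s
    obtain ⟨f', h1, h2⟩ := s.2.step hπ ht hμ
    exact ⟨⟨f', h1⟩, h2⟩
  choose F hF using step
  let sq : ∀ n, {f : Cx ℤ E n →ₗ[ℤ] Cx ℤ E (n + 1) // Ok π t μ n f} := fun n =>
    Nat.rec ⟨0, Ok.zero hπ t μ⟩ (fun n s => F n s) n
  have hsq : ∀ n, sq (n + 1) = F n (sq n) := fun n => rfl
  refine ⟨fun n => (sq n).1, fun n g c => (sq n).2.equi g c, fun n c => (sq n).2.ker c, rfl, ?_⟩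
  intro n c hc
  have h1 := hF n (sq n) c hc
  rw [← hsq, Zn_eq] at h1
  have h2 : ∀ a b d : Cx ℤ E (n + 1), a + b - d = a - (d - b) := fun a b d => by abel
  rw [h2]
  exact h1

end

end Pool.Agent.H71.CZ
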