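import Pool.Agent.H71.CZ.Wang
import Pool.Agent.H71.FQ.LocH

/-!
# Project CZ: the power map on the homology of a torsion free abelian group

PROOFS.  `pow_one`: `HG A 0` is generated by the classes of the tuples `(1, g)`, and `[(1, g h)] = [(1, g)] + [(1, h)]` (boundary of
`(1, g, g h)` and left translation), so `[(1, g ^ m)] = m [(1, g)]`.  (For a general cycle of degree `1`: every chain is modulo
`coi` a combination of the `(1, g)`, each of which is a cycle.)
`pow_subsingleton`: `HG A n = 0` if `A` is trivial: `HG.map` of the identity is `HG.map` of the trivial homomorphism, `HG.map_one`.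
`pow_prod`: `n = 0` is `pow_one`; for `n + 1` use `exists_wang`: `HG.map (pow m) (HG.map inl a) = HG.map inl (HG.map (pow m) a)`
(`HG.map_map`), and `HG.map (pow m) (HG.crz a) = HG.cr (inl ∘ pow m) (T ^ m) a = m • HG.cr (inl ∘ pow m) T a` (`HG.map_cr`, `HG.cr_mul`,
induction on `m`, `HG.cr_one`) `= m • HG.crz (HG.map (pow m) a)` (`HG.cr_comp`) `= m * m ^ (n + 1) • HG.crz a`.
`pow_equiv`: transport along an isomorphism.
`pow_torsionFree`: by `HG.exists_lift` (or directly: the support of a cycle and of the chains which show that it is one is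
finite) `z` comes from a finitely generated subgroup `A'`; `A'` is a finitely generated torsion free abelian group, so
isomorphic to `Multiplicative (Fin r → ℤ)` (`Module.Free` of finitely generated torsion free modules over `ℤ`,
`Module.finBasis`), and `Multiplicative (Fin (r + 1) → ℤ) ≃* Multiplicative (Fin r → ℤ) × Multiplicative ℤ`; induction on `r`.
-/

set_option autoImplicit false

universe u v w

namespace Pool.Agent.H71.CZ

open Pool.Agent.H71.FQ Pool.Agent.H16.FU

/-- the power maps act on the homology of degree `n + 1` as `m ^ (n + 1)` -/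
def PowH (A : Type v) [CommGroup A] : Prop :=
  ∀ (m n : ℕ) (z : HG A n), HG.map n (powMonoidHom m) z = ((m : ℤ) ^ (n + 1)) • z

section

variable {A : Type v} [CommGroup A]

private theorem tri (g h : A) :
    (Finsupp.single ![1, g * h] 1 - (Finsupp.single ![1, g] 1 + Finsupp.single ![1, h] 1) :
      Cx ℤ A 1) ∈ bnd A 0 := by
  have e : bd ℤ A 1 (Finsupp.single ![1, g, g * h] 1) =
      Finsupp.single (fun j => g * (![1, h] : Fin 2 → A) j) 1 - Finsupp.single ![1, g * h] 1 +
        Finsupp.single ![1, g] 1 := by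
    rw [bd_single, Fin.sum_univ_three]
    have e0 : (fun j => (![1, g, g * h] : Fin 3 → A) (Fin.succAbove 0 j)) =
        fun j => g * (![1, h] : Fin 2 → A) j := by
      funext j
      fin_cases j <;> simp
    have e1 : (fun j => (![1, g, g * h] : Fin 3 → A) (Fin.succAbove 1 j)) = ![1, g * h] := by
      funext j
      fin_cases j <;> rfl
    have e2 : (fun j => (![1, g, g * h] : Fin 3 → A) (Fin.succAbove 2 j)) = ![1, g] := by
      funext j
      fin_cases j <;> rfl
    rw [e0, e1, e2]
    simp only [Fin.val_zero, Fin.val_one, Fin.val_two, pow_zero, pow_one, one_smul, neg_one_smul,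
      even_two, Even.neg_pow, one_pow]
    abel
  have h1 : (Finsupp.single (fun j => g * (![1, h] : Fin 2 → A) j) 1 -
      Finsupp.single ![1, h] 1 : Cx ℤ A 1) ∈ bnd A 0 :=
    (le_sup_right : coi _ _ ≤ bnd _ _) (Submodule.subset_span ⟨g, _, rfl⟩)
  have h2 : bd ℤ A 1 (Finsupp.single ![1, g, g * h] 1) ∈ bnd A 0 :=
    (le_sup_left : _ ≤ bnd _ _) (LinearMap.mem_range_self _ _)
  have h3 := Submodule.sub_mem _ h1 h2
  rw [e] at h3
  have h4 : ∀ u v w t : Cx ℤ A 1, (u - v) - (u - w + t) = w - (t + v) := by
    intro u v w t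
    abel
  rwa [h4] at h3

private theorem tri_pow (g : A) (m : ℕ) :
    (Finsupp.single ![1, g ^ m] 1 - (m : ℤ) • Finsupp.single ![1, g] 1 : Cx ℤ A 1) ∈ bnd A 0 := by
  induction m with
  | zero =>
    have h := tri (1 : A) 1
    rw [mul_one] at h
    have h4 : ∀ u : Cx ℤ A 1, u - (u + u) = -u := by
      intro u
      abel
    rw [h4, Submodule.neg_mem_iff] at h
    rw [pow_zero, Nat.cast_zero, zero_smul, sub_zero]
    exact h
  | succ m ih =>
    have h := tri (g ^ m) g
    have h2 := Submodule.add_mem _ h ih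
    rw [pow_succ, Nat.cast_add, Nat.cast_one, add_smul, one_smul]
    have h4 : ∀ u v w t : Cx ℤ A 1, (u - (v + w)) + (v - t) = u - (t + w) := by
      intro u v w t
      abel
    rwa [h4] at h2

private theorem single_two (x : Fin 2 → A) :
    (Finsupp.single x 1 - Finsupp.single ![1, (x 0)⁻¹ * x 1] 1 : Cx ℤ A 1) ∈ bnd A 0 := by
  refine (le_sup_right : coi _ _ ≤ bnd _ _) (Submodule.subset_span ⟨x 0, ![1, (x 0)⁻¹ * x 1], ?_⟩)
  have e : (fun j => x 0 * (![1, (x 0)⁻¹ * x 1] : Fin 2 → A) j) = x := by
    funext j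
    fin_cases j <;> simp
  rw [e]

private theorem push_pow_sub (m : ℕ) (c : Cx ℤ A 1) :
    push ℤ (powMonoidHom m : A →* A) 1 c - (m : ℤ) • c ∈ bnd A 0 := by
  induction c using Finsupp.induction_linear with
  | zero => simp
  | add a b ha hb =>
    have h := Submodule.add_mem _ ha hb
    rw [map_add, smul_add]
    rwa [sub_add_sub_comm] at h
  | single x r =>
    have h : (Finsupp.single x r : Cx ℤ A 1) = r • Finsupp.single x 1 := by
      rw [Finsupp.smul_single, smul_eq_mul, mul_one]
    rw [h, map_smul, smul_comm, ← smul_sub]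
    refine Submodule.smul_mem _ _ ?_
    rw [push_single]
    have h1 := single_two fun j => (powMonoidHom m : A →* A) (x j)
    have h2 := tri_pow ((x 0)⁻¹ * x 1) m
    have h3 := Submodule.smul_mem _ (m : ℤ) (single_two x)
    have e : ((powMonoidHom m : A →* A) (x 0))⁻¹ * (powMonoidHom m : A →* A) (x 1) =
        ((x 0)⁻¹ * x 1) ^ m := by
      rw [← map_inv, ← map_mul]
      rfl
    rw [e] at h1
    rw [smul_sub] at h3
    have h4 := Submodule.sub_mem _ (Submodule.add_mem _ h1 h2) h3
    have h5 : ∀ u v w t : Cx ℤ A 1, (u - v) + (v - w) - (t - w) = u - t := by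
      intro u v w t
      abel
    rwa [h5] at h4

theorem pow_one_deg (m : ℕ) (z : HG A 0) : HG.map 0 (powMonoidHom m) z = (m : ℤ) • z := by
  obtain ⟨z, rfl⟩ := HG.mk_surjective z
  have h : (m : ℤ) • HG.mk z = HG.mk ((m : ℤ) • z) := rfl
  rw [h, HG.map_mk, HG.mk_eq_iff]
  exact push_pow_sub m (z : Cx ℤ A 1)

theorem pow_subsingleton [Subsingleton A] : PowH A := by
  intro m n z
  have h : z = 0 := by
    have h1 := HG.map_id z
    have h2 : MonoidHom.id A = 1 := by
      ext a
      exact Subsingleton.elim _ _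
    rw [h2, HG.map_one] at h1
    exact h1.symm
  rw [h, map_zero, smul_zero]

private theorem cr_pow {Γ Λ : Type*} [Group Γ] [Group Λ] {n : ℕ} (f : Γ →* Λ) (u : Λ)
    (hu : ∀ γ, f γ * u = u * f γ) (m : ℕ) (h : ∀ γ, f γ * u ^ m = u ^ m * f γ) (z : HG Γ n) :
    HG.cr f (u ^ m) h z = (m : ℤ) • HG.cr f u hu z := by
  have e2 : ∀ (w w' : Λ) (_ : w = w') (hw : ∀ γ, f γ * w = w * f γ)
      (hw' : ∀ γ, f γ * w' = w' * f γ), HG.cr f w hw z = HG.cr f w' hw' z := by
    intro w w' hww hw hw'
    subst hww
    rfl
  induction m with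
  | zero =>
    rw [e2 (u ^ 0) 1 (pow_zero u) h (fun γ => by rw [mul_one, one_mul]), HG.cr_one,
      Nat.cast_zero, zero_smul]
  | succ m ih =>
    have h1 : ∀ γ, f γ * u ^ m = u ^ m * f γ := fun γ => Commute.pow_right (hu γ) m
    have h2 : ∀ γ, f γ * (u ^ m * u) = u ^ m * u * f γ := by
      intro γ
      rw [← pow_succ]
      exact h γ
    rw [e2 (u ^ (m + 1)) (u ^ m * u) (pow_succ u m) h h2, HG.cr_mul f (u ^ m) u h1 hu h2, ih h1,
      Nat.cast_add, Nat.cast_one, add_smul, one_smul]

theorem pow_prod (h : PowH A) : PowH (A × Multiplicative ℤ) := by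
  intro m n z
  cases n with
  | zero =>
    rw [pow_one_deg, zero_add, pow_one]
  | succ n =>
    obtain ⟨a, b, rfl⟩ := exists_wang n z
    have e : (powMonoidHom m : A × Multiplicative ℤ →* A × Multiplicative ℤ).comp
        (MonoidHom.inl A (Multiplicative ℤ)) =
        (MonoidHom.inl A (Multiplicative ℤ)).comp (powMonoidHom m) := by
      ext a
      · rfl
      · exact one_pow (M := Multiplicative ℤ) m
    have e1 : HG.map (n + 1) (powMonoidHom m)
        (HG.map (n + 1) (MonoidHom.inl A (Multiplicative ℤ)) a) =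
        ((m : ℤ) ^ (n + 1 + 1)) • HG.map (n + 1) (MonoidHom.inl A (Multiplicative ℤ)) a := by
      rw [HG.map_map, e, ← HG.map_map, h, map_zsmul]
    have hT : ∀ γ, MonoidHom.inl A (Multiplicative ℤ) γ * (1, Multiplicative.ofAdd 1) =
        (1, Multiplicative.ofAdd 1) * MonoidHom.inl A (Multiplicative ℤ) γ := fun γ => by
      ext <;> simp
    have hTm : ∀ γ, MonoidHom.inl A (Multiplicative ℤ) γ * (1, Multiplicative.ofAdd 1) ^ m =
        (1, Multiplicative.ofAdd 1) ^ m * MonoidHom.inl A (Multiplicative ℤ) γ := fun γ =>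
      Commute.pow_right (hT γ) m
    have h3 : ∀ γ, ((MonoidHom.inl A (Multiplicative ℤ)).comp (powMonoidHom m)) γ *
        (1, Multiplicative.ofAdd 1) ^ m =
        (1, Multiplicative.ofAdd 1) ^ m *
          ((MonoidHom.inl A (Multiplicative ℤ)).comp (powMonoidHom m)) γ := fun γ => hTm _
    have e2 : HG.map (n + 1) (powMonoidHom m) (HG.crz A n b) =
        HG.cr ((MonoidHom.inl A (Multiplicative ℤ)).comp (powMonoidHom m))
          ((1, Multiplicative.ofAdd 1) ^ m) h3 b := by
      have h4 : ∀ γ, ((powMonoidHom m : A × Multiplicative ℤ →* A × Multiplicative ℤ).comp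
          (MonoidHom.inl A (Multiplicative ℤ))) γ *
          (powMonoidHom m : A × Multiplicative ℤ →* A × Multiplicative ℤ)
            (1, Multiplicative.ofAdd 1) =
          (powMonoidHom m : A × Multiplicative ℤ →* A × Multiplicative ℤ)
            (1, Multiplicative.ofAdd 1) *
          ((powMonoidHom m : A × Multiplicative ℤ →* A × Multiplicative ℤ).comp
            (MonoidHom.inl A (Multiplicative ℤ))) γ := by
        rw [e]
        exact h3
      rw [HG.crz, HG.map_cr _ _ _ _ h4]
      have h5 : ∀ (f' : A →* A × Multiplicative ℤ)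
          (_ : f' = (MonoidHom.inl A (Multiplicative ℤ)).comp (powMonoidHom m))
          (h : ∀ γ, f' γ * (1, Multiplicative.ofAdd 1) ^ m =
            (1, Multiplicative.ofAdd 1) ^ m * f' γ),
          HG.cr f' ((1, Multiplicative.ofAdd 1) ^ m) h b =
            HG.cr ((MonoidHom.inl A (Multiplicative ℤ)).comp (powMonoidHom m))
              ((1, Multiplicative.ofAdd 1) ^ m) h3 b := by
        intro f' hf h
        subst hf
        rfl
      exact h5 _ e h4
    rw [map_add, smul_add, e1, e2, HG.cr_comp _ _ _ hTm h3, h, cr_pow _ _ hT, map_zsmul, smul_smul,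
      ← pow_succ']
    rfl

theorem pow_equiv {A' : Type w} [CommGroup A'] (e : A ≃* A') (h : PowH A) : PowH A' := by
  intro m n z
  have h1 : z = HG.map n e.toMonoidHom (HG.map n e.symm.toMonoidHom z) := by
    rw [HG.map_map]
    have h2 : e.toMonoidHom.comp e.symm.toMonoidHom = MonoidHom.id A' := by
      ext a
      exact e.apply_symm_apply a
    rw [h2, HG.map_id]
  have h3 : (powMonoidHom m : A' →* A').comp e.toMonoidHom =
      e.toMonoidHom.comp (powMonoidHom m) := by
    ext a
    exact (map_pow e a m).symm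
  rw [h1, HG.map_map, h3, ← HG.map_map, h, map_zsmul]

/-- splitting off one coordinate -/
private def eqv (r : ℕ) : Multiplicative (Fin r → ℤ) × Multiplicative ℤ ≃*
    Multiplicative (Fin (r + 1) → ℤ) where
  toFun p := Multiplicative.ofAdd
    (Fin.cons (Multiplicative.toAdd p.2) (Multiplicative.toAdd p.1) : Fin (r + 1) → ℤ)
  invFun x := (Multiplicative.ofAdd (Fin.tail (Multiplicative.toAdd x)),
    Multiplicative.ofAdd (Multiplicative.toAdd x 0))
  left_inv _ := rfl
  right_inv x := by
    show Multiplicative.ofAdd (Fin.cons (Multiplicative.toAdd x 0)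
      (Fin.tail (Multiplicative.toAdd x)) : Fin (r + 1) → ℤ) = x
    rw [Fin.cons_self_tail]
    rfl
  map_mul' p q := by
    apply Multiplicative.toAdd.injective
    funext j
    refine Fin.cases ?_ (fun k => ?_) j
    · rfl
    · rfl

theorem pow_fin (r : ℕ) : PowH (Multiplicative (Fin r → ℤ)) := by
  induction r with
  | zero =>
    have : Subsingleton (Multiplicative (Fin 0 → ℤ)) :=
      inferInstanceAs (Subsingleton (Fin 0 → ℤ))
    exact pow_subsingleton
  | succ r ih => exact pow_equiv (eqv r) (pow_prod ih)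

/-- **The power maps of a torsion free abelian group.** -/
theorem pow_torsionFree (h : ∀ (a : A) (m : ℕ), m ≠ 0 → a ^ m = 1 → a = 1) : PowH A := by
  intro m n z
  obtain ⟨S, hS⟩ := HG.exists_lift z
  set A' : Subgroup A := Subgroup.closure (S : Set A) with hA'
  obtain ⟨y, rfl⟩ := hS A' fun s hs => Subgroup.subset_closure hs
  have hP : PowH A' := by
    have : Group.FG A' := (Group.fg_iff_subgroup_fg A').2 ⟨S, rfl⟩
    have : AddGroup.FG (Additive A') := inferInstance
    have : Module.Finite ℤ (Additive A') := Module.Finite.iff_addGroup_fg.2 inferInstance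
    have hA : IsAddTorsionFree (Additive A') := by
      refine ⟨fun k hk a b hab => ?_⟩
      have h1 : (Additive.toMul a) ^ k = (Additive.toMul b) ^ k := hab
      have h2 : (((Additive.toMul a : A') : A) / ((Additive.toMul b : A') : A)) ^ k = 1 := by
        rw [div_pow, div_eq_one]
        exact congrArg Subtype.val h1
      exact Additive.toMul.injective (Subtype.ext (div_eq_one.1 (h _ k hk h2)))
    have : Module.IsTorsionFree ℤ (Additive A') := inferInstance
    have : Module.Free ℤ (Additive A') := inferInstance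
    have e1 : Additive A' ≃ₗ[ℤ] (Fin (Module.finrank ℤ (Additive A')) → ℤ) :=
      (Module.finBasis ℤ (Additive A')).equivFun
    have e2 : Multiplicative (Fin (Module.finrank ℤ (Additive A')) → ℤ) ≃* A' :=
      (AddEquiv.toMultiplicative e1.toAddEquiv.symm).trans (MulEquiv.refl _)
    exact pow_equiv e2 (pow_fin _)
  have e : (powMonoidHom m : A →* A).comp A'.subtype = A'.subtype.comp (powMonoidHom m) := by
    ext a
    rfl
  rw [HG.map_map, e, ← HG.map_map, hP, map_zsmul]

end

end Pool.Agent.H71.CZ
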