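import Pool.Agent.H71.CZ.KConj
import Pool.Agent.H71.CZ.PowA
import Pool.Agent.H71.CZ.NHom

/-!
# Project CZ: center kills

**Lemma CK.**  `π : E → Q` surjective with an abelian torsion free kernel, `t ∈ E` central modulo the kernel and
`t a t⁻¹ = a ^ m` for `a` in the kernel, `m ≥ 2`: then `π` induces rational isomorphisms of the homology groups.

PROOFS.  `hmu`: `lmul_sub` with `α = ` the `m`-th power map of the kernel (a commutative group by `comm`), `pow_torsionFree`;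
`μ n = m ^ (n + 1)`.  Take `h` from `exists_h`.  Modulo `coi E` the map `lt t` is the identity (`push_lmul_sub_mem`), so
`Pn t μ n k c - (∏_{i < k} (1 - μ i)) • c ∈ coi E n` (induction on `k`; `lt t` preserves `coi E n`: `push_coi` does not apply
directly, `t * (g x) = (t g t⁻¹) (t x)`).
`ck_inj`: `z` a cycle with `push π z = bd c + d`, `d ∈ coi Q`.  Lift `c`, `d` to `c'`, `d' ∈ coi E` (`exists_push`,
`exists_coi_lift`), `y = z - bd c' - d'`: `push π y = 0`, `bd y ∈ coi E n`.  The identity for `y`: `h n (bd y) ∈ coi E` by equivariance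
(`equi_coi` with the identity), so `(∏_{i ≤ n} (1 - μ i)) • y ∈ bnd E n`, and the same for `z`; `1 - m ^ (i + 1) ≠ 0`.
`ck_surj`: `z` a cycle of `Q` of degree `n + 1`; lift it to `z'`; `push π (bd z') = bd z ∈ coi Q n`, `= push π e`, `e ∈ coi E n`;
`y = bd z' - e` has `push π y = 0`, `bd y = - bd e ∈ coi E` (if `n ≥ 1`).  If `n = 0`: `y ∈ coiH ι 0 ≤ coi E 0` (`mem_coiH_zero`), `z'` is a
cycle, `λ = 1`.  If `n = n' + 1`: the identity gives `λ • y - bd (h n y) ∈ coi E n` with `λ = ∏_{i < n} (1 - μ i)`, so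
`λ • z' - h n y` is a cycle, and it is mapped to `λ • z`.
-/

set_option autoImplicit false

universe u v w

namespace Pool.Agent.H71.CZ

open Pool.Agent.H71.FQ

/-- the hypotheses of Lemma CK -/
structure CKill {E : Type v} [Group E] {Q : Type w} [Group Q] (π : E →* Q) (t : E) (m : ℕ) :
    Prop where
  surj : Function.Surjective π
  cent : ∀ g, π t * π g = π g * π t
  comm : ∀ a ∈ π.ker, ∀ b ∈ π.ker, a * b = b * a
  tf : ∀ a ∈ π.ker, ∀ k : ℕ, k ≠ 0 → a ^ k = 1 → a = 1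
  conj : ∀ a ∈ π.ker, t * a * t⁻¹ = a ^ m
  two : 2 ≤ m

section

variable {E : Type v} [Group E] {Q : Type w} [Group Q]

theorem CKill.hmu {π : E →* Q} {t : E} {m : ℕ} (h : CKill π t m) (n : ℕ) (x : Cx ℤ E (n + 1))
    (hx : bd ℤ E n x ∈ coiH π.ker.subtype n) :
    push ℤ (fun y => t * y) (n + 1) x - ((m : ℤ) ^ (n + 1)) • x ∈
      bnH π.ker.subtype (n + 1) := by
  let _ : CommGroup π.ker := { (inferInstance : Group π.ker) with
    mul_comm := fun a b => Subtype.ext (h.comm a a.2 b b.2) }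
  refine lmul_sub π.ker.subtype Subtype.coe_injective t (powMonoidHom m) ?_ n ((m : ℤ) ^ (n + 1)) ?_
    x hx
  · intro a
    exact h.conj a a.2
  · intro z
    refine pow_torsionFree (A := π.ker) ?_ m n z
    intro a k hk ha
    exact Subtype.ext (h.tf a a.2 k hk (congrArg Subtype.val ha))

/-- modulo the relations the left translation is the identity -/
theorem ck_Pn_sub_mem (t : E) (μ : ℕ → ℤ) (n k : ℕ) (c : Cx ℤ E n) :
    Pn t μ n k c - (∏ i ∈ Finset.range k, (1 - μ i)) • c ∈ coi E n := by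
  induction k with
  | zero =>
    rw [Finset.prod_range_zero, one_smul]
    show c - c ∈ coi E n
    rw [sub_self]
    exact Submodule.zero_mem _
  | succ k ih =>
    have h1 : Pn t μ n (k + 1) c = push ℤ (fun y => t * y) n (Pn t μ n k c) - μ k • Pn t μ n k c :=
      rfl
    have h2 := push_lmul_sub_mem t (Pn t μ n k c)
    have h3 : Pn t μ n (k + 1) c - (∏ i ∈ Finset.range (k + 1), (1 - μ i)) • c =
        (push ℤ (fun y => t * y) n (Pn t μ n k c) - Pn t μ n k c) +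
          (1 - μ k) • (Pn t μ n k c - (∏ i ∈ Finset.range k, (1 - μ i)) • c) := by
      rw [h1, Finset.prod_range_succ, mul_comm, mul_smul]
      module
    rw [h3]
    exact Submodule.add_mem _ h2 (Submodule.smul_mem _ _ ih)

theorem ck_bd_coi (n : ℕ) {c : Cx ℤ E (n + 1)} (hc : c ∈ coi E (n + 1)) : bd ℤ E n c ∈ coi E n :=
  equi_coi (MonoidHom.id E) (bd ℤ E n) (fun g c => bd_push (fun y => g * y) n c) hc

theorem ck_prod_ne_zero {m : ℕ} (hm : 2 ≤ m) (k : ℕ) :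
    (∏ i ∈ Finset.range k, (1 - (m : ℤ) ^ (i + 1))) ≠ 0 := by
  rw [Finset.prod_ne_zero_iff]
  intro i _ h
  have h1 : (1 : ℤ) < (m : ℤ) ^ (i + 1) := one_lt_pow₀ (by exact_mod_cast hm) (Nat.succ_ne_zero i)
  omega

/-- the identity of `exists_h` modulo all the relations -/
theorem CKill.exists_ident {π : E →* Q} {t : E} {m : ℕ} (h : CKill π t m) (n : ℕ)
    (y : Cx ℤ E (n + 1)) (hy : push ℤ π (n + 1) y = 0) (hb : bd ℤ E n y ∈ coi E n) :
    ∃ w : Cx ℤ E (n + 2), push ℤ π (n + 2) w = 0 ∧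
      (∏ i ∈ Finset.range (n + 1), (1 - (m : ℤ) ^ (i + 1))) • y - bd ℤ E (n + 1) w ∈
        coi E (n + 1) := by
  obtain ⟨H, h1, h2, -, h4⟩ := exists_h π h.surj t h.cent (fun n => (m : ℤ) ^ (n + 1)) h.hmu
  refine ⟨H (n + 1) y, h2 (n + 1) y, ?_⟩
  have e1 := coiH_le_coi π.ker.subtype (n + 1) (h4 n y hy)
  have e2 : H n (bd ℤ E n y) ∈ coi E (n + 1) := equi_coi (MonoidHom.id E) (H n) (h1 n) hb
  have e3 : lt t (n + 1) (H n (bd ℤ E n y)) - H n (bd ℤ E n y) ∈ coi E (n + 1) :=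
    push_lmul_sub_mem t (H n (bd ℤ E n y))
  have e4 := ck_Pn_sub_mem t (fun n => (m : ℤ) ^ (n + 1)) (n + 1) (n + 1) y
  have e5 : (∏ i ∈ Finset.range (n + 1), (1 - (m : ℤ) ^ (i + 1))) • y - bd ℤ E (n + 1) (H (n + 1) y) =
      (lt t (n + 1) (H n (bd ℤ E n y)) - H n (bd ℤ E n y)) +
        (1 - (m : ℤ) ^ (n + 1)) • H n (bd ℤ E n y) -
        (bd ℤ E (n + 1) (H (n + 1) y) +
            (lt t (n + 1) (H n (bd ℤ E n y)) - ((m : ℤ) ^ (n + 1)) • H n (bd ℤ E n y)) -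
          Pn t (fun n => (m : ℤ) ^ (n + 1)) (n + 1) (n + 1) y) -
        (Pn t (fun n => (m : ℤ) ^ (n + 1)) (n + 1) (n + 1) y -
          (∏ i ∈ Finset.range (n + 1), (1 - (m : ℤ) ^ (i + 1))) • y) := by
    rw [sub_smul, one_smul]
    abel
  rw [e5]
  exact Submodule.sub_mem _ (Submodule.sub_mem _ (Submodule.add_mem _ e3
    (Submodule.smul_mem _ _ e2)) e1) e4

/-- the class of a cycle as a homomorphism -/
noncomputable def ckMk (Γ : Type v) [Group Γ] (n : ℕ) : cyc Γ n →+ HG Γ n :=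
  AddMonoidHom.mk' HG.mk HG.mk_add

/-- **Lemma CK, injectivity.** -/
theorem ck_inj {π : E →* Q} {t : E} {m : ℕ} (h : CKill π t m) {n : ℕ} (z : HG E n)
    (hz : HG.map n π z = 0) : ∃ k : ℤ, k ≠ 0 ∧ k • z = 0 := by
  obtain ⟨z, rfl⟩ := HG.mk_surjective z
  have h0 : (0 : HG Q n) = HG.mk 0 := rfl
  rw [HG.map_mk, h0, HG.mk_eq_iff] at hz
  have hz' : push ℤ π (n + 1) (z : Cx ℤ E (n + 1)) ∈ bnd Q n := by
    have := hz
    simpa using this
  obtain ⟨_, ⟨c, rfl⟩, d, hd, h1⟩ := Submodule.mem_sup.1 hz'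
  obtain ⟨c', hc'⟩ := exists_push π h.surj (n + 2) c
  obtain ⟨d', hd', hd2⟩ := exists_coi_lift π h.surj (n + 1) hd
  have hy : push ℤ π (n + 1) ((z : Cx ℤ E (n + 1)) - bd ℤ E (n + 1) c' - d') = 0 := by
    rw [map_sub, map_sub, ← bd_push, hc', hd2, ← h1]
    abel
  have hb : bd ℤ E n ((z : Cx ℤ E (n + 1)) - bd ℤ E (n + 1) c' - d') ∈ coi E n := by
    rw [map_sub, map_sub, bd_bd, sub_zero]
    exact Submodule.sub_mem _ z.2 (ck_bd_coi n hd')
  obtain ⟨w, -, hw⟩ := h.exists_ident n _ hy hb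
  refine ⟨_, ck_prod_ne_zero h.two (n + 1), ?_⟩
  generalize (∏ i ∈ Finset.range (n + 1), (1 - (m : ℤ) ^ (i + 1))) = l at hw ⊢
  have h2 : l • HG.mk z = HG.mk (l • z) := (map_zsmul (ckMk E n) l z).symm
  have h3 : (0 : HG E n) = HG.mk 0 := rfl
  rw [h2, h3, HG.mk_eq_iff]
  have h4 : ((l • z : cyc E n) : Cx ℤ E (n + 1)) - ((0 : cyc E n) : Cx ℤ E (n + 1)) =
      bd ℤ E (n + 1) (w + l • c') +
        ((l • ((z : Cx ℤ E (n + 1)) - bd ℤ E (n + 1) c' - d') - bd ℤ E (n + 1) w) + l • d') := by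
    rw [map_add, map_smul, smul_sub, smul_sub]
    show l • (z : Cx ℤ E (n + 1)) - 0 = _
    abel
  rw [h4]
  exact Submodule.add_mem_sup (LinearMap.mem_range_self _ _)
    (Submodule.add_mem _ hw (Submodule.smul_mem _ _ hd'))

/-- **Lemma CK, surjectivity.** -/
theorem ck_surj {π : E →* Q} {t : E} {m : ℕ} (h : CKill π t m) {n : ℕ} (z : HG Q n) :
    ∃ (k : ℤ) (z' : HG E n), k ≠ 0 ∧ HG.map n π z' = k • z := by
  obtain ⟨z, rfl⟩ := HG.mk_surjective z
  obtain ⟨z', hz'⟩ := exists_push π h.surj (n + 1) (z : Cx ℤ Q (n + 1))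
  have hz2 : bd ℤ Q n (z : Cx ℤ Q (n + 1)) ∈ coi Q n := z.2
  obtain ⟨e, he, he2⟩ := exists_coi_lift π h.surj n hz2
  have hy : push ℤ π n (bd ℤ E n z' - e) = 0 := by
    rw [map_sub, ← bd_push, hz', he2, sub_self]
  cases n with
  | zero =>
    have h1 := coiH_le_coi π.ker.subtype 0 (mem_coiH_zero π h.surj hy)
    have h2 : bd ℤ E 0 z' ∈ coi E 0 := by
      have h3 := Submodule.add_mem _ h1 he
      rwa [sub_add_cancel] at h3
    refine ⟨1, HG.mk ⟨z', h2⟩, one_ne_zero, ?_⟩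
    rw [HG.map_mk, one_smul]
    congr 1
    exact Subtype.ext hz'
  | succ n =>
    have hb : bd ℤ E n (bd ℤ E (n + 1) z' - e) ∈ coi E n := by
      rw [map_sub, bd_bd, zero_sub]
      exact Submodule.neg_mem _ (ck_bd_coi n he)
    obtain ⟨w, hw0, hw⟩ := h.exists_ident n _ hy hb
    have hl := ck_prod_ne_zero h.two (n + 1)
    generalize (∏ i ∈ Finset.range (n + 1), (1 - (m : ℤ) ^ (i + 1))) = l at hw hl
    have h2 : bd ℤ E (n + 1) (l • z' - w) ∈ coi E (n + 1) := by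
      have h3 : bd ℤ E (n + 1) (l • z' - w) =
          (l • (bd ℤ E (n + 1) z' - e) - bd ℤ E (n + 1) w) + l • e := by
        rw [map_sub, map_smul, smul_sub]
        abel
      rw [h3]
      exact Submodule.add_mem _ hw (Submodule.smul_mem _ _ he)
    refine ⟨l, HG.mk ⟨l • z' - w, h2⟩, hl, ?_⟩
    have h4 : l • HG.mk z = HG.mk (l • z) := (map_zsmul (ckMk Q (n + 1)) l z).symm
    rw [HG.map_mk, h4]
    congr 1
    refine Subtype.ext ?_
    show push ℤ π (n + 2) (l • z' - w) = l • (z : Cx ℤ Q (n + 2))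
    rw [map_sub, map_smul, hz', hw0, sub_zero]

/-- the product of two extensions and a third group -/
theorem CKill.prod {E' : Type*} [Group E'] {Q' : Type*} [Group Q'] {π : E →* Q} {π' : E' →* Q'}
    {t : E} {t' : E'} {m : ℕ} (h : CKill π t m) (h' : CKill π' t' m) (P : Type*) [Group P] :
    CKill ((π.prodMap π').prodMap (MonoidHom.id P)) ((t, t'), (1 : P)) m := by
  have hk : ∀ a : (E × E') × P, a ∈ ((π.prodMap π').prodMap (MonoidHom.id P)).ker ↔
      a.1.1 ∈ π.ker ∧ a.1.2 ∈ π'.ker ∧ a.2 = 1 := by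
    rintro ⟨⟨a, b⟩, c⟩
    simp [MonoidHom.mem_ker, Prod.ext_iff, and_assoc]
  refine ⟨?_, ?_, ?_, ?_, ?_, h.two⟩
  · rintro ⟨⟨a, b⟩, c⟩
    obtain ⟨x, rfl⟩ := h.surj a
    obtain ⟨y, rfl⟩ := h'.surj b
    exact ⟨((x, y), c), rfl⟩
  · rintro ⟨⟨a, b⟩, c⟩
    refine Prod.ext (Prod.ext ?_ ?_) ?_
    · exact h.cent a
    · exact h'.cent b
    · show (1 : P) * c = c * 1
      rw [one_mul, mul_one]
  · rintro ⟨⟨a, b⟩, c⟩ ha ⟨⟨a', b'⟩, c'⟩ ha'
    obtain ⟨h1, h2, h3⟩ := (hk _).1 ha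
    obtain ⟨h1', h2', h3'⟩ := (hk _).1 ha'
    refine Prod.ext (Prod.ext ?_ ?_) ?_
    · exact h.comm a h1 a' h1'
    · exact h'.comm b h2 b' h2'
    · show c * c' = c' * c
      rw [show c = 1 from h3, show c' = 1 from h3']
  · rintro ⟨⟨a, b⟩, c⟩ ha k hk0 hp
    obtain ⟨h1, h2, h3⟩ := (hk _).1 ha
    refine Prod.ext (Prod.ext ?_ ?_) h3
    · exact h.tf a h1 k hk0 (congrArg (fun x : (E × E') × P => x.1.1) hp)
    · exact h'.tf b h2 k hk0 (congrArg (fun x : (E × E') × P => x.1.2) hp)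
  · rintro ⟨⟨a, b⟩, c⟩ ha
    obtain ⟨h1, h2, h3⟩ := (hk _).1 ha
    refine Prod.ext (Prod.ext ?_ ?_) ?_
    · exact h.conj a h1
    · exact h'.conj b h2
    · show (1 : P) * c * 1⁻¹ = c ^ m
      rw [show c = 1 from h3, inv_one, mul_one, mul_one, one_pow]

end

end Pool.Agent.H71.CZ
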