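import Pool.Agent.H71.CZ.CKill

/-!
# Project CZ: rational functionals descend along an extension of Lemma CK

PROOF.  For `z : HG Q n` choose `k ≠ 0`, `z'` with `HG.map n π z' = k • z` (`ck_surj`), `ψ z = (1 / k) • φ z'`.  Independent of the choice and
additive by `ck_inj` (`φ` kills torsion, `V` is a vector space over `ℚ`).
-/

set_option autoImplicit false

universe u v w

namespace Pool.Agent.H71.CZ

open Pool.Agent.H71.FQ

section

variable {E : Type v} [Group E] {Q : Type w} [Group Q]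

private theorem zsmul_eq_cast {V : Type*} [AddCommGroup V] [Module ℚ V] (k : ℤ) (x : V) :
    k • x = (k : ℚ) • x := (Int.cast_smul_eq_zsmul ℚ k x).symm

private theorem eq_of_zsmul_eq {V : Type*} [AddCommGroup V] [Module ℚ V] {k : ℤ} (hk : k ≠ 0)
    {x y : V} (h : k • x = k • y) : x = y := by
  rw [zsmul_eq_cast, zsmul_eq_cast] at h
  have h0 : (k : ℚ) ≠ 0 := Int.cast_ne_zero.2 hk
  have h1 : (k : ℚ)⁻¹ • ((k : ℚ) • x) = (k : ℚ)⁻¹ • ((k : ℚ) • y) := by rw [h]
  rwa [smul_smul, smul_smul, inv_mul_cancel₀ h0, one_smul, one_smul] at h1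

theorem exists_descend {π : E →* Q} {t : E} {m : ℕ} (h : CKill π t m) (n : ℕ) {V : Type u}
    [AddCommGroup V] [Module ℚ V] (φ : HG E n →+ V) :
    ∃ ψ : HG Q n →+ V, ∀ x, ψ (HG.map n π x) = φ x := by
  have hs : ∀ z : HG Q n, ∃ (k : ℤ) (z' : HG E n), k ≠ 0 ∧ HG.map n π z' = k • z :=
    fun z => ck_surj h z
  choose k z' hk hz' using hs
  -- the value does not depend on the choice
  have hkey : ∀ (l : ℤ) (a : HG E n) (z : HG Q n), HG.map n π a = l • z →
      k z • φ a = l • φ (z' z) := by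
    intro l a z ha
    have h1 : HG.map n π (k z • a - l • z' z) = 0 := by
      rw [map_sub, map_zsmul, map_zsmul, ha, hz', smul_smul, smul_smul, mul_comm, sub_self]
    obtain ⟨j, hj, hj'⟩ := ck_inj h _ h1
    have h2 := congrArg φ hj'
    rw [map_zsmul, map_zero, map_sub, map_zsmul, map_zsmul] at h2
    have h3 : j • (k z • φ a - l • φ (z' z)) = j • (0 : V) := by
      rw [h2, smul_zero]
    exact sub_eq_zero.1 (eq_of_zsmul_eq hj h3)
  let ψ₀ : HG Q n → V := fun z => (k z : ℚ)⁻¹ • φ (z' z)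
  have hψ₀ : ∀ z, k z • ψ₀ z = φ (z' z) := by
    intro z
    show k z • ((k z : ℚ)⁻¹ • φ (z' z)) = φ (z' z)
    rw [zsmul_eq_cast, smul_smul, mul_inv_cancel₀ (Int.cast_ne_zero.2 (hk z)), one_smul]
  have hval : ∀ (l : ℤ) (a : HG E n) (z : HG Q n), HG.map n π a = l • z → φ a = l • ψ₀ z := by
    intro l a z ha
    refine eq_of_zsmul_eq (hk z) ?_
    rw [hkey l a z ha, ← hψ₀ z, smul_comm]
  refine ⟨{ toFun := ψ₀, map_zero' := ?_, map_add' := ?_ }, ?_⟩
  · have h1 := hval 1 0 0 (by rw [map_zero, smul_zero])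
    rw [map_zero, one_smul] at h1
    exact h1.symm
  · intro x y
    have h1 : HG.map n π (k y • z' x + k x • z' y) = (k x * k y) • (x + y) := by
      rw [map_add, map_zsmul, map_zsmul, hz', hz', smul_smul, smul_smul, smul_add, mul_comm (k y)]
    have h2 := hval _ _ _ h1
    rw [map_add, map_zsmul, map_zsmul, ← hψ₀ x, ← hψ₀ y, smul_smul, smul_smul,
      mul_comm (k y), ← smul_add] at h2
    exact (eq_of_zsmul_eq (mul_ne_zero (hk x) (hk y)) h2).symm
  · intro x
    have h1 := hval 1 x (HG.map n π x) (by rw [one_smul])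
    rw [one_smul] at h1
    exact h1.symm

/-- uniqueness -/
theorem descend_unique {π : E →* Q} {t : E} {m : ℕ} (h : CKill π t m) {n : ℕ} {V : Type u}
    [AddCommGroup V] [Module ℚ V] (ψ ψ' : HG Q n →+ V)
    (hψ : ∀ x, ψ (HG.map n π x) = ψ' (HG.map n π x)) : ψ = ψ' := by
  ext z
  obtain ⟨k, z', hk, hz⟩ := ck_surj h z
  refine eq_of_zsmul_eq hk ?_
  rw [← map_zsmul, ← map_zsmul, ← hz]
  exact hψ z'

end

end Pool.Agent.H71.CZ
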