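import Pool.Agent.H71.CZ.Wr
import Pool.Agent.H39.KL.RelB
import Pool.Agent.H39.CZ.HatA

/-!
# Project CZ: the transfer of cocycles to the centralizer of `hat c`

`φ` a cocycle of `Z_G(c)`.  `Z(hat c) = {inc (dgG y) * hat c ^ i : y ∈ Z_G(c), i < p}` (`mem_centralizer_hat`), the map
`ϖ (inc (dgG y) * hat c ^ i) = y`, `0 ≤ i < p`, is well defined (`hat c ^ i` is not in `G^p` for `0 < i < p`), `ϖ (inc (dgG y) * x) = y * ϖ x`.
`φ' (v) = ∑_{j < p} φ (ϖ (hat c ^ j * v_i))`.

PROOFS.  Invariance under `inc (dgG y)`: `inc (dgG y)` commutes with `hat c`.  Under `hat c`: shift of `j`, the term `j = p` is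
`φ (ϖ (inc (dgG c) * v)) = φ (c * ϖ v)` = the term `j = 0` (`hat_pow`, invariance of `φ` under `c ∈ Z_G(c)`).  Cocycle: clear.
`ev_hat`: let `x = inc h * sg ∈ D`, all `h i ∈ C`, `P = pr0 h`.  If `P` is not conjugate to `c` then `x` is not conjugate to `hat c`
(`isConj_hat_iff`) and both sides are `0` (`trc_of_not`).  If `u P u⁻¹ = c`: by `conj_hat` `x = inc k * hat P * (inc k)⁻¹`, `k i ∈ C`, and by
`conj_hat_dg` `hat c = inc (dgG u) * (inc k)⁻¹ * x * inc k * (inc (dgG u))⁻¹`.  With `trc_eq` for this conjugating element the class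
`trc (hat c) D x (HG.map κ z)` is the image of `z` under `y ↦ inc (dgG u) (inc k)⁻¹ inc (dgG y) inc k inc (dgG u)⁻¹ = inc (dgG (u y u⁻¹))` (`y`
commutes with `C`), a homomorphism `Z_G(C) → Z(hat c)`; on these tuples `φ' = p φ` because `ϖ (hat c ^ j * inc (dgG y)) = y` for `j < p`.
(`HG.ev_map`, `HG.ev_mk`, `IsCoc.comp`.)
-/

set_option autoImplicit false

open Matrix

universe u v w

namespace Pool.Agent.H71.CZ

open Pool.Agent.H71.FQ Pool.Agent.H16.KN Pool.Agent.H16.FU
open Pool.Agent.H39.CZ (hatF isCoc_hatF ev_dgZ dgZ dgZ_coe)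

section

variable {p : ℕ} [hp : Fact p.Prime] {G : Type u} [Group G] {B : Type v} [CommRing B] {n : ℕ}

omit hp in
private theorem inc_conj {k : ZMod p → G} {y : G} (h : ∀ i, k i * y = y * k i) :
    (inc p G k)⁻¹ * inc p G (dgG p G y) * inc p G k = inc p G (dgG p G y) := by
  rw [← map_inv, ← map_mul, ← map_mul]
  congr 1
  funext i
  show (k i)⁻¹ * y * k i = y
  rw [mul_assoc, ← h i, inv_mul_cancel_left]

/-- the transport to the centralizer of `hat c` -/
private theorem trc_hat' (c : G) (C : Subgroup G) (D : Subgroup (Wr p G))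
    (κ : Subgroup.centralizer (C : Set G) →* Subgroup.centralizer (D : Set (Wr p G)))
    (hκ : ∀ y, ((κ y : Subgroup.centralizer (D : Set (Wr p G))) : Wr p G) =
      inc p G (dgG p G (y : G)))
    (h : ZMod p → G) (hh : ∀ i, h i ∈ C) (hP : pr0 h ∈ C) (hx : inc p G h * sg p G ∈ D)
    (z : HG (Subgroup.centralizer (C : Set G)) n) :
    trc n (hat p c) D ⟨inc p G h * sg p G, hx⟩ (HG.map n κ z) =
      HG.map n (dgZ p c) (trc n c C ⟨pr0 h, hP⟩ z) := by
  by_cases hc : IsConj c (pr0 h)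
  · obtain ⟨x, hx'⟩ := isConj_iff.1 hc
    obtain ⟨k, hk1, hk2⟩ := conj_hat h
    have hkC := hk1 C hh
    have hX : (inc p G k * inc p G (dgG p G x)) * hat p c *
        (inc p G k * inc p G (dgG p G x))⁻¹ = inc p G h * sg p G := by
      rw [hk2, ← hx', ← conj_hat_dg]
      group
    have hm : x * c * x⁻¹ ∈ C := by
      rw [hx']
      exact hP
    have hm' : (inc p G k * inc p G (dgG p G x)) * hat p c *
        (inc p G k * inc p G (dgG p G x))⁻¹ ∈ D := by
      rw [hX]
      exact hx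
    rw [trc_eq _ hX hm', trc_eq x hx' hm, HG.map_map, HG.map_map]
    congr 1
    apply congrArg
    apply MonoidHom.ext
    intro y
    apply Subtype.ext
    rw [MonoidHom.comp_apply, MonoidHom.comp_apply, cnj_coe, dgZ_coe, cnj_coe, hκ]
    have h1 := inc_conj (p := p) (k := k) (y := (y : G)) fun i =>
      Subgroup.mem_centralizer_iff.1 y.2 _ (hkC i)
    calc (inc p G k * inc p G (dgG p G x))⁻¹ * inc p G (dgG p G y) *
          (inc p G k * inc p G (dgG p G x)) = (inc p G (dgG p G x))⁻¹ *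
          ((inc p G k)⁻¹ * inc p G (dgG p G y) * inc p G k) * inc p G (dgG p G x) := by group
      _ = (inc p G (dgG p G x))⁻¹ * inc p G (dgG p G y) * inc p G (dgG p G x) := by rw [h1]
      _ = inc p G (dgG p G (x⁻¹ * y * x)) := by
        simp only [map_mul, map_inv]
  · have hc' : ¬ IsConj (hat p c) (inc p G h * sg p G) := by
      rw [isConj_hat_iff]
      exact hc
    rw [trc_of_not (d := (⟨inc p G h * sg p G, hx⟩ : D)) hc',
      trc_of_not (d := (⟨pr0 h, hP⟩ : C)) hc, AddMonoidHom.zero_apply, AddMonoidHom.zero_apply,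
      map_zero]

/-- **The transfer.** -/
theorem exists_hatCoc (c : G) {φ : (Fin (n + 2) → Subgroup.centralizer ({c} : Set G)) → B}
    (hφ : IsCoc (Subgroup.centralizer ({c} : Set G)) n φ) :
    ∃ (φ' : (Fin (n + 2) → Subgroup.centralizer ({hat p c} : Set (Wr p G))) → B)
      (hφ' : IsCoc (Subgroup.centralizer ({hat p c} : Set (Wr p G))) n φ'),
      ∀ (C : Subgroup G) (D : Subgroup (Wr p G))
        (κ : Subgroup.centralizer (C : Set G) →* Subgroup.centralizer (D : Set (Wr p G)))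
        (_ : ∀ y, ((κ y : Subgroup.centralizer (D : Set (Wr p G))) : Wr p G) =
          inc p G (dgG p G (y : G)))
        (h : ZMod p → G) (hh : ∀ i, h i ∈ C) (hP : pr0 h ∈ C) (hx : inc p G h * sg p G ∈ D)
        (z : HG (Subgroup.centralizer (C : Set G)) n),
        HG.ev hφ' (trc n (hat p c) D ⟨inc p G h * sg p G, hx⟩ (HG.map n κ z)) =
          (p : B) * HG.ev hφ (trc n c C ⟨pr0 h, hP⟩ z) := by
  refine ⟨hatF p φ, isCoc_hatF hφ, ?_⟩
  intro C D κ hκ h hh hP hx z
  rw [trc_hat' c C D κ hκ h hh hP hx z, ev_dgZ, nsmul_eq_mul]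

end

end Pool.Agent.H71.CZ
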