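import Pool.Agent.H71.CZ.KRes

/-!
# Project CZ: left translation by an element which normalises `H`

`t * ι h * t⁻¹ = ι (α h)`; the left translation by `t` acts on the homology of `H`, computed with the chains of `E`, as `α`.
-/

set_option autoImplicit false

universe u v w

namespace Pool.Agent.H71.CZ

open Pool.Agent.H71.FQ

section

variable {E : Type v} [Group E] {H : Type w} [Group H]

theorem push_bnd_bnH (ι : H →* E) (n : ℕ) {c : Cx ℤ H (n + 1)} (hc : c ∈ bnd H n) :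
    push ℤ ι (n + 1) c ∈ bnH ι (n + 1) := by
  obtain ⟨_, ⟨b, rfl⟩, d, hd, rfl⟩ := Submodule.mem_sup.1 hc
  rw [map_add, ← bd_push]
  exact Submodule.add_mem_sup (LinearMap.mem_range_self _ _) (push_coi_coiH ι (n + 1) hd)

theorem push_lmul_bnH (ι : H →* E) (t : E) (α : H →* H) (ht : ∀ h, t * ι h * t⁻¹ = ι (α h))
    (n : ℕ) {c : Cx ℤ E n} (hc : c ∈ bnH ι n) : push ℤ (fun y => t * y) n c ∈ bnH ι n := by
  obtain ⟨_, ⟨b, rfl⟩, d, hd, rfl⟩ := Submodule.mem_sup.1 hc
  rw [map_add, ← bd_push]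
  refine Submodule.add_mem_sup (LinearMap.mem_range_self _ _)
    (push_coiH (fun y => t * y) α (fun h x => ?_) n hd)
  rw [← ht]
  group

/-- **The left translation by `t`.** -/
theorem lmul_sub (ι : H →* E) (hι : Function.Injective ι) (t : E) (α : H →* H)
    (ht : ∀ h, t * ι h * t⁻¹ = ι (α h)) (n : ℕ) (μ : ℤ) (hα : ∀ z : HG H n, HG.map n α z = μ • z)
    (x : Cx ℤ E (n + 1)) (hx : bd ℤ E n x ∈ coiH ι n) :
    push ℤ (fun y => t * y) (n + 1) x - μ • x ∈ bnH ι (n + 1) := by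
  obtain ⟨y, hy⟩ := exists_res ι hι n x hx
  -- the homotopy between `h ↦ t * ι h` and `h ↦ ι (α h)`
  obtain ⟨𝓗, h1, h2⟩ := exists_homotopy (R := ℤ) (fun h : H => Finsupp.single (t * ι h) 1)
    (fun h : H => Finsupp.single (ι (α h)) 1) 1 (fun x => mass_single' _ _)
    (fun x => mass_single' _ _) (fun h => t * ι h)
  have e1 := h1 n y
  rw [vmap_point, vmap_point, one_smul] at e1
  have e2 : 𝓗 n (bd ℤ H n y) ∈ coiH ι (n + 1) := by
    have h3 : (bd ℤ H n (y : Cx ℤ H (n + 1))) ∈ coiH (MonoidHom.id H) n := by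
      have h4 := push_coi_coiH (MonoidHom.id H) n y.2
      rwa [show push ℤ (MonoidHom.id H) n (bd ℤ H n (y : Cx ℤ H (n + 1))) =
        bd ℤ H n (y : Cx ℤ H (n + 1)) from push_id n _] at h4
    refine equi_coiH (ι := MonoidHom.id H) (ι' := ι) (𝓗 n) α (fun g c => ?_) h3
    refine h2 (fun y => g * y) (fun y => ι (α g) * y) ?_ ?_ ?_ n c
    · intro a
      simp only [Finsupp.mapDomain_single]
      congr 1
      rw [← ht, map_mul]
      group
    · intro a
      simp only [Finsupp.mapDomain_single, map_mul]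
    · intro a
      rw [← ht, map_mul]
      group
  have e3 : push ℤ (fun h => t * ι h) (n + 1) (y : Cx ℤ H (n + 1)) -
      push ℤ (fun h => ι (α h)) (n + 1) (y : Cx ℤ H (n + 1)) ∈ bnH ι (n + 1) := by
    rw [← e1]
    exact Submodule.add_mem_sup (LinearMap.mem_range_self _ _) e2
  -- the action of `α`
  have e4 : push ℤ α (n + 1) (y : Cx ℤ H (n + 1)) - μ • (y : Cx ℤ H (n + 1)) ∈ bnd H n := by
    have h3 := hα (HG.mk y)
    rw [HG.map_mk] at h3
    have h4 : μ • HG.mk y = HG.mk (μ • y) := rfl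
    rw [h4, HG.mk_eq_iff] at h3
    exact h3
  have e5 := push_bnd_bnH ι n e4
  rw [map_sub, map_smul, push_push] at e5
  have e6 := push_lmul_bnH ι t α ht (n + 1) hy
  rw [map_sub, push_push] at e6
  have e7 : push ℤ (fun y => t * y) (n + 1) x - μ • x =
      (push ℤ (fun y => t * y) (n + 1) x - push ℤ (fun h => t * ι h) (n + 1) (y : Cx ℤ H (n + 1))) +
      (push ℤ (fun h => t * ι h) (n + 1) (y : Cx ℤ H (n + 1)) -
        push ℤ (fun h => ι (α h)) (n + 1) (y : Cx ℤ H (n + 1))) +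
      (push ℤ (fun h => ι (α h)) (n + 1) (y : Cx ℤ H (n + 1)) -
        μ • push ℤ ι (n + 1) (y : Cx ℤ H (n + 1))) -
      μ • (x - push ℤ ι (n + 1) (y : Cx ℤ H (n + 1))) := by
    rw [smul_sub]
    abel
  rw [e7]
  exact Submodule.sub_mem _ (Submodule.add_mem _ (Submodule.add_mem _ e6 e3) e5)
    (Submodule.smul_mem _ _ hy)

end

end Pool.Agent.H71.CZ
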