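import Pool.Agent.H71.FQ.HG

/-!
# Project CZ: chains of a group modulo the action of a subgroup

`ι : H → E` injective (for the last theorems).  `coiH ι n` is the submodule of the chains of `E` generated by the
differences `(ι h x_0, …, ι h x_n) - (x_0, …, x_n)`; `bnH ι n` is the sum of the boundaries and of `coiH ι n`.

PROOF of `exists_res`.  Choose `p : E → H` with `p (ι h * x) = h * p x` (one representative in each coset `ι H x`; `ι` is
injective).  `exists_homotopy` for the vertex maps `x ↦ x` and `x ↦ ι (p x)` (point masses, `b x = x`) gives `𝓗` with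
`bd 𝓗 x + 𝓗 bd x = x - push ι (push p x)` which commutes with the left translations by `ι h`, so `𝓗 (coiH) ⊆ coiH`.  Take
`y = push p x`; it is a cycle since `push p` maps `coiH ι n` to `coi H n`.
-/

set_option autoImplicit false

universe u v w

namespace Pool.Agent.H71.CZ

open Pool.Agent.H71.FQ

section

variable {E : Type v} [Group E] {H : Type w} [Group H]

/-- the relations `(ι h x_0, …, ι h x_n) = (x_0, …, x_n)` -/
noncomputable def coiH (ι : H →* E) (n : ℕ) : Submodule ℤ (Cx ℤ E n) :=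
  Submodule.span ℤ {c | ∃ (h : H) (x : Fin (n + 1) → E),
    c = Finsupp.single (fun j => ι h * x j) 1 - Finsupp.single x 1}

/-- the boundaries and the relations `coiH` -/
noncomputable def bnH (ι : H →* E) (n : ℕ) : Submodule ℤ (Cx ℤ E n) :=
  LinearMap.range (bd ℤ E n) ⊔ coiH ι n

/-- a linear map which sends the relations into a submodule -/
theorem coiH_le_comap {ι : H →* E} {n : ℕ} {N : Type*} [AddCommGroup N] (L : Cx ℤ E n →ₗ[ℤ] N)
    (S : Submodule ℤ N)
    (h : ∀ (g : H) (x : Fin (n + 1) → E),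
      L (Finsupp.single (fun j => ι g * x j) 1) - L (Finsupp.single x 1) ∈ S)
    {c : Cx ℤ E n} (hc : c ∈ coiH ι n) : L c ∈ S := by
  have h1 : coiH ι n ≤ S.comap L := by
    rw [coiH, Submodule.span_le]
    rintro _ ⟨g, x, rfl⟩
    show L (Finsupp.single (fun j => ι g * x j) 1 - Finsupp.single x 1) ∈ S
    rw [map_sub]
    exact h g x
  exact h1 hc

/-- the left translations are the identity modulo the relations -/
theorem push_lmul_sub_memH (ι : H →* E) (n : ℕ) (h : H) (c : Cx ℤ E n) :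
    push ℤ (fun y => ι h * y) n c - c ∈ coiH ι n := by
  induction c using Finsupp.induction_linear with
  | zero => simp
  | add a b ha hb =>
    have h : push ℤ (fun y => ι h * y) n (a + b) - (a + b) =
        (push ℤ (fun y => ι h * y) n a - a) + (push ℤ (fun y => ι h * y) n b - b) := by
      rw [map_add]
      abel
    rw [h]
    exact Submodule.add_mem _ ha hb
  | single x r =>
    have h1 : (Finsupp.single x r : Cx ℤ E n) = r • Finsupp.single x 1 := by
      rw [Finsupp.smul_single, smul_eq_mul, mul_one]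
    rw [h1, map_smul, push_single, ← smul_sub]
    exact Submodule.smul_mem _ _ (Submodule.subset_span ⟨h, x, rfl⟩)

theorem coiH_le_coi (ι : H →* E) (n : ℕ) : coiH ι n ≤ coi E n := by
  rw [coiH, Submodule.span_le]
  rintro _ ⟨h, x, rfl⟩
  exact Submodule.subset_span ⟨ι h, x, rfl⟩

theorem bd_coiH (ι : H →* E) (n : ℕ) {c : Cx ℤ E (n + 1)} (hc : c ∈ coiH ι (n + 1)) :
    bd ℤ E n c ∈ coiH ι n := by
  refine coiH_le_comap (bd ℤ E n) (coiH ι n) ?_ hc
  intro g x
  rw [← push_single (R := ℤ) (fun y => ι g * y) (n + 1) x, bd_push]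
  exact push_lmul_sub_memH ι n g _

/-- the chain map of a vertex map that is compatible with the translations -/
theorem push_coiH {E' : Type*} [Group E'] {H' : Type*} [Group H'] {ι : H →* E} {ι' : H' →* E'}
    (f : E → E') (α : H → H') (hf : ∀ (h : H) (x : E), f (ι h * x) = ι' (α h) * f x) (n : ℕ)
    {c : Cx ℤ E n} (hc : c ∈ coiH ι n) : push ℤ f n c ∈ coiH ι' n := by
  refine coiH_le_comap (push ℤ f n) (coiH ι' n) ?_ hc
  intro g x
  rw [push_single, push_single]
  refine Submodule.subset_span ⟨α g, fun j => f (x j), ?_⟩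
  simp only [hf]

/-- the chains of `H` -/
theorem push_coi_coiH (ι : H →* E) (n : ℕ) {c : Cx ℤ H n} (hc : c ∈ coi H n) :
    push ℤ ι n c ∈ coiH ι n := by
  refine coi_le_comap (push ℤ ι n) (coiH ι n) ?_ hc
  intro g x
  rw [push_single, push_single]
  refine Submodule.subset_span ⟨g, fun j => ι (x j), ?_⟩
  simp only [map_mul]

/-- an equivariant family of linear maps sends the relations to the relations -/
theorem equi_coiH {E' : Type*} [Group E'] {H' : Type*} [Group H'] {ι : H →* E} {ι' : H' →* E'}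
    {m k : ℕ} (𝓗 : Cx ℤ E m →ₗ[ℤ] Cx ℤ E' k) (α : H → H')
    (h : ∀ (g : H) (c : Cx ℤ E m), 𝓗 (push ℤ (fun y => ι g * y) m c) =
      push ℤ (fun y => ι' (α g) * y) k (𝓗 c)) {c : Cx ℤ E m} (hc : c ∈ coiH ι m) :
    𝓗 c ∈ coiH ι' k := by
  refine coiH_le_comap 𝓗 (coiH ι' k) ?_ hc
  intro g x
  rw [← push_single (R := ℤ) (fun y => ι g * y) m x, h]
  exact push_lmul_sub_memH ι' k (α g) _

/-- an equivariant projection to `H` -/
theorem exists_equi (ι : H →* E) (hι : Function.Injective ι) :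
    ∃ q : E → H, ∀ (h : H) (x : E), q (ι h * x) = h * q x := by
  let r : Setoid E := QuotientGroup.rightRel ι.range
  have hrel : ∀ x : E, ∃ h : H, x = ι h * (Quotient.mk r x).out := by
    intro x
    have h1 : r ((Quotient.mk r x).out) x := Quotient.exact (Quotient.out_eq _)
    have h2 : x * ((Quotient.mk r x).out)⁻¹ ∈ ι.range := QuotientGroup.rightRel_apply.1 h1
    obtain ⟨h, hh⟩ := h2
    exact ⟨h, by rw [hh]; group⟩
  choose q hq using hrel
  refine ⟨q, fun h x => hι ?_⟩
  have h3 : Quotient.mk r (ι h * x) = Quotient.mk r x := by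
    refine Quotient.sound ?_
    refine QuotientGroup.rightRel_apply.2 ?_
    rw [mul_inv_rev, ← mul_assoc, mul_inv_cancel, one_mul]
    exact ι.range.inv_mem ⟨h, rfl⟩
  have h4 := hq (ι h * x)
  rw [h3] at h4
  have h5 := hq x
  rw [map_mul]
  have h6 : ι (q (ι h * x)) * (Quotient.mk r x).out = ι h * ι (q x) * (Quotient.mk r x).out := by
    rw [← h4, mul_assoc, ← h5]
  exact mul_right_cancel h6

/-- the chains of `H` under an equivariant projection -/
theorem push_coiH_coi (ι : H →* E) (q : E → H) (hq : ∀ (h : H) (x : E), q (ι h * x) = h * q x)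
    (n : ℕ) {c : Cx ℤ E n} (hc : c ∈ coiH ι n) : push ℤ q n c ∈ coi H n := by
  refine coiH_le_comap (push ℤ q n) (coi H n) ?_ hc
  intro g x
  rw [push_single, push_single]
  refine Submodule.subset_span ⟨g, fun j => q (x j), ?_⟩
  simp only [hq]

/-- the homotopy between the identity and the projection to `H` -/
theorem exists_homH (ι : H →* E) (q : E → H) (hq : ∀ (h : H) (x : E), q (ι h * x) = h * q x) :
    ∃ 𝓗 : ∀ n, Cx ℤ E n →ₗ[ℤ] Cx ℤ E (n + 1),
      (∀ n (c : Cx ℤ E (n + 1)), bd ℤ E (n + 1) (𝓗 (n + 1) c) + 𝓗 n (bd ℤ E n c) =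
        c - push ℤ ι (n + 1) (push ℤ q (n + 1) c)) ∧
      ∀ (n : ℕ) {c : Cx ℤ E n}, c ∈ coiH ι n → 𝓗 n c ∈ coiH ι (n + 1) := by
  obtain ⟨𝓗, h1, h2⟩ := exists_homotopy (fun x : E => Finsupp.single x (1 : ℤ))
    (fun x => Finsupp.single (ι (q x)) 1) 1 (fun x => mass_single' _ _)
    (fun x => mass_single' _ _) (fun x => x)
  refine ⟨𝓗, fun n c => ?_, fun n c hc => ?_⟩
  · have h3 := h1 n c
    rwa [one_smul, ← push_eq_vmap, ← push_eq_vmap, push_id, ← push_push] at h3
  · refine equi_coiH (ι := ι) (ι' := ι) (𝓗 n) (fun h => h) ?_ hc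
    intro g c
    refine h2 _ _ (fun x => ?_) (fun x => ?_) (fun x => rfl) n c
    · exact Finsupp.mapDomain_single
    · rw [Finsupp.mapDomain_single, hq, map_mul]

/-- **The homology of `H` computed with the chains of `E`.** -/
theorem exists_res (ι : H →* E) (hι : Function.Injective ι) (n : ℕ) (x : Cx ℤ E (n + 1))
    (hx : bd ℤ E n x ∈ coiH ι n) :
    ∃ y : cyc H n, x - push ℤ ι (n + 1) (y : Cx ℤ H (n + 1)) ∈ bnH ι (n + 1) := by
  obtain ⟨q, hq⟩ := exists_equi ι hι
  obtain ⟨𝓗, h1, h2⟩ := exists_homH ι q hq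
  have h3 : bd ℤ H n (push ℤ q (n + 1) x) ∈ coi H n := by
    rw [bd_push]
    exact push_coiH_coi ι q hq n hx
  refine ⟨⟨push ℤ q (n + 1) x, h3⟩, ?_⟩
  rw [← h1 n x]
  exact Submodule.add_mem_sup (LinearMap.mem_range_self _ _) (h2 n hx)

theorem exists_res_zero (ι : H →* E) (hι : Function.Injective ι) (x : Cx ℤ E 0) :
    ∃ y : Cx ℤ H 0, x - push ℤ ι 0 y ∈ bnH ι 0 := by
  obtain ⟨q, hq⟩ := exists_equi ι hι
  refine ⟨push ℤ q 0 x, ?_⟩
  have h1 : bd ℤ E 0 (hom (fun x => Finsupp.single x (1 : ℤ)) (fun x => Finsupp.single (ι (q x)) 1) 1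
      (fun x => x) 0 x) = x - push ℤ ι 0 (push ℤ q 0 x) := by
    rw [bd_hom_zero _ _ (1 : ℤ) (fun x => mass_single' _ _) (fun x => mass_single' _ _),
      ← push_eq_vmap, ← push_eq_vmap, push_id, push_push]
  rw [← h1]
  exact Submodule.mem_sup_left (LinearMap.mem_range_self _ _)

end

end Pool.Agent.H71.CZ
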