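import Pool.Agent.H71.KP.Main0

/-!
# The kernel of `ColimU R G → Wh R' G` for an injection of `R` into a domain `R'` of characteristic zero

`kernel_torsion_map`: as `kernel_torsion` of `H71/KP/Main0`, with the relation over a larger domain.
-/

set_option autoImplicit false

open Matrix Filter

universe u v w t

namespace Pool.Agent.H71.KP

open Pool.Agent.H71.WH (InvMat K1 K1.mk K1.unit K1Rel genK1 addOne oneByOne CycSub conjHom Sat
  Sat_of_smul mem_Sat)

variable {G : Type v} [Group G]

section

variable {p : ℕ} [Fact p.Prime]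

/-- The case of the subrings of `ℤ_[p]`. -/
theorem kernel_torsion_of_padic_map {R : Type u} [CommRing R] (ρ : R →+* ℤ_[p])
    (hρ : Function.Injective ρ) (z : ColimU R G) (M : ℤ) (hM : M ≠ 0)
    (h : M • assembly ℤ_[p] G (colimMap ρ G z) = 0) : ∃ m : ℤ, m ≠ 0 ∧ m • z = 0 := by
  let S : LogSys.{u, v, 0} R ℚ_[p] := logSys0 ρ hρ
  refine S.torsion_of_V (fun c => (LUc (cF p c)).comp (colimMap ρ G)) ?_ z ?_ 1 one_ne_zero ?_
  · intro c D i1 i2 y _
    have := Fintype.ofFinite D.1
    change LUc (cF p c) (colimMap ρ G (cl D y)) = _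
    rw [colimMap_cl, LUc_cF, LogSys.val]
    exact Finset.sum_congr (by ext; simp) (fun _ _ => rfl)
  · apply mem_Sat
    have key : ∀ w : ColimU R G, w ∈ AddSubgroup.closure (S.GoodSet G) := by
      intro w
      induction w using colim_induction with
      | h0 => exact AddSubgroup.zero_mem _
      | h1 C x => exact AddSubgroup.subset_closure ⟨C, x, trivial, rfl⟩
      | h2 a b ha hb => exact AddSubgroup.add_mem _ ha hb
    exact key z
  · intro c
    rw [one_smul]
    exact LUc_eq_zero (cF p c) hM h

end

section

variable {R : Type u} [CommRing R] {S : Type t} [CommRing S] (φ : R →+* S)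

variable (G) in
/-- the map on the free abelian groups -/
noncomputable def freeMap : FreeAbelianGroup (CycUnit R G) →+ FreeAbelianGroup (CycUnit S G) :=
  FreeAbelianGroup.map fun a => ⟨a.C, uMap φ a.C.1 a.x⟩

theorem toColim_freeMap (z : FreeAbelianGroup (CycUnit R G)) :
    toColim S G (freeMap G φ z) = colimMap φ G (toColim R G z) := by
  induction z using FreeAbelianGroup.induction_on with
  | zero => rw [map_zero, map_zero, map_zero, map_zero]
  | of x =>
    rw [freeMap, FreeAbelianGroup.map_of_apply]
    exact (colimMap_cl φ G x.C x.x).symm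
  | neg x hx => rw [map_neg, map_neg, hx, map_neg, map_neg]
  | add x y hx hy => rw [map_add, map_add, hx, hy, map_add, map_add]

theorem asmF_freeMap (z : FreeAbelianGroup (CycUnit R G)) :
    asmF S G (freeMap G φ z) =
      FreeAbelianGroup.map (invMap (MonoidAlgebra.mapRingHom G φ)) (asmF R G z) := by
  induction z using FreeAbelianGroup.induction_on with
  | zero => rw [map_zero, map_zero, map_zero, map_zero]
  | of x =>
    rw [freeMap, FreeAbelianGroup.map_of_apply, asmF, FreeAbelianGroup.lift_apply_of, asmF,
      FreeAbelianGroup.lift_apply_of]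
    refine Eq.trans ?_ (FreeAbelianGroup.map_of_apply _).symm
    change genK1 (oneByOne (unitsMap x.C.1.subtype (uMap φ x.C.1 x.x))) =
      genK1 (mapGL (MonoidAlgebra.mapRingHom G φ) 1 (oneByOne (unitsMap x.C.1.subtype x.x)))
    rw [mapGL_oneByOne, ← uMap_unitsMap]
    rfl
  | neg x hx => rw [map_neg, map_neg, hx, map_neg, map_neg]
  | add x y hx hy => rw [map_add, map_add, hx, hy, map_add, map_add]

theorem colimMap_comp {T : Type w} [CommRing T] (ψ : S →+* T) (z : ColimU R G) :
    colimMap ψ G (colimMap φ G z) = colimMap (ψ.comp φ) G z := by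
  induction z using colim_induction with
  | h0 => rw [map_zero, map_zero, map_zero]
  | h1 C x =>
    rw [colimMap_cl, colimMap_cl, colimMap_cl]
    congr 1
    apply Units.ext
    exact congrArg (fun g : MonoidAlgebra R C.1 →+* MonoidAlgebra T C.1 => g x)
      (MonoidAlgebra.mapRingHom_comp ψ φ).symm
  | h2 a b ha hb => rw [map_add, map_add, ha, hb, map_add]

end

/-- **The kernel of `ColimU R G → Wh R' G` is a torsion group** for an injection of a commutative ring `R` into a domain
`R'` of characteristic zero. -/
theorem kernel_torsion_map {R : Type u} [CommRing R] {S : Type t} [CommRing S] [IsDomain S] [CharZero S]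
    (φ : R →+* S) (hφ : Function.Injective φ) (z : ColimU R G) (M : ℤ) (hM : M ≠ 0)
    (h : M • assembly S G (colimMap φ G z) = 0) : ∃ m : ℤ, m ≠ 0 ∧ m • z = 0 := by
  classical
  obtain ⟨y, rfl⟩ : ∃ y, toColim R G y = z := QuotientAddGroup.mk_surjective z
  have h1 : M • asmF S G (freeMap G φ y) ∈ WRel S G := by
    rw [← toWhF_eq_zero, map_zsmul, toWhF_asmF, toColim_freeMap, h]
  obtain ⟨s, y0, hy1, hy2⟩ := (eventually_free y).exists
  obtain ⟨t, ht, y', hy3, hy4⟩ := ((eventually_ge_atTop (s.image φ)).and (eventually_rel h1)).exists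
  have hmem : ∀ x : sub s, φ (incl s x) ∈ sub t := by
    intro x
    have h2 : sub s ≤ (sub t).comap φ := by
      rw [sub, Subring.closure_le]
      intro a ha
      exact Subring.subset_closure (ht (Finset.mem_image_of_mem φ ha))
    exact h2 x.2
  let j : sub s →+* sub t := (φ.comp (incl s)).codRestrict (sub t) hmem
  have hj : (incl t).comp j = φ.comp (incl s) := rfl
  have hjinj : Function.Injective j := by
    intro a b hab
    apply incl_injective s
    apply hφ
    exact congrArg (incl t) hab
  have h5 : mapF G t (asmF (sub t) G (freeMap G j y0)) = asmF S G (freeMap G φ y) := by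
    rw [asmF_freeMap, asmF_freeMap, ← hy2, mapF, mapF]
    have e : ∀ x : FreeAbelianGroup (InvMat (MonoidAlgebra (sub s) G)),
        FreeAbelianGroup.map (invMap (MonoidAlgebra.mapRingHom G (incl t)))
          (FreeAbelianGroup.map (invMap (MonoidAlgebra.mapRingHom G j)) x) =
        FreeAbelianGroup.map (invMap (MonoidAlgebra.mapRingHom G φ))
          (FreeAbelianGroup.map (invMap (MonoidAlgebra.mapRingHom G (incl s))) x) := by
      intro x
      induction x using FreeAbelianGroup.induction_on with
      | zero => simp only [map_zero]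
      | of x =>
        rw [FreeAbelianGroup.map_of_apply, FreeAbelianGroup.map_of_apply, FreeAbelianGroup.map_of_apply,
          FreeAbelianGroup.map_of_apply]
        congr 1
        obtain ⟨n, x⟩ := x
        change (⟨n, _⟩ : InvMat _) = ⟨n, _⟩
        congr 1
        apply Units.ext
        refine Matrix.ext fun a b => ?_
        exact congrArg (fun g : MonoidAlgebra (sub s) G →+* MonoidAlgebra S G => g (x.val a b))
          ((MonoidAlgebra.mapRingHom_comp (incl t) j).symm.trans
            (MonoidAlgebra.mapRingHom_comp φ (incl s)))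
      | neg x hx => simp only [map_neg, hx]
      | add x y hx hy => simp only [map_add, hx, hy]
    exact e _
  have h6 : y' = M • asmF (sub t) G (freeMap G j y0) := by
    apply mapF_injective t
    rw [hy4, map_zsmul, h5]
  have h7 : M • assembly (sub t) G (colimMap j G (toColim (sub s) G y0)) = 0 := by
    rw [← toColim_freeMap, ← toWhF_asmF, ← map_zsmul, ← h6]
    exact (toWhF_eq_zero _ _ y').2 hy3
  have : CharZero (sub t) := ⟨fun a b hab => by
    have h1 := congrArg (incl t) hab
    rw [map_natCast, map_natCast] at h1
    exact Nat.cast_injective h1⟩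
  have := finiteType_sub t
  obtain ⟨p, hp, ρ, hρ⟩ := exists_padic_embedding (sub t)
  obtain ⟨m, hm, h8⟩ := kernel_torsion_of_padic_map (ρ.comp j) (hρ.comp hjinj)
    (toColim (sub s) G y0) M hM (by
      rw [← colimMap_comp, ← whMap_assembly, ← map_zsmul, h7, map_zero])
  exact ⟨m, hm, by rw [← hy1, ← map_zsmul, h8, map_zero]⟩

end Pool.Agent.H71.KP
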