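import Pool.Agent.H71.CZ.KRes

/-!
# Project CZ: chains of an extension: representatives modulo the kernel

`π : E → Q` surjective, `ι = π.ker.subtype`.  `rp` sends a tuple `(x_0, …, x_n)` to the tuple `x_0 * s (π (x_0⁻¹ * x_i))`, `s` a
set-theoretic section of `π` with `s 1 = 1`.

PROOFS.  `rp_lmul`: `(g x_0)⁻¹ (g x_i) = x_0⁻¹ x_i`.  `push_rp`: `π (x_0 * s (π (x_0⁻¹ x_i))) = π x_i`.
`rp_ker`: choose for every tuple `y` in `Q` one tuple `t(y)` in `E` above it; the tuple `rp x` and `rp (t (π x))` differ by the left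
translation by an element of the kernel: if `π x = π x'` then `x'_0 = k x_0` with `k` in the kernel, `rp x' = k rp x` since
`π (x_0⁻¹ x_i) = π (x'_0⁻¹ x'_i)`.  So `rp c - R (push π c) ∈ coiH ι`, `R` the linear map with `R (y) = rp (t y)`; hence
`push π c = 0` implies `rp c ∈ coiH ι`.
`mem_coiH_zero`: in degree `0` `rp x = x`.
`exists_coi_lift`: generators: `(q y) - (y)` is the image of `(s q x) - (x)`, `π x = y`.
-/

set_option autoImplicit false

universe u v w

namespace Pool.Agent.H71.CZ

open Pool.Agent.H71.FQ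

section

variable {E : Type v} [Group E] {Q : Type w} [Group Q]

open Classical in
/-- a section with `s 1 = 1` -/
noncomputable def sc (π : E →* Q) (hπ : Function.Surjective π) (q : Q) : E :=
  if q = 1 then 1 else (hπ q).choose

theorem sc_spec (π : E →* Q) (hπ : Function.Surjective π) (q : Q) : π (sc π hπ q) = q := by
  unfold sc
  split_ifs with h
  · rw [map_one, h]
  · exact (hπ q).choose_spec

theorem sc_one (π : E →* Q) (hπ : Function.Surjective π) : sc π hπ 1 = 1 := if_pos rfl

/-- the representative of a tuple -/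
noncomputable def rpT (π : E →* Q) (hπ : Function.Surjective π) {n : ℕ} (x : Fin (n + 1) → E) :
    Fin (n + 1) → E := fun i => x 0 * sc π hπ (π ((x 0)⁻¹ * x i))

/-- the representative of a chain -/
noncomputable def rp (π : E →* Q) (hπ : Function.Surjective π) (n : ℕ) :
    Cx ℤ E n →ₗ[ℤ] Cx ℤ E n :=
  Finsupp.linearCombination ℤ fun x => Finsupp.single (rpT π hπ x) (1 : ℤ)

theorem rp_single (π : E →* Q) (hπ : Function.Surjective π) (n : ℕ) (x : Fin (n + 1) → E) :
    rp π hπ n (Finsupp.single x 1) = Finsupp.single (rpT π hπ x) 1 := by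
  rw [rp, Finsupp.linearCombination_single, one_smul]

theorem rpT_lmul (π : E →* Q) (hπ : Function.Surjective π) {n : ℕ} (g : E)
    (x : Fin (n + 1) → E) :
    rpT π hπ (fun j => g * x j) = fun j => g * rpT π hπ x j := by
  funext i
  show g * x 0 * sc π hπ (π ((g * x 0)⁻¹ * (g * x i))) = g * (x 0 * sc π hπ (π ((x 0)⁻¹ * x i)))
  have h : (g * x 0)⁻¹ * (g * x i) = (x 0)⁻¹ * x i := by group
  rw [h, mul_assoc]

theorem rp_lmul (π : E →* Q) (hπ : Function.Surjective π) (n : ℕ) (g : E) (c : Cx ℤ E n) :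
    rp π hπ n (push ℤ (fun y => g * y) n c) = push ℤ (fun y => g * y) n (rp π hπ n c) := by
  refine cx_ext (f := (rp π hπ n).comp (push ℤ (fun y => g * y) n))
    (g := (push ℤ (fun y => g * y) n).comp (rp π hπ n)) ?_ c
  intro x
  rw [LinearMap.comp_apply, LinearMap.comp_apply, push_single, rp_single, rp_single, push_single,
    rpT_lmul]

theorem map_rpT (π : E →* Q) (hπ : Function.Surjective π) {n : ℕ} (x : Fin (n + 1) → E)
    (i : Fin (n + 1)) : π (rpT π hπ x i) = π (x i) := by
  show π (x 0 * sc π hπ (π ((x 0)⁻¹ * x i))) = π (x i)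
  rw [map_mul, sc_spec, ← map_mul, mul_inv_cancel_left]

theorem push_rp (π : E →* Q) (hπ : Function.Surjective π) (n : ℕ) (c : Cx ℤ E n) :
    push ℤ π n (rp π hπ n c) = push ℤ π n c := by
  refine cx_ext (f := (push ℤ π n).comp (rp π hπ n)) (g := push ℤ π n) ?_ c
  intro x
  rw [LinearMap.comp_apply, rp_single, push_single, push_single]
  congr 1
  funext i
  exact map_rpT π hπ x i

/-- the relations of the kernel are killed by `π` -/
theorem push_coiH_ker (π : E →* Q) (n : ℕ) {c : Cx ℤ E n} (hc : c ∈ coiH π.ker.subtype n) :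
    push ℤ π n c = 0 := by
  have h := coiH_le_comap (push ℤ π n) (⊥ : Submodule ℤ (Cx ℤ Q n)) (fun g x => by
    rw [push_single, push_single]
    have h1 : (fun j => π (π.ker.subtype g * x j)) = fun j => π (x j) := by
      funext j
      have h2 : π (π.ker.subtype g) = 1 := g.2
      rw [map_mul, h2, one_mul]
    rw [h1, sub_self]
    exact Submodule.zero_mem _) hc
  exact (Submodule.mem_bot ℤ).1 h

theorem rp_sub_mem (π : E →* Q) (hπ : Function.Surjective π) (n : ℕ) (x x' : Fin (n + 1) → E)
    (h : ∀ i, π (x i) = π (x' i)) :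
    Finsupp.single (rpT π hπ x') (1 : ℤ) - Finsupp.single (rpT π hπ x) 1 ∈
      coiH π.ker.subtype n := by
  refine Submodule.subset_span ⟨⟨x' 0 * (x 0)⁻¹, ?_⟩, rpT π hπ x, ?_⟩
  · rw [MonoidHom.mem_ker, map_mul, map_inv, h 0, mul_inv_cancel]
  · congr 2
    funext i
    show x' 0 * sc π hπ (π ((x' 0)⁻¹ * x' i)) =
      x' 0 * (x 0)⁻¹ * (x 0 * sc π hπ (π ((x 0)⁻¹ * x i)))
    rw [map_mul, map_inv, map_mul π (x 0)⁻¹, map_inv π (x 0), h 0, h i]
    group

theorem rp_ker (π : E →* Q) (hπ : Function.Surjective π) (n : ℕ) {c : Cx ℤ E n}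
    (hc : push ℤ π n c = 0) : rp π hπ n c ∈ coiH π.ker.subtype n := by
  let R : Cx ℤ Q n →ₗ[ℤ] Cx ℤ E n := Finsupp.linearCombination ℤ fun y =>
    Finsupp.single (rpT π hπ fun i => (hπ (y i)).choose) (1 : ℤ)
  have h1 : ∀ c : Cx ℤ E n, rp π hπ n c - R (push ℤ π n c) ∈ coiH π.ker.subtype n := by
    intro c
    induction c using Finsupp.induction_linear with
    | zero => simp
    | add a b ha hb =>
      have h : rp π hπ n (a + b) - R (push ℤ π n (a + b)) =
          (rp π hπ n a - R (push ℤ π n a)) + (rp π hπ n b - R (push ℤ π n b)) := by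
        rw [map_add, map_add, map_add]
        abel
      rw [h]
      exact Submodule.add_mem _ ha hb
    | single x r =>
      have h : (Finsupp.single x r : Cx ℤ E n) = r • Finsupp.single x 1 := by
        rw [Finsupp.smul_single, smul_eq_mul, mul_one]
      rw [h, map_smul, map_smul, map_smul, push_single, rp_single, ← smul_sub]
      refine Submodule.smul_mem _ _ ?_
      have h2 : R (Finsupp.single (fun j => π (x j)) 1) =
          Finsupp.single (rpT π hπ fun i => (hπ (π (x i))).choose) 1 := by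
        show Finsupp.linearCombination ℤ _ (Finsupp.single _ (1 : ℤ)) = _
        rw [Finsupp.linearCombination_single, one_smul]
      rw [h2]
      exact rp_sub_mem π hπ n _ x fun i => (hπ (π (x i))).choose_spec
  have h2 := h1 c
  rw [hc, map_zero, sub_zero] at h2
  exact h2

theorem mem_coiH_zero (π : E →* Q) (hπ : Function.Surjective π) {c : Cx ℤ E 0}
    (hc : push ℤ π 0 c = 0) : c ∈ coiH π.ker.subtype 0 := by
  have h : rp π hπ 0 c = c := by
    refine cx_ext (f := rp π hπ 0) (g := LinearMap.id) ?_ c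
    intro x
    rw [rp_single, LinearMap.id_apply]
    congr 1
    funext i
    rw [Subsingleton.elim (α := Fin 1) i 0]
    show x 0 * sc π hπ (π ((x 0)⁻¹ * x 0)) = x 0
    rw [inv_mul_cancel, map_one, sc_one, mul_one]
  rw [← h]
  exact rp_ker π hπ 0 hc

theorem exists_push (π : E →* Q) (hπ : Function.Surjective π) (n : ℕ) (c : Cx ℤ Q n) :
    ∃ c' : Cx ℤ E n, push ℤ π n c' = c := by
  refine ⟨push ℤ (fun q => (hπ q).choose) n c, ?_⟩
  rw [push_push]
  have h : (fun q => π ((hπ q).choose)) = fun q : Q => q := funext fun q => (hπ q).choose_spec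
  rw [h, push_id]

theorem exists_coi_lift (π : E →* Q) (hπ : Function.Surjective π) (n : ℕ) {c : Cx ℤ Q n}
    (hc : c ∈ coi Q n) : ∃ c' ∈ coi E n, push ℤ π n c' = c := by
  have h : c ∈ (coi E n).map (push ℤ π n) := by
    have h1 : coi Q n ≤ (coi E n).map (push ℤ π n) := by
      rw [coi, Submodule.span_le]
      rintro _ ⟨q, y, rfl⟩
      obtain ⟨g, rfl⟩ := hπ q
      choose x hx using fun i => hπ (y i)
      refine ⟨Finsupp.single (fun j => g * x j) 1 - Finsupp.single x 1,
        Submodule.subset_span ⟨g, x, rfl⟩, ?_⟩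
      rw [map_sub, push_single, push_single]
      simp only [map_mul, hx]
    exact h1 hc
  exact h

end

end Pool.Agent.H71.CZ
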