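import Mathlib

/-!
# Project CZ: the norm criterion for functions on `p`-tuples

PROOF.  `f` a finitely supported function on the `p`-tuples of elements of `α`, invariant under the shift, divisible by
`p` on the constant tuples.  The non-constant tuples have orbits of length `p` (`p` prime); choose one in each orbit, let `h` be
`f` on the chosen ones, `0` on the other non-constant ones, `f (const a) / p` on the constant ones; then `f = ∑_{j<p} h ∘ shift^j`.
-/

set_option autoImplicit false

universe u v

namespace Pool.Agent.H71.CZ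

section

variable {p : ℕ} [hp : Fact p.Prime]

/-- the shift by `k` -/
private def shf {α : Type u} (k : ZMod p) (v : ZMod p → α) : ZMod p → α := fun i => v (i + k)

private theorem shf_shf {α : Type u} (k l : ZMod p) (v : ZMod p → α) : shf k (shf l v) = shf (k + l) v := by
  funext i
  show v (i + k + l) = v (i + (k + l))
  rw [add_assoc]

private theorem shf_zero {α : Type u} (v : ZMod p → α) : shf 0 v = v := by
  funext i
  show v (i + 0) = v i
  rw [add_zero]

private theorem shf_nsmul {α : Type u} (k : ZMod p) (v : ZMod p → α) (h : shf k v = v) (n : ℕ) :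
    shf ((n : ZMod p) * k) v = v := by
  induction n with
  | zero => rw [Nat.cast_zero, zero_mul, shf_zero]
  | succ n ih =>
    rw [Nat.cast_add, Nat.cast_one, add_mul, one_mul, ← shf_shf, h, ih]

/-- a tuple with a nontrivial period is constant -/
private theorem const_of_shf {α : Type u} (k : ZMod p) (hk : k ≠ 0) (v : ZMod p → α) (h : shf k v = v) (i : ZMod p) :
    v i = v 0 := by
  have h1 : ((i * k⁻¹).val : ZMod p) * k = i := by
    rw [ZMod.natCast_zmod_val, mul_assoc, inv_mul_cancel₀ hk, mul_one]
  have h2 := congrFun (shf_nsmul k v h (i * k⁻¹).val) 0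
  rw [h1] at h2
  have h3 : v (0 + i) = v 0 := h2
  rwa [zero_add] at h3

private def orb (α : Type u) : Setoid (ZMod p → α) where
  r v w := ∃ k : ZMod p, w = shf k v
  iseqv :=
    { refl := fun v => ⟨0, (shf_zero v).symm⟩
      symm := fun {v w} ⟨k, hk⟩ => ⟨-k, by rw [hk, shf_shf, neg_add_cancel, shf_zero]⟩
      trans := fun {v w x} ⟨k, hk⟩ ⟨l, hl⟩ => ⟨l + k, by rw [hl, hk, shf_shf]⟩ }

/-- the norm criterion for functions -/
theorem exists_norm {α : Type u} {B : Type v} [CommRing B] (f : (ZMod p → α) →₀ B)
    (hf : ∀ v : ZMod p → α, f (fun i => v (i + 1)) = f v)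
    (hc : ∀ a : α, ∃ b : B, f (fun _ => a) = (p : B) * b) :
    ∃ h : (ZMod p → α) →₀ B, ∀ v, f v = ∑ j ∈ Finset.range p, h fun i => v (i + (j : ZMod p)) := by
  classical
  have hf1 : ∀ (n : ℕ) (v : ZMod p → α), f (shf (n : ZMod p) v) = f v := by
    intro n
    induction n with
    | zero => intro v; rw [Nat.cast_zero, shf_zero]
    | succ n ih =>
      intro v
      have h1 : shf ((n + 1 : ℕ) : ZMod p) v = shf (n : ZMod p) (shf 1 v) := by
        rw [shf_shf, Nat.cast_add, Nat.cast_one]
      rw [h1, ih]
      exact hf v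
  have hf2 : ∀ (k : ZMod p) (v : ZMod p → α), f (shf k v) = f v := by
    intro k v
    have h1 := hf1 k.val v
    rwa [ZMod.natCast_zmod_val] at h1
  have hc' : ∀ a : α, ∃ b : B, f (fun _ => a) = (p : B) * b ∧ (f (fun _ => a) = 0 → b = 0) := by
    intro a
    by_cases h0 : f (fun _ => a) = 0
    · exact ⟨0, by rw [h0, mul_zero], fun _ => rfl⟩
    · obtain ⟨b, hb⟩ := hc a
      exact ⟨b, hb, fun h => absurd h h0⟩
  choose b hb hb0 using hc'
  let rep : (ZMod p → α) → (ZMod p → α) := fun v => (Quotient.mk (orb α) v).out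
  have hrep : ∀ v, ∃ k : ZMod p, rep v = shf k v := fun v => by
    have h1 : (orb α).r (rep v) v := Quotient.mk_out (s := orb α) v
    exact (orb α).iseqv.symm h1
  have hrep2 : ∀ (k : ZMod p) (v : ZMod p → α), rep (shf k v) = rep v := fun k v => by
    have h1 : Quotient.mk (orb α) (shf k v) = Quotient.mk (orb α) v :=
      Quotient.sound (s := orb α) ((orb α).iseqv.symm ⟨k, rfl⟩)
    show (Quotient.mk (orb α) (shf k v)).out = (Quotient.mk (orb α) v).out
    rw [h1]
  let h0 : (ZMod p → α) → B := fun v =>
    if ∀ i, v i = v 0 then b (v 0) else if v = rep v then f v else 0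
  have hsupp : ∀ v, h0 v ≠ 0 → v ∈ f.support := by
    intro v hv
    rw [Finsupp.mem_support_iff]
    intro hfv
    apply hv
    show (if ∀ i, v i = v 0 then b (v 0) else if v = rep v then f v else 0) = 0
    split_ifs with h1 h2
    · have h3 : v = fun _ => v 0 := funext h1
      exact hb0 (v 0) (by rw [← h3]; exact hfv)
    · exact hfv
    · rfl
  let h : (ZMod p → α) →₀ B := Finsupp.onFinset f.support h0 hsupp
  refine ⟨h, fun v => ?_⟩
  have hh : ∀ w, h w = h0 w := fun w => Finsupp.onFinset_apply
  show f v = ∑ j ∈ Finset.range p, h (shf (j : ZMod p) v)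
  by_cases hv : ∀ i, v i = v 0
  · have h1 : ∀ j ∈ Finset.range p, h (shf (j : ZMod p) v) = b (v 0) := by
      intro j _
      rw [hh]
      have h2 : shf (j : ZMod p) v = v := funext fun i => by
        show v (i + (j : ZMod p)) = v i
        rw [hv, hv i]
      rw [h2]
      exact if_pos hv
    rw [Finset.sum_congr rfl h1, Finset.sum_const, Finset.card_range, nsmul_eq_mul]
    have h3 : v = fun _ => v 0 := funext hv
    rw [← hb (v 0), ← h3]
  · obtain ⟨k, hk⟩ := hrep v
    have h1 : ∀ j ∈ Finset.range p, j ≠ k.val → h (shf (j : ZMod p) v) = 0 := by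
      intro j hj hjk
      rw [hh]
      have h2 : ¬ ∀ i, shf (j : ZMod p) v i = shf (j : ZMod p) v 0 := by
        intro h3
        apply hv
        intro i
        have h4 : v (i - j + j) = v (0 + j) := h3 (i - j)
        have h5 : v (0 - j + j) = v (0 + j) := h3 (0 - j)
        rw [sub_add_cancel] at h4 h5
        rw [h4, h5]
      have h3 : shf (j : ZMod p) v ≠ rep (shf (j : ZMod p) v) := by
        rw [hrep2, hk]
        intro h4
        have h5 : shf ((j : ZMod p) - k) v = v := by
          have h6 := congrArg (shf (-k)) h4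
          rw [shf_shf, shf_shf, neg_add_cancel, shf_zero, neg_add_eq_sub] at h6
          exact h6
        have h6 : (j : ZMod p) - k ≠ 0 := by
          intro h7
          apply hjk
          have h8 : (j : ZMod p) = k := sub_eq_zero.1 h7
          rw [← h8, ZMod.val_natCast, Nat.mod_eq_of_lt (Finset.mem_range.1 hj)]
        exact hv fun i => const_of_shf _ h6 v h5 i
      show (if ∀ i, shf (j : ZMod p) v i = shf (j : ZMod p) v 0 then b (shf (j : ZMod p) v 0)
        else if shf (j : ZMod p) v = rep (shf (j : ZMod p) v) then f (shf (j : ZMod p) v) else 0) = 0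
      rw [if_neg h2, if_neg h3]
    rw [Finset.sum_eq_single k.val h1 fun h2 => absurd (Finset.mem_range.2 (ZMod.val_lt k)) h2, hh,
      ZMod.natCast_zmod_val]
    have h2 : ¬ ∀ i, shf k v i = shf k v 0 := by
      intro h3
      apply hv
      intro i
      have h4 : v (i - k + k) = v (0 + k) := h3 (i - k)
      have h5 : v (0 - k + k) = v (0 + k) := h3 (0 - k)
      rw [sub_add_cancel] at h4 h5
      rw [h4, h5]
    have h3 : shf k v = rep (shf k v) := by rw [hrep2, hk]
    show f v = if ∀ i, shf k v i = shf k v 0 then b (shf k v 0) else if shf k v = rep (shf k v) then f (shf k v) else 0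
    rw [if_neg h2, if_pos h3, hf2]

end

end Pool.Agent.H71.CZ
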