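import Mathlib.NumberTheory.Padics.RingHoms

/-!
# Project CZ: the finite quotients of the `p`-adic integers (the hypothesis of `artin_B`)
-/

set_option autoImplicit false

namespace Pool.Agent.H71.CZ

theorem padicInt_finite_quot (p : ℕ) [Fact p.Prime] (n : ℕ) (hn : n ≠ 0) :
    Finite (ℤ_[p] ⧸ Ideal.span {(n : ℤ_[p])}) := by
  have h1 : (n : ℤ_[p]) ≠ 0 := Nat.cast_ne_zero.2 hn
  have h2 := PadicInt.unitCoeff_spec h1
  have h3 : Ideal.span {(n : ℤ_[p])} = Ideal.span {(p : ℤ_[p]) ^ (n : ℤ_[p]).valuation} := by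
    rw [Ideal.span_singleton_eq_span_singleton]
    conv_lhs => rw [h2]
    exact (associated_unit_mul_left _ _ (PadicInt.unitCoeff h1).isUnit)
  rw [h3, ← PadicInt.ker_toZModPow]
  have : NeZero (p ^ (n : ℤ_[p]).valuation) := ⟨pow_ne_zero _ (Fact.out : p.Prime).ne_zero⟩
  exact Finite.of_injective _
    (RingHom.kerLift_injective (PadicInt.toZModPow (p := p) (n : ℤ_[p]).valuation))

end Pool.Agent.H71.CZ
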