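import Pool.Agent.H71.CZ.SumH
import Pool.Agent.H39.CZ.RelN

/-!
# Project CZ: the relation of the logarithms for elements `c` of arbitrary finite order

PROOF of `relC`.  `uD i` from `exists_uD` (`TrW`), `rel_hat` gives `k`, `X`.  `hφ'` from `exists_hatCoc`.  `relN` for the group `Wr p G`, the element
`hat p c` (`isOfFinOrder_hat`, `dvd_orderOf_hat`), the exponent from `bdd_wr`, the subgroups `hatS p (C i)` (`finite_hatS`), the units
`hatU (C i) (uD i)` (`hatU_cong`), `e = inc p G` (`hat_conj_notMem`), `π` from `exists_pi`, `meas_of_exp`.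
`sum_hat` (`SumH.lean`) turns the sum over `hatS p C` into the sum over `C`.
-/

set_option autoImplicit false

open Matrix

universe u v w

namespace Pool.Agent.H71.CZ

open Pool.Agent.H71.FQ Pool.Agent.H16.KN Pool.Agent.H16.FU
open Pool.Agent.H95.WH (K1 K1.unit)
open Pool.Agent.H39.CZ (hatS mem_hatS dgC dgC_coe hatF isCoc_hatF ev_trc_hat trc_hat_of_not)

section

variable {p : ℕ} [hp : Fact p.Prime] {B : Type} [CommRing B] {G : Type v} [Group G] {n : ℕ}

open Classical in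
/-- **The relation.** -/
theorem relC [IsDomain B] [CharZero B] (hB : GoodB p B) (r : ℕ)
    (hG : ∀ g : G, (∃ j : ℕ, g ^ p ^ j = 1) → g ^ p ^ r = 1) {c : G} (hc : IsOfFinOrder c)
    {φ : (Fin (n + 2) → Subgroup.centralizer ({c} : Set G)) → B}
    (hφ : IsCoc (Subgroup.centralizer ({c} : Set G)) n φ)
    {ι : Type} [Fintype ι] (C : ι → Subgroup G) [∀ i, Fintype (C i)]
    (hC : ∀ i, ∀ a b : C i, a * b = b * a) (u : ∀ i, (MonoidAlgebra B (C i))ˣ)
    (hu : ∀ i, ∃ a : MonoidAlgebra B (C i),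
      (u i : MonoidAlgebra B (C i)) = 1 + (p : MonoidAlgebra B (C i)) ^ 4 * a)
    (z : ∀ i, HG (Subgroup.centralizer (C i : Set G)) n) (M : ℤ) (hM : M ≠ 0)
    (h : M • ∑ i, gasm1 B n (C i).subtype (Subgroup.centralizer (C i : Set G)).subtype
        (cent_comm (C i)) (K1.unit (u i)) (z i) = 0) :
    ∃ K : ℕ, K ≠ 0 ∧ ∀ l : ℕ, (p : B) ^ (2 * l) ∣ (K : B) *
      ∑ i, ∑ d : C i, HG.ev hφ (trc n c (C i) d (z i)) *
        ((((u i : MonoidAlgebra B (C i)) ^ p ^ l) ^ p).coeff d -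
          ∑ g : C i with g ^ p = d, ((u i : MonoidAlgebra B (C i)) ^ p ^ l).coeff g) := by
  choose a ha using hu
  choose uD hprU X hX using fun i => exists_uD hB (u i) (a i) (ha i)
  obtain ⟨k, Y, hk, hY⟩ := rel_hat hB C u uD hprU z M hM h
  obtain ⟨π, hπ⟩ := exists_pi (hat p c)
  have hcc := isOfFinOrder_hat (p := p) hc
  have hbd : ∀ g : Wr p G, (∃ j : ℕ, g ^ p ^ j = 1) → g ^ p ^ (r + 1) = 1 := fun g hg => bdd_wr hG g hg
  have hφ' := isCoc_hatF (p := p) hφ
  have hmeas := meas_of_exp hp.out (r + 1) hbd hcc π hπ hφ'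
  let hft : ∀ i, Fintype (hatS p (C i)) := fun i => Fintype.ofFinite _
  obtain ⟨K, hK, hdvd⟩ := Pool.Agent.H39.CZ.relN (r + 1) hbd hcc (dvd_orderOf_hat hc) hπ hφ' hmeas (fun i => hatS p (C i))
    (fun i => hatU (C i) (uD i)) (fun i => hatU_cong (C i) (uD i) (X i) (hX i))
    (fun i => HG.map n (dgC p (C i)) (z i)) (inc p G)
    (fun v g hv => hat_conj_notMem c v⁻¹ g (by rw [← hv]; group)) Y k hk hY
  refine ⟨K, hK, fun l => ?_⟩
  have h1 := hdvd l
  rw [Finset.sum_congr rfl fun i _ => sum_hat hB hφ (C i) (hC i) (u i) (uD i) (hprU i) (p ^ l) (z i)] at h1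
  exact h1

end

end Pool.Agent.H71.CZ
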