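import Mathlib

/-!
# Project CZ: tensor products of elements and matrices of group rings

`tp a = ⊗ a_i` in `B[G^I]`, coefficient at `g` the product of the coefficients of the `a_i` at `g i`.

PROOFS.  `tp_mul`: coefficient at `g`; or expand both factors in singletons (`tp_sum_single`): `tp a` is the sum over the functions
`g ∈ piFinset (supports)` of `single g (∏ (a i).coeff (g i))`, and `tp` is multilinear; for `a i = single (g i) (b i)` it is
`single g (∏ b i)`.  A clean way: `tp` as the composition of a `MultilinearMap` over `B` (`MultilinearMap.mkPiRing`-like) and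
`MonoidAlgebra.induction_linear` in one coordinate at a time; or `Finset.prod_univ_sum`.
`tp_sum`: `Finset.prod_univ_sum` for the coefficients.
`tpM_mul`: `tpM (U V) v w = tp (i ↦ ∑_y U (v i) y * V y (w i)) = ∑_{x : I → Y} tp (i ↦ U (v i) (x i) * V (x i) (w i))`.
-/

set_option autoImplicit false

open Matrix

universe u v w

namespace Pool.Agent.H71.CZ

section

variable {B : Type u} [CommRing B] {G : Type v} [Group G] {I : Type w} [Fintype I]

open Classical in
/-- the tensor product of the elements `a i` -/
noncomputable def tp (a : I → MonoidAlgebra B G) : MonoidAlgebra B (I → G) :=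
  MonoidAlgebra.ofCoeff (Finsupp.onFinset (Fintype.piFinset fun i => (a i).coeff.support)
    (fun g => ∏ i, (a i).coeff (g i)) (by
      intro g hg
      rw [Fintype.mem_piFinset]
      intro i
      rw [Finsupp.mem_support_iff]
      intro h
      exact hg (Finset.prod_eq_zero (Finset.mem_univ i) h)))

theorem tp_coeff (a : I → MonoidAlgebra B G) (g : I → G) :
    (tp a).coeff g = ∏ i, (a i).coeff (g i) := rfl

theorem tp_ext {x y : MonoidAlgebra B (I → G)} (h : ∀ g, x.coeff g = y.coeff g) : x = y :=
  MonoidAlgebra.coeff_injective (Finsupp.ext h)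

/-- the coefficient at `g` as a multilinear map -/
noncomputable def tpC (g : I → G) : MultilinearMap B (fun _ : I => MonoidAlgebra B G) B :=
  (MultilinearMap.mkPiAlgebra B I B).compLinearMap fun i =>
    (Finsupp.lapply (g i)).comp (MonoidAlgebra.coeffLinearEquiv (S := B) (M := G) B).toLinearMap

theorem tpC_apply (g : I → G) (a : I → MonoidAlgebra B G) : tpC g a = ∏ i, (a i).coeff (g i) := by
  unfold tpC
  rw [MultilinearMap.compLinearMap_apply, MultilinearMap.mkPiAlgebra_apply]
  rfl

/-- the tensor product as a multilinear map -/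
noncomputable def tpL : MultilinearMap B (fun _ : I => MonoidAlgebra B G) (MonoidAlgebra B (I → G)) where
  toFun := tp
  map_update_add' m i x y := by
    refine tp_ext fun g => ?_
    have h := (tpC (B := B) g).map_update_add m i x y
    rw [tpC_apply, tpC_apply, tpC_apply] at h
    rw [MonoidAlgebra.coeff_add, Finsupp.add_apply, tp_coeff, tp_coeff, tp_coeff]
    exact h
  map_update_smul' m i c x := by
    refine tp_ext fun g => ?_
    have h := (tpC (B := B) g).map_update_smul m i c x
    rw [tpC_apply, tpC_apply] at h
    rw [MonoidAlgebra.coeff_smul, Finsupp.smul_apply, tp_coeff, tp_coeff]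
    exact h

theorem tpL_apply (a : I → MonoidAlgebra B G) : tpL a = tp a := rfl

theorem tp_single (g : I → G) (b : I → B) :
    tp (fun i => MonoidAlgebra.single (g i) (b i)) = MonoidAlgebra.single g (∏ i, b i) := by
  classical
  refine tp_ext fun h => ?_
  rw [tp_coeff, MonoidAlgebra.coeff_single, Finsupp.single_apply]
  by_cases hgh : g = h
  · subst hgh
    rw [if_pos rfl]
    refine Finset.prod_congr rfl fun i _ => ?_
    rw [MonoidAlgebra.coeff_single, Finsupp.single_eq_same]
  · rw [if_neg hgh]
    obtain ⟨i, hi⟩ := Function.ne_iff.1 hgh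
    refine Finset.prod_eq_zero (Finset.mem_univ i) ?_
    rw [MonoidAlgebra.coeff_single, Finsupp.single_apply, if_neg hi]

theorem tp_one : tp (fun _ : I => (1 : MonoidAlgebra B G)) = 1 := by
  have h := tp_single (B := B) (fun _ : I => (1 : G)) fun _ => 1
  rw [Finset.prod_const_one] at h
  exact h

theorem tp_mul (a b : I → MonoidAlgebra B G) : tp a * tp b = tp fun i => a i * b i := by
  classical
  -- both sides are multilinear in `a`
  have key : ∀ b : I → MonoidAlgebra B G,
      (LinearMap.mulRight B (tp b)).compMultilinearMap tpL =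
        (tpL (B := B) (G := G) (I := I)).compLinearMap fun i => LinearMap.mulRight B (b i) := by
    intro b
    refine Module.Basis.ext_multilinear (fun _ => MonoidAlgebra.basis G B) fun v => ?_
    rw [LinearMap.compMultilinearMap_apply, MultilinearMap.compLinearMap_apply]
    simp only [LinearMap.mulRight_apply, tpL_apply]
    -- both sides are multilinear in `b`
    have key2 : (LinearMap.mulLeft B (tp fun i => MonoidAlgebra.basis G B (v i))).compMultilinearMap tpL =
        (tpL (B := B) (G := G) (I := I)).compLinearMap fun i => LinearMap.mulLeft B (MonoidAlgebra.basis G B (v i)) := by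
      refine Module.Basis.ext_multilinear (fun _ => MonoidAlgebra.basis G B) fun w => ?_
      rw [LinearMap.compMultilinearMap_apply, MultilinearMap.compLinearMap_apply]
      simp only [LinearMap.mulLeft_apply, tpL_apply]
      have e : ∀ g : G, (MonoidAlgebra.basis G B g : MonoidAlgebra B G) = MonoidAlgebra.single g 1 := fun g => by
        simp [MonoidAlgebra.basis]
      simp only [e, MonoidAlgebra.single_mul_single]
      rw [tp_single v fun _ => (1 : B), tp_single w fun _ => (1 : B), MonoidAlgebra.single_mul_single,
        tp_single (fun i => v i * w i) fun _ => (1 : B) * 1]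
      simp only [mul_one, Finset.prod_const_one]
      rfl
    have h2 := congrArg (fun f => f b) key2
    simp only [LinearMap.compMultilinearMap_apply, MultilinearMap.compLinearMap_apply, LinearMap.mulLeft_apply,
      tpL_apply] at h2
    exact h2
  have h := congrArg (fun f => f a) (key b)
  simp only [LinearMap.compMultilinearMap_apply, MultilinearMap.compLinearMap_apply, LinearMap.mulRight_apply,
    tpL_apply] at h
  exact h

theorem tp_zero (a : I → MonoidAlgebra B G) (i : I) (h : a i = 0) : tp a = 0 := by
  refine tp_ext fun g => ?_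
  rw [tp_coeff, MonoidAlgebra.coeff_zero, Finsupp.zero_apply]
  refine Finset.prod_eq_zero (Finset.mem_univ i) ?_
  rw [h, MonoidAlgebra.coeff_zero, Finsupp.zero_apply]

theorem tp_sum {X : Type*} [Fintype X] [DecidableEq I] (a : I → X → MonoidAlgebra B G) :
    tp (fun i => ∑ x, a i x) = ∑ x : I → X, tp fun i => a i (x i) := by
  refine tp_ext fun g => ?_
  rw [tp_coeff, MonoidAlgebra.coeff_sum, Finsupp.finset_sum_apply]
  simp only [MonoidAlgebra.coeff_sum, Finsupp.finset_sum_apply, tp_coeff]
  rw [Finset.prod_univ_sum, Fintype.piFinset_univ]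

/-- naturality in the group -/
theorem tp_map {G' : Type*} [Group G'] (f : G →* G') (a : I → MonoidAlgebra B G)
    (F : (I → G) →* (I → G')) (hF : ∀ g i, F g i = f (g i)) :
    MonoidAlgebra.mapDomainRingHom B F (tp a) =
      tp fun i => MonoidAlgebra.mapDomainRingHom B f (a i) := by
  classical
  have key : (MonoidAlgebra.mapDomainAlgHom B B F).toLinearMap.compMultilinearMap tpL =
      (tpL (B := B) (G := G') (I := I)).compLinearMap fun _ => (MonoidAlgebra.mapDomainAlgHom B B f).toLinearMap := by
    refine Module.Basis.ext_multilinear (fun _ => MonoidAlgebra.basis G B) fun v => ?_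
    rw [LinearMap.compMultilinearMap_apply, MultilinearMap.compLinearMap_apply]
    simp only [tpL_apply]
    have e : ∀ g : G, (MonoidAlgebra.basis G B g : MonoidAlgebra B G) = MonoidAlgebra.single g 1 := fun g => by
      simp [MonoidAlgebra.basis]
    simp only [e]
    rw [tp_single v fun _ => (1 : B)]
    simp only [AlgHom.toLinearMap_apply, MonoidAlgebra.mapDomainAlgHom_apply, MonoidAlgebra.mapDomain_single]
    rw [tp_single (fun i => f (v i)) fun _ => (1 : B)]
    congr 1
    exact funext fun i => hF v i
  have h := congrArg (fun f => f a) key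
  simp only [LinearMap.compMultilinearMap_apply, MultilinearMap.compLinearMap_apply, tpL_apply] at h
  exact h

/-- permutations of the factors -/
theorem tp_perm (e : I ≃ I) (a : I → MonoidAlgebra B G) (F : (I → G) →* (I → G))
    (hF : ∀ g i, F g i = g (e i)) :
    MonoidAlgebra.mapDomainRingHom B F (tp a) = tp fun i => a (e i) := by
  have hinj : Function.Injective F := by
    intro g h hgh
    funext j
    have := congrFun hgh (e.symm j)
    rw [hF, hF, e.apply_symm_apply] at this
    exact this
  refine tp_ext fun g => ?_
  obtain ⟨g, rfl⟩ : ∃ g', F g' = g := ⟨fun j => g (e.symm j), by funext i; rw [hF, e.symm_apply_apply]⟩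
  have h1 : (MonoidAlgebra.mapDomainRingHom B F (tp a)).coeff (F g) = (tp a).coeff g := by
    exact Finsupp.mapDomain_apply hinj (tp a).coeff g
  rw [h1, tp_coeff, tp_coeff]
  simp only [hF]
  exact (Equiv.prod_comp e fun j => (a j).coeff (g j)).symm

variable {Y : Type*} [Fintype Y] [DecidableEq Y] [DecidableEq I]

/-- the tensor power of a matrix -/
noncomputable def tpM (U : Matrix Y Y (MonoidAlgebra B G)) :
    Matrix (I → Y) (I → Y) (MonoidAlgebra B (I → G)) :=
  fun v w => tp fun i => U (v i) (w i)

theorem tpM_apply (U : Matrix Y Y (MonoidAlgebra B G)) (v w : I → Y) :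
    tpM U v w = tp fun i => U (v i) (w i) := rfl

theorem tpM_one : tpM (1 : Matrix Y Y (MonoidAlgebra B G)) =
    (1 : Matrix (I → Y) (I → Y) (MonoidAlgebra B (I → G))) := by
  ext1 v w
  rw [tpM_apply]
  by_cases h : v = w
  · subst h
    simp only [Matrix.one_apply_eq]
    exact tp_one
  · rw [Matrix.one_apply_ne h]
    obtain ⟨i, hi⟩ := Function.ne_iff.1 h
    exact tp_zero _ i (Matrix.one_apply_ne hi)

theorem tpM_mul (U V : Matrix Y Y (MonoidAlgebra B G)) :
    (tpM (U * V) : Matrix (I → Y) (I → Y) (MonoidAlgebra B (I → G))) = tpM U * tpM V := by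
  ext1 v w
  rw [tpM_apply, Matrix.mul_apply]
  simp only [Matrix.mul_apply, tpM_apply, tp_mul]
  exact tp_sum fun i y => U (v i) y * V y (w i)

end

end Pool.Agent.H71.CZ
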