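import Mathlib

/-!
# Project CZ: the wreath product `G ≀ C_p`

`Wr p G = G^p ⋊ C_p`, `sg * inc g * sg⁻¹ = inc (shG g)`, `(shG g) i = g (i + 1)`; `hat c = inc (c, 1, …, 1) * sg`, `hat c ^ p = inc (c, …, c)`.

PROOFS.  `inc_sg_pow`: `(inc a * sg) ^ k = inc (∏_{j < k} shG^j a) * sg ^ k` (product in this order).  `hat_pow`: for `a = (c at 0)` the product of
the `(shG^j a) i = a (i + j)`, `j < p`, has exactly one factor `≠ 1` for each `i`.
`conj_hat`: `h : ZMod p → G`; with `P = h_0 h_1 ⋯ h_{p-1}` (in the order `h 0, h 1, …`) `inc h * sg` is conjugate to `hat P` by `inc k`: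
`inc k * hat P * (inc k)⁻¹ = inc (k * (P at 0) * (shG k)⁻¹) * sg`, so solve `k i * (P at 0) i * k (i + 1)⁻¹ = h i`: `k (i + 1) = h i ⁻¹ k i` for
`i ≠ 0`, `k 1 = h 0 ⁻¹ k 0 P`; take `k 0 = 1`, then `k 1 = h 0⁻¹ P = h 1 ⋯ h (p-1)`, …, `k i = h i h (i+1) ⋯ h (p-1)` for `1 ≤ i < p`, `k p = 1 = k 0`.
If `u P u⁻¹ = c` then `inc (u, …, u)` conjugates `hat P` to `hat c`.  Conversely `y (inc h * sg) y⁻¹ = hat c`, `y = inc k * sg ^ j`: take `p`-th
powers: `inc (cyclic rotations of the product h_i h_{i+1} ⋯ h_{i-1})` is conjugate to `inc (c, …, c)`.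
-/

set_option autoImplicit false

universe u v w

namespace Pool.Agent.H71.CZ

section

variable (p : ℕ) (G : Type v) [Group G]

/-- the action of the cyclic group on the tuples -/
def actW : Multiplicative (ZMod p) →* MulAut (ZMod p → G) where
  toFun a :=
    { toFun := fun g i => g (i + a.toAdd)
      invFun := fun g i => g (i - a.toAdd)
      left_inv := fun g => funext fun i => by simp
      right_inv := fun g => funext fun i => by simp
      map_mul' := fun _ _ => rfl }
  map_one' := by
    ext g i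
    simp
  map_mul' a b := by
    ext g i
    simp only [MulEquiv.coe_mk, Equiv.coe_fn_mk, toAdd_mul, MulAut.mul_apply]
    congr 1
    abel

/-- The wreath product `G ≀ C_p`. -/
abbrev Wr : Type v := (ZMod p → G) ⋊[actW p G] Multiplicative (ZMod p)

/-- the inclusion of `G^p` -/
def inc : (ZMod p → G) →* Wr p G := SemidirectProduct.inl

/-- the shift -/
def shG : (ZMod p → G) →* (ZMod p → G) where
  toFun g i := g (i + 1)
  map_one' := rfl
  map_mul' _ _ := rfl

/-- the generator of `C_p` -/
def sg : Wr p G := SemidirectProduct.inr (Multiplicative.ofAdd (1 : ZMod p))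

/-- the diagonal -/
def dgG : G →* (ZMod p → G) where
  toFun g _ := g
  map_one' := rfl
  map_mul' _ _ := rfl

variable {p G}

theorem inc_injective : Function.Injective (inc p G) := SemidirectProduct.inl_injective

theorem shG_apply (g : ZMod p → G) (i : ZMod p) : shG p G g i = g (i + 1) := rfl

theorem dgG_apply (g : G) (i : ZMod p) : dgG p G g i = g := rfl

theorem sg_mul_inc (g : ZMod p → G) : sg p G * inc p G g = inc p G (shG p G g) * sg p G := by
  have h : (SemidirectProduct.inl (actW p G (Multiplicative.ofAdd (1 : ZMod p)) g) : Wr p G) = sg p G * inc p G g * (sg p G)⁻¹ := by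
    rw [SemidirectProduct.inl_aut]
    unfold sg inc
    rw [map_inv]
  have h2 : (SemidirectProduct.inl (actW p G (Multiplicative.ofAdd (1 : ZMod p)) g) : Wr p G) = inc p G (shG p G g) := rfl
  rw [← h2, h, inv_mul_cancel_right]

theorem sg_mul_dg (g : G) : sg p G * inc p G (dgG p G g) = inc p G (dgG p G g) * sg p G := by
  rw [sg_mul_inc]
  rfl

/-- the powers of the generator -/
theorem sg_pow_nat (k : ℕ) : sg p G ^ k = SemidirectProduct.inr (Multiplicative.ofAdd (k : ZMod p)) := by
  unfold sg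
  rw [← map_pow, ← ofAdd_nsmul, nsmul_one]

theorem sg_pow : sg p G ^ p = 1 := by
  rw [sg_pow_nat, ZMod.natCast_self, ofAdd_zero, map_one]

theorem right_inc_sg (g : ZMod p → G) (k : ℕ) :
    SemidirectProduct.rightHom (inc p G g * sg p G ^ k) = Multiplicative.ofAdd (k : ZMod p) := by
  rw [map_mul, sg_pow_nat]
  show (1 : Multiplicative (ZMod p)) * Multiplicative.ofAdd (k : ZMod p) = _
  rw [one_mul]

theorem right_inc (g : ZMod p → G) : SemidirectProduct.rightHom (inc p G g) = (1 : Multiplicative (ZMod p)) := rfl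

theorem eq_inc_of_right {x : Wr p G} (h : SemidirectProduct.rightHom x = (1 : Multiplicative (ZMod p))) : x = inc p G x.left := by
  have h1 := SemidirectProduct.inl_left_mul_inr_right x
  have h2 : x.right = 1 := h
  rw [h2, map_one, mul_one] at h1
  exact h1.symm

/-- every element is of the form `inc g * sg ^ j` -/
theorem exists_inc_sg [NeZero p] (x : Wr p G) :
    ∃ (g : ZMod p → G) (j : ℕ), j < p ∧ x = inc p G g * sg p G ^ j := by
  refine ⟨x.left, x.right.toAdd.val, ZMod.val_lt _, ?_⟩
  rw [sg_pow_nat, ZMod.natCast_zmod_val, ofAdd_toAdd]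
  exact (SemidirectProduct.inl_left_mul_inr_right x).symm

/-- the elements `inc g * sg ^ j`, `0 < j < p`, are not in `G^p` -/
theorem inc_sg_notMem [NeZero p] (g : ZMod p → G) (j : ℕ) (h0 : j ≠ 0) (hj : j < p)
    (h : ZMod p → G) : inc p G g * sg p G ^ j ≠ inc p G h := by
  intro he
  have h1 := congrArg (SemidirectProduct.rightHom) he
  rw [right_inc_sg, right_inc] at h1
  have h2 : (j : ZMod p) = 0 := by
    have := congrArg Multiplicative.toAdd h1
    exact this
  rw [ZMod.natCast_eq_zero_iff] at h2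
  exact absurd (Nat.le_of_dvd (Nat.pos_of_ne_zero h0) h2) (not_le.2 hj)

variable (p) in
/-- the element `(c, 1, …, 1) σ` -/
def hat (c : G) : Wr p G := inc p G (Function.update 1 0 c) * sg p G

/-- the product of `k` consecutive entries -/
def cprod (a : ZMod p → G) (k : ℕ) (i : ZMod p) : G := ((List.range k).map fun j : ℕ => a (i + (j : ZMod p))).prod

theorem cprod_succ (a : ZMod p → G) (k : ℕ) (i : ZMod p) : cprod a (k + 1) i = cprod a k i * a (i + (k : ZMod p)) := by
  unfold cprod
  rw [List.range_succ, List.map_append, List.prod_append]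
  simp

theorem sg_pow_mul_inc (k : ℕ) (g : ZMod p → G) : sg p G ^ k * inc p G g = inc p G (fun i => g (i + (k : ZMod p))) * sg p G ^ k := by
  induction k with
  | zero => simp
  | succ k ih =>
    have h1 : (fun i : ZMod p => g (i + ((k + 1 : ℕ) : ZMod p))) = shG p G (fun i => g (i + (k : ZMod p))) := by
      funext i
      rw [shG_apply]
      congr 1
      push_cast
      ring
    rw [pow_succ', mul_assoc, ih, ← mul_assoc, sg_mul_inc, h1, mul_assoc]

theorem inc_sg_pow (a : ZMod p → G) (k : ℕ) : (inc p G a * sg p G) ^ k = inc p G (cprod a k) * sg p G ^ k := by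
  induction k with
  | zero =>
    have h1 : cprod a 0 = 1 := by
      funext i
      simp [cprod]
    simp [h1]
  | succ k ih =>
    have h1 : cprod a (k + 1) = cprod a k * fun i => a (i + (k : ZMod p)) := by
      funext i
      exact cprod_succ a k i
    rw [pow_succ, ih, mul_assoc, ← mul_assoc (sg p G ^ k), sg_pow_mul_inc, h1, map_mul, pow_succ]
    simp only [mul_assoc]

variable [hp : Fact p.Prime]

theorem cprod_hat (c : G) (i : ZMod p) (k : ℕ) (hk : k ≤ p) :
    cprod (Function.update (1 : ZMod p → G) 0 c) k i = if (-i).val < k then c else 1 := by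
  induction k with
  | zero => simp [cprod]
  | succ k ih =>
    rw [cprod_succ, ih (by omega)]
    have h1 : i + (k : ZMod p) = 0 ↔ (-i).val = k := by
      constructor
      · intro h
        have h2 : -i = (k : ZMod p) := neg_eq_of_add_eq_zero_right h
        rw [h2, ZMod.val_natCast, Nat.mod_eq_of_lt (by omega)]
      · intro h
        rw [← h, ZMod.natCast_zmod_val]
        ring
    by_cases h2 : i + (k : ZMod p) = 0
    · have h3 := h1.1 h2
      rw [h2, Function.update_self, if_neg (by omega), if_pos (by omega), one_mul]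
    · have h3 : ¬ (-i).val = k := fun h => h2 (h1.2 h)
      rw [Function.update_of_ne h2, Pi.one_apply, mul_one]
      by_cases h4 : (-i).val < k
      · rw [if_pos h4, if_pos (by omega)]
      · rw [if_neg h4, if_neg (by omega)]

theorem hat_pow (c : G) : hat p c ^ p = inc p G (dgG p G c) := by
  unfold hat
  rw [inc_sg_pow, sg_pow, mul_one]
  congr 1
  funext i
  rw [cprod_hat c i p le_rfl, if_pos (ZMod.val_lt _)]
  rfl

theorem isOfFinOrder_hat {c : G} (hc : IsOfFinOrder c) : IsOfFinOrder (hat p c) := by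
  obtain ⟨n, hn, h1⟩ := isOfFinOrder_iff_pow_eq_one.1 hc
  refine isOfFinOrder_iff_pow_eq_one.2 ⟨p * n, Nat.mul_pos hp.out.pos hn, ?_⟩
  rw [pow_mul, hat_pow, ← map_pow, ← map_pow, h1, map_one, map_one]

theorem right_hat (c : G) : SemidirectProduct.rightHom (hat p c) = Multiplicative.ofAdd (1 : ZMod p) := by
  have h := right_inc_sg (Function.update (1 : ZMod p → G) 0 c) 1
  rw [pow_one, Nat.cast_one] at h
  exact h

theorem ofAdd_one_ne : Multiplicative.ofAdd (1 : ZMod p) ≠ 1 := by
  intro h
  have h1 : (1 : ZMod p) = 0 := congrArg Multiplicative.toAdd h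
  exact one_ne_zero h1

theorem dvd_orderOf_hat {c : G} (hc : IsOfFinOrder c) : p ∣ orderOf (hat p c) := by
  have h1 := orderOf_map_dvd (SemidirectProduct.rightHom (φ := actW p G)) (hat p c)
  rw [right_hat, orderOf_ofAdd_eq_addOrderOf, ZMod.addOrderOf_one] at h1
  exact h1

/-- no conjugate of `hat c` is in `G^p` -/
theorem hat_conj_notMem (c : G) (x : Wr p G) (g : ZMod p → G) :
    x * hat p c * x⁻¹ ≠ inc p G g := by
  intro h
  have h1 := congrArg (SemidirectProduct.rightHom) h
  rw [map_mul, map_mul, map_inv, right_inc, right_hat, mul_comm (SemidirectProduct.rightHom x), mul_inv_cancel_right] at h1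
  exact ofAdd_one_ne h1

/-- the product `h_0 h_1 ⋯ h_{p-1}` -/
def pr0 (h : ZMod p → G) : G := (List.ofFn fun j : Fin p => h ((j : ℕ) : ZMod p)).prod

/-- the product `h_m ⋯ h_{p-1}` -/
def sfx (h : ZMod p → G) (m : ℕ) : G := ((List.range (p - m)).map fun j : ℕ => h ((m + j : ℕ) : ZMod p)).prod

theorem sfx_self (h : ZMod p → G) : sfx h p = 1 := by
  simp [sfx]

theorem sfx_step (h : ZMod p → G) {m : ℕ} (hm : m < p) : sfx h m = h (m : ZMod p) * sfx h (m + 1) := by
  unfold sfx
  have h1 : p - m = (p - (m + 1)) + 1 := by omega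
  rw [h1, List.range_succ_eq_map, List.map_cons, List.prod_cons, List.map_map]
  congr 2
  refine List.map_congr_left fun j _ => ?_
  show h ((m + (j + 1) : ℕ) : ZMod p) = h ((m + 1 + j : ℕ) : ZMod p)
  rw [show m + (j + 1) = m + 1 + j by omega]

theorem sfx_zero (h : ZMod p → G) : sfx h 0 = pr0 h := by
  unfold sfx pr0
  rw [Nat.sub_zero, List.ofFn_eq_map, ← List.map_coe_finRange_eq_range, List.map_map]
  congr 1
  refine List.map_congr_left fun j _ => ?_
  simp

theorem sfx_mem (h : ZMod p → G) (m : ℕ) {D : Subgroup G} (hD : ∀ i, h i ∈ D) : sfx h m ∈ D := by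
  unfold sfx
  refine list_prod_mem fun x hx => ?_
  obtain ⟨j, -, rfl⟩ := List.mem_map.1 hx
  exact hD _

/-- the conjugates of `hat c` with `C_p`-component the generator: explicit conjugating element -/
theorem conj_hat (h : ZMod p → G) : ∃ k : ZMod p → G,
    (∀ (D : Subgroup G), (∀ i, h i ∈ D) → ∀ i, k i ∈ D) ∧
      inc p G h * sg p G = inc p G k * hat p (pr0 h) * (inc p G k)⁻¹ := by
  classical
  obtain ⟨k, hk⟩ : ∃ k : ZMod p → G, ∀ i, k i = if i = 0 then 1 else sfx h i.val := ⟨_, fun _ => rfl⟩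
  have hk1 : ∀ i : ZMod p, k (i + 1) = sfx h (i.val + 1) := by
    intro i
    have hi := ZMod.val_lt i
    by_cases h1 : i.val + 1 = p
    · have h2 : i + 1 = 0 := by
        have h3 : ((i.val + 1 : ℕ) : ZMod p) = 0 := by rw [h1, ZMod.natCast_self]
        rwa [Nat.cast_add, ZMod.natCast_zmod_val, Nat.cast_one] at h3
      rw [hk, if_pos h2, h1, sfx_self]
    · have h2 : (i + 1).val = i.val + 1 := by
        have h3 : i + 1 = ((i.val + 1 : ℕ) : ZMod p) := by rw [Nat.cast_add, ZMod.natCast_zmod_val, Nat.cast_one]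
        rw [h3, ZMod.val_natCast, Nat.mod_eq_of_lt (by omega)]
      have h4 : i + 1 ≠ 0 := by
        intro h5
        rw [h5, ZMod.val_zero] at h2
        omega
      rw [hk, if_neg h4, h2]
  have hs : ∀ i : ZMod p, h i * k (i + 1) = sfx h i.val := by
    intro i
    rw [hk1, sfx_step h (ZMod.val_lt i), ZMod.natCast_zmod_val]
  refine ⟨k, fun D hD i => ?_, ?_⟩
  · rw [hk]
    split_ifs
    · exact D.one_mem
    · exact sfx_mem h _ hD
  · have h1 : h = k * Function.update (1 : ZMod p → G) 0 (pr0 h) * shG p G k⁻¹ := by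
      funext i
      show h i = k i * Function.update (1 : ZMod p → G) 0 (pr0 h) i * (k (i + 1))⁻¹
      rw [eq_mul_inv_iff_mul_eq, hs]
      by_cases h0 : i = 0
      · rw [h0, Function.update_self, hk 0, if_pos rfl, one_mul, ZMod.val_zero, sfx_zero]
      · rw [Function.update_of_ne h0, Pi.one_apply, mul_one, hk i, if_neg h0]
    unfold hat
    rw [← map_inv, mul_assoc (inc p G k), mul_assoc (inc p G _) (sg p G), sg_mul_inc]
    conv_lhs => rw [h1]
    rw [map_mul, map_mul]
    simp only [mul_assoc]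

/-- conjugation by the diagonal -/
theorem conj_hat_dg (u c : G) :
    inc p G (dgG p G u) * hat p c * (inc p G (dgG p G u))⁻¹ = hat p (u * c * u⁻¹) := by
  unfold hat
  rw [← map_inv, ← map_inv, mul_assoc (inc p G (dgG p G u)), mul_assoc (inc p G _) (sg p G), sg_mul_dg, ← mul_assoc, ← mul_assoc,
    ← map_mul, ← map_mul]
  congr 2
  funext i
  show u * Function.update (1 : ZMod p → G) 0 c i * u⁻¹ = Function.update (1 : ZMod p → G) 0 (u * c * u⁻¹) i
  by_cases h0 : i = 0
  · rw [h0, Function.update_self, Function.update_self]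
  · rw [Function.update_of_ne h0, Function.update_of_ne h0, Pi.one_apply, mul_one, mul_inv_cancel]

theorem sg_pow_mul_dg (k : ℕ) (g : G) : sg p G ^ k * inc p G (dgG p G g) = inc p G (dgG p G g) * sg p G ^ k := by
  rw [sg_pow_mul_inc]
  rfl

/-- **The conjugacy class of `hat c`.** -/
theorem isConj_hat_iff (c : G) (h : ZMod p → G) :
    IsConj (hat p c) (inc p G h * sg p G) ↔ IsConj c (pr0 h) := by
  obtain ⟨k, -, hk⟩ := conj_hat h
  have h1 : IsConj (hat p (pr0 h)) (inc p G h * sg p G) := isConj_iff.2 ⟨inc p G k, hk.symm⟩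
  constructor
  · intro h2
    obtain ⟨x, hx⟩ := isConj_iff.1 (h2.trans h1.symm)
    obtain ⟨g, j, -, rfl⟩ := exists_inc_sg x
    have h3 : (inc p G g * sg p G ^ j) * inc p G (dgG p G c) * (inc p G g * sg p G ^ j)⁻¹ = inc p G (dgG p G (pr0 h)) := by
      rw [← hat_pow, ← hat_pow, ← hx, conj_pow]
    rw [mul_assoc (inc p G g), sg_pow_mul_dg, ← mul_assoc, mul_inv_rev, mul_assoc (inc p G g * inc p G (dgG p G c)),
      mul_inv_cancel_left, ← map_mul, ← map_inv, ← map_mul] at h3
    have h4 := congrFun (inc_injective h3) 0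
    exact isConj_iff.2 ⟨g 0, h4⟩
  · intro h2
    obtain ⟨u, hu⟩ := isConj_iff.1 h2
    refine IsConj.trans ?_ h1
    rw [← hu]
    exact isConj_iff.2 ⟨inc p G (dgG p G u), conj_hat_dg u c⟩

/-- conjugates of `hat c` have `C_p`-component the generator -/
theorem isConj_hat_form (c : G) (x : Wr p G) (hx : IsConj (hat p c) x) :
    ∃ h : ZMod p → G, x = inc p G h * sg p G := by
  obtain ⟨y, hy⟩ := isConj_iff.1 hx
  obtain ⟨g, j, hj, h1⟩ := exists_inc_sg x
  have h2 : SemidirectProduct.rightHom x = Multiplicative.ofAdd (1 : ZMod p) := by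
    rw [← hy, map_mul, map_mul, map_inv, right_hat, mul_comm (SemidirectProduct.rightHom y), mul_inv_cancel_right]
  rw [h1, right_inc_sg] at h2
  have h3 : (j : ZMod p) = ((1 : ℕ) : ZMod p) := by
    rw [Nat.cast_one]
    exact congrArg Multiplicative.toAdd h2
  have h4 : j = 1 := by
    have h5 := congrArg ZMod.val h3
    rwa [ZMod.val_natCast, ZMod.val_natCast, Nat.mod_eq_of_lt hj, Nat.mod_eq_of_lt hp.out.one_lt] at h5
  exact ⟨g, by rw [h1, h4, pow_one]⟩

/-- **The centralizer of `hat c`.** -/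
theorem mem_centralizer_hat (c : G) (x : Wr p G) (hx : x * hat p c = hat p c * x) :
    ∃ (y : G) (i : ℕ), i < p ∧ y * c = c * y ∧ x = inc p G (dgG p G y) * hat p c ^ i := by
  obtain ⟨g, i, hi, h1⟩ := exists_inc_sg x
  obtain ⟨z, hz⟩ : ∃ z, z = x * (hat p c ^ i)⁻¹ := ⟨_, rfl⟩
  have hzr : SemidirectProduct.rightHom z = (1 : Multiplicative (ZMod p)) := by
    rw [hz, map_mul, map_inv, map_pow, right_hat, h1, right_inc_sg, ← ofAdd_nsmul, nsmul_one, mul_inv_cancel]
  have hzc : z * hat p c = hat p c * z := by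
    have h2 : Commute (hat p c ^ i)⁻¹ (hat p c) := ((Commute.refl (hat p c)).pow_left i).inv_left
    rw [hz, mul_assoc, h2.eq, ← mul_assoc, hx, mul_assoc]
  obtain ⟨f, hf⟩ : ∃ f : ZMod p → G, z = inc p G f := ⟨_, eq_inc_of_right hzr⟩
  have h3 : f * Function.update (1 : ZMod p → G) 0 c = Function.update (1 : ZMod p → G) 0 c * shG p G f := by
    rw [hf] at hzc
    unfold hat at hzc
    rw [mul_assoc, sg_mul_inc, ← mul_assoc, ← mul_assoc, ← map_mul, ← map_mul] at hzc
    exact inc_injective (mul_right_cancel hzc)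
  have h4 : ∀ i : ZMod p, i ≠ 0 → f i = f (i + 1) := by
    intro i hi
    have h5 := congrFun h3 i
    have h6 : f i * Function.update (1 : ZMod p → G) 0 c i = Function.update (1 : ZMod p → G) 0 c i * f (i + 1) := h5
    rwa [Function.update_of_ne hi, Pi.one_apply, mul_one, one_mul] at h6
  have h5 : f 0 * c = c * f 1 := by
    have h6 : f 0 * Function.update (1 : ZMod p → G) 0 c 0 = Function.update (1 : ZMod p → G) 0 c 0 * f (0 + 1) := congrFun h3 0
    rwa [Function.update_self, zero_add] at h6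
  have h6 : ∀ m : ℕ, m + 1 ≤ p → f ((m + 1 : ℕ) : ZMod p) = f 1 := by
    intro m
    induction m with
    | zero => intro _; simp
    | succ m ih =>
      intro hm
      have h7 : ((m + 1 : ℕ) : ZMod p) ≠ 0 := by
        intro h8
        rw [ZMod.natCast_eq_zero_iff] at h8
        exact absurd (Nat.le_of_dvd (Nat.succ_pos m) h8) (by omega)
      have h8 := h4 _ h7
      have h9 : ((m + 1 : ℕ) : ZMod p) + 1 = ((m + 1 + 1 : ℕ) : ZMod p) := by push_cast; ring
      rw [h9] at h8
      rw [← h8]
      exact ih (by omega)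
  have h01 : f 0 = f 1 := by
    have h7 := h6 (p - 1) (by have := hp.out.pos; omega)
    rwa [show p - 1 + 1 = p by have := hp.out.pos; omega, ZMod.natCast_self] at h7
  have hall : f = dgG p G (f 1) := by
    funext j
    show f j = f 1
    by_cases hj : j = 0
    · rw [hj, h01]
    · have h7 : j.val ≠ 0 := fun h => hj ((ZMod.val_eq_zero j).1 h)
      have h8 := h6 (j.val - 1) (by have := ZMod.val_lt j; omega)
      rwa [show j.val - 1 + 1 = j.val by omega, ZMod.natCast_zmod_val] at h8
  refine ⟨f 1, i, hi, ?_, ?_⟩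
  · rwa [h01] at h5
  · rw [← hall, ← hf, hz, inv_mul_cancel_right]

/-- **Bounded `p`-power torsion.** -/
theorem bdd_wr {r : ℕ} (hG : ∀ g : G, (∃ j : ℕ, g ^ p ^ j = 1) → g ^ p ^ r = 1) (x : Wr p G)
    (hx : ∃ j : ℕ, x ^ p ^ j = 1) : x ^ p ^ (r + 1) = 1 := by
  obtain ⟨j, hj⟩ := hx
  have h1 : SemidirectProduct.rightHom (x ^ p) = (1 : Multiplicative (ZMod p)) := by
    rw [map_pow]
    have h2 : (p : ℕ) • (SemidirectProduct.rightHom x).toAdd = 0 := by
      rw [nsmul_eq_mul, ZMod.natCast_self, zero_mul]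
    have h3 : Multiplicative.toAdd (SemidirectProduct.rightHom x ^ p) = 0 := by
      rw [toAdd_pow]
      exact h2
    exact h3
  obtain ⟨f, hf⟩ : ∃ f : ZMod p → G, x ^ p = inc p G f := ⟨_, eq_inc_of_right h1⟩
  have h2 : f ^ p ^ j = 1 := by
    apply inc_injective
    rw [map_pow, ← hf, ← pow_mul, mul_comm, pow_mul, hj, one_pow, map_one]
  have h3 : f ^ p ^ r = 1 := by
    funext i
    exact hG (f i) ⟨j, congrFun h2 i⟩
  rw [pow_succ', pow_mul, hf, ← map_pow, h3, map_one]

end

end Pool.Agent.H71.CZ
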