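import Pool.Agent.H71.CZ.Dt
import Pool.Agent.H71.CZ.Wr
import Pool.Agent.H71.CZ.Ten
import Pool.Agent.H71.CZ.Norm

/-!
# Project CZ: the shift on the matrices over `B[G^p]`, the norm criterion

`M = Mat_{Y^p}(B[G^p])`, `s m (v, w) = shG (m (v(· - 1), w(· - 1)))`.

PROOFS.  `exists_nm`: apply `exists_norm` (`Norm.lean`) to `α = Y × Y × G`: a matrix `x ∈ M` is a finitely supported function on `(ZMod p → Y × Y × G)`.
`dgM_mul`: the entry `(v, w)` of `dgM U * dgM V` is the sum over the constant `x`.
`tpM_sub`: `tpM U v w` has at the constant data the coefficient `(U y y').coeff g ^ p`, `beM U` has `(U y y').coeff g` (the terms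
`1 - dgM 1` cancel on the constant indices), `hB`.
-/

set_option autoImplicit false
set_option linter.unusedSectionVars false

open Matrix

universe u v w

namespace Pool.Agent.H71.CZ

section

variable {p : ℕ} [hp : Fact p.Prime]

variable (p) in
/-- the matrices -/
abbrev MM (B : Type u) [CommRing B] (G : Type v) [Group G] (Y : Type w) :=
  Matrix (ZMod p → Y) (ZMod p → Y) (MonoidAlgebra B (ZMod p → G))

variable (p) in
/-- the shift of the index tuples -/
private def shE (Y : Type*) : (ZMod p → Y) ≃ (ZMod p → Y) where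
  toFun x i := x (i - 1)
  invFun x i := x (i + 1)
  left_inv x := funext fun i => by simp
  right_inv x := funext fun i => by simp

private theorem shE_apply {Y : Type*} (x : ZMod p → Y) : shE p Y x = fun i => x (i - 1) := rfl

private theorem coeff_sh {B : Type*} [CommRing B] {G : Type*} [Group G] (a : MonoidAlgebra B (ZMod p → G)) (g : ZMod p → G) :
    (MonoidAlgebra.mapDomainRingHom B (shG p G) a).coeff g = a.coeff fun i => g (i - 1) := by
  have hinj : Function.Injective (shG p G) := by
    intro x y h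
    funext i
    have h1 := congrFun h (i - 1)
    rw [shG_apply, shG_apply, sub_add_cancel] at h1
    exact h1
  have h2 := Finsupp.mapDomain_apply (f := (shG p G : (ZMod p → G) → (ZMod p → G))) hinj a.coeff fun i => g (i - 1)
  have h3 : (shG p G) (fun i => g (i - 1)) = g := by
    funext i
    rw [shG_apply, add_sub_cancel_right]
  rw [h3] at h2
  rw [← h2]
  simp

private theorem sum_zmod {B : Type*} [AddCommMonoid B] (F : ZMod p → B) :
    ∑ j ∈ Finset.range p, F (j : ZMod p) = ∑ a : ZMod p, F a := by
  refine Finset.sum_bij' (fun j _ => (j : ZMod p)) (fun a _ => a.val) (fun _ _ => Finset.mem_univ _)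
    (fun a _ => Finset.mem_range.2 (ZMod.val_lt a)) (fun j hj => ZMod.val_cast_of_lt (Finset.mem_range.1 hj))
    (fun a _ => ZMod.natCast_zmod_val a) (fun _ _ => rfl)

variable (B : Type u) [CommRing B] (G : Type v) [Group G] (Y : Type w) [Fintype Y] [DecidableEq Y]

variable (p) in
/-- the shift of the matrices -/
noncomputable def sM : MM p B G Y →+* MM p B G Y where
  toFun m v w := MonoidAlgebra.mapDomainRingHom B (shG p G) (m (fun i => v (i - 1)) fun i => w (i - 1))
  map_one' := by
    funext v w
    by_cases h : v = w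
    · rw [h, one_apply_eq, one_apply_eq, map_one]
    · have h1 : (fun i => v (i - 1)) ≠ fun i => w (i - 1) := fun h2 => h ((shE p Y).injective h2)
      rw [one_apply_ne h1, one_apply_ne h, map_zero]
  map_mul' m n := by
    funext v w
    rw [mul_apply, mul_apply, map_sum]
    refine (Fintype.sum_equiv (shE p Y) _ _ fun x => ?_).symm
    rw [map_mul, shE_apply]
  map_zero' := by
    funext v w
    rw [Matrix.zero_apply, Matrix.zero_apply, map_zero]
  map_add' m n := by
    funext v w
    rw [Matrix.add_apply, Matrix.add_apply, map_add]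

private theorem sM_coeff (x : MM p B G Y) (v w : ZMod p → Y) (g : ZMod p → G) :
    (sM p B G Y x v w).coeff g = (x (fun i => v (i - 1)) fun i => w (i - 1)).coeff fun i => g (i - 1) := coeff_sh _ _

private theorem sM_iter_coeff (x : MM p B G Y) (j : ℕ) (v w : ZMod p → Y) (g : ZMod p → G) :
    ((sM p B G Y : MM p B G Y → MM p B G Y)^[j] x v w).coeff g =
      (x (fun i => v (i - j)) fun i => w (i - j)).coeff fun i => g (i - j) := by
  induction j generalizing v w g with
  | zero => simp
  | succ j ih =>
    rw [Function.iterate_succ_apply', sM_coeff, ih]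
    have h : ∀ i : ZMod p, i - ((j + 1 : ℕ) : ZMod p) = i - j - 1 := fun i => by
      push_cast
      ring
    simp only [h]

variable (p) in
theorem sM_iter (x : MM p B G Y) : (sM p B G Y : MM p B G Y → MM p B G Y)^[p] x = x := by
  funext v w
  refine MonoidAlgebra.coeff_injective (Finsupp.ext fun g => ?_)
  rw [sM_iter_coeff]
  simp

variable (p) in
/-- the shift of the matrices -/
noncomputable def shM : Sh p (MM p B G Y) := ⟨sM p B G Y, sM_iter p B G Y⟩

variable {B G Y}

theorem sM_apply (m : MM p B G Y) (v w : ZMod p → Y) :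
    sM p B G Y m v w =
      MonoidAlgebra.mapDomainRingHom B (shG p G) (m (fun i => v (i - 1)) fun i => w (i - 1)) := rfl

/-- **The norm criterion.** -/
theorem exists_nm (x : MM p B G Y) (hx : sM p B G Y x = x)
    (hc : ∀ (y y' : Y) (g : G), ∃ b : B,
      (x (fun _ => y) (fun _ => y')).coeff (fun _ => g) = (p : B) * b) :
    ∃ z, x = (shM p B G Y).nm z := by
  classical
  obtain ⟨f, hf⟩ : ∃ f : (ZMod p → Y × Y × G) →₀ B, ∀ u : ZMod p → Y × Y × G,
      f u = (x (fun i => (u i).1) fun i => (u i).2.1).coeff fun i => (u i).2.2 := by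
    have hfin : (Function.support fun u : ZMod p → Y × Y × G =>
        (x (fun i => (u i).1) fun i => (u i).2.1).coeff fun i => (u i).2.2).Finite := by
      refine ((Finset.univ : Finset ((ZMod p → Y) × (ZMod p → Y))).biUnion fun a =>
        (x a.1 a.2).coeff.support.image fun g i => (a.1 i, a.2 i, g i)).finite_toSet.subset ?_
      intro u hu
      rw [Finset.mem_coe, Finset.mem_biUnion]
      refine ⟨(fun i => (u i).1, fun i => (u i).2.1), Finset.mem_univ _, Finset.mem_image.2 ⟨fun i => (u i).2.2, ?_, rfl⟩⟩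
      exact Finsupp.mem_support_iff.2 hu
    exact ⟨Finsupp.ofSupportFinite _ hfin, fun u => rfl⟩
  have hf1 : ∀ u : ZMod p → Y × Y × G, f (fun i => u (i + 1)) = f u := by
    intro u
    rw [hf, hf]
    have h1 := sM_coeff B G Y x (fun i => (u (i + 1)).1) (fun i => (u (i + 1)).2.1) (fun i => (u (i + 1)).2.2)
    rw [hx] at h1
    rw [h1]
    simp
  have hc1 : ∀ a : Y × Y × G, ∃ b : B, f (fun _ => a) = (p : B) * b := by
    intro a
    obtain ⟨b, hb⟩ := hc a.1 a.2.1 a.2.2
    exact ⟨b, by rw [hf]; exact hb⟩
  obtain ⟨h, hh⟩ := exists_norm f hf1 hc1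
  have hinj : ∀ v w : ZMod p → Y, Function.Injective fun (g : ZMod p → G) (i : ZMod p) => (v i, w i, g i) := by
    intro v w g g' hg
    funext i
    exact (Prod.mk.inj (Prod.mk.inj (congrFun hg i)).2).2
  refine ⟨fun v w => MonoidAlgebra.ofCoeff (h.comapDomain (fun g i => (v i, w i, g i)) (hinj v w).injOn), ?_⟩
  funext v w
  refine MonoidAlgebra.coeff_injective (Finsupp.ext fun g => ?_)
  have h1 := hf fun i => (v i, w i, g i)
  have h2 := hh fun i => (v i, w i, g i)
  rw [h1] at h2
  rw [Sh.nm_apply, Matrix.sum_apply, MonoidAlgebra.coeff_sum, Finsupp.finsetSum_apply]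
  refine h2.trans ?_
  have h3 := sum_zmod (p := p) fun a => h fun i => (v (i + a), w (i + a), g (i + a))
  have h4 := sum_zmod (p := p) fun a => h fun i => (v (i - a), w (i - a), g (i - a))
  rw [h3]
  rw [← Equiv.sum_comp (Equiv.neg (ZMod p))]
  simp only [Equiv.neg_apply, ← sub_eq_add_neg]
  rw [← h4]
  refine Finset.sum_congr rfl fun j _ => ?_
  have h5 := sM_iter_coeff B G Y (fun v w => MonoidAlgebra.ofCoeff (h.comapDomain (fun g i => (v i, w i, g i)) (hinj v w).injOn)) j v w g
  exact h5.symm

theorem s_tpM (U : Matrix Y Y (MonoidAlgebra B G)) :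
    sM p B G Y (tpM U) = tpM U := by
  funext v w
  refine MonoidAlgebra.coeff_injective (Finsupp.ext fun g => ?_)
  rw [sM_coeff, tpM_apply, tpM_apply, tp_coeff, tp_coeff]
  exact Equiv.prod_comp (Equiv.subRight (1 : ZMod p)) fun i => (U (v i) (w i)).coeff (g i)

open Classical in
/-- the diagonal embedding of the matrices (it does not preserve the unit) -/
noncomputable def dgM (U : Matrix Y Y (MonoidAlgebra B G)) : MM p B G Y := fun v w =>
  if (∀ i, v i = v 0) ∧ ∀ i, w i = w 0 then
    MonoidAlgebra.mapDomainRingHom B (dgG p G) (U (v 0) (w 0)) else 0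

private theorem dgM_const (U : Matrix Y Y (MonoidAlgebra B G)) (y y' : Y) :
    (dgM U : MM p B G Y) (fun _ => y) (fun _ => y') = MonoidAlgebra.mapDomainRingHom B (dgG p G) (U y y') := by
  rw [dgM, if_pos ⟨fun _ => rfl, fun _ => rfl⟩]

private theorem dgM_left (U : Matrix Y Y (MonoidAlgebra B G)) {v : ZMod p → Y} (hv : ¬ ∀ i, v i = v 0) (w : ZMod p → Y) :
    (dgM U : MM p B G Y) v w = 0 := by
  rw [dgM, if_neg fun h => hv h.1]

private theorem dgM_right (U : Matrix Y Y (MonoidAlgebra B G)) (v : ZMod p → Y) {w : ZMod p → Y} (hw : ¬ ∀ i, w i = w 0) :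
    (dgM U : MM p B G Y) v w = 0 := by
  rw [dgM, if_neg fun h => hw h.2]

private theorem const_of {v : ZMod p → Y} (hv : ∀ i, v i = v 0) : v = fun _ => v 0 := funext hv

private theorem const_sh {v : ZMod p → Y} (hv : ¬ ∀ i, v i = v 0) :
    ¬ ∀ i, (fun i => v (i - 1)) i = (fun i => v (i - 1)) 0 := by
  intro h
  apply hv
  intro i
  have h1 := h (i + 1)
  have h2 := h 1
  simp only [add_sub_cancel_right, sub_self] at h1 h2
  rw [h1, ← h2]

theorem s_dgM (U : Matrix Y Y (MonoidAlgebra B G)) : sM p B G Y (dgM U) = dgM U := by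
  funext v w
  by_cases hv : ∀ i, v i = v 0
  · by_cases hw : ∀ i, w i = w 0
    · rw [const_of hv, const_of hw, dgM_const, sM_apply, dgM_const]
      refine MonoidAlgebra.coeff_injective (Finsupp.ext fun g => ?_)
      rw [← RingHom.comp_apply, ← MonoidAlgebra.mapDomainRingHom_comp]
      rfl
    · rw [dgM_right U v hw, sM_apply, dgM_right U _ (const_sh hw), map_zero]
  · rw [dgM_left U hv, sM_apply, dgM_left U (const_sh hv), map_zero]

theorem dgM_mul (U V : Matrix Y Y (MonoidAlgebra B G)) :
    (dgM (U * V) : MM p B G Y) = dgM U * dgM V := by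
  funext v w
  rw [mul_apply]
  by_cases hv : ∀ i, v i = v 0
  · by_cases hw : ∀ i, w i = w 0
    · rw [const_of hv, const_of hw, dgM_const, mul_apply, map_sum]
      refine Finset.sum_of_injOn (fun (y : Y) (_ : ZMod p) => y) (fun y _ y' _ h => congrFun h 0) (fun _ _ => Finset.mem_coe.2 (Finset.mem_univ _))
        ?_ ?_
      · intro x _ hx
        rw [dgM_right U _ (w := x), zero_mul]
        intro h
        exact hx ⟨x 0, Finset.mem_coe.2 (Finset.mem_univ _), (const_of h).symm⟩
      · intro y _
        rw [dgM_const, dgM_const, map_mul]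
    · rw [dgM_right _ v hw]
      exact (Finset.sum_eq_zero fun x _ => by rw [dgM_right V x hw, mul_zero]).symm
  · rw [dgM_left _ hv]
    exact (Finset.sum_eq_zero fun x _ => by rw [dgM_left U hv, zero_mul]).symm

theorem dgM_add (U V : Matrix Y Y (MonoidAlgebra B G)) :
    (dgM (U + V) : MM p B G Y) = dgM U + dgM V := by
  funext v w
  rw [Matrix.add_apply]
  by_cases hv : ∀ i, v i = v 0
  · by_cases hw : ∀ i, w i = w 0
    · rw [const_of hv, const_of hw, dgM_const, dgM_const, dgM_const, Matrix.add_apply, map_add]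
    · rw [dgM_right _ v hw, dgM_right _ v hw, dgM_right _ v hw, add_zero]
  · rw [dgM_left _ hv, dgM_left _ hv, dgM_left _ hv, add_zero]

/-- the diagonal embedding, extended by the identity -/
noncomputable def beM : Matrix Y Y (MonoidAlgebra B G) →* MM p B G Y where
  toFun U := 1 - dgM 1 + dgM U
  map_one' := by
    rw [sub_add_cancel]
  map_mul' U V := by
    have h1 := dgM_mul (p := p) (1 : Matrix Y Y (MonoidAlgebra B G)) V
    have h2 := dgM_mul (p := p) U (1 : Matrix Y Y (MonoidAlgebra B G))
    have h3 := dgM_mul (p := p) (1 : Matrix Y Y (MonoidAlgebra B G)) 1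
    rw [one_mul] at h1
    rw [mul_one] at h2
    rw [one_mul] at h3
    rw [dgM_mul, add_mul, mul_add, mul_add, sub_mul, sub_mul, one_mul, one_mul, mul_sub, mul_one,
      mul_sub, ← h1, ← h2, ← h3]
    simp

theorem beM_apply (U : Matrix Y Y (MonoidAlgebra B G)) :
    (beM U : MM p B G Y) = 1 - dgM 1 + dgM U := rfl

theorem s_beM (U : Matrix Y Y (MonoidAlgebra B G)) : sM p B G Y (beM U) = beM U := by
  rw [beM_apply, map_add, map_sub, map_one, s_dgM, s_dgM]

/-- **The congruence of Fermat.** -/
theorem tpM_sub (hB : ∀ b : B, ∃ c : B, b ^ p - b = (p : B) * c)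
    (U : Matrix Y Y (MonoidAlgebra B G)) :
    ∃ z, (tpM U : MM p B G Y) = beM U + (shM p B G Y).nm z := by
  obtain ⟨z, hz⟩ := exists_nm (tpM U - beM U : MM p B G Y) (by rw [map_sub, s_tpM, s_beM]) (by
    intro y y' g
    obtain ⟨c, hc⟩ := hB ((U y y').coeff g)
    refine ⟨c, ?_⟩
    have h1 : (beM U : MM p B G Y) (fun _ => y) (fun _ => y') = MonoidAlgebra.mapDomainRingHom B (dgG p G) (U y y') := by
      rw [beM_apply, Matrix.add_apply, Matrix.sub_apply, dgM_const, dgM_const]
      have h2 : (1 : MM p B G Y) (fun _ => y) (fun _ => y') =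
          MonoidAlgebra.mapDomainRingHom B (dgG p G) ((1 : Matrix Y Y (MonoidAlgebra B G)) y y') := by
        by_cases h : y = y'
        · rw [h, one_apply_eq, one_apply_eq, map_one]
        · rw [one_apply_ne h, one_apply_ne fun h3 => h (congrFun h3 0), map_zero]
      rw [h2, sub_self, zero_add]
    have h3 : (MonoidAlgebra.mapDomainRingHom B (dgG p G) (U y y')).coeff (fun _ => g) = (U y y').coeff g := by
      have hinj : Function.Injective (dgG p G) := fun a b h => congrFun h 0
      have h4 := Finsupp.mapDomain_apply (f := (dgG p G : G → (ZMod p → G))) hinj (U y y').coeff g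
      rw [← h4]
      simp
      rfl
    rw [Matrix.sub_apply, MonoidAlgebra.coeff_sub, Finsupp.sub_apply, h1, h3, tpM_apply, tp_coeff, Finset.prod_const, Finset.card_univ, ZMod.card]
    exact hc)
  refine ⟨z, ?_⟩
  rw [← hz, add_sub_cancel]

end

end Pool.Agent.H71.CZ
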