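import Pool.Agent.H71.FQ.St3

/-!
# Fields of characteristic zero: the condition on the group
-/

set_option autoImplicit false

universe u v w

namespace Pool.Agent.H71.CZS

open Pool.Agent.H71.FQS (Cent)
open Pool.Agent.H71.FQ3 (LSep)

/-- Every finite subset of `G` lies in a subgroup `G'` such that for every finite cyclic subgroup `C` of `G'` the
centralizer `Z` of `C` in `G'` satisfies `LSep p Z n` for almost all prime numbers `p`. -/
def LocSep (G : Type v) [Group G] (n : ℕ) : Prop :=
  ∀ S : Finset G, ∃ G' : Subgroup G, (∀ g ∈ S, g ∈ G') ∧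
    ∀ C : Subgroup G', Finite C → IsCyclic C → ∃ N : ℕ, ∀ p : ℕ, p.Prime → N < p → LSep p (Cent C) n

end Pool.Agent.H71.CZS
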