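import Pool.Agent.H71.CZ.St1
import Pool.Agent.H71.DO.Red

/-!
# Domains of characteristic zero: comparison of the definitions
-/

set_option autoImplicit false

universe u v w

namespace Pool.Agent.H71.CZS

open Pool.Agent.H71.FQS (KQ HnK0 IsAssembly RatInj Cent toK toK_fromK toH fromH fromH_toH toH1c fromH1
  fromH1_toH1c)
open Pool.Agent.H71.FQ1 (HnK1 IsAssembly1 conv vnoc vnoc_conv ratInj_compare toL fromL fromL_toL)
open Pool.Agent.H16.FU (assembly01 assembly1)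
open Pool.Agent.H71.FU0 (assembly10)

section

variable {R : Type u} [CommRing R] {G : Type v} [Group G] {n : ℕ}

/-- degree one -/
theorem ratInj10 [IsDomain R] (hR : DO.FNDomain R) : FQ.RatInj (assembly10 R G) := by
  apply FQ.ratInj_of
  intro w M hM h
  have h1 : M • DB.asm1 R G (FU0.toD1 w) = 0 := by
    rw [← FU0.kap_asm1, ← map_zsmul, h, map_zero]
  obtain ⟨m, hm, h2⟩ := DB.torsion_colim1 (DO.hArt_fn R hR) (DO.hUnit_fn R hR) G _ M hM h1
  refine ⟨m, hm, ?_⟩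
  rw [← FU0.fromD1_toD1 w, ← map_zsmul, h2, map_zero]

theorem ratInj_zero (h : FQ.RatInj (assembly10 R G)) : RatInj (FQ1.asm1 R G 0) :=
  ratInj_compare toL fromL fromL_toL toK (fun _ => toK_fromK _) h fun x m => map_zsmul toL m x

theorem ratInj_succ (h : FQ.RatInj (assembly1 R n G)) : RatInj (FQ1.asm1 R G (n + 1)) :=
  ratInj_compare (fun z => toH1c (conv z)) (vnoc.comp fromH1)
    (fun x => (congrArg vnoc (fromH1_toH1c (conv x))).trans (vnoc_conv x)) toK
    (fun _ => toK_fromK _) h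
    fun x m => (congrArg toH1c (map_zsmul conv m x)).trans (map_zsmul toH1c m (conv x))

end

/-- **The main theorem, from the torsion statement.** -/
theorem main_ofR (R : Type u) [CommRing R] [IsDomain R] [CharZero R] (hR : DO.FNDomain R)
    (G : Type v) [Group G] (n : ℕ)
    (hmain : ∀ m : ℕ, (∀ S : Finset G, ∃ G' : Subgroup G, (∀ g ∈ S, g ∈ G') ∧ Sub G' m) →
      ∀ (w0 : FQ.HnK0 R G (m + 1)) (w1 : H16.FU.HnK1 R G m) (M : ℤ), M ≠ 0 →
        M • assembly01 R m G (w0, w1) = 0 → ∃ m' : ℤ, m' ≠ 0 ∧ m' • w1 = 0)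
    (hK0 : ∀ (k : Type u) [Field k] [CharZero k] (m : ℕ) (w0 : FQ.HnK0 k G (m + 1))
      (w1 : H16.FU.HnK1 k G m) (M : ℤ), M ≠ 0 →
        M • assembly01 k m G (w0, w1) = 0 → ∃ m' : ℤ, m' ≠ 0 ∧ m' • w0 = 0)
    (hG : LocSep G n) :
    ∃ (α₀ : HnK0 R G n →+ KQ (MonoidAlgebra R G) n)
      (α₁ : HnK1 R G n →+ KQ (MonoidAlgebra R G) n),
      IsAssembly α₀ ∧ IsAssembly1 α₁ ∧ RatInj α₁ ∧ (IsField R → RatInj (α₀.coprod α₁)) := by
  have hG' : ∀ m, n = m + 1 → ∀ S : Finset G, ∃ G' : Subgroup G, (∀ g ∈ S, g ∈ G') ∧ Sub G' m := by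
    rintro m rfl S
    obtain ⟨G', h1, h2⟩ := hG S
    exact ⟨G', h1, sub_of h2⟩
  refine ⟨FQS.asmS R G n, FQ1.asm1 R G n, FQS.asmS_isAssembly, FQ1.asm1_isAssembly1, ?_, ?_⟩
  · rcases n with _ | n
    · exact ratInj_zero (ratInj10 hR)
    · refine ratInj_succ (FQ.ratInj_of _ fun w M hM h => ?_)
      refine hmain n (hG' n rfl) 0 w M hM ?_
      have h1 : assembly01 R n G (0, w) = assembly1 R n G w := by
        rw [assembly01, AddMonoidHom.coprod_apply, map_zero, zero_add]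
      rw [h1, h]
  · intro hf
    rcases n with _ | n
    · exact @zero_case R hf.toField _ G _
    · refine FQ1.ratInj_coprod_succ (FQ.ratInj_of _ fun w M hM h => ?_)
      obtain ⟨m1, hm1, h1⟩ := @hK0 R hf.toField _ n w.1 w.2 M hM h
      obtain ⟨m2, hm2, h2⟩ := hmain n (hG' n rfl) w.1 w.2 M hM h
      refine ⟨m1 * m2, mul_ne_zero hm1 hm2, Prod.ext ?_ ?_⟩
      · change (m1 * m2) • w.1 = 0
        rw [mul_comm, mul_smul]
        exact (congrArg (m2 • ·) h1).trans (smul_zero m2)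
      · change (m1 * m2) • w.2 = 0
        rw [mul_smul, h2, smul_zero]

end Pool.Agent.H71.CZS
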