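import Pool.Agent.H71.CZ.KpMap
import Pool.Agent.H71.DB.Main
import Pool.Agent.H71.FU0.Field0
import Pool.Agent.H71.FQ.LocR

/-!
# Degree one over a domain of characteristic zero: the relations with the `K₀`-part

`zero_joint`: if `M • (α₀ w₀ + α₁ w₁) = 0` in degree one, `M ≠ 0`, over a domain of characteristic zero with Artin induction, then
`w₁` is torsion.
-/

set_option autoImplicit false

open Matrix

universe u v w t

namespace Pool.Agent.H71.DB

open Pool.Agent.H95.WH (K1 K1.mk K1.unit K1.map K1.map_mk K1.hom_ext FamSub conjHom FinSub)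

section

variable {R : Type u} [CommRing R] {S : Type t} [CommRing S] (φ : R →+* S) (G : Type v) [Group G]

theorem whMap_psiW (x : K1 (MonoidAlgebra R G)) :
    KP.whMap φ G (DO.psiW R G (DO.Wh.mk R G x)) =
      DO.psiW S G (DO.Wh.mk S G (K1.map (MonoidAlgebra.mapRingHom G φ) x)) := by
  have h : ((KP.whMap φ G).comp (DO.psiW R G)).comp (DO.Wh.mk R G) =
      ((DO.psiW S G).comp (DO.Wh.mk S G)).comp (K1.map (MonoidAlgebra.mapRingHom G φ)) := by
    apply K1.hom_ext
    intro n U
    change (QuotientAddGroup.mk (KP.K1map (MonoidAlgebra.mapRingHom G φ)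
      (DO.psi (MonoidAlgebra R G) (K1.mk U))) : KP.Wh S G) =
        QuotientAddGroup.mk (DO.psi (MonoidAlgebra S G)
          (K1.map (MonoidAlgebra.mapRingHom G φ) (K1.mk U)))
    rw [K1.map_mk, DO.psi, Pool.Agent.H95.WH.K1.lift_mk, KP.K1map_mk, DO.psi,
      Pool.Agent.H95.WH.K1.lift_mk]
    rfl
  exact DFunLike.congr_fun h x

end

/-- as `torsion_colim1`, with the relation over a larger domain of characteristic zero -/
theorem torsion_colim1_map {R : Type u} [CommRing R] [IsDomain R] (hA : DO.HArt.{u, v} R)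
    (hU : DO.HUnit.{u, v} R) {S : Type t} [CommRing S] [IsDomain S] [CharZero S] (φ : R →+* S)
    (hφ : Function.Injective φ) (G : Type v) [Group G] (a : ColimK1 R G) (M : ℤ) (hM : M ≠ 0)
    (h : M • K1.map (MonoidAlgebra.mapRingHom G φ) (asm1 R G a) = 0) :
    ∃ m : ℤ, m ≠ 0 ∧ m • a = 0 := by
  obtain ⟨m, hm, z', hz⟩ := DO.sat_theta G hA hU (toWh R G a)
  have h1 : M • KP.assembly S G (KP.colimMap φ G z') = 0 := by
    rw [← KP.whMap_assembly, ← DO.psiW_assembly, hz, map_zsmul (DO.assembly R G FinSub), assembly_toWh,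
      map_zsmul, map_zsmul, whMap_psiW, smul_comm, ← map_zsmul (DO.psiW S G),
      ← map_zsmul (DO.Wh.mk S G), h, map_zero, map_zero, smul_zero]
  obtain ⟨m', hm', h2⟩ := KP.kernel_torsion_map φ hφ z' M hM h1
  have h3 : (m' * m) • toWh R G a = 0 := by rw [mul_smul, ← hz, ← map_zsmul, h2, map_zero]
  rw [← map_zsmul] at h3
  have h4 := congrArg (fromWh R G) h3
  rw [fromWh_toWh, map_zero, mt_eq_zero, mem_tor1] at h4
  obtain ⟨m'', hm'', h5⟩ := h4
  exact ⟨m'' * (m' * m), mul_ne_zero hm'' (mul_ne_zero hm' hm), by rw [mul_smul, h5]⟩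

end Pool.Agent.H71.DB

namespace Pool.Agent.H71.CZS

open Pool.Agent.H71.FQ
open Pool.Agent.H71.FU0
open Pool.Agent.H71.FU1
open Pool.Agent.H95.WH (K1 K1.mk K1.unit K1.map K1.map_mk K1.map_map K1.hom_ext FamSub conjHom FinSub)

theorem kap_src0 {R : Type u} [CommRing R] {S : Type u} [CommRing S] (φ : R →+* S) {G : Type v} [Group G]
    (w : H0K1 R G) : kap (assembly10 S G (src0 (NatK1.ofHom G φ) w)) =
      K1.map (MonoidAlgebra.mapRingHom G φ) (DB.asm1 R G (toD1 w)) := by
  have h : (kap.comp (assembly10 S G)).comp (src0 (NatK1.ofHom G φ)) =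
      ((K1.map (MonoidAlgebra.mapRingHom G φ)).comp (DB.asm1 R G)).comp toD1 := by
    apply h0k1_ext
    intro F x
    rw [AddMonoidHom.comp_apply, AddMonoidHom.comp_apply, AddMonoidHom.comp_apply, AddMonoidHom.comp_apply,
      src0_cl, kap_asm1, toD1_cl, toD1_cl, DB.asm1_cl, DB.asm1_cl, NatK1.ofHom_app, K1.map_map, K1.map_map,
      mapRing_mapDomain]
  exact DFunLike.congr_fun h w

theorem map_asm10 {R : Type u} [CommRing R] {S : Type u} [CommRing S] (φ : R →+* S) {G : Type v} [Group G]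
    (w : H0K1 R G) : KQ.map (MonoidAlgebra.mapRingHom G φ) (assembly10 R G w) =
      assembly10 S G (src0 (NatK1.ofHom G φ) w) := by
  have h : (KQ.map (MonoidAlgebra.mapRingHom G φ)).comp (assembly10 R G) =
      (assembly10 S G).comp (src0 (NatK1.ofHom G φ)) := by
    apply h0k1_ext
    intro F x
    rw [AddMonoidHom.comp_apply, AddMonoidHom.comp_apply, ofHom_asm0, src0_cl]
  exact DFunLike.congr_fun h w

/-- **Degree one: the relations with the `K₀`-part.** -/
theorem zero_joint {R : Type u} [CommRing R] [IsDomain R] [CharZero R] (hA : DO.HArt.{u, v} R)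
    (hU : DO.HUnit.{u, v} R) {G : Type v} [Group G] (w0 : HnK0 R G 0) (w1 : H0K1 R G) (M : ℤ) (hM : M ≠ 0)
    (h : M • assembly00 R G (w0, w1) = 0) : ∃ m : ℤ, m ≠ 0 ∧ m • w1 = 0 := by
  have hk : CharZero (FractionRing R) :=
    charZero_of_injective_algebraMap (IsFractionRing.injective R (FractionRing R))
  obtain ⟨ι, hι⟩ : ∃ ι, ι = algebraMap R (FractionRing R) := ⟨_, rfl⟩
  have hinj : Function.Injective ι := by
    rw [hι]
    exact IsFractionRing.injective R (FractionRing R)
  have h1 : M • assembly00 (FractionRing R) G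
      ((NatK0.ofHom G ι).src 0 w0, src0 (NatK1.ofHom G ι) w1) = 0 := by
    have h2 := congrArg (KQ.map (MonoidAlgebra.mapRingHom G ι)) h
    rw [map_zsmul, map_zero] at h2
    rw [← h2, assembly00_apply, assembly00_apply, map_add, assemblyN_ofHom, map_asm10]
  obtain ⟨m, hm, h3⟩ := (ratInj_iff (f := assembly00 (FractionRing R) G)).1
    (ratInj00_of_full (DB.full_injective (FractionRing R) G (fun p hp hk' => by
      have h1 : p = 0 := CharP.eq (FractionRing R) hk' (CharP.ofCharZero (FractionRing R))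
      exact absurd h1 hp.out.ne_zero))) _ M hM h1
  have h4 : m • src0 (NatK1.ofHom G ι) w1 = 0 := congrArg Prod.snd h3
  obtain ⟨m', hm', h5⟩ := DB.torsion_colim1_map hA hU ι hinj G (toD1 w1) m hm (by
    rw [← kap_src0, ← map_zsmul, ← map_zsmul, h4, map_zero, map_zero])
  exact ⟨m', hm', by rw [← fromD1_toD1 w1, ← map_zsmul, h5, map_zero]⟩

end Pool.Agent.H71.CZS
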