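import Pool.Agent.H71.CZ.St2
import Pool.Agent.H71.CZ.Zero1

/-!
# Domains of characteristic zero: the kernel of the assembly map on the sum of the `K₀`-part and the `K₁`-part
-/

set_option autoImplicit false

universe u v w

namespace Pool.Agent.H71.CZS

open Pool.Agent.H71.FQS (KQ HnK0 IsAssembly Cent toK toK_fromK toH fromH fromH_toH toH1c fromH1
  fromH1_toH1c)
open Pool.Agent.H71.FQ1 (HnK1 IsAssembly1 conv vnoc vnoc_conv toL fromL fromL_toL)
open Pool.Agent.H16.FU (assembly01 assembly1)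
open Pool.Agent.H71.FU0 (assembly10 assembly00)

section

variable {R : Type u} [CommRing R] {G : Type v} [Group G] {n : ℕ}

theorem toK_zero (w0 : HnK0 R G 0) (w1 : HnK1 R G 0) :
    toK (FQS.asmS R G 0 w0 + FQ1.asm1 R G 0 w1) = assembly00 R G (toH w0, toL w1) := by
  rw [map_add]
  exact congrArg₂ (· + ·) (toK_fromK _) (toK_fromK _)

theorem toK_succ (w0 : HnK0 R G (n + 1)) (w1 : HnK1 R G (n + 1)) :
    toK (FQS.asmS R G (n + 1) w0 + FQ1.asm1 R G (n + 1) w1) =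
      assembly01 R n G (toH w0, toH1c (conv w1)) := by
  rw [map_add]
  exact congrArg₂ (· + ·) (toK_fromK _) (toK_fromK _)

theorem tors_of {A B : Type*} [AddCommGroup A] [AddCommGroup B] {i : A → B} (i' : B →+ A)
    (hi : ∀ x, i' (i x) = x) {x : A} (h : ∃ m : ℤ, m ≠ 0 ∧ m • i x = 0) : IsOfFinAddOrder x := by
  obtain ⟨m, hm, h⟩ := h
  refine isOfFinAddOrder_iff_zsmul_eq_zero.2 ⟨m, hm, ?_⟩
  rw [← hi x, ← map_zsmul, h, map_zero]

end

/-- **The main theorem, from the torsion statements.** -/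
theorem main_ofK (R : Type u) [CommRing R] [IsDomain R] [CharZero R] (hR : DO.FNDomain R)
    (G : Type v) [Group G] (n : ℕ)
    (hmain : ∀ m : ℕ, (∀ S : Finset G, ∃ G' : Subgroup G, (∀ g ∈ S, g ∈ G') ∧ Sub G' m) →
      ∀ (w0 : FQ.HnK0 R G (m + 1)) (w1 : H16.FU.HnK1 R G m) (M : ℤ), M ≠ 0 →
        M • assembly01 R m G (w0, w1) = 0 → ∃ m' : ℤ, m' ≠ 0 ∧ m' • w1 = 0)
    (hK0 : ∀ (k : Type u) [Field k] [CharZero k] (m : ℕ) (w0 : FQ.HnK0 k G (m + 1))
      (w1 : H16.FU.HnK1 k G m) (M : ℤ), M ≠ 0 →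
        M • assembly01 k m G (w0, w1) = 0 → ∃ m' : ℤ, m' ≠ 0 ∧ m' • w0 = 0)
    (hG : LocSep G n) :
    ∃ (α₀ : HnK0 R G n →+ KQ (MonoidAlgebra R G) n)
      (α₁ : HnK1 R G n →+ KQ (MonoidAlgebra R G) n),
      IsAssembly α₀ ∧ IsAssembly1 α₁ ∧
        ∀ (w₀ : HnK0 R G n) (w₁ : HnK1 R G n), IsOfFinAddOrder (α₀ w₀ + α₁ w₁) →
          IsOfFinAddOrder w₁ ∧ (IsField R → IsOfFinAddOrder w₀) := by
  refine ⟨FQS.asmS R G n, FQ1.asm1 R G n, FQS.asmS_isAssembly, FQ1.asm1_isAssembly1,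
    fun w₀ w₁ h => ?_⟩
  obtain ⟨M, hM, h⟩ := isOfFinAddOrder_iff_zsmul_eq_zero.1 h
  have h0 := congrArg toK h
  rw [map_zsmul, map_zero] at h0
  rcases n with _ | n
  · have h1 : M • assembly00 R G (toH w₀, toL w₁) = 0 := by rw [← toK_zero, h0]
    refine ⟨tors_of (i := fun x => toL x) fromL fromL_toL
      (zero_joint (DO.hArt_fn R hR) (DO.hUnit_fn R hR) _ _ M hM h1), fun hf => ?_⟩
    have h2 : FQ.RatInj (assembly00 R G) :=
      @FU0.ratInj00_of_full R hf.toField.toCommRing G _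
        (@DB.full_injective R hf.toField G _ (fun p hp hk => by
          have h1 : p = 0 := CharP.eq R hk (CharP.ofCharZero R)
          exact absurd h1 hp.out.ne_zero))
    obtain ⟨m, hm, h3⟩ := (FQ.ratInj_iff (f := assembly00 R G)).1 h2 _ M hM h1
    exact tors_of (i := fun x => toH x) fromH fromH_toH ⟨m, hm, congrArg Prod.fst h3⟩
  · have h1 : M • assembly01 R n G (toH w₀, toH1c (conv w₁)) = 0 := by rw [← toK_succ, h0]
    have hS : ∀ S : Finset G, ∃ G' : Subgroup G, (∀ g ∈ S, g ∈ G') ∧ Sub G' n := fun S => by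
      obtain ⟨G', h1, h2⟩ := hG S
      exact ⟨G', h1, sub_of h2⟩
    refine ⟨tors_of (i := fun x => toH1c (conv x)) (vnoc.comp fromH1)
      (fun x => (congrArg vnoc (fromH1_toH1c (conv x))).trans (vnoc_conv x))
      (hmain n hS _ _ M hM h1), fun hf => ?_⟩
    exact tors_of (i := fun x => toH x) fromH fromH_toH (@hK0 R hf.toField _ n _ _ M hM h1)

end Pool.Agent.H71.CZS
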