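import Pool.Agent.H71.CZ.ValU
import Pool.Agent.H71.CZ.HatCoc

/-!
# Project CZ: the sum of the values of the cocycle `hatF φ` on the symbols of the wreath product

PROOF.  Only the `d = inc h * sg` contribute (`trc_hat_of_not`), `d = toHat (inc h * sg)` for `h : ZMod p → C`; `ev_trc_hat` and `hatU_coeff`, the
`- 1` has no coefficient at such `d` (`inc_sg_notMem`); collect the `h` with `pr0 h = d`, `trace_hat`.
-/

set_option autoImplicit false

open Matrix

universe u v w

namespace Pool.Agent.H71.CZ

open Pool.Agent.H71.FQ Pool.Agent.H16.KN Pool.Agent.H16.FU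
open Pool.Agent.H95.WH (K1 K1.unit)
open Pool.Agent.H39.CZ (hatS mem_hatS dgC dgC_coe hatF isCoc_hatF ev_trc_hat trc_hat_of_not)

section

variable {p : ℕ} [hp : Fact p.Prime] {B : Type} [CommRing B] {G : Type v} [Group G] {n : ℕ}

/-- the element `inc h * sg` of the subgroup -/
private def hel (C : Subgroup G) (h : ZMod p → C) : hatS p C := toHat p C (inc p C h * sg p C)

private theorem hel_coe (C : Subgroup G) (h : ZMod p → C) :
    ((hel C h : hatS p C) : Wr p G) = inc p G (fun i => (h i : G)) * sg p G := by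
  rw [hel, toHat_coe, map_mul, WrMap_inc, WrMap_sg]
  rfl

private theorem hel_left (C : Subgroup G) (h : ZMod p → C) (i : ZMod p) :
    ((hel C h : hatS p C) : Wr p G).left i = (h i : G) := by
  rw [hel_coe, Pool.Agent.H39.CZ.left_mul']
  exact mul_one _

private theorem hel_injective (C : Subgroup G) : Function.Injective (hel (p := p) C) := by
  intro h h' e
  funext i
  apply Subtype.ext
  rw [← hel_left C h i, ← hel_left C h' i, e]

private theorem not_range (C : Subgroup G) (d : hatS p C) (hd : d ∉ Set.range (hel (p := p) C))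
    (h : ZMod p → G) : (d : Wr p G) ≠ inc p G h * sg p G := by
  intro e
  apply hd
  have hm : ∀ i, h i ∈ C := by
    intro i
    have h1 := d.2 i
    rw [e, Pool.Agent.H39.CZ.left_mul'] at h1
    have h2 : (inc p G h).left i * (sg p G).left (i + Multiplicative.toAdd (inc p G h).right) =
        h i := mul_one _
    rwa [h2] at h1
  refine ⟨fun i => ⟨h i, hm i⟩, Subtype.ext ?_⟩
  rw [hel_coe, e]

private theorem pr0_coe (C : Subgroup G) (h : ZMod p → C) :
    ((pr0 h : C) : G) = pr0 fun i => (h i : G) := by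
  unfold pr0
  have h1 := map_list_prod C.subtype (List.ofFn fun j : Fin p => h ((j : ℕ) : ZMod p))
  rw [List.map_ofFn] at h1
  exact h1

open Classical in
/-- **The sum of the values at `hat c`.** -/
theorem sum_hat (hB : GoodB p B) {c : G}
    {φ : (Fin (n + 2) → Subgroup.centralizer ({c} : Set G)) → B}
    (hφ : IsCoc (Subgroup.centralizer ({c} : Set G)) n φ) (C : Subgroup G) [Fintype C]
    [Fintype (hatS p C)] (hC : ∀ a b : C, a * b = b * a) (u : (MonoidAlgebra B C)ˣ)
    (uD : (Dt (shM p B C (Fin 1)))ˣ) (h : prU (shM p B C (Fin 1)) uD = eta hB (sc1 u)) (k : ℕ)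
    (z : HG (Subgroup.centralizer (C : Set G)) n) :
    ∑ d : hatS p C, HG.ev (isCoc_hatF (p := p) hφ)
        (trc n (hat p c) (hatS p C) d (HG.map n (dgC p C) z)) *
        (((hatU C uD : MonoidAlgebra B (hatS p C)) ^ k - 1).coeff d) =
      ∑ d : C, HG.ev hφ (trc n c C d z) *
        ((((u : MonoidAlgebra B C) ^ k) ^ p).coeff d -
          ∑ g : C with g ^ p = d, ((u : MonoidAlgebra B C) ^ k).coeff g) := by
  have e1 := Fintype.sum_of_injective (hel (p := p) C) (hel_injective C)
    (fun h : ZMod p → C => HG.ev hφ (trc n c C (pr0 h) z) * ((p : B) *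
      ((jU p B C (Fin 1) (uD ^ k)).val 0 0).coeff (inc p C h * sg p C)))
    (fun d : hatS p C => HG.ev (isCoc_hatF (p := p) hφ)
        (trc n (hat p c) (hatS p C) d (HG.map n (dgC p C) z)) *
        (((hatU C uD : MonoidAlgebra B (hatS p C)) ^ k - 1).coeff d))
    (fun d hd => by
      rw [trc_hat_of_not d (not_range C d hd), AddMonoidHom.zero_apply, map_zero, zero_mul])
    (fun h => by
      have hne : (1 : hatS p C) ≠ hel C h := by
        intro e
        have e2 : ((1 : hatS p C) : Wr p G) = inc p G (fun i => (h i : G)) * sg p G := by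
          rw [e, hel_coe]
        have : NeZero p := ⟨hp.out.ne_zero⟩
        refine inc_sg_notMem (p := p) (fun i => (h i : G)) 1 one_ne_zero hp.out.one_lt 1 ?_
        rw [pow_one, ← e2, map_one]
        rfl
      have h2 : ((hatU C uD : MonoidAlgebra B (hatS p C)) ^ k - 1).coeff (hel C h) =
          ((jU p B C (Fin 1) (uD ^ k)).val 0 0).coeff (inc p C h * sg p C) := by
        rw [MonoidAlgebra.coeff_sub, Finsupp.sub_apply, MonoidAlgebra.one_def,
          MonoidAlgebra.coeff_single, Finsupp.single_eq_of_ne hne.symm, sub_zero]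
        exact hatU_coeff C uD k _
      rw [h2, ev_trc_hat hφ C (fun i => (h i : G)) (fun i => (h i).2) (hel C h) (hel_coe C h)
        (pr0 h) (pr0_coe C h) z, nsmul_eq_mul]
      ring)
  rw [← e1, ← Finset.sum_fiberwise Finset.univ (fun h : ZMod p → C => pr0 h)]
  refine Finset.sum_congr rfl fun d _ => ?_
  have h3 : (p : B) * ∑ g : ZMod p → C with pr0 g = d,
        ((jU p B C (Fin 1) (uD ^ k)).val 0 0).coeff (inc p C g * sg p C) =
      (((u : MonoidAlgebra B C) ^ k) ^ p).coeff d -
        ∑ g : C with g ^ p = d, ((u : MonoidAlgebra B C) ^ k).coeff g := by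
    convert trace_hat hC hB u uD h k d
  refine Eq.trans ?_ (congrArg (fun t => HG.ev hφ (trc n c C d z) * t) h3)
  rw [Finset.mul_sum, Finset.mul_sum]
  refine Finset.sum_congr rfl fun h hh => ?_
  rw [(Finset.mem_filter.1 hh).2]

end

end Pool.Agent.H71.CZ
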