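import Pool.Agent.H71.CZ.ThDef

/-!
# Project CZ: the map `θ` and reindexing

PROOF.  `e : Y ≃ Y'` induces `rM : MM p B G Y →+* MM p B G Y'` (`reindexRingEquiv` of `Equiv.arrowCongr (Equiv.refl _) e`) which commutes with `sM`
and with the norms, hence homomorphisms `rDt : (Dt Y)ˣ →* (Dt Y')ˣ`, `rDd : (Dd Y)ˣ →* (Dd Y')ˣ` with `prU ∘ rDt = rDd ∘ prU`,
`eta ∘ rxU e = rDd ∘ eta` (`tpM`, `beM` commute with reindexing), `jU ∘ rDt = rxU (arrow e) ∘ jU` (`jR_apply`).
`psD Y' ∘ HG.map rDd = psD Y`: after `HG.map prU` both sides are `phD Y` (`psD_map`, `clX_equiv`), `descend_unique` with `ckill_eta`.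
-/

set_option autoImplicit false

open Matrix

universe u v w

namespace Pool.Agent.H71.CZ

open Pool.Agent.H71.FQ

section

variable {p : ℕ} {M : Type u} [Ring M] {M' : Type v} [Ring M'] {σ : Sh p M} {σ' : Sh p M'}

private theorem nm_hom (r : M →+* M') (hr : ∀ x, r (σ.s x) = σ'.s (r x)) (z : M) : r (σ.nm z) = σ'.nm (r z) := by
  have h : ∀ (j : ℕ) (x : M), r ((σ.s : M → M)^[j] x) = (σ'.s : M' → M')^[j] (r x) := by
    intro j
    induction j with
    | zero => intro x; rfl
    | succ j ih =>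
      intro x
      rw [Function.iterate_succ_apply, Function.iterate_succ_apply, ih, hr]
  rw [Sh.nm_apply, Sh.nm_apply, map_sum]
  exact Finset.sum_congr rfl fun j _ => h j z

/-- the induced homomorphism of the rings `D~` -/
private def hDt (r : M →+* M') (hr : ∀ x, r (σ.s x) = σ'.s (r x)) : Dt σ →+* Dt σ' :=
  r.mapMatrix.restrict (Dt σ) (Dt σ') (by
    rintro X ⟨h1, h2, h3⟩
    refine ⟨?_, ?_, ?_⟩
    · show r (X 0 1) = 0
      rw [h1, map_zero]
    · show σ'.s (r (X 1 1)) = r (X 1 1)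
      rw [← hr, h2]
    · show r (X 0 0) = r (X 1 1) + σ'.nm (r (X 1 0))
      rw [h3, map_add, nm_hom r hr])

/-- the induced homomorphism of the rings `D` -/
private def hDd (r : M →+* M') (hr : ∀ x, r (σ.s x) = σ'.s (r x)) : Dd σ →+* Dd σ' :=
  (r.prodMap r).restrict (Dd σ) (Dd σ') (by
    rintro x ⟨h1, h2, z, h3⟩
    refine ⟨?_, ?_, r z, ?_⟩
    · show σ'.s (r x.1) = r x.1
      rw [← hr, h1]
    · show σ'.s (r x.2) = r x.2
      rw [← hr, h2]
    · show r x.1 = r x.2 + σ'.nm (r z)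
      rw [h3, map_add, nm_hom r hr])

private theorem hDt_val (r : M →+* M') (hr : ∀ x, r (σ.s x) = σ'.s (r x)) (X : Dt σ) (i j : Fin 2) :
    (hDt r hr X).1 i j = r (X.1 i j) := rfl

end

section

variable {p : ℕ} [hp : Fact p.Prime] {B : Type} [CommRing B] {G : Type v} [Group G] {n : ℕ}
  {Y Y' : Type} [Fintype Y] [DecidableEq Y] [Fintype Y'] [DecidableEq Y']

/-- the bijection of the index sets -/
private def eE (p : ℕ) (e : Y ≃ Y') : (ZMod p → Y) ≃ (ZMod p → Y') where
  toFun v i := e (v i)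
  invFun v i := e.symm (v i)
  left_inv v := funext fun i => e.symm_apply_apply (v i)
  right_inv v := funext fun i => e.apply_symm_apply (v i)

variable (p B G) in
/-- reindexing -/
private noncomputable def rM (e : Y ≃ Y') : MM p B G Y →+* MM p B G Y' :=
  (Matrix.reindexRingEquiv (MonoidAlgebra B (ZMod p → G)) (eE p e)).toRingHom

private theorem rM_apply (e : Y ≃ Y') (m : MM p B G Y) (v w : ZMod p → Y') :
    rM p B G e m v w = m (fun i => e.symm (v i)) fun i => e.symm (w i) := rfl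

private theorem rM_s (e : Y ≃ Y') (m : MM p B G Y) :
    rM p B G e ((shM p B G Y).s m) = (shM p B G Y').s (rM p B G e m) := rfl

private theorem rM_tp (e : Y ≃ Y') (U : Matrix Y Y (MonoidAlgebra B G)) :
    rM p B G e (tpM U) = tpM (U.submatrix e.symm e.symm) := rfl

private theorem rM_dg (e : Y ≃ Y') (U : Matrix Y Y (MonoidAlgebra B G)) :
    rM p B G e (dgM U) = dgM (U.submatrix e.symm e.symm) := by
  funext v w
  have h : ∀ v : ZMod p → Y', (∀ i, e.symm (v i) = e.symm (v 0)) ↔ ∀ i, v i = v 0 := fun v =>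
    forall_congr' fun i => e.symm.apply_eq_iff_eq
  rw [rM_apply]
  unfold dgM
  simp only [h, Matrix.submatrix_apply]

private theorem rM_be (e : Y ≃ Y') (U : Matrix Y Y (MonoidAlgebra B G)) :
    rM p B G e (beM U) = beM (U.submatrix e.symm e.symm) := by
  have h1 : (1 : Matrix Y Y (MonoidAlgebra B G)).submatrix e.symm e.symm = (1 : Matrix Y' Y' (MonoidAlgebra B G)) :=
    Matrix.submatrix_one_equiv e.symm
  rw [beM_apply, beM_apply, map_add, map_sub, map_one, rM_dg, rM_dg, h1]

variable (p B G) in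
private noncomputable def rDt (e : Y ≃ Y') : (Dt (shM p B G Y))ˣ →* (Dt (shM p B G Y'))ˣ :=
  Units.map (hDt (rM p B G e) (rM_s e)).toMonoidHom

variable (p B G) in
private noncomputable def rDd (e : Y ≃ Y') : (Dd (shM p B G Y))ˣ →* (Dd (shM p B G Y'))ˣ :=
  Units.map (hDd (rM p B G e) (rM_s e)).toMonoidHom

private theorem pr_rDt (e : Y ≃ Y') :
    (prU (shM p B G Y')).comp (rDt p B G e) = (rDd p B G e).comp (prU (shM p B G Y)) := rfl

private theorem eta_rx (hB : GoodB p B) (e : Y ≃ Y') :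
    (eta hB).comp (rxU (A := MonoidAlgebra B G) e) = (rDd p B G e).comp (eta hB) := by
  refine MonoidHom.ext fun U => Units.ext (Subtype.ext (Prod.ext ?_ ?_))
  · exact (rM_tp e U.val).symm
  · exact (rM_be e U.val).symm

private theorem j_rDt (e : Y ≃ Y') :
    (jU p B G Y').comp (rDt p B G e) = (rxU (A := MonoidAlgebra B (Wr p G)) (eE p e)).comp (jU p B G Y) := by
  refine MonoidHom.ext fun X => Units.ext ?_
  ext1 v w
  show jR p B G Y' (hDt (rM p B G e) (rM_s e) X.val) v w = jR p B G Y X.val (fun i => e.symm (v i)) fun i => e.symm (w i)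
  rw [jR_apply, jR_apply]
  rfl

theorem th_equiv (hB : GoodB p B) (e : Y ≃ Y') (x : HG (Matrix Y Y (MonoidAlgebra B G))ˣ n) :
    th Y' hB (HG.map n (rxU (A := MonoidAlgebra B G) e) x) = th Y hB x := by
  have hph : ∀ x, phD Y' (HG.map n (rDt p B G e) x) = phD Y x := by
    intro x
    show toTV p B G n (clX (MonoidAlgebra B (Wr p G)) n (ZMod p → Y') (HG.map n (jU p B G Y') (HG.map n (rDt p B G e) x))) =
      toTV p B G n (clX (MonoidAlgebra B (Wr p G)) n (ZMod p → Y) (HG.map n (jU p B G Y) x))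
    rw [HG.map_map, j_rDt, ← HG.map_map, clX_equiv]
  obtain ⟨t, ht⟩ := ckill_eta (G := G) (Y := Y) hB
  have hps : (psD Y' hB).comp (HG.map n (rDd p B G e)) = psD Y hB := by
    refine descend_unique ht _ _ fun x => ?_
    rw [AddMonoidHom.comp_apply, HG.map_map, ← pr_rDt, ← HG.map_map, psD_map, psD_map, hph]
  rw [th_apply, th_apply, HG.map_map, eta_rx, ← HG.map_map, ← hps]
  rfl

end

end Pool.Agent.H71.CZ
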