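import Pool.Agent.H71.CZ.BlkD
import Pool.Agent.H71.CZ.ThE

/-!
# Project CZ: the map `Θ : KQ (B[G]) n → ℚ ⊗ (KQ (B[G ≀ C_p]) n / image of KQ (B[G^p]) n)`

PROOF.  `KQ.lift` of `fun N => th (Fin N) hB`; the relation: `blk N M A = rxU finSumFinEquiv ∘ blkX`, `th_equiv`, `th_blk`.
`Theta_clX`: `clX_eq`, `KQ.lift_cls`, `th_equiv`.
-/

set_option autoImplicit false

open Matrix

universe u v w

namespace Pool.Agent.H71.CZ

open Pool.Agent.H71.FQ

section

variable {p : ℕ} [hp : Fact p.Prime] {B : Type} [CommRing B] {G : Type v} [Group G] {n : ℕ}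

theorem th_rel (hB : GoodB p B) (N M : ℕ)
    (w : HG (GLm N (MonoidAlgebra B G) × GLm M (MonoidAlgebra B G)) n) :
    th (Fin (N + M)) hB (HG.map n (blk N M (MonoidAlgebra B G)) w) =
      th (Fin N) hB (HG.map n
        (MonoidHom.fst (GLm N (MonoidAlgebra B G)) (GLm M (MonoidAlgebra B G))) w) +
      th (Fin M) hB (HG.map n
        (MonoidHom.snd (GLm N (MonoidAlgebra B G)) (GLm M (MonoidAlgebra B G))) w) := by
  have h : blk N M (MonoidAlgebra B G) = (rxU (A := MonoidAlgebra B G) finSumFinEquiv).comp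
      (blkX (A := MonoidAlgebra B G) (X := Fin N) (Y := Fin M)) :=
    MonoidHom.ext fun w => Units.ext rfl
  rw [h, ← HG.map_map, th_equiv]
  exact th_blk hB w

variable (p B G n) in
/-- **The map `Θ`.** -/
noncomputable def Theta (hB : GoodB p B) : KQ (MonoidAlgebra B G) n →+ TV p B G n :=
  KQ.lift (fun N => th (Fin N) hB) (th_rel hB)

theorem Theta_clX (hB : GoodB p B) (Y : Type) [Fintype Y] [DecidableEq Y]
    (x : HG (Matrix Y Y (MonoidAlgebra B G))ˣ n) :
    Theta p B G n hB (clX _ n Y x) = th Y hB x := by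
  have h : Theta p B G n hB (KQ.cls _ n (Fintype.card Y)
      (HG.map n (rxU (A := MonoidAlgebra B G) (Fintype.equivFin Y)) x)) =
      th (Fin (Fintype.card Y)) hB
        (HG.map n (rxU (A := MonoidAlgebra B G) (Fintype.equivFin Y)) x) :=
    KQ.lift_cls _ _ _ _
  rw [clX_eq (Fintype.equivFin Y) x, h, th_equiv]

/-- **The value of `Θ` on a class which lifts to `D~^×`.** -/
theorem Theta_lift (hB : GoodB p B) (Y : Type) [Fintype Y] [DecidableEq Y] {Γ : Type w} [Group Γ]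
    (ρ : Γ →* (Matrix Y Y (MonoidAlgebra B G))ˣ) (ρ' : Γ →* (Dt (shM p B G Y))ˣ)
    (h : ∀ γ, prU (shM p B G Y) (ρ' γ) = eta hB (ρ γ)) (x : HG Γ n) :
    Theta p B G n hB (clX _ n Y (HG.map n ρ x)) =
      toTV p B G n (clX _ n (ZMod p → Y) (HG.map n ((jU p B G Y).comp ρ') x)) := by
  have h1 : (eta hB).comp ρ = (prU (shM p B G Y)).comp ρ' := MonoidHom.ext fun γ => (h γ).symm
  rw [Theta_clX, th_apply, HG.map_map, h1, ← HG.map_map, psD_map]
  show toTV p B G n (clX _ n (ZMod p → Y) (HG.map n (jU p B G Y) (HG.map n ρ' x))) = _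
  rw [HG.map_map]

end

end Pool.Agent.H71.CZ
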