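import Pool.Agent.H71.CZ.Eta

/-!
# Project CZ: the lift of a unit of the group ring of a finite abelian group and its trace at `hat c`

`D` a finite abelian group, `u` a unit of `B[D]`; `Y = Fin 1`, so `ZMod p → Fin 1` has one element.

PROOF of `exists_uD`: `x = tpM u - beM u` is invariant under the shift and all its coefficients are divisible by `p ^ 4` (`tp` of
`1 + p ^ 4 a` minus `1`: multilinearity), `x = p ^ 4 y`, `y` invariant (`B` torsion free), `p y = nm z` by `exists_nm`, so
`x = nm (p ^ 3 z)`.  The element `mkD (beM u) (p ^ 3 z)` is above the unit `eta u`, so it is a unit (`isUnit_lift`), and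
`jR` of it is `1 + p ^ 2 (..)`.
PROOF of `trace_hat`: `X = uD ^ k`, `b = X 1 1 = beM (u ^ k) = dgM (u ^ k)` (one index, which is constant), `b + nm z = tpM (u ^ k)`, `z = X 1 0`.
The coefficient of `jR X` at `inc h * sg` is the coefficient of `z` at `h` (`jR_apply`, term `j = 1`).  `ε_d (z) = ∑_{pr0 h = d} z_h` satisfies
`ε_d (nm z) = p ε_d z` (`pr0 (shG h) = pr0 h` as `D` is abelian), `ε_d (tpM v) = (v ^ p)_d`, `ε_d (dgM v) = ∑_{g ^ p = d} v_g`.
-/

set_option autoImplicit false

open Matrix

universe u v w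

namespace Pool.Agent.H71.CZ

section

variable {p : ℕ} [hp : Fact p.Prime] {B : Type u} [CommRing B] {D : Type v} [Group D]

/-- the `1 × 1` matrix of a unit -/
noncomputable def sc1 {R : Type*} [Ring R] (w : Rˣ) : (Matrix (Fin 1) (Fin 1) R)ˣ :=
  Units.map (Matrix.scalar (Fin 1)).toMonoidHom w

private theorem natCast_mul' {X : Type*} [Group X] (n : ℕ) (a : MonoidAlgebra B X) :
    (n : MonoidAlgebra B X) * a = (n : B) • a := by
  rw [← nsmul_eq_mul, Nat.cast_smul_eq_nsmul]

private theorem tp_congr {I : Type*} [Fintype I] [DecidableEq I] (c : B) (a : MonoidAlgebra B D)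
    (s : Finset I) :
    ∃ t : MonoidAlgebra B (I → D), tp (fun i : I => if i ∈ s then 1 + c • a else 1) =
      1 + c • t := by
  induction s using Finset.induction_on with
  | empty =>
    refine ⟨0, ?_⟩
    rw [smul_zero, add_zero, ← tp_one]
    congr 1
  | insert i s hi ih =>
    obtain ⟨t, ht⟩ := ih
    set m : I → MonoidAlgebra B D := fun i => if i ∈ s then 1 + c • a else 1 with hm
    have e1 : (fun j : I => if j ∈ insert i s then 1 + c • a else (1 : MonoidAlgebra B D)) =
        Function.update m i (1 + c • a) := by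
      funext j
      by_cases hj : j = i
      · subst hj
        rw [Function.update_self, if_pos (Finset.mem_insert_self _ _)]
      · rw [Function.update_of_ne hj, hm]
        simp only [Finset.mem_insert, hj, false_or]
    have e2 : Function.update m i 1 = m := by
      rw [Function.update_eq_self_iff, hm]
      simp only [hi, if_false]
    have h1 := (tpL (B := B) (G := D) (I := I)).map_update_add m i 1 (c • a)
    have h2 := (tpL (B := B) (G := D) (I := I)).map_update_smul m i c a
    rw [h2, e2, tpL_apply, tpL_apply, tpL_apply, ht] at h1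
    refine ⟨t + tp (Function.update m i a), ?_⟩
    rw [e1, h1, smul_add]
    abel

private theorem dgM_zero (U : Matrix (Fin 1) (Fin 1) (MonoidAlgebra B D)) (v w : ZMod p → Fin 1) :
    (dgM U : MM p B D (Fin 1)) v w = MonoidAlgebra.mapDomainRingHom B (dgG p D) (U 0 0) := by
  rw [dgM, if_pos ⟨fun _ => Subsingleton.elim _ _, fun _ => Subsingleton.elim _ _⟩]
  congr 2
  · exact Subsingleton.elim _ _
  · exact Subsingleton.elim _ _

private theorem beM_zero (U : Matrix (Fin 1) (Fin 1) (MonoidAlgebra B D)) (v w : ZMod p → Fin 1) :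
    (beM U : MM p B D (Fin 1)) v w = MonoidAlgebra.mapDomainRingHom B (dgG p D) (U 0 0) := by
  have hvw : v = w := Subsingleton.elim _ _
  rw [beM_apply, Matrix.add_apply, Matrix.sub_apply, dgM_zero, dgM_zero, hvw, Matrix.one_apply_eq,
    Matrix.one_apply_eq, map_one, sub_self, zero_add]

private theorem tpM_zero (U : Matrix (Fin 1) (Fin 1) (MonoidAlgebra B D)) (v w : ZMod p → Fin 1) :
    (tpM U : MM p B D (Fin 1)) v w = tp fun _ => U 0 0 := by
  rw [tpM_apply]
  congr 1
  funext i
  congr 1
  · exact Subsingleton.elim _ _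
  · exact Subsingleton.elim _ _

private theorem sc1_zero {R : Type*} [Ring R] (w : Rˣ) : (sc1 w).val 0 0 = (w : R) := by
  show Matrix.scalar (Fin 1) (w : R) 0 0 = w
  simp

omit hp in
private theorem mm_tf (hB : GoodB p B) {n : ℕ} (hn : n ≠ 0) {m : MM p B D (Fin 1)}
    (h : n • m = 0) : m = 0 := by
  funext v w
  refine MonoidAlgebra.coeff_injective (Finsupp.ext fun g => ?_)
  have h1 : ((n • m) v w).coeff g = ((0 : MM p B D (Fin 1)) v w).coeff g := by rw [h]
  rw [Matrix.smul_apply, MonoidAlgebra.coeff_smul, Finsupp.smul_apply, nsmul_eq_mul,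
    Matrix.zero_apply, MonoidAlgebra.coeff_zero, Finsupp.zero_apply] at h1
  rw [Matrix.zero_apply, MonoidAlgebra.coeff_zero, Finsupp.zero_apply]
  exact hB.tf _ n hn h1

/-- **The lift.** -/
theorem exists_uD (hB : GoodB p B) (u : (MonoidAlgebra B D)ˣ) (a : MonoidAlgebra B D)
    (hu : (u : MonoidAlgebra B D) = 1 + (p : MonoidAlgebra B D) ^ 4 * a) :
    ∃ uD : (Dt (shM p B D (Fin 1)))ˣ, prU (shM p B D (Fin 1)) uD = eta hB (sc1 u) ∧
      ∃ X : Matrix (ZMod p → Fin 1) (ZMod p → Fin 1) (MonoidAlgebra B (Wr p D)),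
        (jU p B D (Fin 1) uD).val = 1 + ((p : B) ^ 2) • X := by
  classical
  have hp0 : p ≠ 0 := hp.out.ne_zero
  have hu' : (u : MonoidAlgebra B D) = 1 + ((p ^ 4 : ℕ) : B) • a := by
    rw [hu, ← natCast_mul', Nat.cast_pow]
  set U : Matrix (Fin 1) (Fin 1) (MonoidAlgebra B D) := (sc1 u).val with hU
  have hU0 : U 0 0 = 1 + ((p ^ 4 : ℕ) : B) • a := by rw [hU, sc1_zero, hu']
  obtain ⟨t, ht⟩ := tp_congr (D := D) ((p ^ 4 : ℕ) : B) a (Finset.univ : Finset (ZMod p))
  simp only [Finset.mem_univ, if_true] at ht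
  set a' : MonoidAlgebra B (ZMod p → D) := MonoidAlgebra.mapDomainRingHom B (dgG p D) a with ha'
  set Y' : MM p B D (Fin 1) := fun _ _ => a' with hY'
  set Y : MM p B D (Fin 1) := fun _ _ => t - a' with hY
  have hsm : ∀ (n : ℕ) (x : MonoidAlgebra B D), MonoidAlgebra.mapDomainRingHom B (dgG p D)
      ((n : B) • x) = (n : B) • MonoidAlgebra.mapDomainRingHom B (dgG p D) x := by
    intro n x
    rw [← natCast_mul', map_mul, map_natCast, natCast_mul']
  have hbe : ∀ v w, (beM U : MM p B D (Fin 1)) v w = 1 + ((p ^ 4 : ℕ) : B) • a' := by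
    intro v w
    rw [beM_zero, hU0, map_add, map_one, hsm]
  have hone : ∀ v w : ZMod p → Fin 1, (1 : MM p B D (Fin 1)) v w = 1 := by
    intro v w
    rw [Subsingleton.elim v w, Matrix.one_apply_eq]
  have hbeM : (beM U : MM p B D (Fin 1)) = 1 + (p ^ 4) • Y' := by
    funext v w
    rw [hbe, Matrix.add_apply, Matrix.smul_apply, hone, Nat.cast_smul_eq_nsmul]
  have hx : (tpM U : MM p B D (Fin 1)) = beM U + (p ^ 4) • Y := by
    funext v w
    rw [Matrix.add_apply, Matrix.smul_apply, hbe, tpM_zero, hU0, ht]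
    show 1 + ((p ^ 4 : ℕ) : B) • t = 1 + ((p ^ 4 : ℕ) : B) • a' + (p ^ 4) • (t - a')
    rw [← Nat.cast_smul_eq_nsmul B, smul_sub]
    abel
  have hsY : sM p B D (Fin 1) Y = Y := by
    have h1 : (p ^ 4) • (sM p B D (Fin 1) Y - Y) = 0 := by
      have h2 : (p ^ 4) • Y = (tpM U : MM p B D (Fin 1)) - beM U := by
        rw [hx, add_sub_cancel_left]
      rw [nsmul_sub, ← map_nsmul, h2, map_sub, s_tpM, s_beM, sub_self]
    exact sub_eq_zero.1 (mm_tf hB (pow_ne_zero 4 hp0) h1)
  obtain ⟨z, hz⟩ := exists_nm (p • Y) (by rw [map_nsmul, hsY]) (by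
    intro y y' g
    refine ⟨(Y (fun _ => y) (fun _ => y')).coeff fun _ => g, ?_⟩
    rw [Matrix.smul_apply, MonoidAlgebra.coeff_smul, Finsupp.smul_apply, nsmul_eq_mul])
  have hxz : (tpM U : MM p B D (Fin 1)) = beM U + (shM p B D (Fin 1)).nm (p ^ 3 • z) := by
    rw [hx, map_nsmul, ← hz, smul_smul, ← pow_succ]
  set X : Dt (shM p B D (Fin 1)) := mkD (shM p B D (Fin 1)) (beM U) (p ^ 3 • z) (s_beM U) with hX
  have hpr : prD (shM p B D (Fin 1)) X = (eta hB (sc1 u)).val := by
    refine Subtype.ext (Prod.ext ?_ ?_)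
    · exact hxz.symm
    · rfl
  have hunit : IsUnit X := isUnit_lift _ X (by rw [hpr]; exact Units.isUnit _)
  refine ⟨hunit.unit, Units.ext hpr, ?_⟩
  refine ⟨((p : B) ^ 2) • iS p B D (Fin 1) Y' +
    (p : B) • (iS p B D (Fin 1) z * ∑ j ∈ Finset.range p, piS p B D (Fin 1) ^ j), ?_⟩
  have h1 : (jU p B D (Fin 1) hunit.unit).val = iS p B D (Fin 1) (beM U) +
      iS p B D (Fin 1) (p ^ 3 • z) * ∑ j ∈ Finset.range p, piS p B D (Fin 1) ^ j := rfl
  rw [h1, hbeM, map_add, map_one, map_nsmul, map_nsmul, smul_mul_assoc, smul_add, smul_smul,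
    smul_smul, add_assoc, ← Nat.cast_smul_eq_nsmul B, ← Nat.cast_smul_eq_nsmul B, ← pow_add,
    ← pow_succ, Nat.cast_pow, Nat.cast_pow]

private theorem eps_map {X Y : Type*} [Group X] [Group Y] [Fintype X] [Fintype Y] (f : X →* Y)
    (P : Y → Prop) [DecidablePred P] (w : MonoidAlgebra B X) :
    ∑ y : Y with P y, (MonoidAlgebra.mapDomainRingHom B f w).coeff y =
      ∑ x : X with P (f x), w.coeff x := by
  classical
  induction w using MonoidAlgebra.induction_linear with
  | zero => simp
  | add a b ha hb =>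
    simp only [map_add, MonoidAlgebra.coeff_add, Finsupp.add_apply, Finset.sum_add_distrib, ha, hb]
  | single a b =>
    have e1 : MonoidAlgebra.mapDomainRingHom B f (MonoidAlgebra.single a b) =
        MonoidAlgebra.single (f a) b := by
      simp
    rw [e1, Finset.sum_filter, Finset.sum_filter]
    simp only [MonoidAlgebra.coeff_single, Finsupp.single_apply]
    have e2 : ∀ y : Y, (if P y then if f a = y then b else 0 else 0) =
        if f a = y then (if P (f a) then b else 0) else 0 := by
      intro y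
      by_cases h : f a = y
      · subst h
        simp
      · simp [h]
    have e3 : ∀ x : X, (if P (f x) then if a = x then b else 0 else 0) =
        if a = x then (if P (f a) then b else 0) else 0 := by
      intro x
      by_cases h : a = x
      · subst h
        simp
      · simp [h]
    rw [Finset.sum_congr rfl fun y _ => e2 y, Finset.sum_congr rfl fun x _ => e3 x,
      Finset.sum_ite_eq, Finset.sum_ite_eq]
    simp

open Classical in
private theorem pow_coeff [Fintype D] (w : MonoidAlgebra B D) (n : ℕ) (d : D) :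
    (w ^ n).coeff d = ∑ g : Fin n → D with (List.ofFn g).prod = d, ∏ i, w.coeff (g i) := by
  induction n generalizing d with
  | zero =>
    rw [pow_zero, MonoidAlgebra.one_def, MonoidAlgebra.coeff_single, Finsupp.single_apply,
      Finset.sum_filter, Fintype.sum_unique]
    simp
  | succ n ih =>
    rw [pow_succ', MonoidAlgebra.coeff_mul_apply_left, Finsupp.sum_fintype _ _ (by simp),
      Finset.sum_filter, ← Equiv.sum_comp (Fin.consEquiv fun _ : Fin (n + 1) => D),
      Fintype.sum_prod_type]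
    refine Finset.sum_congr rfl fun a _ => ?_
    rw [ih, Finset.sum_filter, Finset.mul_sum]
    refine Finset.sum_congr rfl fun g _ => ?_
    have e1 : (Fin.consEquiv fun _ : Fin (n + 1) => D) (a, g) = Fin.cons a g := rfl
    rw [e1, List.ofFn_succ, List.prod_cons, Fin.prod_univ_succ]
    simp only [Fin.cons_zero, Fin.cons_succ]
    by_cases h : a * (List.ofFn g).prod = d
    · have h2 : (List.ofFn g).prod = a⁻¹ * d := by rw [← h, inv_mul_cancel_left]
      rw [if_pos h, if_pos h2]
    · have h2 : ¬ (List.ofFn g).prod = a⁻¹ * d := fun h2 => h (by rw [h2, mul_inv_cancel_left])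
      rw [if_neg h, if_neg h2, mul_zero]

/-- the residues -/
private def zE : Fin p ≃ ZMod p where
  toFun j := ((j : ℕ) : ZMod p)
  invFun a := ⟨a.val, ZMod.val_lt a⟩
  left_inv j := Fin.ext (ZMod.val_cast_of_lt j.2)
  right_inv a := ZMod.natCast_zmod_val a

private theorem pr0_shG (hD : ∀ a b : D, a * b = b * a) (g : ZMod p → D) :
    pr0 (shG p D g) = pr0 g := by
  have h1 : (List.ofFn fun j : Fin p => shG p D g ((j : ℕ) : ZMod p)).Perm
      (List.ofFn fun j : Fin p => g ((j : ℕ) : ZMod p)) := by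
    have h2 := Equiv.Perm.ofFn_comp_perm ((zE (p := p)).trans ((Equiv.addRight (1 : ZMod p)).trans
      zE.symm)) fun j : Fin p => g ((j : ℕ) : ZMod p)
    have e : ((fun j : Fin p => g ((j : ℕ) : ZMod p)) ∘ ((zE (p := p)).trans
        ((Equiv.addRight (1 : ZMod p)).trans zE.symm))) =
        fun j : Fin p => shG p D g ((j : ℕ) : ZMod p) := by
      funext j
      show g (zE (zE.symm (((j : ℕ) : ZMod p) + 1))) = g (((j : ℕ) : ZMod p) + 1)
      rw [Equiv.apply_symm_apply]
    rw [e] at h2
    exact h2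
  exact h1.prod_eq' (List.pairwise_of_forall fun a b => hD a b)

open Classical in
/-- the coefficients of the tensor power -/
private theorem eps_tp [Fintype D] (w : MonoidAlgebra B D) (d : D) :
    ∑ g : ZMod p → D with pr0 g = d, (tp fun _ : ZMod p => w).coeff g = (w ^ p).coeff d := by
  rw [pow_coeff, Finset.sum_filter, Finset.sum_filter]
  refine Fintype.sum_equiv ((zE (p := p)).symm.arrowCongr (Equiv.refl D)) _ _ fun g => ?_
  have h1 : (List.ofFn (((zE (p := p)).symm.arrowCongr (Equiv.refl D)) g)).prod = pr0 g := rfl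
  have h2 : ∏ i, w.coeff ((((zE (p := p)).symm.arrowCongr (Equiv.refl D)) g) i) =
      (tp fun _ : ZMod p => w).coeff g := by
    rw [tp_coeff]
    exact Equiv.prod_comp (zE (p := p)) fun i => w.coeff (g i)
  rw [h1, h2]

open Classical in
/-- **The trace of the lift.** -/
theorem trace_hat [Fintype D] (hD : ∀ a b : D, a * b = b * a) (hB : GoodB p B)
    (u : (MonoidAlgebra B D)ˣ) (uD : (Dt (shM p B D (Fin 1)))ˣ)
    (h : prU (shM p B D (Fin 1)) uD = eta hB (sc1 u)) (k : ℕ) (d : D) :
    (p : B) * ∑ g : ZMod p → D with pr0 g = d,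
        ((jU p B D (Fin 1) (uD ^ k)).val 0 0).coeff (inc p D g * sg p D) =
      (((u : MonoidAlgebra B D) ^ k) ^ p).coeff d -
        ∑ g : D with g ^ p = d, ((u : MonoidAlgebra B D) ^ k).coeff g := by
  set X : Dt (shM p B D (Fin 1)) := ((uD ^ k : (Dt (shM p B D (Fin 1)))ˣ) :
    Dt (shM p B D (Fin 1))) with hX
  set w : MonoidAlgebra B D := (u : MonoidAlgebra B D) ^ k with hw
  have hpr : prD (shM p B D (Fin 1)) X = (eta hB (sc1 (u ^ k))).val := by
    have h1 : prU (shM p B D (Fin 1)) (uD ^ k) = eta hB (sc1 (u ^ k)) := by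
      have h2 : sc1 (u ^ k) = (sc1 u) ^ k := map_pow _ u k
      rw [map_pow, h, h2, map_pow]
    exact congrArg Units.val h1
  have h00 : X.1 0 0 = tpM (sc1 (u ^ k)).val := by
    rw [← prD_fst, hpr, eta_fst]
  have h11 : X.1 1 1 = beM (sc1 (u ^ k)).val := by
    rw [← prD_snd, hpr, eta_snd]
  have hnm : X.1 0 0 = X.1 1 1 + (shM p B D (Fin 1)).nm (X.1 1 0) := X.2.2.2
  have hw0 : (sc1 (u ^ k)).val 0 0 = w := by
    rw [sc1_zero, Units.val_pow_eq_pow_val]
  -- the functional
  obtain ⟨ε, hε⟩ : ∃ ε : MM p B D (Fin 1) →+ B, ∀ m, ε m =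
      ∑ g : ZMod p → D with pr0 g = d, (m 0 0).coeff g := by
    refine ⟨⟨⟨fun m => ∑ g : ZMod p → D with pr0 g = d, (m 0 0).coeff g, ?_⟩, ?_⟩, fun _ => rfl⟩
    · simp
    · intro m n
      simp only [Matrix.add_apply, MonoidAlgebra.coeff_add, Finsupp.add_apply,
        Finset.sum_add_distrib]
  have hs : ∀ m, ε (sM p B D (Fin 1) m) = ε m := by
    intro m
    rw [hε, hε, sM_apply]
    have e := eps_map (shG p D) (fun g => pr0 g = d)
      (m (fun i => (0 : ZMod p → Fin 1) (i - 1)) fun i => (0 : ZMod p → Fin 1) (i - 1))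
    rw [e]
    simp only [pr0_shG hD]
    rfl
  have hsj : ∀ (j : ℕ) (m : MM p B D (Fin 1)),
      ε (((shM p B D (Fin 1)).s : MM p B D (Fin 1) → MM p B D (Fin 1))^[j] m) = ε m := by
    intro j
    induction j with
    | zero => intro m; rfl
    | succ j ih =>
      intro m
      rw [Function.iterate_succ_apply, ih]
      exact hs m
  have hεn : ∀ m, ε ((shM p B D (Fin 1)).nm m) = (p : B) * ε m := by
    intro m
    rw [Sh.nm_apply, map_sum, Finset.sum_congr rfl fun j _ => hsj j m, Finset.sum_const,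
      Finset.card_range, nsmul_eq_mul]
  -- the coefficients of the image
  have hcoef : ∀ g : ZMod p → D,
      ((jU p B D (Fin 1) (uD ^ k)).val 0 0).coeff (inc p D g * sg p D) =
        (X.1 1 0 0 0).coeff g := by
    intro g
    have h1 : (jU p B D (Fin 1) (uD ^ k)).val = jR p B D (Fin 1) X := rfl
    have hz : ∀ j : ℕ, (fun i : ZMod p => (0 : ZMod p → Fin 1) (i + (j : ZMod p))) = 0 :=
      fun j => rfl
    have hnot : ∀ (A : MonoidAlgebra B (ZMod p → D)) (x : Wr p D), (∀ g', inc p D g' ≠ x) →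
        (MonoidAlgebra.mapDomainRingHom B (inc p D) A).coeff x = 0 := by
      intro A x hx
      refine Finsupp.mapDomain_of_notMem_range A.coeff x ?_
      rintro ⟨g', hg'⟩
      exact hx g' hg'
    have hyes : ∀ (A : MonoidAlgebra B (ZMod p → D)),
        (MonoidAlgebra.mapDomainRingHom B (inc p D) A).coeff (inc p D g) = A.coeff g :=
      fun A => Finsupp.mapDomain_apply inc_injective A.coeff g
    have hright : ∀ j : ℕ, SemidirectProduct.rightHom (sg p D ^ j) =
        Multiplicative.ofAdd (j : ZMod p) := by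
      intro j
      have h2 := right_inc_sg (1 : ZMod p → D) j
      rwa [map_one, one_mul] at h2
    rw [h1, jR_apply, MonoidAlgebra.coeff_add, Finsupp.add_apply, MonoidAlgebra.coeff_sum,
      Finsupp.finsetSum_apply]
    simp only [hz, MonoidAlgebra.coeff_mul_single_apply, mul_one]
    rw [hnot _ _ (fun g' hg' => by
      have h2 := inc_sg_notMem g 1 one_ne_zero hp.out.one_lt g'
      rw [pow_one] at h2
      exact h2 hg'.symm), zero_add, Finset.sum_eq_single 1]
    · rw [pow_one, mul_inv_cancel_right, hyes]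
    · intro j hj hj1
      refine hnot _ _ fun g' hg' => hj1 ?_
      have h2 := congrArg SemidirectProduct.rightHom hg'
      have h3 := right_inc_sg g 1
      rw [pow_one] at h3
      rw [right_inc, map_mul, h3, map_inv, hright, eq_mul_inv_iff_mul_eq, one_mul] at h2
      have h4 : (j : ZMod p) = ((1 : ℕ) : ZMod p) := congrArg Multiplicative.toAdd h2
      have h5 := congrArg ZMod.val h4
      rwa [ZMod.val_natCast, ZMod.val_natCast, Nat.mod_eq_of_lt (Finset.mem_range.1 hj),
        Nat.mod_eq_of_lt hp.out.one_lt] at h5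
    · intro hn
      exact absurd (Finset.mem_range.2 hp.out.one_lt) hn
  rw [Finset.sum_congr rfl fun g _ => hcoef g]
  have h2 : (p : B) * ∑ g : ZMod p → D with pr0 g = d, (X.1 1 0 0 0).coeff g =
      ε (X.1 0 0) - ε (X.1 1 1) := by
    rw [hnm, map_add, add_sub_cancel_left, hεn, hε]
  rw [h2, h00, h11, hε, hε, tpM_zero, beM_zero, hw0, eps_tp]
  congr 1
  rw [eps_map (dgG p D) (fun g => pr0 g = d) w]
  have h3 : ∀ g : D, pr0 (dgG p D g) = g ^ p := by
    intro g
    show (List.ofFn fun _ : Fin p => g).prod = g ^ p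
    rw [List.ofFn_const, List.prod_replicate]
  simp only [h3]

end

end Pool.Agent.H71.CZ
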