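import Pool.Agent.H71.CZ.TrW
import Pool.Agent.H39.CZ.HatA

/-!
# Project CZ: functoriality in the group

PROOFS.  `Dt.mapR`: a ring homomorphism commuting with the endomorphisms `s` commutes with the norms, apply it to the entries.
`prU_DtG`: `tpM (mapG U) = mG (tpM U)`, `dgM (mapG U) = mG (dgM U)` (`tp` is multiplicative under homomorphisms of groups, `dgG` is natural).
`jR_DtG`: `jR_apply`, `WrMap (inc h) = inc (f ∘ h)`, `WrMap sg = sg`.
-/

set_option autoImplicit false

open Matrix

universe u v w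

namespace Pool.Agent.H71.CZ

open Pool.Agent.H39.CZ (hatS mem_hatS)

section

variable {p : ℕ} {M : Type u} [Ring M] (σ : Sh p M) {M' : Type v} [Ring M'] (σ' : Sh p M')

private theorem nm_map (f : M →+* M') (hf : ∀ x, f (σ.s x) = σ'.s (f x)) (z : M) :
    σ'.nm (f z) = f (σ.nm z) := by
  rw [Sh.nm_apply, Sh.nm_apply, map_sum]
  refine Finset.sum_congr rfl fun j hj => ?_
  clear hj
  induction j with
  | zero => rfl
  | succ j ih => rw [Function.iterate_succ_apply', Function.iterate_succ_apply', ih, hf]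

/-- the homomorphism of the rings `D~` -/
def Dt.mapR (f : M →+* M') (hf : ∀ x, f (σ.s x) = σ'.s (f x)) : Dt σ →+* Dt σ' where
  toFun X := ⟨f.mapMatrix X.1, by
    obtain ⟨h1, h2, h3⟩ := X.2
    refine ⟨?_, ?_, ?_⟩
    · show f (X.1 0 1) = 0
      rw [h1, map_zero]
    · show σ'.s (f (X.1 1 1)) = f (X.1 1 1)
      rw [← hf, h2]
    · show f (X.1 0 0) = f (X.1 1 1) + σ'.nm (f (X.1 1 0))
      rw [nm_map σ σ' f hf, ← map_add, h3]⟩
  map_one' := Subtype.ext (map_one f.mapMatrix)
  map_mul' X Y := Subtype.ext (map_mul f.mapMatrix X.1 Y.1)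
  map_zero' := Subtype.ext (map_zero f.mapMatrix)
  map_add' X Y := Subtype.ext (map_add f.mapMatrix X.1 Y.1)

theorem Dt.mapR_apply (f : M →+* M') (hf : ∀ x, f (σ.s x) = σ'.s (f x)) (X : Dt σ)
    (i j : Fin 2) : (Dt.mapR σ σ' f hf X).1 i j = f (X.1 i j) := rfl

end

section

variable {p : ℕ} [hp : Fact p.Prime] {B : Type} [CommRing B] {H : Type u} [Group H] {G : Type v}
  [Group G]

/-- the homomorphism of the powers -/
def piG (f : H →* G) : (ZMod p → H) →* (ZMod p → G) where
  toFun h i := f (h i)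
  map_one' := funext fun _ => map_one f
  map_mul' _ _ := funext fun _ => map_mul f _ _

variable (p) in
/-- the homomorphism of the wreath products -/
def WrMap (f : H →* G) : Wr p H →* Wr p G where
  toFun x := ⟨fun i => f (x.left i), x.right⟩
  map_one' := SemidirectProduct.ext (funext fun _ => map_one f) rfl
  map_mul' x y := SemidirectProduct.ext (funext fun i => map_mul f (x.left i) (y.left (i + x.right.toAdd))) rfl

theorem WrMap_inc (f : H →* G) (h : ZMod p → H) :
    WrMap p f (inc p H h) = inc p G fun i => f (h i) := rfl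

theorem WrMap_sg (f : H →* G) : WrMap p f (sg p H) = sg p G :=
  SemidirectProduct.ext (funext fun _ => map_one f) rfl

theorem WrMap_injective {f : H →* G} (hf : Function.Injective f) :
    Function.Injective (WrMap p f) := by
  intro x y h
  refine SemidirectProduct.ext (funext fun i => hf ?_) ?_
  · exact congrFun (congrArg (fun z : Wr p G => z.left) h) i
  · exact congrArg (fun z : Wr p G => z.right) h

variable (B) (Y : Type) [Fintype Y] [DecidableEq Y]

/-- the homomorphism of the matrix rings -/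
noncomputable def mG (f : H →* G) : MM p B H Y →+* MM p B G Y :=
  (MonoidAlgebra.mapDomainRingHom B (piG (p := p) f)).mapMatrix

theorem mG_apply (f : H →* G) (x : MM p B H Y) (v w : ZMod p → Y) :
    mG B Y f x v w = MonoidAlgebra.mapDomainRingHom B (piG (p := p) f) (x v w) := rfl

theorem mG_s (f : H →* G) (x : MM p B H Y) :
    mG B Y f ((shM p B H Y).s x) = (shM p B G Y).s (mG B Y f x) := by
  ext1 v w
  show MonoidAlgebra.mapDomainRingHom B (piG (p := p) f)
      (MonoidAlgebra.mapDomainRingHom B (shG p H) (x (fun i => v (i - 1)) fun i => w (i - 1))) =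
    MonoidAlgebra.mapDomainRingHom B (shG p G)
      (MonoidAlgebra.mapDomainRingHom B (piG (p := p) f) (x (fun i => v (i - 1)) fun i => w (i - 1)))
  rw [← RingHom.comp_apply, ← RingHom.comp_apply, ← MonoidAlgebra.mapDomainRingHom_comp, ← MonoidAlgebra.mapDomainRingHom_comp]
  rfl

theorem mG_tpM (f : H →* G) (U : Matrix Y Y (MonoidAlgebra B H)) :
    mG B Y f (tpM U : MM p B H Y) = tpM (U.map (MonoidAlgebra.mapDomainRingHom B f)) := by
  ext1 v w
  rw [mG_apply, tpM_apply, tpM_apply]
  exact tp_map f _ _ fun _ _ => rfl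

theorem mG_dgM (f : H →* G) (U : Matrix Y Y (MonoidAlgebra B H)) :
    mG B Y f (dgM U : MM p B H Y) = dgM (U.map (MonoidAlgebra.mapDomainRingHom B f)) := by
  ext1 v w
  rw [mG_apply]
  unfold dgM
  by_cases h : (∀ i, v i = v 0) ∧ ∀ i, w i = w 0
  · rw [if_pos h, if_pos h]
    show MonoidAlgebra.mapDomainRingHom B (piG (p := p) f) (MonoidAlgebra.mapDomainRingHom B (dgG p H) (U (v 0) (w 0))) =
      MonoidAlgebra.mapDomainRingHom B (dgG p G) (MonoidAlgebra.mapDomainRingHom B f (U (v 0) (w 0)))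
    rw [← RingHom.comp_apply, ← RingHom.comp_apply, ← MonoidAlgebra.mapDomainRingHom_comp, ← MonoidAlgebra.mapDomainRingHom_comp]
    rfl
  · rw [if_neg h, if_neg h, map_zero]

theorem mG_beM (f : H →* G) (U : Matrix Y Y (MonoidAlgebra B H)) :
    mG B Y f (beM U : MM p B H Y) = beM (U.map (MonoidAlgebra.mapDomainRingHom B f)) := by
  rw [beM_apply, beM_apply, map_add, map_sub, map_one, mG_dgM, mG_dgM, Matrix.map_one _ (map_zero _) (map_one _)]

/-- the homomorphism of the groups `D~^×` -/
noncomputable def DtG (f : H →* G) : (Dt (shM p B H Y))ˣ →* (Dt (shM p B G Y))ˣ :=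
  Units.map (Dt.mapR (shM p B H Y) (shM p B G Y) (mG B Y f) (mG_s B Y f)).toMonoidHom

theorem prU_DtG (hB : GoodB p B) (f : H →* G) (X : (Dt (shM p B H (Fin 1)))ˣ)
    (u : (MonoidAlgebra B H)ˣ) (h : prU (shM p B H (Fin 1)) X = eta hB (sc1 u)) :
    prU (shM p B G (Fin 1)) (DtG B (Fin 1) f X) =
      eta hB (sc1 (Units.map (MonoidAlgebra.mapDomainRingHom B f).toMonoidHom u)) := by
  have hU : (sc1 (Units.map (MonoidAlgebra.mapDomainRingHom B f).toMonoidHom u)).val =
      (sc1 u).val.map (MonoidAlgebra.mapDomainRingHom B f) := by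
    ext1 i j
    have hi : i = 0 := Subsingleton.elim _ _
    have hj : j = 0 := Subsingleton.elim _ _
    subst hi hj
    show Matrix.scalar (Fin 1) (MonoidAlgebra.mapDomainRingHom B f (u : MonoidAlgebra B H)) 0 0 =
      MonoidAlgebra.mapDomainRingHom B f (Matrix.scalar (Fin 1) (u : MonoidAlgebra B H) 0 0)
    simp
  have h1 : (X : Dt (shM p B H (Fin 1))).1 0 0 = tpM (sc1 u).val := by
    rw [← eta_fst hB, ← h]
    rfl
  have h2 : (X : Dt (shM p B H (Fin 1))).1 1 1 = beM (sc1 u).val := by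
    rw [← eta_snd hB, ← h]
    rfl
  refine Units.ext (Subtype.ext (Prod.ext ?_ ?_))
  · rw [eta_fst, hU, ← mG_tpM, ← h1]
    rfl
  · rw [eta_snd, hU, ← mG_beM, ← h2]
    rfl

theorem jU_DtG (f : H →* G) (X : (Dt (shM p B H Y))ˣ) :
    (jU p B G Y (DtG B Y f X)).val =
      (jU p B H Y X).val.map (MonoidAlgebra.mapDomainRingHom B (WrMap p f)) := by
  have h1 : ∀ a : MonoidAlgebra B (ZMod p → H), MonoidAlgebra.mapDomainRingHom B (WrMap p f)
      (MonoidAlgebra.mapDomainRingHom B (inc p H) a) =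
        MonoidAlgebra.mapDomainRingHom B (inc p G) (MonoidAlgebra.mapDomainRingHom B (piG (p := p) f) a) := by
    intro a
    rw [← RingHom.comp_apply, ← RingHom.comp_apply, ← MonoidAlgebra.mapDomainRingHom_comp, ← MonoidAlgebra.mapDomainRingHom_comp]
    rfl
  have h2 : ∀ j : ℕ, MonoidAlgebra.mapDomainRingHom B (WrMap p f) (MonoidAlgebra.single (sg p H ^ j) 1) =
      MonoidAlgebra.single (sg p G ^ j) 1 := by
    intro j
    rw [MonoidAlgebra.mapDomainRingHom_apply, MonoidAlgebra.mapDomain_single, map_pow, WrMap_sg]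
  ext1 v w
  show jR p B G Y (DtG B Y f X : (Dt (shM p B G Y))ˣ) v w =
    MonoidAlgebra.mapDomainRingHom B (WrMap p f) (jR p B H Y X v w)
  rw [jR_apply, jR_apply, map_add, map_sum, h1]
  congr 1
  refine Finset.sum_congr rfl fun j _ => ?_
  rw [map_mul, h1, h2]
  rfl

end

end Pool.Agent.H71.CZ
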