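import Pool.Agent.H71.CZ.Theta
import Pool.Agent.H71.CZ.ValA
import Pool.Agent.H16.FU.Asm1

/-!
# Project CZ: the value of `Θ` on a symbol `[C, u, z]`

PROOF of `Theta_gasm1`.  Over `G` let `u' = ` the image of `u`, `X' = DtG C.subtype uD` (`prU_DtG`).  `gasm1 .. (K1.unit u) z` is the class
`clX _ (n + 1) (Fin 1) (HG.map (zhom (scal 1 κ) (sc1 u') _) (HG.crz _ n z))` (`asm1_mk`, `HG.cr_eq_map`, `clX_fin`).  Lift `zhom ..` to
`D~^×`: `dgD γ` is the unit `mkD (J γ) 0` over `eta (scal γ)`, it commutes with `X'` (`γ` centralizes `C`: the entries of `X'` are supported on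
`C^p` and `dgG γ` commutes with `C^p`), `ρ' = zhom dgD X' _`; `Theta_lift`.  `jU ∘ ρ' = zhom (scal (inc ∘ dgG ∘ κ)) (jU X')` and `jU X'` is
the image of `hatU` (`jU_DtG`): reindex `ZMod p → Fin 1` to `Fin 1` (`clX_equiv`), `asm1_mk` and `gasm1_map` for `dgC`.
-/

set_option autoImplicit false

open Matrix

universe u v w

namespace Pool.Agent.H71.CZ

open Pool.Agent.H71.FQ Pool.Agent.H16.FU
open Pool.Agent.H95.WH (K1 K1.unit K1.mk)
open Pool.Agent.H39.CZ (hatS mem_hatS dgC dgC_coe)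

section

variable {p : ℕ} [hp : Fact p.Prime] {B : Type} [CommRing B] {G : Type v} [Group G] {n : ℕ}

/-- the wreath product of a subgroup as a subgroup -/
def toHat (p : ℕ) [Fact p.Prime] (C : Subgroup G) : Wr p C →* hatS p C :=
  (WrMap p C.subtype).codRestrict (hatS p C) fun x i => (x.left i).2

theorem toHat_coe (C : Subgroup G) (x : Wr p C) :
    ((toHat p C x : hatS p C) : Wr p G) = WrMap p C.subtype x := rfl

/-- the entry of a `1 × 1` matrix -/
noncomputable def ent {R : Type*} [Ring R] :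
    (Matrix (ZMod p → Fin 1) (ZMod p → Fin 1) R)ˣ →* Rˣ :=
  Units.map
    { toFun := fun m => m 0 0
      map_one' := Matrix.one_apply_eq 0
      map_mul' := fun a b => by
        rw [Matrix.mul_apply, Fintype.sum_eq_single 0 fun x hx => absurd (Subsingleton.elim x 0) hx] }

theorem ent_val {R : Type*} [Ring R] (U : (Matrix (ZMod p → Fin 1) (ZMod p → Fin 1) R)ˣ)
    (v w : ZMod p → Fin 1) : (ent U : R) = U.val v w := by
  have hv : v = 0 := Subsingleton.elim _ _
  have hw : w = 0 := Subsingleton.elim _ _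
  rw [hv, hw]
  rfl

/-- the unit `u~` of the group ring of `C ≀ C_p` -/
noncomputable def hatU (C : Subgroup G) (uD : (Dt (shM p B C (Fin 1)))ˣ) :
    (MonoidAlgebra B (hatS p C))ˣ :=
  Units.map (MonoidAlgebra.mapDomainRingHom B (toHat p C)).toMonoidHom (ent (jU p B C (Fin 1) uD))

theorem hatU_val (C : Subgroup G) (uD : (Dt (shM p B C (Fin 1)))ˣ) (v w : ZMod p → Fin 1) :
    (hatU C uD : MonoidAlgebra B (hatS p C)) =
      MonoidAlgebra.mapDomainRingHom B (toHat p C) ((jU p B C (Fin 1) uD).val v w) := by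
  rw [← ent_val (jU p B C (Fin 1) uD) v w]
  rfl

theorem toHat_injective (C : Subgroup G) : Function.Injective (toHat p C) := by
  intro x y hxy
  apply WrMap_injective (p := p) C.subtype_injective
  rw [← toHat_coe, ← toHat_coe, hxy]

/-- the unit `u~` is `1` modulo `p ^ 2` -/
theorem hatU_cong (C : Subgroup G) (uD : (Dt (shM p B C (Fin 1)))ˣ)
    (X : Matrix (ZMod p → Fin 1) (ZMod p → Fin 1) (MonoidAlgebra B (Wr p C)))
    (h : (jU p B C (Fin 1) uD).val = 1 + ((p : B) ^ 2) • X) :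
    ∃ a : MonoidAlgebra B (hatS p C),
      (hatU C uD : MonoidAlgebra B (hatS p C)) = 1 + ((p : B) ^ 2) • a := by
  refine ⟨MonoidAlgebra.mapDomainRingHom B (toHat p C) (X 0 0), ?_⟩
  rw [hatU_val C uD 0 0, h, Matrix.add_apply, Matrix.one_apply_eq, Matrix.smul_apply, map_add, map_one]
  congr 1
  exact map_smul (MonoidAlgebra.mapDomainAlgHom B B (toHat p C)) _ _

/-- the coefficients of the powers of `u~` -/
theorem hatU_coeff (C : Subgroup G) (uD : (Dt (shM p B C (Fin 1)))ˣ) (k : ℕ) (x : Wr p C) :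
    ((hatU C uD : MonoidAlgebra B (hatS p C)) ^ k).coeff (toHat p C x) =
      ((jU p B C (Fin 1) (uD ^ k)).val 0 0).coeff x := by
  have h1 : (hatU C uD : MonoidAlgebra B (hatS p C)) ^ k =
      MonoidAlgebra.mapDomainRingHom B (toHat p C) ((jU p B C (Fin 1) (uD ^ k)).val 0 0) := by
    rw [← hatU_val C (uD ^ k) 0 0, ← Units.val_pow_eq_pow_val]
    congr 1
    unfold hatU
    rw [map_pow (jU p B C (Fin 1)), map_pow ent, map_pow]
  rw [h1]
  have h2 := Finsupp.mapDomain_apply (f := (toHat p C : Wr p C → hatS p C)) (toHat_injective C)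
    ((jU p B C (Fin 1) (uD ^ k)).val 0 0).coeff x
  rw [← h2]
  simp

private theorem vu_dgM (U : Matrix (Fin 1) (Fin 1) (MonoidAlgebra B G)) (v w : ZMod p → Fin 1) :
    (dgM U : MM p B G (Fin 1)) v w = MonoidAlgebra.mapDomainRingHom B (dgG p G) (U 0 0) := by
  rw [dgM, if_pos ⟨fun _ => Subsingleton.elim _ _, fun _ => Subsingleton.elim _ _⟩]
  congr 2
  · exact Subsingleton.elim _ _
  · exact Subsingleton.elim _ _

private theorem vu_beM (U : Matrix (Fin 1) (Fin 1) (MonoidAlgebra B G)) (v w : ZMod p → Fin 1) :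
    (beM U : MM p B G (Fin 1)) v w = MonoidAlgebra.mapDomainRingHom B (dgG p G) (U 0 0) := by
  have hvw : v = w := Subsingleton.elim _ _
  rw [beM_apply, Matrix.add_apply, Matrix.sub_apply, vu_dgM, vu_dgM, hvw, Matrix.one_apply_eq,
    Matrix.one_apply_eq, map_one, sub_self, zero_add]

private theorem vu_tpM (U : Matrix (Fin 1) (Fin 1) (MonoidAlgebra B G)) (v w : ZMod p → Fin 1) :
    (tpM U : MM p B G (Fin 1)) v w = tp fun _ => U 0 0 := by
  rw [tpM_apply]
  congr 1
  funext i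
  congr 1
  · exact Subsingleton.elim _ _
  · exact Subsingleton.elim _ _

private theorem vu_mul (a b : MM p B G (Fin 1)) (v w : ZMod p → Fin 1) :
    (a * b) v w = a v w * b v w := by
  have hvw : v = w := Subsingleton.elim _ _
  rw [Matrix.mul_apply, Fintype.sum_eq_single w fun x hx => absurd (Subsingleton.elim x w) hx, hvw]

variable (B) in
/-- the scalar matrix of an element of the group -/
private noncomputable def sB (g : G) : Matrix (Fin 1) (Fin 1) (MonoidAlgebra B G) :=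
  diagonal fun _ => MonoidAlgebra.single g 1

private theorem sB_mul (g h : G) : sB B (g * h) = sB B g * sB B h := by
  unfold sB
  rw [Matrix.diagonal_mul_diagonal]
  simp only [MonoidAlgebra.single_mul_single, mul_one]

private theorem sB_one : sB B (1 : G) = 1 := by
  unfold sB
  rw [← MonoidAlgebra.one_def]
  exact Matrix.diagonal_one

private theorem beM_sB (g : G) (v w : ZMod p → Fin 1) :
    (beM (sB B g) : MM p B G (Fin 1)) v w = MonoidAlgebra.single (dgG p G g) 1 := by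
  rw [vu_beM]
  change MonoidAlgebra.mapDomainRingHom B (dgG p G) (diagonal (fun _ => MonoidAlgebra.single g 1) 0 0) = _
  rw [Matrix.diagonal_apply_eq, MonoidAlgebra.mapDomainRingHom_apply, MonoidAlgebra.mapDomain_single]

private theorem tpM_sB (g : G) : (tpM (sB B g) : MM p B G (Fin 1)) = beM (sB B g) := by
  ext1 v w
  rw [vu_tpM, beM_sB]
  have h1 : (fun _ : ZMod p => sB B g 0 0) = fun i : ZMod p => MonoidAlgebra.single (dgG p G g i) (1 : B) := by
    funext i
    change diagonal (fun _ => MonoidAlgebra.single g 1) 0 0 = _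
    rw [Matrix.diagonal_apply_eq]
    rfl
  rw [h1, tp_single, Finset.prod_const_one]

variable (p B) in
/-- the lift of the scalar matrices to `D~` -/
private noncomputable def dgD0 : G →* Dt (shM p B G (Fin 1)) where
  toFun g := mkD (shM p B G (Fin 1)) (beM (sB B g)) 0 (s_beM _)
  map_one' := by
    rw [← mkD_one]
    refine dt_ext _ ?_ rfl
    change beM (sB B (1 : G)) = (1 : MM p B G (Fin 1))
    rw [sB_one, map_one]
  map_mul' g h := by
    rw [mkD_mul]
    refine dt_ext _ ?_ ?_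
    · change beM (sB B (g * h)) = (beM (sB B g) * beM (sB B h) : MM p B G (Fin 1))
      rw [sB_mul, map_mul]
    · change (0 : MM p B G (Fin 1)) = 0 * (beM (sB B h) + (shM p B G (Fin 1)).nm 0) + beM (sB B g) * 0
      rw [zero_mul, mul_zero, add_zero]

private theorem dgD0_11 (g : G) : (dgD0 p B g).1 1 1 = (beM (sB B g) : MM p B G (Fin 1)) := rfl

private theorem dgD0_10 (g : G) : (dgD0 p B g).1 1 0 = (0 : MM p B G (Fin 1)) := rfl

/-- the lift of the scalar matrices of a group -/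
private noncomputable def dgD {Γ : Type v} [Group Γ] (κ : Γ →* G) : Γ →* (Dt (shM p B G (Fin 1)))ˣ :=
  ((dgD0 p B).comp κ).toHomUnits

private theorem dgD_val {Γ : Type v} [Group Γ] (κ : Γ →* G) (γ : Γ) :
    ((dgD (p := p) (B := B) κ γ : (Dt (shM p B G (Fin 1)))ˣ) : Dt (shM p B G (Fin 1))) = dgD0 p B (κ γ) := rfl

private theorem prU_dgD {Γ : Type v} [Group Γ] (hB : GoodB p B) (κ : Γ →* G) (γ : Γ) :
    prU (shM p B G (Fin 1)) (dgD κ γ) = eta hB (scal 1 ((grpHom B G).comp κ) γ) := by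
  refine Units.ext (Subtype.ext (Prod.ext ?_ ?_))
  · rw [eta_fst]
    change (beM (sB B (κ γ)) + (shM p B G (Fin 1)).nm 0 : MM p B G (Fin 1)) = tpM (sB B (κ γ))
    rw [map_zero, add_zero, tpM_sB]
  · rw [eta_snd]
    rfl

private theorem dt_mul_11' (X Y : Dt (shM p B G (Fin 1))) : (X * Y).1 1 1 = X.1 1 1 * Y.1 1 1 := by
  have h : (X * Y).1 1 1 = (X.1 * Y.1) 1 1 := rfl
  rw [h, Matrix.mul_apply, Fin.sum_univ_two, Y.2.1, mul_zero, zero_add]

private theorem dt_mul_10' (X Y : Dt (shM p B G (Fin 1))) :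
    (X * Y).1 1 0 = X.1 1 0 * Y.1 0 0 + X.1 1 1 * Y.1 1 0 := by
  have h : (X * Y).1 1 0 = (X.1 * Y.1) 1 0 := rfl
  rw [h, Matrix.mul_apply, Fin.sum_univ_two]

private theorem comm_single (C : Subgroup G) (γ : G) (hγ : ∀ c : C, (c : G) * γ = γ * c)
    (a : MonoidAlgebra B (ZMod p → C)) :
    MonoidAlgebra.single (dgG p G γ) 1 * MonoidAlgebra.mapDomainRingHom B (piG (p := p) C.subtype) a =
      MonoidAlgebra.mapDomainRingHom B (piG (p := p) C.subtype) a * MonoidAlgebra.single (dgG p G γ) 1 := by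
  induction a using MonoidAlgebra.induction_linear with
  | zero => rw [map_zero, mul_zero, zero_mul]
  | add a b ha hb => rw [map_add, mul_add, add_mul, ha, hb]
  | single g b =>
    rw [MonoidAlgebra.mapDomainRingHom_apply, MonoidAlgebra.mapDomain_single,
      MonoidAlgebra.single_mul_single, MonoidAlgebra.single_mul_single, one_mul, mul_one]
    congr 1
    funext i
    exact (hγ (g i)).symm

private theorem comm_mat (C : Subgroup G) (γ : G) (hγ : ∀ c : C, (c : G) * γ = γ * c)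
    (a : MM p B C (Fin 1)) :
    beM (sB B γ) * mG B (Fin 1) C.subtype a = mG B (Fin 1) C.subtype a * beM (sB B γ) := by
  ext1 v w
  rw [vu_mul, vu_mul, beM_sB]
  exact comm_single C γ hγ (a v w)

private theorem dgD0_comm (C : Subgroup G) (γ : G) (hγ : ∀ c : C, (c : G) * γ = γ * c)
    (X : (Dt (shM p B C (Fin 1)))ˣ) :
    dgD0 p B γ * (DtG B (Fin 1) C.subtype X : Dt (shM p B G (Fin 1))) =
      (DtG B (Fin 1) C.subtype X : Dt (shM p B G (Fin 1))) * dgD0 p B γ := by
  have h1 : ∀ i j, (DtG B (Fin 1) C.subtype X : Dt (shM p B G (Fin 1))).1 i j =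
      mG B (Fin 1) C.subtype ((X : Dt (shM p B C (Fin 1))).1 i j) := fun i j => rfl
  have h2 : (dgD0 p B γ).1 0 0 = (beM (sB B γ) : MM p B G (Fin 1)) := by
    change (beM (sB B γ) + (shM p B G (Fin 1)).nm 0 : MM p B G (Fin 1)) = _
    rw [map_zero, add_zero]
  refine dt_ext _ ?_ ?_
  · rw [dt_mul_11', dt_mul_11', dgD0_11, h1, comm_mat C γ hγ]
  · rw [dt_mul_10', dt_mul_10', dgD0_11, dgD0_10, h2, h1, h1, h1, zero_mul, mul_zero, zero_add, add_zero,
      comm_mat C γ hγ]

private theorem dgD_comm (C : Subgroup G) (X : (Dt (shM p B C (Fin 1)))ˣ)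
    (γ : Subgroup.centralizer (C : Set G)) :
    dgD (Subgroup.centralizer (C : Set G)).subtype γ * DtG B (Fin 1) C.subtype X =
      DtG B (Fin 1) C.subtype X * dgD (Subgroup.centralizer (C : Set G)).subtype γ :=
  Units.ext (dgD0_comm C γ (fun c => Subgroup.mem_centralizer_iff.1 γ.2 c c.2) X)

/-- the reindexing -/
private def e1 (p : ℕ) : (ZMod p → Fin 1) ≃ Fin 1 := Equiv.ofUnique _ _

private theorem rxU_dgD {Γ : Type v} [Group Γ] (κ : Γ →* G) (γ : Γ) :
    rxU (e1 p) (jU p B G (Fin 1) (dgD κ γ)) =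
      scal 1 ((grpHom B (Wr p G)).comp ((inc p G).comp ((dgG p G).comp κ))) γ := by
  refine Units.ext (Matrix.ext fun i j => ?_)
  have hij : i = j := Subsingleton.elim _ _
  subst hij
  rw [rxU_apply, scal_val, Matrix.diagonal_apply_eq]
  change jR p B G (Fin 1) (dgD0 p B (κ γ)) _ _ = _
  rw [jR_apply, dgD0_11, dgD0_10, beM_sB]
  have h1 : ∀ j ∈ Finset.range p, MonoidAlgebra.mapDomainRingHom B (inc p G)
      ((0 : MM p B G (Fin 1)) ((e1 p).symm i) (fun k => (e1 p).symm i (k + (j : ZMod p)))) *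
        MonoidAlgebra.single (sg p G ^ j) 1 = 0 := by
    intro j _
    rw [Matrix.zero_apply, map_zero, zero_mul]
  rw [Finset.sum_congr rfl h1, Finset.sum_const_zero, add_zero, MonoidAlgebra.mapDomainRingHom_apply,
    MonoidAlgebra.mapDomain_single]
  rfl

private theorem rxU_jU (C : Subgroup G) (uD : (Dt (shM p B C (Fin 1)))ˣ) :
    rxU (e1 p) (jU p B G (Fin 1) (DtG B (Fin 1) C.subtype uD)) =
      mapGL (MonoidAlgebra.mapDomainRingHom B (hatS p C).subtype) 1 (sc1 (hatU C uD)) := by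
  refine Units.ext (Matrix.ext fun i j => ?_)
  have hij : i = j := Subsingleton.elim _ _
  subst hij
  rw [rxU_apply, jU_DtG, Matrix.map_apply, mapGL_val, Matrix.map_apply]
  change _ = MonoidAlgebra.mapDomainRingHom B (hatS p C).subtype
    (Matrix.scalar (Fin 1) (hatU C uD : MonoidAlgebra B (hatS p C)) i i)
  rw [Matrix.scalar_apply, Matrix.diagonal_apply_eq, hatU_val C uD ((e1 p).symm i) ((e1 p).symm i)]
  have h1 : (WrMap p C.subtype) = (hatS p C).subtype.comp (toHat p C) := rfl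
  rw [h1, MonoidAlgebra.mapDomainRingHom_comp]
  rfl

private theorem sc1_map {R S : Type*} [Ring R] [Ring S] (f : R →+* S) (u : Rˣ) :
    sc1 (Units.map f.toMonoidHom u) = mapGL f 1 (sc1 u) := by
  refine Units.ext (Matrix.ext fun i j => ?_)
  have hij : i = j := Subsingleton.elim _ _
  subst hij
  rw [mapGL_val, Matrix.map_apply]
  change Matrix.scalar (Fin 1) (f u) i i = f (Matrix.scalar (Fin 1) (u : R) i i)
  rw [Matrix.scalar_apply, Matrix.diagonal_apply_eq, Matrix.scalar_apply, Matrix.diagonal_apply_eq]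

/-- a symbol of a unit as the class of a homomorphism from `Γ × ℤ` -/
private theorem gasm1_unit {G' : Type v} [Group G'] {H : Type v} [Group H] {Γ : Type v} [Group Γ] (f : H →* G')
    (κ : Γ →* G') (h : ∀ γ a, f a * κ γ = κ γ * f a) (u : (MonoidAlgebra B H)ˣ) (z : HG Γ n) :
    gasm1 B n f κ h (K1.unit u) z = clX (MonoidAlgebra B G') (n + 1) (Fin 1)
      (HG.map (n + 1) (zhom (scal 1 ((grpHom B G').comp κ))
        (mapGL (MonoidAlgebra.mapDomainRingHom B f) 1 (sc1 u))
        (scal_comm _ _ (grpHom_comm B f κ h) (sc1 u))) (HG.crz Γ n z)) := by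
  rw [clX_fin, ← HG.cr_eq_map]
  exact asm1_mk _ _ (grpHom_comm B f κ h) (sc1 u) z

section

variable {Γ : Type*} [Group Γ] {Λ : Type*} [Group Λ] {Λ' : Type*} [Group Λ'] {Λ'' : Type*} [Group Λ'']

private theorem comp_zhom (θ : Λ →* Λ') (f : Γ →* Λ) (u : Λ) (hu : ∀ γ, f γ * u = u * f γ) (f' : Γ →* Λ')
    (u' : Λ') (hu' : ∀ γ, f' γ * u' = u' * f' γ) (h1 : ∀ γ, θ (f γ) = f' γ) (h2 : θ u = u') :
    θ.comp (zhom f u hu) = zhom f' u' hu' := by
  refine MonoidHom.ext fun x => ?_
  change θ (f x.1 * u ^ (Multiplicative.toAdd x.2)) = f' x.1 * u' ^ (Multiplicative.toAdd x.2)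
  rw [map_mul, map_zpow, h1, h2]

private theorem zhom_rel (θ : Λ →* Λ'') (η : Λ' →* Λ'') (f : Γ →* Λ) (u : Λ) (hu : ∀ γ, f γ * u = u * f γ)
    (f' : Γ →* Λ') (u' : Λ') (hu' : ∀ γ, f' γ * u' = u' * f' γ) (h1 : ∀ γ, θ (f γ) = η (f' γ))
    (h2 : θ u = η u') (x : Γ × Multiplicative ℤ) : θ (zhom f u hu x) = η (zhom f' u' hu' x) := by
  change θ (f x.1 * u ^ (Multiplicative.toAdd x.2)) = η (f' x.1 * u' ^ (Multiplicative.toAdd x.2))
  rw [map_mul, map_zpow, h1, h2, map_mul, map_zpow]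

end

/-- **The value of `Θ` on a symbol.** -/
theorem Theta_gasm1 (hB : GoodB p B) (C : Subgroup G) (u : (MonoidAlgebra B C)ˣ)
    (uD : (Dt (shM p B C (Fin 1)))ˣ) (h : prU (shM p B C (Fin 1)) uD = eta hB (sc1 u))
    (z : HG (Subgroup.centralizer (C : Set G)) n) :
    Theta p B G (n + 1) hB (gasm1 B n C.subtype (Subgroup.centralizer (C : Set G)).subtype
        (cent_comm C) (K1.unit u) z) =
      toTV p B G (n + 1) (gasm1 B n (hatS p C).subtype
        (Subgroup.centralizer ((hatS p C : Subgroup (Wr p G)) : Set (Wr p G))).subtype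
        (cent_comm (hatS p C)) (K1.unit (hatU C uD)) (HG.map n (dgC p C) z)) := by
  have hc : ∀ γ, dgD (Subgroup.centralizer (C : Set G)).subtype γ * DtG B (Fin 1) C.subtype uD =
      DtG B (Fin 1) C.subtype uD * dgD (Subgroup.centralizer (C : Set G)).subtype γ :=
    fun γ => dgD_comm C uD γ
  have hcomp : ∀ (γ : Subgroup.centralizer (C : Set G)) (a : hatS p C),
      (hatS p C).subtype a * ((Subgroup.centralizer ((hatS p C : Subgroup (Wr p G)) : Set (Wr p G))).subtype.comp
        (dgC p C)) γ = ((Subgroup.centralizer ((hatS p C : Subgroup (Wr p G)) : Set (Wr p G))).subtype.comp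
        (dgC p C)) γ * (hatS p C).subtype a := fun γ a => cent_comm (hatS p C) (dgC p C γ) a
  have hz : ∀ x, prU (shM p B G (Fin 1)) (zhom (dgD (Subgroup.centralizer (C : Set G)).subtype)
      (DtG B (Fin 1) C.subtype uD) hc x) = eta hB (zhom (scal 1 ((grpHom B G).comp
        (Subgroup.centralizer (C : Set G)).subtype)) (mapGL (MonoidAlgebra.mapDomainRingHom B C.subtype) 1 (sc1 u))
        (scal_comm _ _ (grpHom_comm B C.subtype _ (cent_comm C)) (sc1 u)) x) := by
    refine zhom_rel _ _ _ _ _ _ _ _ (prU_dgD hB _) ?_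
    rw [prU_DtG B hB C.subtype uD u h, sc1_map]
  rw [gasm1_unit, gasm1_map B n (hatS p C).subtype _ (dgC p C) (cent_comm (hatS p C)) hcomp, gasm1_unit,
    Theta_lift hB (Fin 1) _ (zhom (dgD (Subgroup.centralizer (C : Set G)).subtype) (DtG B (Fin 1) C.subtype uD) hc)
      hz, ← clX_equiv (e1 p), HG.map_map, ← MonoidHom.comp_assoc, comp_zhom ((rxU (e1 p)).comp (jU p B G (Fin 1))) _ _ hc
      (scal 1 ((grpHom B (Wr p G)).comp ((Subgroup.centralizer ((hatS p C : Subgroup (Wr p G)) : Set (Wr p G))).subtype.comp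
        (dgC p C)))) (mapGL (MonoidAlgebra.mapDomainRingHom B (hatS p C).subtype) 1 (sc1 (hatU C uD)))
      (scal_comm _ _ (grpHom_comm B _ _ hcomp) (sc1 (hatU C uD))) (fun γ => rxU_dgD _ γ) (rxU_jU C uD)]

/-- **The relation in the wreath product.** -/
theorem rel_hat (hB : GoodB p B) {ι : Type} [Fintype ι] (C : ι → Subgroup G)
    (u : ∀ i, (MonoidAlgebra B (C i))ˣ) (uD : ∀ i, (Dt (shM p B (C i) (Fin 1)))ˣ)
    (h : ∀ i, prU (shM p B (C i) (Fin 1)) (uD i) = eta hB (sc1 (u i)))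
    (z : ∀ i, HG (Subgroup.centralizer (C i : Set G)) n) (M : ℤ) (hM : M ≠ 0)
    (h0 : M • ∑ i, gasm1 B n (C i).subtype (Subgroup.centralizer (C i : Set G)).subtype
        (cent_comm (C i)) (K1.unit (u i)) (z i) = 0) :
    ∃ (k : ℤ) (X : KQ (MonoidAlgebra B (ZMod p → G)) (n + 1)), k ≠ 0 ∧
      k • ∑ i, gasm1 B n (hatS p (C i)).subtype
        (Subgroup.centralizer ((hatS p (C i) : Subgroup (Wr p G)) : Set (Wr p G))).subtype
        (cent_comm (hatS p (C i))) (K1.unit (hatU (C i) (uD i))) (HG.map n (dgC p (C i)) (z i)) =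
      KQ.map (MonoidAlgebra.mapDomainRingHom B (inc p G)) X := by
  have h1 : toTV p B G (n + 1) (M • ∑ i, gasm1 B n (hatS p (C i)).subtype
        (Subgroup.centralizer ((hatS p (C i) : Subgroup (Wr p G)) : Set (Wr p G))).subtype
        (cent_comm (hatS p (C i))) (K1.unit (hatU (C i) (uD i)))
        (HG.map n (dgC p (C i)) (z i))) = 0 := by
    rw [map_zsmul, map_sum, Finset.sum_congr rfl fun i _ =>
      (Theta_gasm1 hB (C i) (u i) (uD i) (h i) (z i)).symm, ← map_sum, ← map_zsmul, h0, map_zero]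
  obtain ⟨k, y, hk, hy⟩ := toTV_eq_zero h1
  refine ⟨k * M, y, mul_ne_zero hk hM, ?_⟩
  rw [mul_smul]
  exact hy

end

end Pool.Agent.H71.CZ
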