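import Pool.Agent.H71.CZ.KRes
import Pool.Agent.H16.FU.Pri

/-!
# Project CZ: the homology of `A × ℤ`

`Γ = A × Multiplicative ℤ`, `T = (1, ofAdd 1)`, `ι = MonoidHom.inl A (Multiplicative ℤ)`.

PROOFS.  `coi_sub`: for `g = (a, T ^ i)` the generator `g x - x` is `(a T^i x - T^i x) + (T^i x - x)`, the first part is in
`coiH ι`, the second is `(T - 1) y` with `y` the sum of `x, T x, .., T^(i-1) x` (or minus the sum of `T^(-1) x, ..`).
`lmul_inj`: the projection `nA` of the chains `(x_0, …, x_n) ↦ ((1, d_0), (a_0⁻¹ a_1, d_1), …)` (`x_i = (a_i, d_i)`) kills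
`coiH ι`, `c - nA c ∈ coiH ι`, and it commutes with the translation by `T`.  So `nA c` is a finitely supported function on the
tuples which is invariant under the translation by `T`, which has infinite orbits: `nA c = 0` and `c ∈ coiH ι`.
`exists_wang`: `x` a cycle of degree `n + 2`, `bd x ∈ coi Γ (n + 1)`.  By `coi_sub` `bd x = (T b - b) + r`, `r ∈ coiH ι (n + 1)`, `b` a
chain of degree `n + 1`.  `0 = bd bd x`, so `T (bd b) - bd b ∈ coiH ι n` and `bd b ∈ coiH ι n` by `lmul_inj`.  By `exists_res`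
`b = push ι b' + bd c + r'`, `b' ∈ cyc A n`.  Put `x' = x - (T c - c) - pri T (push ι b')`: by `bd_pri` (and since `T` is central:
`y * T = T * y`) `bd x' ∈ coiH ι`.  By `exists_res` for `x'` there is `a ∈ cyc A (n + 1)` with `x' - push ι a ∈ bnH ι ≤ bnd`.
Hence `[x] = map ι [a] + crz [b']` (`HG.crz` is `HG.cr ι T`, `HG.cr_mk`).
`exists_wang_zero`: the same in degree one, `b` a chain of degree `0`, `b = push ι b' + bd c + r'` with `b'` any chain of degree
`0` of `A` by `exists_res_zero`; `pri T` of a single vertex `ι a` is the tuple `(ι a, ι a * T)`, equal to `(1, T)` modulo `coi Γ`.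
-/

set_option autoImplicit false

universe u v w

namespace Pool.Agent.H71.CZ

open Pool.Agent.H71.FQ Pool.Agent.H16.FU

section

variable {A : Type v} [Group A]

/-- the generator of the second factor -/
def tz (A : Type v) [Group A] : A × Multiplicative ℤ := (1, Multiplicative.ofAdd 1)

private theorem push_tz_coiH {n : ℕ} {c : Cx ℤ (A × Multiplicative ℤ) n}
    (hc : c ∈ coiH (MonoidHom.inl A (Multiplicative ℤ)) n) :
    push ℤ (fun x => tz A * x) n c ∈ coiH (MonoidHom.inl A (Multiplicative ℤ)) n := by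
  refine push_coiH (ι := MonoidHom.inl A (Multiplicative ℤ))
    (ι' := MonoidHom.inl A (Multiplicative ℤ)) (fun x => tz A * x) (fun h => h) ?_ n hc
  intro h x
  ext <;> simp [tz, mul_comm]

private theorem mul_tz (x : A × Multiplicative ℤ) : x * tz A = tz A * x := by
  ext <;> simp [tz, mul_comm]

private theorem push_mul_tz (n : ℕ) (c : Cx ℤ (A × Multiplicative ℤ) n) :
    push ℤ (fun x => x * tz A) n c = push ℤ (fun x => tz A * x) n c := by
  congr 2
  funext x
  exact mul_tz x

/-- the translations by the powers of the generator -/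
private theorem zpow_sub (n : ℕ) (c : Cx ℤ (A × Multiplicative ℤ) n) (i : ℤ) :
    push ℤ (fun x => ((1, Multiplicative.ofAdd i) : A × Multiplicative ℤ) * x) n c - c ∈
      LinearMap.range (push ℤ (fun x => tz A * x) n - LinearMap.id) := by
  have hstep : ∀ j : ℤ,
      push ℤ (fun x => ((1, Multiplicative.ofAdd (j + 1)) : A × Multiplicative ℤ) * x) n c =
      push ℤ (fun x => tz A * x) n
        (push ℤ (fun x => ((1, Multiplicative.ofAdd j) : A × Multiplicative ℤ) * x) n c) := by
    intro j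
    rw [push_push]
    congr 2
    funext x
    rw [← mul_assoc]
    congr 1
    ext
    · simp [tz]
    · show Multiplicative.ofAdd (j + 1) = Multiplicative.ofAdd 1 * Multiplicative.ofAdd j
      rw [← ofAdd_add, add_comm]
  have hmem : ∀ j : ℤ,
      push ℤ (fun x => ((1, Multiplicative.ofAdd (j + 1)) : A × Multiplicative ℤ) * x) n c -
        push ℤ (fun x => ((1, Multiplicative.ofAdd j) : A × Multiplicative ℤ) * x) n c ∈
      LinearMap.range (push ℤ (fun x => tz A * x) n - LinearMap.id) := by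
    intro j
    rw [hstep j]
    exact ⟨_, rfl⟩
  induction i with
  | zero =>
    have h : push ℤ (fun x => ((1, Multiplicative.ofAdd 0) : A × Multiplicative ℤ) * x) n c =
        c := by
      have h1 : (fun x : A × Multiplicative ℤ => ((1, Multiplicative.ofAdd 0) :
          A × Multiplicative ℤ) * x) = fun x => x := by
        funext x
        exact one_mul x
      rw [h1]
      exact push_id n c
    rw [h, sub_self]
    exact Submodule.zero_mem _
  | succ i ih =>
    have h := Submodule.add_mem _ (hmem i) ih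
    rw [sub_add_sub_cancel] at h
    exact h
  | pred i ih =>
    have h := Submodule.sub_mem _ ih (hmem (-(i : ℤ) - 1))
    rw [sub_add_cancel, sub_sub_sub_cancel_left] at h
    exact h

theorem coi_sub (n : ℕ) {c : Cx ℤ (A × Multiplicative ℤ) n}
    (hc : c ∈ coi (A × Multiplicative ℤ) n) :
    ∃ y : Cx ℤ (A × Multiplicative ℤ) n,
      c - (push ℤ (fun x => tz A * x) n y - y) ∈ coiH (MonoidHom.inl A (Multiplicative ℤ)) n := by
  have h1 := coi_le_comap (LinearMap.id : Cx ℤ (A × Multiplicative ℤ) n →ₗ[ℤ] _)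
    (LinearMap.range (push ℤ (fun x => tz A * x) n - LinearMap.id) ⊔
      coiH (MonoidHom.inl A (Multiplicative ℤ)) n) ?_ hc
  · obtain ⟨_, ⟨y, rfl⟩, r, hr, h⟩ := Submodule.mem_sup.1 h1
    refine ⟨y, ?_⟩
    have h2 : c - (push ℤ (fun x => tz A * x) n y - y) = r := by
      rw [LinearMap.id_apply] at h
      rw [← h, LinearMap.sub_apply, LinearMap.id_apply]
      abel
    rw [h2]
    exact hr
  · intro g x
    rw [LinearMap.id_apply, LinearMap.id_apply]
    obtain ⟨a, b⟩ := g
    have e1 := zpow_sub n (Finsupp.single x 1 : Cx ℤ (A × Multiplicative ℤ) n)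
      (Multiplicative.toAdd b)
    have e2 := push_lmul_sub_memH (MonoidHom.inl A (Multiplicative ℤ)) n a
      (push ℤ (fun x => ((1, Multiplicative.ofAdd (Multiplicative.toAdd b)) :
        A × Multiplicative ℤ) * x) n (Finsupp.single x 1))
    have e3 : (Finsupp.single (fun j => (a, b) * x j) 1 - Finsupp.single x 1 :
        Cx ℤ (A × Multiplicative ℤ) n) =
        (push ℤ (fun x => ((1, Multiplicative.ofAdd (Multiplicative.toAdd b)) :
          A × Multiplicative ℤ) * x) n (Finsupp.single x 1) - Finsupp.single x 1) +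
        (push ℤ (fun y => MonoidHom.inl A (Multiplicative ℤ) a * y) n
          (push ℤ (fun x => ((1, Multiplicative.ofAdd (Multiplicative.toAdd b)) :
            A × Multiplicative ℤ) * x) n (Finsupp.single x 1)) -
          push ℤ (fun x => ((1, Multiplicative.ofAdd (Multiplicative.toAdd b)) :
            A × Multiplicative ℤ) * x) n (Finsupp.single x 1)) := by
      have e4 : push ℤ (fun y => MonoidHom.inl A (Multiplicative ℤ) a * y) n
          (push ℤ (fun x => ((1, Multiplicative.ofAdd (Multiplicative.toAdd b)) :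
            A × Multiplicative ℤ) * x) n (Finsupp.single x 1)) =
          Finsupp.single (fun j => (a, b) * x j) 1 := by
        rw [push_single, push_single]
        congr 1
        funext j
        rw [← mul_assoc]
        congr 1
        ext <;> simp
      rw [e4]
      abel
    rw [e3]
    exact Submodule.add_mem_sup e1 e2

/-- the representatives of the tuples modulo the translations by the first factor -/
private noncomputable def nA (A : Type v) [Group A] (n : ℕ) :
    Cx ℤ (A × Multiplicative ℤ) n →ₗ[ℤ] Cx ℤ (A × Multiplicative ℤ) n :=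
  Finsupp.linearCombination ℤ fun x : Fin (n + 1) → A × Multiplicative ℤ =>
    Finsupp.single (fun j => MonoidHom.inl A (Multiplicative ℤ) (x 0).1⁻¹ * x j) (1 : ℤ)

private theorem nA_single (n : ℕ) (x : Fin (n + 1) → A × Multiplicative ℤ) :
    nA A n (Finsupp.single x 1) =
      Finsupp.single (fun j => MonoidHom.inl A (Multiplicative ℤ) (x 0).1⁻¹ * x j) (1 : ℤ) := by
  rw [nA, Finsupp.linearCombination_single, one_smul]

private theorem nA_coiH (n : ℕ) {c : Cx ℤ (A × Multiplicative ℤ) n}
    (hc : c ∈ coiH (MonoidHom.inl A (Multiplicative ℤ)) n) : nA A n c = 0 := by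
  have h1 := coiH_le_comap (nA A n) (⊥ : Submodule ℤ (Cx ℤ (A × Multiplicative ℤ) n)) (fun g x => by
    rw [nA_single, nA_single, Submodule.mem_bot, sub_eq_zero]
    congr 1
    funext j
    rw [← mul_assoc]
    congr 1
    ext <;> simp) hc
  exact (Submodule.mem_bot ℤ).1 h1

private theorem sub_nA (n : ℕ) (c : Cx ℤ (A × Multiplicative ℤ) n) :
    c - nA A n c ∈ coiH (MonoidHom.inl A (Multiplicative ℤ)) n := by
  have h := cx_ext (f := (coiH (MonoidHom.inl A (Multiplicative ℤ)) n).mkQ)
    (g := (coiH (MonoidHom.inl A (Multiplicative ℤ)) n).mkQ.comp (nA A n)) (fun x => by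
      rw [LinearMap.comp_apply, nA_single]
      refine ((Submodule.Quotient.eq _).2 ?_).symm
      exact Submodule.subset_span ⟨(x 0).1⁻¹, x, rfl⟩) c
  exact (Submodule.Quotient.eq _).1 h

private theorem nA_tz (n : ℕ) (c : Cx ℤ (A × Multiplicative ℤ) n) :
    nA A n (push ℤ (fun x => tz A * x) n c) = push ℤ (fun x => tz A * x) n (nA A n c) := by
  refine cx_ext (f := (nA A n).comp (push ℤ (fun x => tz A * x) n))
    (g := (push ℤ (fun x => tz A * x) n).comp (nA A n)) ?_ c
  intro x
  rw [LinearMap.comp_apply, LinearMap.comp_apply, push_single, nA_single, nA_single, push_single]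
  congr 1
  funext j
  ext <;> simp [tz]

/-- there are no finite orbits -/
private theorem tz_inv (n : ℕ) {d : Cx ℤ (A × Multiplicative ℤ) n}
    (hd : push ℤ (fun x => tz A * x) n d = d) : d = 0 := by
  by_contra h0
  have hne : d.support.Nonempty := Finsupp.support_nonempty_iff.2 h0
  obtain ⟨x, hx, hmax⟩ := d.support.exists_max_image
    (fun x => (Multiplicative.toAdd (x 0).2 : ℤ)) hne
  have hinj : Function.Injective
      fun (x : Fin (n + 1) → A × Multiplicative ℤ) (j : Fin (n + 1)) => tz A * x j := by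
    intro x y hxy
    funext j
    exact mul_left_cancel (congrFun hxy j)
  have h1 : d (fun j => tz A * x j) = d x := by
    conv_lhs => rw [← hd, push_apply_eq_mapDomain]
    exact Finsupp.mapDomain_apply hinj d x
  have h2 : (fun j => tz A * x j) ∈ d.support := by
    rw [Finsupp.mem_support_iff, h1]
    exact Finsupp.mem_support_iff.1 hx
  have h3 := hmax _ h2
  have h4 : (Multiplicative.toAdd (tz A * x 0).2 : ℤ) = 1 + Multiplicative.toAdd (x 0).2 := rfl
  have h5 : (Multiplicative.toAdd (tz A * x 0).2 : ℤ) ≤ Multiplicative.toAdd (x 0).2 := h3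
  rw [h4] at h5
  omega

theorem lmul_inj (n : ℕ) {c : Cx ℤ (A × Multiplicative ℤ) n}
    (hc : push ℤ (fun x => tz A * x) n c - c ∈ coiH (MonoidHom.inl A (Multiplicative ℤ)) n) :
    c ∈ coiH (MonoidHom.inl A (Multiplicative ℤ)) n := by
  have h1 := nA_coiH n hc
  rw [map_sub, nA_tz, sub_eq_zero] at h1
  have h2 := tz_inv n h1
  have h3 := sub_nA n c
  rw [h2, sub_zero] at h3
  exact h3

private theorem inl_inj : Function.Injective (MonoidHom.inl A (Multiplicative ℤ)) := by
  intro a b h
  exact congrArg Prod.fst h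

private theorem bnH_le (n : ℕ) :
    bnH (MonoidHom.inl A (Multiplicative ℤ)) (n + 1) ≤ bnd (A × Multiplicative ℤ) n :=
  sup_le_sup_left (coiH_le_coi _ _) _

/-- **The homology of `A × ℤ` in degrees `≥ 2`.** -/
theorem exists_wang (n : ℕ) (z : HG (A × Multiplicative ℤ) (n + 1)) :
    ∃ (a : HG A (n + 1)) (b : HG A n),
      z = HG.map (n + 1) (MonoidHom.inl A (Multiplicative ℤ)) a + HG.crz A n b := by
  obtain ⟨x, rfl⟩ := HG.mk_surjective z
  obtain ⟨b, hb⟩ := coi_sub (n + 1) x.2
  have hbb : bd ℤ (A × Multiplicative ℤ) n b ∈ coiH (MonoidHom.inl A (Multiplicative ℤ)) n := by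
    refine lmul_inj n ?_
    have h1 := bd_coiH (MonoidHom.inl A (Multiplicative ℤ)) n hb
    rw [map_sub, map_sub, bd_bd, zero_sub, bd_push] at h1
    have h2 := Submodule.neg_mem _ h1
    rw [neg_neg] at h2
    exact h2
  obtain ⟨b', hb'⟩ := exists_res (MonoidHom.inl A (Multiplicative ℤ)) inl_inj n b hbb
  obtain ⟨_, ⟨c, rfl⟩, r', hr', h3⟩ := Submodule.mem_sup.1 hb'
  set y : Cx ℤ (A × Multiplicative ℤ) (n + 1) :=
    push ℤ (MonoidHom.inl A (Multiplicative ℤ)) (n + 1) (b' : Cx ℤ A (n + 1)) with hy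
  set x' : Cx ℤ (A × Multiplicative ℤ) (n + 2) :=
    (x : Cx ℤ (A × Multiplicative ℤ) (n + 2)) - (push ℤ (fun x => tz A * x) (n + 2) c - c) -
      pri (tz A) (n + 1) y with hx'
  have hbx : bd ℤ (A × Multiplicative ℤ) (n + 1) x' ∈
      coiH (MonoidHom.inl A (Multiplicative ℤ)) (n + 1) := by
    have e1 := bd_pri (tz A) n y
    rw [push_mul_tz] at e1
    have e2 : b = bd ℤ (A × Multiplicative ℤ) (n + 1) c + r' + y := by
      rw [h3]
      abel
    have e3 : pri (tz A) n (bd ℤ (A × Multiplicative ℤ) n y) ∈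
        coiH (MonoidHom.inl A (Multiplicative ℤ)) (n + 1) := by
      refine equi_coiH (ι := MonoidHom.inl A (Multiplicative ℤ))
        (ι' := MonoidHom.inl A (Multiplicative ℤ)) (pri (tz A) n) (fun h => h)
        (fun g c => pri_lmul (tz A) (MonoidHom.inl A (Multiplicative ℤ) g) n c) ?_
      rw [hy, bd_push]
      exact push_coi_coiH _ n b'.2
    have e4 : bd ℤ (A × Multiplicative ℤ) (n + 1) x' =
        (bd ℤ (A × Multiplicative ℤ) (n + 1) (x : Cx ℤ (A × Multiplicative ℤ) (n + 2)) -
          (push ℤ (fun x => tz A * x) (n + 1) b - b)) +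
        ((push ℤ (fun x => tz A * x) (n + 1) r' - r') +
          pri (tz A) n (bd ℤ (A × Multiplicative ℤ) n y)) := by
      have e5 : bd ℤ (A × Multiplicative ℤ) (n + 1) (pri (tz A) (n + 1) y) =
          (push ℤ (fun x => tz A * x) (n + 1) y - y) -
            pri (tz A) n (bd ℤ (A × Multiplicative ℤ) n y) := by
        rw [← e1]
        abel
      rw [hx', map_sub, map_sub, map_sub, e5, bd_push]
      conv_rhs => rw [e2]
      rw [map_add, map_add]
      abel
    rw [e4]
    exact Submodule.add_mem _ hb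
      (Submodule.add_mem _ (Submodule.sub_mem _ (push_tz_coiH hr') hr') e3)
  obtain ⟨a, ha⟩ := exists_res (MonoidHom.inl A (Multiplicative ℤ)) inl_inj (n + 1) x' hbx
  refine ⟨HG.mk a, HG.mk b', ?_⟩
  rw [HG.crz, HG.cr_mk, HG.map_mk, ← HG.mk_add, HG.mk_eq_iff]
  show (x : Cx ℤ (A × Multiplicative ℤ) (n + 2)) -
    (push ℤ (MonoidHom.inl A (Multiplicative ℤ)) (n + 2) (a : Cx ℤ A (n + 2)) +
      pri (tz A) (n + 1) y) ∈ bnd (A × Multiplicative ℤ) (n + 1)
  have h5 : (x : Cx ℤ (A × Multiplicative ℤ) (n + 2)) -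
      (push ℤ (MonoidHom.inl A (Multiplicative ℤ)) (n + 2) (a : Cx ℤ A (n + 2)) +
        pri (tz A) (n + 1) y) =
      (x' - push ℤ (MonoidHom.inl A (Multiplicative ℤ)) (n + 2) (a : Cx ℤ A (n + 2))) +
        (push ℤ (fun x => tz A * x) (n + 2) c - c) := by
    rw [hx']
    abel
  rw [h5]
  exact Submodule.add_mem _ (bnH_le (n + 1) ha)
    (Submodule.mem_sup_right (push_lmul_sub_mem (tz A) c))

private theorem inl_sub_one (b : Cx ℤ A 0) :
    push ℤ (MonoidHom.inl A (Multiplicative ℤ)) 0 b -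
      push ℤ (fun _ : A => (1 : A × Multiplicative ℤ)) 0 b ∈ coi (A × Multiplicative ℤ) 0 := by
  have h := cx_ext
    (f := (coi (A × Multiplicative ℤ) 0).mkQ.comp (push ℤ (MonoidHom.inl A (Multiplicative ℤ)) 0))
    (g := (coi (A × Multiplicative ℤ) 0).mkQ.comp
      (push ℤ (fun _ : A => (1 : A × Multiplicative ℤ)) 0)) (fun x => by
      rw [LinearMap.comp_apply, LinearMap.comp_apply, push_single, push_single]
      refine (Submodule.Quotient.eq _).2 ?_
      refine Submodule.subset_span ⟨MonoidHom.inl A (Multiplicative ℤ) (x 0),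
        fun _ => 1, ?_⟩
      congr 2
      funext j
      rw [mul_one, Fin.eq_zero j]) b
  exact (Submodule.Quotient.eq _).1 h

/-- **The homology of `A × ℤ` in degree `1`.** -/
theorem exists_wang_zero (z : HG (A × Multiplicative ℤ) 0) :
    ∃ (a : HG A 0) (b : HG (Multiplicative ℤ) 0),
      z = HG.map 0 (MonoidHom.inl A (Multiplicative ℤ)) a +
        HG.map 0 (MonoidHom.inr A (Multiplicative ℤ)) b := by
  obtain ⟨x, rfl⟩ := HG.mk_surjective z
  obtain ⟨b, hb⟩ := coi_sub 0 x.2
  obtain ⟨b', hb'⟩ := exists_res_zero (MonoidHom.inl A (Multiplicative ℤ)) inl_inj b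
  obtain ⟨_, ⟨c, rfl⟩, r', hr', h3⟩ := Submodule.mem_sup.1 hb'
  set y : Cx ℤ (A × Multiplicative ℤ) 0 :=
    push ℤ (MonoidHom.inl A (Multiplicative ℤ)) 0 b' with hy
  set x' : Cx ℤ (A × Multiplicative ℤ) 1 :=
    (x : Cx ℤ (A × Multiplicative ℤ) 1) - (push ℤ (fun x => tz A * x) 1 c - c) -
      pri (tz A) 0 y with hx'
  have hbx : bd ℤ (A × Multiplicative ℤ) 0 x' ∈
      coiH (MonoidHom.inl A (Multiplicative ℤ)) 0 := by
    have e1 := bd_pri_zero (tz A) y
    rw [push_mul_tz] at e1
    have e2 : b = bd ℤ (A × Multiplicative ℤ) 0 c + r' + y := by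
      rw [h3]
      abel
    have e4 : bd ℤ (A × Multiplicative ℤ) 0 x' =
        (bd ℤ (A × Multiplicative ℤ) 0 (x : Cx ℤ (A × Multiplicative ℤ) 1) -
          (push ℤ (fun x => tz A * x) 0 b - b)) +
        (push ℤ (fun x => tz A * x) 0 r' - r') := by
      rw [hx', map_sub, map_sub, map_sub, e1, bd_push]
      conv_rhs => rw [e2]
      rw [map_add, map_add]
      abel
    rw [e4]
    exact Submodule.add_mem _ hb (Submodule.sub_mem _ (push_tz_coiH hr') hr')
  obtain ⟨a, ha⟩ := exists_res (MonoidHom.inl A (Multiplicative ℤ)) inl_inj 0 x' hbx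
  set y' : Cx ℤ (Multiplicative ℤ) 0 := push ℤ (fun _ : A => (1 : Multiplicative ℤ)) 0 b' with hy'
  have hw : pri (Multiplicative.ofAdd (1 : ℤ)) 0 y' ∈ cyc (Multiplicative ℤ) 0 := by
    show bd ℤ (Multiplicative ℤ) 0 (pri (Multiplicative.ofAdd (1 : ℤ)) 0 y') ∈
      coi (Multiplicative ℤ) 0
    rw [bd_pri_zero]
    have h : push ℤ (fun y => y * Multiplicative.ofAdd (1 : ℤ)) 0 y' =
        push ℤ (fun y => Multiplicative.ofAdd (1 : ℤ) * y) 0 y' := by
      congr 2
      funext x
      exact mul_comm _ _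
    rw [h]
    exact push_lmul_sub_mem _ _
  refine ⟨HG.mk a, HG.mk ⟨pri (Multiplicative.ofAdd (1 : ℤ)) 0 y', hw⟩, ?_⟩
  rw [HG.map_mk, HG.map_mk, ← HG.mk_add, HG.mk_eq_iff]
  show (x : Cx ℤ (A × Multiplicative ℤ) 1) -
    (push ℤ (MonoidHom.inl A (Multiplicative ℤ)) 1 (a : Cx ℤ A 1) +
      push ℤ (MonoidHom.inr A (Multiplicative ℤ)) 1 (pri (Multiplicative.ofAdd (1 : ℤ)) 0 y')) ∈
    bnd (A × Multiplicative ℤ) 0
  have h6 : push ℤ (MonoidHom.inr A (Multiplicative ℤ)) 1
      (pri (Multiplicative.ofAdd (1 : ℤ)) 0 y') =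
      pri (tz A) 0 (push ℤ (fun _ : A => (1 : A × Multiplicative ℤ)) 0 b') := by
    rw [push_pri, hy', push_push]
    rfl
  have h5 : (x : Cx ℤ (A × Multiplicative ℤ) 1) -
      (push ℤ (MonoidHom.inl A (Multiplicative ℤ)) 1 (a : Cx ℤ A 1) +
        push ℤ (MonoidHom.inr A (Multiplicative ℤ)) 1
          (pri (Multiplicative.ofAdd (1 : ℤ)) 0 y')) =
      (x' - push ℤ (MonoidHom.inl A (Multiplicative ℤ)) 1 (a : Cx ℤ A 1)) +
        ((push ℤ (fun x => tz A * x) 1 c - c) +
          pri (tz A) 0 (y - push ℤ (fun _ : A => (1 : A × Multiplicative ℤ)) 0 b')) := by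
    rw [h6, hx', map_sub]
    abel
  rw [h5]
  exact Submodule.add_mem _ (bnH_le 0 ha) (Submodule.add_mem _
    (Submodule.mem_sup_right (push_lmul_sub_mem (tz A) c))
    (Submodule.mem_sup_right (pri_coi (tz A) (inl_sub_one b'))))

end

end Pool.Agent.H71.CZ
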